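import Mathlib

open UpperHalfPlane MeasureTheory Set
open scoped MatrixGroups Manifold ENNReal Topology

namespace Pool.Agent.LengthSpec

theorem volume_collar_aux (α β ℓ : ℝ) (hαβ : α < β) (hℓ : 0 < ℓ) :
    (volume : Measure ℍ) {z : ℍ | 1 ≤ z.im ∧ z.im < Real.exp ℓ ∧ α * z.im < z.re ∧
      z.re < β * z.im} = ENNReal.ofReal ((β - α) * ℓ) := by
  rw [volume_eq_lintegral]
  have himg : (UpperHalfPlane.coe '' {z : ℍ | 1 ≤ z.im ∧ z.im < Real.exp ℓ ∧ α * z.im < z.re ∧
      z.re < β * z.im}) = {w : ℂ | 1 ≤ w.im ∧ w.im < Real.exp ℓ ∧ α * w.im < w.re ∧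
      w.re < β * w.im} := by
    ext w
    constructor
    · rintro ⟨z, hz, rfl⟩
      exact hz
    · intro hw
      exact ⟨⟨w, lt_of_lt_of_le one_pos hw.1⟩, hw, rfl⟩
  rw [himg]
  set T : Set (ℝ × ℝ) := {p | 1 ≤ p.2 ∧ p.2 < Real.exp ℓ ∧ α * p.2 < p.1 ∧ p.1 < β * p.2} with hT
  have hTm : MeasurableSet T := by
    apply MeasurableSet.inter
    · exact measurableSet_le measurable_const measurable_snd
    apply MeasurableSet.inter
    · exact measurableSet_lt measurable_snd measurable_const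
    apply MeasurableSet.inter
    · exact measurableSet_lt (measurable_snd.const_mul α) measurable_fst
    · exact measurableSet_lt measurable_fst (measurable_snd.const_mul β)
  have hpre : {w : ℂ | 1 ≤ w.im ∧ w.im < Real.exp ℓ ∧ α * w.im < w.re ∧ w.re < β * w.im} =
      Complex.measurableEquivRealProd ⁻¹' T := rfl
  rw [hpre]
  have hmp := Complex.volume_preserving_equiv_real_prod
  have h1 : ∫⁻ z : ℂ in Complex.measurableEquivRealProd ⁻¹' T,
      (((1 / ‖z.im‖₊) ^ 2 : NNReal) : ℝ≥0∞) =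
      ∫⁻ p : ℝ × ℝ in T, (((1 / ‖p.2‖₊) ^ 2 : NNReal) : ℝ≥0∞) := by
    have := hmp.setLIntegral_comp_preimage_emb Complex.measurableEquivRealProd.measurableEmbedding
      (fun p : ℝ × ℝ => (((1 / ‖p.2‖₊) ^ 2 : NNReal) : ℝ≥0∞)) T
    rw [← this]
    rfl
  rw [h1, ← lintegral_indicator hTm]
  have hfm : Measurable (fun p : ℝ × ℝ => (((1 / ‖p.2‖₊) ^ 2 : NNReal) : ℝ≥0∞)) := by
    have h2 : Measurable (fun p : ℝ × ℝ => ‖p.2‖₊) := measurable_snd.nnnorm
    exact ((measurable_const.div h2).pow_const 2).coe_nnreal_ennreal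
  rw [Measure.volume_eq_prod, lintegral_prod_symm _ (hfm.indicator hTm).aemeasurable]
  have h3 : ∀ y : ℝ, ∫⁻ x : ℝ, T.indicator
      (fun p : ℝ × ℝ => (((1 / ‖p.2‖₊) ^ 2 : NNReal) : ℝ≥0∞)) (x, y) =
      (Ico 1 (Real.exp ℓ)).indicator (fun y => ENNReal.ofReal ((β - α) * y⁻¹)) y := by
    intro y
    by_cases hy : y ∈ Ico 1 (Real.exp ℓ)
    · have hy0 : 0 < y := lt_of_lt_of_le one_pos hy.1
      rw [indicator_of_mem hy]
      have h4 : ∀ x : ℝ, T.indicator
          (fun p : ℝ × ℝ => (((1 / ‖p.2‖₊) ^ 2 : NNReal) : ℝ≥0∞)) (x, y) =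
          (Ioo (α * y) (β * y)).indicator (fun _ => ENNReal.ofReal ((y⁻¹) ^ 2)) x := by
        intro x
        by_cases hx : x ∈ Ioo (α * y) (β * y)
        · rw [indicator_of_mem hx, indicator_of_mem (show (x, y) ∈ T from ⟨hy.1, hy.2, hx.1, hx.2⟩)]
          have h5 : ‖y‖₊ = y.toNNReal := by
            ext; rw [coe_nnnorm, Real.norm_of_nonneg hy0.le, Real.coe_toNNReal _ hy0.le]
          rw [h5, ENNReal.ofReal]
          congr 1
          rw [Real.toNNReal_pow (by positivity), Real.toNNReal_inv, one_div]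
        · rw [indicator_of_notMem hx, indicator_of_notMem]
          intro h; exact hx ⟨h.2.2.1, h.2.2.2⟩
      simp_rw [h4]
      rw [lintegral_indicator measurableSet_Ioo, setLIntegral_const, Real.volume_Ioo,
        ← ENNReal.ofReal_mul (by positivity)]
      congr 1
      field_simp
    · rw [indicator_of_notMem hy]
      have h4 : ∀ x : ℝ, T.indicator
          (fun p : ℝ × ℝ => (((1 / ‖p.2‖₊) ^ 2 : NNReal) : ℝ≥0∞)) (x, y) = 0 := by
        intro x
        rw [indicator_of_notMem]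
        intro h; exact hy ⟨h.1, h.2.1⟩
      simp_rw [h4]
      simp
  simp_rw [h3]
  rw [lintegral_indicator measurableSet_Ico]
  have hle : (1:ℝ) ≤ Real.exp ℓ := Real.one_le_exp hℓ.le
  have h0 : (0:ℝ) ∉ Set.uIcc 1 (Real.exp ℓ) := by
    rw [Set.uIcc_of_le hle]
    intro h; linarith [h.1]
  have hint : IntegrableOn (fun y : ℝ => (β - α) * y⁻¹) (Ico 1 (Real.exp ℓ)) := by
    have : IntervalIntegrable (fun y : ℝ => (β - α) * y⁻¹) volume 1 (Real.exp ℓ) := by
      apply IntervalIntegrable.const_mul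
      exact intervalIntegral.intervalIntegrable_inv (fun x hx => fun h => h0 (h ▸ hx))
        continuousOn_id
    rw [intervalIntegrable_iff_integrableOn_Ioc_of_le hle] at this
    rw [integrableOn_Ico_iff_integrableOn_Ioo]
    exact this.mono_set Ioo_subset_Ioc_self
  rw [← ofReal_integral_eq_lintegral_ofReal hint]
  · congr 1
    rw [integral_Ico_eq_integral_Ioo, ← integral_Ioc_eq_integral_Ioo,
      ← intervalIntegral.integral_of_le hle, intervalIntegral.integral_const_mul,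
      integral_inv h0, div_one, Real.log_exp]
  · rw [Filter.EventuallyLE, ae_restrict_iff' measurableSet_Ico]
    refine Filter.Eventually.of_forall fun y hy => ?_
    have hy0 : 0 < y := lt_of_lt_of_le one_pos hy.1
    have : 0 < β - α := by linarith
    simp only [Pi.zero_apply]
    positivity

/-- Hyperbolic area of a fundamental domain of the one-sided collar `0 < re z < κ im z` of the
imaginary axis for `z ↦ exp ℓ * z`. (polar-type coordinates: `re = x * im`.) -/
theorem volume_collar (κ ℓ : ℝ) (hκ : 0 < κ) (hℓ : 0 < ℓ) :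
    (volume : Measure ℍ) {z : ℍ | 1 ≤ z.im ∧ z.im < Real.exp ℓ ∧ 0 < z.re ∧ z.re < κ * z.im} =
      ENNReal.ofReal (κ * ℓ) := by
  have := volume_collar_aux 0 κ ℓ hκ hℓ
  simpa only [zero_mul, sub_zero] using this

/-- the same on the other side -/
theorem volume_collar' (κ ℓ : ℝ) (hκ : 0 < κ) (hℓ : 0 < ℓ) :
    (volume : Measure ℍ) {z : ℍ | 1 ≤ z.im ∧ z.im < Real.exp ℓ ∧ z.re < 0 ∧ -(κ * z.im) < z.re} =
      ENNReal.ofReal (κ * ℓ) := by
  have := volume_collar_aux (-κ) 0 ℓ (by linarith) hℓ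
  rw [show (0 - -κ) * ℓ = κ * ℓ by ring] at this
  rw [← this]
  congr 1
  ext z
  simp only [Set.mem_ofPred_eq, zero_mul, neg_mul]
  tauto

/-- Pigeonhole: a measurable set of area larger than the covolume meets a nontrivial translate. -/
theorem exists_ne_one_smul_mem (Γ : Subgroup SL(2, ℝ)) (hΓ : DiscreteTopology Γ)
    (D : Set ℍ) (hD : IsFundamentalDomain Γ D (volume : Measure ℍ)) (E : Set ℍ)
    (hE : MeasurableSet E) (hlt : volume D < volume E) :
    ∃ g ∈ Γ, g ≠ 1 ∧ ∃ z ∈ E, g • z ∈ E := by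
  have i1 : SecondCountableTopology (Matrix (Fin 2) (Fin 2) ℝ) :=
    inferInstanceAs (SecondCountableTopology (Fin 2 → Fin 2 → ℝ))
  have i2 : SecondCountableTopology SL(2, ℝ) := by
    have h : Topology.IsInducing (fun A : SL(2, ℝ) => (A : Matrix (Fin 2) (Fin 2) ℝ)) := ⟨rfl⟩
    exact h.secondCountableTopology
  have i3 : Countable Γ := TopologicalSpace.separableSpace_iff_countable.1 inferInstance
  have hsm : ∀ (g : Γ) (z : ℍ), g • z = (((g : SL(2, ℝ)) : GL (Fin 2) ℝ)) • z := fun g z => rfl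
  have i4 : SMulInvariantMeasure Γ ℍ (volume : Measure ℍ) := by
    refine ⟨fun g s hs => ?_⟩
    exact measure_preimage_smul (μ := (volume : Measure ℍ)) (((g : SL(2, ℝ)) : GL (Fin 2) ℝ)) s
  have i5 : MeasurableConstSMul Γ ℍ := by
    refine ⟨fun g => ?_⟩
    exact measurable_const_smul (((g : SL(2, ℝ)) : GL (Fin 2) ℝ))
  obtain ⟨x, hx, y, hy, g, hg, hgxy⟩ := hD.exists_ne_one_smul_eq hE.nullMeasurableSet hlt
  refine ⟨g, g.2, ?_, x, hx, ?_⟩
  · intro h; exact hg (Subtype.ext h)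
  · have : (g : SL(2,ℝ)) • x = y := hgxy
    rw [this]; exact hy

end Pool.Agent.LengthSpec
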