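import Pool.Agent.LengthSpec.Defs

open UpperHalfPlane MeasureTheory Set
open scoped MatrixGroups Manifold ENNReal Topology

namespace Pool.Agent.LengthSpec

/-- trace -/
noncomputable def tr (g : SL(2, ℝ)) : ℝ := g 0 0 + g 1 1

/-- signed side function of the axis of `g`; its zero set is the axis (if `g` is hyperbolic). -/
noncomputable def side (g : SL(2, ℝ)) (z : ℍ) : ℝ :=
  (g 1 0 * (z.re ^ 2 + z.im ^ 2) + (g 1 1 - g 0 0) * z.re - g 0 1) / z.im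

lemma det_eq (g : SL(2, ℝ)) : g 0 0 * g 1 1 - g 0 1 * g 1 0 = 1 := by
  have := g.det_coe
  rwa [Matrix.det_fin_two] at this

lemma smul_re_im (g : SL(2, ℝ)) (z : ℍ) :
    (g • z).re = ((g 0 0 * z.re + g 0 1) * (g 1 0 * z.re + g 1 1) + g 0 0 * g 1 0 * z.im ^ 2) /
      ((g 1 0 * z.re + g 1 1) ^ 2 + (g 1 0 * z.im) ^ 2) ∧
    (g • z).im = z.im / ((g 1 0 * z.re + g 1 1) ^ 2 + (g 1 0 * z.im) ^ 2) := by
  have h := UpperHalfPlane.coe_specialLinearGroup_apply g z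
  have hc : ((g • z : ℍ) : ℂ) = ((g 0 0 : ℂ) * z + g 0 1) / ((g 1 0 : ℂ) * z + g 1 1) := by
    simpa using h
  have hden : ((g 1 0 * z.re + g 1 1) ^ 2 + (g 1 0 * z.im) ^ 2) ≠ 0 := by
    intro h0
    have h1 : g 1 0 * z.im = 0 := by nlinarith [sq_nonneg (g 1 0 * z.re + g 1 1), sq_nonneg (g 1 0 * z.im)]
    have h2 : g 1 0 * z.re + g 1 1 = 0 := by nlinarith [sq_nonneg (g 1 0 * z.re + g 1 1), sq_nonneg (g 1 0 * z.im)]
    have hz := z.im_pos
    have h3 : g 1 0 = 0 := by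
      rcases mul_eq_zero.mp h1 with h | h
      · exact h
      · exact absurd h hz.ne'
    rw [h3] at h2
    have h4 : g 1 1 = 0 := by simpa using h2
    have := det_eq g
    rw [h3, h4] at this
    simp at this
  have hdet := det_eq g
  have hz : (z : ℂ) = ⟨z.re, z.im⟩ := rfl
  have hn : Complex.normSq ((g 1 0 : ℂ) * z + g 1 1) =
      ((g 1 0 * z.re + g 1 1) ^ 2 + (g 1 0 * z.im) ^ 2) := by
    rw [Complex.normSq_apply]
    simp
    ring
  constructor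
  · have : (g • z).re = (((g 0 0 : ℂ) * z + g 0 1) / ((g 1 0 : ℂ) * z + g 1 1)).re := by
      rw [← hc]; rfl
    rw [this, Complex.div_re, hn]
    simp
    field_simp
  · have : (g • z).im = (((g 0 0 : ℂ) * z + g 0 1) / ((g 1 0 : ℂ) * z + g 1 1)).im := by
      rw [← hc]; rfl
    rw [this, Complex.div_im, hn]
    simp
    rw [div_sub_div_same, div_left_inj' hden]
    linear_combination z.im * hdet

lemma den_pos (g : SL(2, ℝ)) (z : ℍ) :
    0 < (g 1 0 * z.re + g 1 1) ^ 2 + (g 1 0 * z.im) ^ 2 := by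
  have h := (smul_re_im g z).2
  have h1 := (g • z).im_pos
  rw [h] at h1
  by_contra hcon
  push Not at hcon
  have : (g 1 0 * z.re + g 1 1) ^ 2 + (g 1 0 * z.im) ^ 2 = 0 := le_antisymm hcon (by positivity)
  rw [this] at h1
  simp at h1

lemma cosh_dist_eq (z w : ℍ) :
    2 * Real.cosh (dist z w) = ((z.re - w.re) ^ 2 + z.im ^ 2 + w.im ^ 2) / (z.im * w.im) := by
  rw [UpperHalfPlane.cosh_dist']
  field_simp

lemma key_poly (a b c d x y : ℝ) (hdet : a * d - b * c = 1) :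
    (((c * x + d) ^ 2 + (c * y) ^ 2) * x - ((a * x + b) * (c * x + d) + a * c * y ^ 2)) ^ 2 +
      ((c * x + d) ^ 2 + (c * y) ^ 2) ^ 2 * y ^ 2 + y ^ 2 =
    ((c * x + d) ^ 2 + (c * y) ^ 2) * y ^ 2 * ((a + d) ^ 2 - 2) +
      ((c * x + d) ^ 2 + (c * y) ^ 2) * (c * (x ^ 2 + y ^ 2) + (d - a) * x - b) ^ 2 := by
  linear_combination (-(y ^ 2 * (a * d - b * c + 1) +
    2 * ((c * x + d) ^ 2 + (c * y) ^ 2) * y ^ 2)) * hdet

lemma cosh_disp (g : SL(2, ℝ)) (z : ℍ) :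
    2 * Real.cosh (dist z (g • z)) = tr g ^ 2 - 2 + side g z ^ 2 := by
  rw [cosh_dist_eq]
  obtain ⟨h1, h2⟩ := smul_re_im g z
  have hd := den_pos g z
  have hz := z.im_pos
  have key := key_poly (g 0 0) (g 0 1) (g 1 0) (g 1 1) z.re z.im (det_eq g)
  rw [h1, h2, tr, side]
  set D := (g 1 0 * z.re + g 1 1) ^ 2 + (g 1 0 * z.im) ^ 2 with hD
  set N := (g 0 0 * z.re + g 0 1) * (g 1 0 * z.re + g 1 1) + g 0 0 * g 1 0 * z.im ^ 2 with hN
  rw [div_eq_iff (by positivity)]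
  field_simp
  linear_combination key

lemma mul_entries (g h : SL(2, ℝ)) :
    (g * h) 0 0 = g 0 0 * h 0 0 + g 0 1 * h 1 0 ∧ (g * h) 0 1 = g 0 0 * h 0 1 + g 0 1 * h 1 1 ∧
    (g * h) 1 0 = g 1 0 * h 0 0 + g 1 1 * h 1 0 ∧ (g * h) 1 1 = g 1 0 * h 0 1 + g 1 1 * h 1 1 := by
  refine ⟨?_, ?_, ?_, ?_⟩ <;>
    simp [Matrix.SpecialLinearGroup.coe_mul, Matrix.mul_apply, Fin.sum_univ_two]

lemma inv_entries (g : SL(2, ℝ)) :
    g⁻¹ 0 0 = g 1 1 ∧ g⁻¹ 0 1 = - g 0 1 ∧ g⁻¹ 1 0 = - g 1 0 ∧ g⁻¹ 1 1 = g 0 0 := by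
  refine ⟨?_, ?_, ?_, ?_⟩ <;>
    simp [Matrix.SpecialLinearGroup.coe_inv, Matrix.adjugate_fin_two]

lemma neg_entries (g : SL(2, ℝ)) (i j : Fin 2) : (-g) i j = - g i j := by
  simp [Matrix.SpecialLinearGroup.coe_neg]

lemma one_entries : (1 : SL(2, ℝ)) 0 0 = 1 ∧ (1 : SL(2, ℝ)) 0 1 = 0 ∧ (1 : SL(2, ℝ)) 1 0 = 0 ∧
    (1 : SL(2, ℝ)) 1 1 = 1 := by
  refine ⟨?_, ?_, ?_, ?_⟩ <;> simp

lemma ext4 {g h : SL(2, ℝ)} (h00 : g 0 0 = h 0 0) (h01 : g 0 1 = h 0 1) (h10 : g 1 0 = h 1 0)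
    (h11 : g 1 1 = h 1 1) : g = h := by
  ext i j
  fin_cases i <;> fin_cases j <;> assumption

lemma tr_neg (g : SL(2, ℝ)) : tr (-g) = - tr g := by
  simp only [tr, neg_entries]; ring

lemma tr_inv (g : SL(2, ℝ)) : tr g⁻¹ = tr g := by
  obtain ⟨h1, h2, h3, h4⟩ := inv_entries g
  simp only [tr, h1, h4]; ring

lemma tr_mul_comm (g h : SL(2, ℝ)) : tr (g * h) = tr (h * g) := by
  obtain ⟨h1, h2, h3, h4⟩ := mul_entries g h
  obtain ⟨k1, k2, k3, k4⟩ := mul_entries h g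
  simp only [tr, h1, h4, k1, k4]; ring

lemma tr_conj (h g : SL(2, ℝ)) : tr (h * g * h⁻¹) = tr g := by
  rw [tr_mul_comm, ← mul_assoc, inv_mul_cancel, one_mul]

lemma tr_one : tr 1 = 2 := by
  simp [tr]; norm_num

lemma neg_smul' (g : SL(2, ℝ)) (z : ℍ) : (-g) • z = g • z := by
  obtain ⟨h1, h2⟩ := smul_re_im g z
  obtain ⟨h3, h4⟩ := smul_re_im (-g) z
  have key : ∀ z w : ℍ, z.re = w.re → z.im = w.im → z = w := fun z w h h' =>
    UpperHalfPlane.ext (Complex.ext h h')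
  apply key
  · rw [h1, h3]; simp only [neg_entries]; congr 1 <;> ring
  · rw [h2, h4]; simp only [neg_entries]; congr 1; ring

lemma side_neg (g : SL(2, ℝ)) (z : ℍ) : side (-g) z = - side g z := by
  simp only [side, neg_entries]; ring

lemma side_inv (g : SL(2, ℝ)) (z : ℍ) : side g⁻¹ z = - side g z := by
  obtain ⟨h1, h2, h3, h4⟩ := inv_entries g
  simp only [side, h1, h2, h3, h4]; ring

lemma smul_normSq (g : SL(2, ℝ)) (z : ℍ) :
    (g • z).re ^ 2 + (g • z).im ^ 2 = ((g 0 0 * z.re + g 0 1) ^ 2 + (g 0 0 * z.im) ^ 2) /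
      ((g 1 0 * z.re + g 1 1) ^ 2 + (g 1 0 * z.im) ^ 2) := by
  obtain ⟨h1, h2⟩ := smul_re_im g z
  have hd := den_pos g z
  have hdet := det_eq g
  rw [h1, h2, div_pow, div_pow, ← add_div, div_eq_div_iff (by positivity) (by positivity)]
  linear_combination (-(z.im ^ 2 * (g 0 0 * g 1 1 - g 0 1 * g 1 0 + 1)) *
    ((g 1 0 * z.re + g 1 1) ^ 2 + (g 1 0 * z.im) ^ 2)) * hdet

lemma side_conj (h g : SL(2, ℝ)) (z : ℍ) : side (h * g * h⁻¹) (h • z) = side g z := by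
  obtain ⟨h1, h2⟩ := smul_re_im h z
  have h3 := smul_normSq h z
  have hd := den_pos h z
  have hdet := det_eq h
  have hz := z.im_pos
  obtain ⟨a1, a2, a3, a4⟩ := mul_entries (h * g) h⁻¹
  obtain ⟨b1, b2, b3, b4⟩ := mul_entries h g
  obtain ⟨c1, c2, c3, c4⟩ := inv_entries h
  simp only [side]
  rw [h3, h1, h2, a1, a2, a3, a4, b1, b2, b3, b4, c1, c2, c3, c4]
  rw [div_eq_div_iff (by positivity) (by positivity), mul_div_assoc', mul_div_assoc',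
    ← add_div, div_sub' hd.ne', mul_div_assoc', div_mul_eq_mul_div,
    div_eq_div_iff (by positivity) (by positivity)]
  linear_combination ((g 1 0 * (z.re ^ 2 + z.im ^ 2) + (g 1 1 - g 0 0) * z.re - g 0 1) *
    (h 0 0 * h 1 1 - h 0 1 * h 1 0 + 1)) * z.im *
    ((h 1 0 * z.re + h 1 1) ^ 2 + (h 1 0 * z.im) ^ 2) * hdet

lemma side_smul (h g : SL(2, ℝ)) (z : ℍ) : side g (h • z) = side (h⁻¹ * g * h) z := by
  have := side_conj h (h⁻¹ * g * h) z
  rw [← this]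
  congr 1
  group

lemma side_self (g : SL(2, ℝ)) (z : ℍ) : side g (g • z) = side g z := by
  rw [side_smul]; congr 1; group

lemma continuous_side (g : SL(2, ℝ)) : Continuous (side g) := by
  unfold side
  have h1 := UpperHalfPlane.continuous_re
  have h2 := UpperHalfPlane.continuous_im
  exact Continuous.div (by fun_prop) h2 (fun z => z.im_ne_zero)

/-! ### dg, link -/

/-- The isometry `z ↦ exp s * z`. -/
noncomputable def dg (s : ℝ) : SL(2, ℝ) :=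
  ⟨!![Real.exp (s / 2), 0; 0, Real.exp (-(s / 2))], by
    rw [Matrix.det_fin_two_of]; simp [← Real.exp_add]⟩

/-- For hyperbolic `g`, `h` (with distinct axes): the axes of `g` and `h` cross. -/
def link (g h : SL(2, ℝ)) : Prop := tr (g * h * g⁻¹ * h⁻¹) < 2

lemma dg_entries (s : ℝ) : dg s 0 0 = Real.exp (s / 2) ∧ dg s 0 1 = 0 ∧ dg s 1 0 = 0 ∧
    dg s 1 1 = Real.exp (-(s / 2)) := by
  refine ⟨?_, ?_, ?_, ?_⟩ <;> simp [dg]

lemma dg_re_im (s : ℝ) (z : ℍ) : (dg s • z).re = Real.exp s * z.re ∧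
    (dg s • z).im = Real.exp s * z.im := by
  obtain ⟨h1, h2⟩ := smul_re_im (dg s) z
  obtain ⟨e1, e2, e3, e4⟩ := dg_entries s
  have hE : Real.exp (s / 2) * Real.exp (-(s / 2)) = 1 := by
    rw [← Real.exp_add]; simp
  have hS : Real.exp s = Real.exp (s / 2) * Real.exp (s / 2) := by
    rw [← Real.exp_add]; congr 1; ring
  have hd := den_pos (dg s) z
  rw [e3, e4] at hd
  rw [h1, h2, e1, e2, e3, e4]
  constructor
  · rw [div_eq_iff hd.ne', hS]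
    linear_combination (-(Real.exp (s / 2) * Real.exp (-(s / 2)) * z.re)) * hE
  · rw [div_eq_iff hd.ne', hS]
    linear_combination (-(z.im * (Real.exp (s / 2) * Real.exp (-(s / 2)) + 1))) * hE

lemma dg_zero : dg 0 = 1 := by
  obtain ⟨e1, e2, e3, e4⟩ := dg_entries 0
  obtain ⟨o1, o2, o3, o4⟩ := one_entries
  apply ext4
  · rw [e1, o1]; simp
  · rw [e2, o2]
  · rw [e3, o3]
  · rw [e4, o4]; simp

lemma dg_add (s t : ℝ) : dg (s + t) = dg s * dg t := by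
  obtain ⟨e1, e2, e3, e4⟩ := dg_entries (s + t)
  obtain ⟨a1, a2, a3, a4⟩ := dg_entries s
  obtain ⟨b1, b2, b3, b4⟩ := dg_entries t
  obtain ⟨m1, m2, m3, m4⟩ := mul_entries (dg s) (dg t)
  apply ext4
  · rw [e1, m1, a1, b1, a2, b3, mul_zero, add_zero, ← Real.exp_add]; congr 1; ring
  · rw [e2, m2, a2, b2]; ring
  · rw [e3, m3, a3, b3]; ring
  · rw [e4, m4, a3, b2, a4, b4, mul_zero, zero_add, ← Real.exp_add]; congr 1; ring

lemma dg_inv (s : ℝ) : (dg s)⁻¹ = dg (-s) := by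
  rw [inv_eq_iff_mul_eq_one, ← dg_add, add_neg_cancel, dg_zero]

lemma dg_zpow (s : ℝ) (k : ℤ) : dg s ^ k = dg (k * s) := by
  have hnat : ∀ n : ℕ, dg s ^ n = dg (n * s) := by
    intro n
    induction n with
    | zero => simp [dg_zero]
    | succ n ih =>
      rw [pow_succ, ih, ← dg_add]; congr 1; push_cast; ring
  cases k with
  | ofNat n => simpa using hnat n
  | negSucc n =>
    rw [zpow_negSucc, hnat, dg_inv]; congr 1; push_cast; ring

lemma tr_dg (s : ℝ) : tr (dg s) = 2 * Real.cosh (s / 2) := by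
  obtain ⟨a1, a2, a3, a4⟩ := dg_entries s
  rw [tr, a1, a4, Real.cosh_eq]; ring

lemma side_dg (s : ℝ) (z : ℍ) : side (dg s) z = -(2 * Real.sinh (s / 2)) * (z.re / z.im) := by
  obtain ⟨a1, a2, a3, a4⟩ := dg_entries s
  rw [side, a1, a2, a3, a4, Real.sinh_eq]; ring

/-- entries of `dg s * h * (dg s)⁻¹` -/
lemma dg_conj_entries (s : ℝ) (h : SL(2, ℝ)) : (dg s * h * (dg s)⁻¹) 0 0 = h 0 0 ∧
    (dg s * h * (dg s)⁻¹) 0 1 = Real.exp s * h 0 1 ∧
    (dg s * h * (dg s)⁻¹) 1 0 = Real.exp (-s) * h 1 0 ∧ (dg s * h * (dg s)⁻¹) 1 1 = h 1 1 := by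
  obtain ⟨a1, a2, a3, a4⟩ := dg_entries s
  obtain ⟨c1, c2, c3, c4⟩ := inv_entries (dg s)
  obtain ⟨m1, m2, m3, m4⟩ := mul_entries (dg s) h
  obtain ⟨n1, n2, n3, n4⟩ := mul_entries (dg s * h) (dg s)⁻¹
  have hE : Real.exp (s / 2) * Real.exp (-(s / 2)) = 1 := by
    rw [← Real.exp_add]; simp
  have hS : Real.exp s = Real.exp (s / 2) * Real.exp (s / 2) := by
    rw [← Real.exp_add]; congr 1; ring
  have hS' : Real.exp (-s) = Real.exp (-(s / 2)) * Real.exp (-(s / 2)) := by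
    rw [← Real.exp_add]; congr 1; ring
  rw [n1, n2, n3, n4, m1, m2, m3, m4, c1, c2, c3, c4, a1, a2, a3, a4, hS, hS']
  refine ⟨?_, ?_, ?_, ?_⟩
  · linear_combination h 0 0 * hE
  · ring
  · ring
  · linear_combination h 1 1 * hE

lemma tr_comm_dg (s : ℝ) (h : SL(2, ℝ)) :
    tr (dg s * h * (dg s)⁻¹ * h⁻¹) = 2 - h 0 1 * h 1 0 * (2 * Real.sinh (s / 2)) ^ 2 := by
  obtain ⟨k1, k2, k3, k4⟩ := dg_conj_entries s h
  obtain ⟨n1, n2, n3, n4⟩ := mul_entries (dg s * h * (dg s)⁻¹) h⁻¹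
  obtain ⟨c1, c2, c3, c4⟩ := inv_entries h
  have hdet := det_eq h
  have hE : Real.exp (s / 2) * Real.exp (-(s / 2)) = 1 := by
    rw [← Real.exp_add]; simp
  have hS : Real.exp s = Real.exp (s / 2) * Real.exp (s / 2) := by
    rw [← Real.exp_add]; congr 1; ring
  have hS' : Real.exp (-s) = Real.exp (-(s / 2)) * Real.exp (-(s / 2)) := by
    rw [← Real.exp_add]; congr 1; ring
  rw [tr, n1, n4, k1, k2, k3, k4, c1, c2, c3, c4, hS, hS', Real.sinh_eq]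
  linear_combination 2 * hdet - 2 * h 0 1 * h 1 0 * hE

lemma link_dg {s : ℝ} (hs : s ≠ 0) (h : SL(2, ℝ)) : link (dg s) h ↔ 0 < h 0 1 * h 1 0 := by
  rw [link, tr_comm_dg]
  have h1 : Real.sinh (s / 2) ≠ 0 := by
    rw [Ne, Real.sinh_eq_zero]; intro h0; apply hs; linarith
  have h2 : 0 < (2 * Real.sinh (s / 2)) ^ 2 := by positivity
  constructor
  · intro h3
    by_contra h4
    push Not at h4
    nlinarith [mul_nonneg (neg_nonneg.mpr h4) h2.le]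
  · intro h3
    nlinarith [mul_pos h3 h2]

lemma link_conj (m g h : SL(2, ℝ)) : link (m * g * m⁻¹) (m * h * m⁻¹) ↔ link g h := by
  have : m * g * m⁻¹ * (m * h * m⁻¹) * (m * g * m⁻¹)⁻¹ * (m * h * m⁻¹)⁻¹ =
      m * (g * h * g⁻¹ * h⁻¹) * m⁻¹ := by group
  rw [link, this, tr_conj, link]

lemma link_comm (g h : SL(2, ℝ)) : link g h ↔ link h g := by
  have : (g * h * g⁻¹ * h⁻¹)⁻¹ = h * g * h⁻¹ * g⁻¹ := by group
  rw [link, link, ← this, tr_inv]

lemma link_neg_left (g h : SL(2, ℝ)) : link (-g) h ↔ link g h := by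
  have : -g * h * (-g)⁻¹ * h⁻¹ = g * h * g⁻¹ * h⁻¹ := by
    have hi : (-g)⁻¹ = - g⁻¹ := by
      rw [inv_eq_iff_mul_eq_one]; simp
    rw [hi]; simp
  rw [link, this, link]

lemma link_neg_right (g h : SL(2, ℝ)) : link g (-h) ↔ link g h := by
  rw [link_comm, link_neg_left, link_comm]

lemma link_inv_left (g h : SL(2, ℝ)) : link g⁻¹ h ↔ link g h := by
  have h1 : g⁻¹ * h * g⁻¹⁻¹ * h⁻¹ = g⁻¹ * (h * g * h⁻¹ * g⁻¹) * g⁻¹⁻¹ := by group
  rw [link, h1, tr_conj, ← link, link_comm]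

lemma link_inv_right (g h : SL(2, ℝ)) : link g h⁻¹ ↔ link g h := by
  rw [link_comm, link_inv_left, link_comm]

/-- polynomial formula for the commutator trace -/
lemma tr_comm_formula (g h : SL(2, ℝ)) : 4 * tr (g * h * g⁻¹ * h⁻¹) = 8 -
    ((tr g ^ 2 - 4) * (tr h ^ 2 - 4) - (2 * tr (g * h) - tr g * tr h) ^ 2) := by
  have hg := det_eq g
  have hh := det_eq h
  obtain ⟨a1, a2, a3, a4⟩ := mul_entries g h
  obtain ⟨b1, b2, b3, b4⟩ := mul_entries (g * h) g⁻¹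
  obtain ⟨c1, c2, c3, c4⟩ := mul_entries (g * h * g⁻¹) h⁻¹
  obtain ⟨d1, d2, d3, d4⟩ := inv_entries g
  obtain ⟨e1, e2, e3, e4⟩ := inv_entries h
  simp only [tr]
  rw [c1, c4, b1, b2, b3, b4, a1, a2, a3, a4, d1, d2, d3, d4, e1, e2, e3, e4]
  linear_combination 4 * ((g 0 0 + g 1 1) ^ 2 - 2) * hh +
    4 * ((h 0 0 + h 1 1) ^ 2 - 2 * (h 0 0 * h 1 1 - h 0 1 * h 1 0)) * hg

end Pool.Agent.LengthSpec
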