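import Pool.Agent.LengthSpec.Fuchs2

open UpperHalfPlane MeasureTheory Set
open scoped MatrixGroups Manifold ENNReal Topology

namespace Pool.Agent.LengthSpec

lemma bc_alg (g : SL(2, ℝ)) (ℓ s : ℝ) (hs0 : 0 ≤ s) (hs : s ≤ ℓ)
    (h00 : g 0 0 = Real.exp s * g 1 1) (h1 : -1 < g 0 1 * g 1 0) (h2 : g 0 1 * g 1 0 < 0) :
    |tr g| < 2 * Real.cosh (ℓ / 2) ∧ |tr (g⁻¹ * dg ℓ)| < 2 * Real.cosh (ℓ / 2) ∧
      |tr (g * (g⁻¹ * dg ℓ)⁻¹)| < 2 * Real.cosh (ℓ / 2) := by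
  obtain ⟨u, hu0, hu1⟩ : ∃ u : ℝ, g 0 0 = u * Real.exp (s / 2) ∧ g 1 1 = u * Real.exp (-(s / 2)) := by
    refine ⟨g 1 1 * Real.exp (s / 2), ?_, ?_⟩
    · rw [h00, mul_assoc, ← Real.exp_add]
      rw [add_halves]
      ring
    · rw [mul_assoc, ← Real.exp_add]
      simp
  have hdet := det_eq g
  have hu : u ^ 2 = 1 + g 0 1 * g 1 0 := by
    have : g 0 0 * g 1 1 = u ^ 2 := by
      rw [hu0, hu1]
      have : Real.exp (s / 2) * Real.exp (-(s / 2)) = 1 := by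
        rw [← Real.exp_add]
        simp
      calc u * Real.exp (s / 2) * (u * Real.exp (-(s / 2)))
          = u ^ 2 * (Real.exp (s / 2) * Real.exp (-(s / 2))) := by ring
        _ = u ^ 2 := by rw [this, mul_one]
    linarith
  have hu2 : u ^ 2 < 1 := by linarith
  have hu3 : 0 < u ^ 2 := by linarith
  have hua : |u| < 1 := by
    rw [← sq_lt_one_iff_abs_lt_one]
    exact hu2
  have hc : 0 < Real.cosh (ℓ / 2) := Real.cosh_pos _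
  obtain ⟨e1, e2, e3, e4⟩ := dg_entries ℓ
  obtain ⟨i1, i2, i3, i4⟩ := inv_entries g
  obtain ⟨m1, m2, m3, m4⟩ := mul_entries g⁻¹ (dg ℓ)
  obtain ⟨j1, j2, j3, j4⟩ := inv_entries (g⁻¹ * dg ℓ)
  obtain ⟨n1, n2, n3, n4⟩ := mul_entries g (g⁻¹ * dg ℓ)⁻¹
  have hbound : ∀ t : ℝ, |t| ≤ ℓ / 2 → |u * (2 * Real.cosh t)| < 2 * Real.cosh (ℓ / 2) := by
    intro t ht
    have hct : Real.cosh t ≤ Real.cosh (ℓ / 2) := by
      rw [Real.cosh_le_cosh, abs_of_nonneg (by linarith : (0 : ℝ) ≤ ℓ / 2)]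
      exact ht
    have hct0 := Real.cosh_pos t
    rw [abs_mul, abs_of_pos (by positivity : 0 < 2 * Real.cosh t)]
    calc |u| * (2 * Real.cosh t) ≤ |u| * (2 * Real.cosh (ℓ / 2)) := by gcongr
      _ < 1 * (2 * Real.cosh (ℓ / 2)) := by gcongr
      _ = 2 * Real.cosh (ℓ / 2) := one_mul _
  refine ⟨?_, ?_, ?_⟩
  · have : tr g = u * (2 * Real.cosh (s / 2)) := by
      rw [tr, hu0, hu1, Real.cosh_eq]
      ring
    rw [this]
    apply hbound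
    rw [abs_of_nonneg (by linarith)]
    linarith
  · have : tr (g⁻¹ * dg ℓ) = u * (2 * Real.cosh ((ℓ - s) / 2)) := by
      rw [tr, m1, m4, e1, e2, e3, e4, i1, i4, hu0, hu1, Real.cosh_eq]
      have k1 : Real.exp ((ℓ - s) / 2) = Real.exp (-(s / 2)) * Real.exp (ℓ / 2) := by
        rw [← Real.exp_add]
        congr 1
        ring
      have k2 : Real.exp (-((ℓ - s) / 2)) = Real.exp (s / 2) * Real.exp (-(ℓ / 2)) := by
        rw [← Real.exp_add]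
        congr 1
        ring
      rw [k1, k2]
      ring
    rw [this]
    apply hbound
    rw [abs_of_nonneg (by linarith)]
    linarith
  · have : tr (g * (g⁻¹ * dg ℓ)⁻¹) = u ^ 2 * (2 * Real.cosh (s - ℓ / 2)) -
        (1 - u ^ 2) * (2 * Real.cosh (ℓ / 2)) := by
      have hbc : g 0 1 * g 1 0 = u ^ 2 - 1 := by linarith
      rw [tr, n1, n4, j1, j2, j3, j4, m1, m2, m3, m4, e1, e2, e3, e4, i1, i2, i3, i4]
      have k0 : g 0 0 * (-g 1 0 * 0 + g 0 0 * Real.exp (-(ℓ / 2))) +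
          g 0 1 * -(-g 1 0 * Real.exp (ℓ / 2) + g 0 0 * 0) +
          (g 1 0 * -(g 1 1 * 0 + -g 0 1 * Real.exp (-(ℓ / 2))) +
          g 1 1 * (g 1 1 * Real.exp (ℓ / 2) + -g 0 1 * 0)) =
          g 0 0 ^ 2 * Real.exp (-(ℓ / 2)) + g 1 1 ^ 2 * Real.exp (ℓ / 2) +
            g 0 1 * g 1 0 * (Real.exp (ℓ / 2) + Real.exp (-(ℓ / 2))) := by ring
      rw [k0, hbc, hu0, hu1, Real.cosh_eq, Real.cosh_eq]
      have k1 : Real.exp (s - ℓ / 2) = Real.exp (s / 2) ^ 2 * Real.exp (-(ℓ / 2)) := by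
        rw [← Real.exp_nat_mul, ← Real.exp_add]
        congr 1
        push_cast
        ring
      have k2 : Real.exp (-(s - ℓ / 2)) = Real.exp (-(s / 2)) ^ 2 * Real.exp (ℓ / 2) := by
        rw [← Real.exp_nat_mul, ← Real.exp_add]
        congr 1
        push_cast
        ring
      rw [k1, k2]
      ring
    rw [this]
    have hct : Real.cosh (s - ℓ / 2) ≤ Real.cosh (ℓ / 2) := by
      rw [Real.cosh_le_cosh, abs_of_nonneg (by linarith : (0 : ℝ) ≤ ℓ / 2), abs_le]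
      constructor <;> linarith
    have hct0 := Real.cosh_pos (s - ℓ / 2)
    rw [abs_lt]
    constructor
    · nlinarith [mul_pos hu3 hct0, mul_pos hu3 hc]
    · nlinarith [mul_pos hu3 hct0, mul_pos (sub_pos.2 hu2) hc,
        mul_nonneg hu3.le (sub_nonneg.2 hct)]

lemma bc_neg_one_zpow (m : ℤ) : (-1 : SL(2, ℝ)) ^ m = 1 ∨ (-1 : SL(2, ℝ)) ^ m = -1 := by
  have h2 : (-1 : SL(2, ℝ)) ^ (2 : ℤ) = 1 := by
    rw [zpow_two]
    simp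
  rcases Int.even_or_odd' m with ⟨k, rfl | rfl⟩
  · left
    rw [zpow_mul, h2, one_zpow]
  · right
    rw [zpow_add, zpow_mul, h2, one_zpow, one_mul, zpow_one]

lemma bc_zpow {β : SL(2, ℝ)} {ℓ : ℝ} (hβ : β = dg ℓ ∨ β = -dg ℓ) (m : ℤ) :
    β ^ m = dg (m * ℓ) ∨ β ^ m = -dg (m * ℓ) := by
  rcases hβ with rfl | rfl
  · left
    exact dg_zpow ℓ m
  · have e : (-dg ℓ) = (-1) * dg ℓ := by simp
    have hcomm : Commute (-1 : SL(2, ℝ)) (dg ℓ) := by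
      show (-1 : SL(2, ℝ)) * dg ℓ = dg ℓ * (-1)
      simp
    rw [e, hcomm.mul_zpow, dg_zpow]
    rcases bc_neg_one_zpow m with h | h
    · left
      rw [h, one_mul]
    · right
      rw [h]
      simp

lemma bc_tr_congr {x y : SL(2, ℝ)} (h : x = y ∨ x = -y) : |tr x| = |tr y| := by
  rcases h with rfl | rfl
  · rfl
  · rw [tr_neg, abs_neg]

lemma bc_mul {x y x' y' : SL(2, ℝ)} (h : x = y ∨ x = -y) (h' : x' = y' ∨ x' = -y') :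
    x * x' = y * y' ∨ x * x' = -(y * y') := by
  rcases h with rfl | rfl <;> rcases h' with rfl | rfl <;> simp

lemma bc_inv {x y : SL(2, ℝ)} (h : x = y ∨ x = -y) : x⁻¹ = y⁻¹ ∨ x⁻¹ = -y⁻¹ := by
  rcases h with rfl | rfl
  · left; rfl
  · right
    rw [inv_eq_iff_mul_eq_one]
    simp

lemma bc_norm (β k : SL(2, ℝ)) (ℓ : ℝ) (hℓ : 0 < ℓ) (hβ : β = dg ℓ ∨ β = -dg ℓ)
    (hl : link β (k * β * k⁻¹)) :
    ∃ m : ℤ, |tr (β ^ m * k⁻¹)| < |tr β| ∧ |tr ((β ^ m * k⁻¹)⁻¹ * β)| < |tr β| ∧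
      |tr ((β ^ m * k⁻¹) * ((β ^ m * k⁻¹)⁻¹ * β)⁻¹)| < |tr β| := by
  have hl' : link (dg ℓ) (k * dg ℓ * k⁻¹) := by
    rcases hβ with rfl | rfl
    · exact hl
    · rw [link_neg_left] at hl
      have e : k * -dg ℓ * k⁻¹ = -(k * dg ℓ * k⁻¹) := by simp
      rw [e, link_neg_right] at hl
      exact hl
  rw [link_dg hℓ.ne'] at hl'
  obtain ⟨e1, e2, e3, e4⟩ := dg_entries ℓ
  obtain ⟨i1, i2, i3, i4⟩ := inv_entries k
  obtain ⟨m1, m2, m3, m4⟩ := mul_entries k (dg ℓ)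
  obtain ⟨n1, n2, n3, n4⟩ := mul_entries (k * dg ℓ) k⁻¹
  rw [n2, n3, m1, m2, m3, m4, e1, e2, e3, e4, i1, i2, i3, i4] at hl'
  have hdet := det_eq k
  have hprod : (k 0 0 * k 1 1) * (k 0 1 * k 1 0) < 0 := by
    have e : ((k 0 0 * Real.exp (ℓ / 2) + k 0 1 * 0) * -k 0 1 +
        (k 0 0 * 0 + k 0 1 * Real.exp (-(ℓ / 2))) * k 0 0) *
        ((k 1 0 * Real.exp (ℓ / 2) + k 1 1 * 0) * k 1 1 +
        (k 1 0 * 0 + k 1 1 * Real.exp (-(ℓ / 2))) * -k 1 0) =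
        -((k 0 0 * k 1 1) * (k 0 1 * k 1 0)) * (Real.exp (ℓ / 2) - Real.exp (-(ℓ / 2))) ^ 2 := by
      ring
    rw [e] at hl'
    by_contra hcon
    push Not at hcon
    have := mul_nonneg hcon (sq_nonneg (Real.exp (ℓ / 2) - Real.exp (-(ℓ / 2))))
    linarith
  have h1 : -1 < k 0 1 * k 1 0 := by nlinarith
  have h2 : k 0 1 * k 1 0 < 0 := by nlinarith
  have h3 : 0 < k 0 0 * k 1 1 := by nlinarith
  have h00 : k 0 0 ≠ 0 := left_ne_zero_of_mul h3.ne'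
  have h11 : k 1 1 ≠ 0 := right_ne_zero_of_mul h3.ne'
  have hratio : 0 < k 1 1 / k 0 0 := by
    have : k 1 1 / k 0 0 = (k 0 0 * k 1 1) / (k 0 0) ^ 2 := by
      field_simp
    rw [this]
    positivity
  obtain ⟨m, hm, -⟩ := existsUnique_add_zsmul_mem_Ico hℓ (Real.log (k 1 1 / k 0 0)) 0
  simp only [zsmul_eq_mul, zero_add, Set.mem_Ico] at hm
  obtain ⟨f1, f2, f3, f4⟩ := dg_entries (m * ℓ)
  obtain ⟨g1, g2, g3, g4⟩ := mul_entries (dg (m * ℓ)) k⁻¹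
  have hee : Real.exp (m * ℓ / 2) * Real.exp (-(m * ℓ / 2)) = 1 := by
    rw [← Real.exp_add]
    simp
  have hoff : (dg (m * ℓ) * k⁻¹) 0 1 * (dg (m * ℓ) * k⁻¹) 1 0 = k 0 1 * k 1 0 := by
    rw [g2, g3, f1, f2, f3, f4, i1, i2, i3, i4]
    linear_combination (k 0 1 * k 1 0) * hee
  have hkey := bc_alg (dg (m * ℓ) * k⁻¹) ℓ (Real.log (k 1 1 / k 0 0) + m * ℓ) hm.1 hm.2.le
    (by
      rw [g1, g4, f1, f2, f3, f4, i1, i2, i3, i4, Real.exp_add, Real.exp_log hratio]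
      have e : Real.exp (m * ℓ) = Real.exp (m * ℓ / 2) * Real.exp (m * ℓ / 2) := by
        rw [← Real.exp_add]
        congr 1
        ring
      rw [e]
      field_simp
      linear_combination (-(Real.exp (m * ℓ / 2) * k 1 1 * k 0 0)) * hee)
    (by rw [hoff]; exact h1)
    (by rw [hoff]; exact h2)
  have htr : |tr β| = 2 * Real.cosh (ℓ / 2) := by
    rw [bc_tr_congr hβ, tr_dg, abs_of_pos]
    have := Real.cosh_pos (ℓ / 2)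
    positivity
  have hb : β ^ m * k⁻¹ = dg (m * ℓ) * k⁻¹ ∨ β ^ m * k⁻¹ = -(dg (m * ℓ) * k⁻¹) :=
    bc_mul (bc_zpow hβ m) (Or.inl rfl)
  refine ⟨m, ?_, ?_, ?_⟩
  · rw [htr, bc_tr_congr hb]
    exact hkey.1
  · rw [htr, bc_tr_congr (bc_mul (bc_inv hb) hβ)]
    exact hkey.2.1
  · rw [htr, bc_tr_congr (bc_mul hb (bc_inv (bc_mul (bc_inv hb) hβ)))]
    exact hkey.2.2

/-- Cutting a closed geodesic at a self-intersection point. -/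
theorem break_at_crossing (Δ : Subgroup SL(2, ℝ)) (hΔ : DF Δ) (β : SL(2, ℝ)) (hβ : β ∈ Δ)
    (hyp : 2 < |tr β|) (k : SL(2, ℝ)) (hk : k ∈ Δ) (hl : link β (k * β * k⁻¹)) :
    ∃ b₁ ∈ Δ, ∃ b₂ ∈ Δ, b₁ * b₂ = β ∧ |tr b₁| < |tr β| ∧ |tr b₂| < |tr β| ∧
      |tr (b₁ * b₂⁻¹)| < |tr β| := by
  obtain ⟨n, hn⟩ := exists_diag hyp
  have hℓ : 0 < len β := (len_pos_iff β).2 hyp
  have hconjk : n * k * n⁻¹ * (n * β * n⁻¹) * (n * k * n⁻¹)⁻¹ = n * (k * β * k⁻¹) * n⁻¹ := by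
    group
  have hl' : link (n * β * n⁻¹) (n * k * n⁻¹ * (n * β * n⁻¹) * (n * k * n⁻¹)⁻¹) := by
    rw [hconjk, link_conj]
    exact hl
  obtain ⟨m, h1, h2, h3⟩ := bc_norm (n * β * n⁻¹) (n * k * n⁻¹) (len β) hℓ hn hl'
  have hb : (n * β * n⁻¹) ^ m * (n * k * n⁻¹)⁻¹ = n * (β ^ m * k⁻¹) * n⁻¹ := by
    rw [conj_zpow]
    group
  have hb2 : (n * (β ^ m * k⁻¹) * n⁻¹)⁻¹ * (n * β * n⁻¹) = n * ((β ^ m * k⁻¹)⁻¹ * β) * n⁻¹ := by
    group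
  have hb3 : n * (β ^ m * k⁻¹) * n⁻¹ * (n * ((β ^ m * k⁻¹)⁻¹ * β) * n⁻¹)⁻¹ =
      n * ((β ^ m * k⁻¹) * ((β ^ m * k⁻¹)⁻¹ * β)⁻¹) * n⁻¹ := by
    group
  rw [hb, tr_conj, tr_conj] at h1
  rw [hb, hb2, tr_conj, tr_conj] at h2
  rw [hb, hb2, hb3, tr_conj, tr_conj] at h3
  have hmem1 : β ^ m * k⁻¹ ∈ Δ := Δ.mul_mem (Δ.zpow_mem hβ m) (Δ.inv_mem hk)
  exact ⟨β ^ m * k⁻¹, hmem1, (β ^ m * k⁻¹)⁻¹ * β, Δ.mul_mem (Δ.inv_mem hmem1) hβ,
    mul_inv_cancel_left _ _, h1, h2, h3⟩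

end Pool.Agent.LengthSpec
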