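import Mathlib

open UpperHalfPlane MeasureTheory Set
open scoped MatrixGroups Manifold ENNReal Topology

namespace Pool.Agent.LengthSpec

set_option maxHeartbeats 4000000 in
/-- Real-analysis end of an argument: a chain of `N` short steps from `X` to `Y n` cannot
produce twisting `n`. -/
theorem chain_contradiction {M : Type*} (d : M → M → ℝ≥0∞) (X : M) (Y : ℕ → M) (ℓ : M → ℝ)
    (C : ℝ) (hC : 1 ≤ C) (tws : M → M → ℝ)
    (hchain : ∀ n N : ℕ, 0 < N → d X (Y n) ≠ ⊤ → ∃ Z : ℕ → M, Z 0 = X ∧ Z N = Y n ∧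
      ∀ i < N, d (Z i) (Z (i + 1)) ≤ (d X (Y n) + 1) / N)
    (hXY : ∀ n : ℕ, 1 ≤ n → d X (Y n) ≤ ENNReal.ofReal (Real.log (C * n)))
    (hpos : ∀ Z, 0 < ℓ Z)
    (hℓ : ∀ Z Z', ENNReal.ofReal |Real.log (ℓ Z') - Real.log (ℓ Z)| ≤ d Z Z')
    (hℓY : ∀ n, ℓ (Y n) = ℓ X)
    (htri : ∀ Z₁ Z₂ Z₃, tws Z₁ Z₃ ≤ tws Z₁ Z₂ + tws Z₂ Z₃)
    (hstep : ∀ Z Z', d Z Z' ≤ 1 → tws Z Z' ≤ C * (1 + (ℓ Z) ^ (-(3 / 2) : ℝ)))
    (hlow : ∀ n : ℕ, 1 ≤ n → (n : ℝ) - C ≤ tws X (Y n)) : False := by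
  set L : ℝ := (ℓ X) ^ (-(3 / 2) : ℝ) with hLdef
  have hL : 0 < L := Real.rpow_pos_of_pos (hpos X) _
  set B : ℝ := C * (C + 8 * C * (1 + 3 * L)) with hB
  have hBpos : 0 < B := by positivity
  obtain ⟨n, hn⟩ := exists_nat_gt (max (B ^ 8) 1)
  have hn1 : (1 : ℝ) < n := lt_of_le_of_lt (le_max_right _ _) hn
  have hnB : B ^ 8 < n := lt_of_le_of_lt (le_max_left _ _) hn
  have hn1' : 1 ≤ n := by exact_mod_cast hn1.le
  have hCn : 1 ≤ C * n := by nlinarith
  set x : ℝ := Real.log (C * n) with hx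
  have hx0 : 0 ≤ x := Real.log_nonneg hCn
  have hex : Real.exp x = C * n := Real.exp_log (by linarith)
  set Lam : ℝ := x + 1 with hLam
  have hLam1 : 1 ≤ Lam := by linarith
  set N : ℕ := ⌈Lam⌉₊ with hN
  have hNL : Lam ≤ N := Nat.le_ceil _
  have hNU : (N : ℝ) < Lam + 1 := Nat.ceil_lt_add_one (by linarith)
  have hNpos : 0 < N := by
    have : (0 : ℝ) < N := by linarith
    exact_mod_cast this
  have hNR : (0 : ℝ) < N := by exact_mod_cast hNpos
  have hD := hXY n hn1'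
  have hDtop : d X (Y n) ≠ ⊤ := ne_top_of_le_ne_top ENNReal.ofReal_ne_top hD
  obtain ⟨Z, hZ0, hZN, hZ⟩ := hchain n N hNpos hDtop
  have hstep1 : ∀ i < N, d (Z i) (Z (i + 1)) ≤ ENNReal.ofReal (Lam / N) := by
    intro i hi
    refine (hZ i hi).trans ?_
    rw [ENNReal.ofReal_div_of_pos hNR, ENNReal.ofReal_natCast]
    apply ENNReal.div_le_div_right
    rw [hLam, ENNReal.ofReal_add hx0 zero_le_one, ENNReal.ofReal_one]
    gcongr
  have hLN : Lam / N ≤ 1 := by rw [div_le_one hNR]; exact hNL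
  have hstep2 : ∀ i < N, |Real.log (ℓ (Z (i + 1))) - Real.log (ℓ (Z i))| ≤ Lam / N := by
    intro i hi
    have h1 := (hℓ (Z i) (Z (i + 1))).trans (hstep1 i hi)
    rwa [ENNReal.ofReal_le_ofReal_iff (by positivity)] at h1
  -- forward telescoping
  have hfw : ∀ i ≤ N, |Real.log (ℓ (Z i)) - Real.log (ℓ X)| ≤ i * (Lam / N) := by
    intro i
    induction i with
    | zero => intro _; rw [hZ0]; simp
    | succ i ih =>
      intro hi
      have h1 := ih (by omega)
      have h2 := hstep2 i (by omega)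
      have h3 := abs_sub_le (Real.log (ℓ (Z (i + 1)))) (Real.log (ℓ (Z i))) (Real.log (ℓ X))
      push_cast
      nlinarith
  have hbw : ∀ j ≤ N, |Real.log (ℓ (Z (N - j))) - Real.log (ℓ X)| ≤ j * (Lam / N) := by
    intro j
    induction j with
    | zero => intro _; simp [hZN, hℓY]
    | succ j ih =>
      intro hj
      have h1 := ih (by omega)
      have h2 := hstep2 (N - (j + 1)) (by omega)
      have he : N - (j + 1) + 1 = N - j := by omega
      rw [he] at h2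
      have h3 := abs_sub_le (Real.log (ℓ (Z (N - (j + 1))))) (Real.log (ℓ (Z (N - j))))
        (Real.log (ℓ X))
      rw [abs_sub_comm (Real.log (ℓ (Z (N - (j + 1))))) (Real.log (ℓ (Z (N - j))))] at h3
      push_cast
      nlinarith
  have hhalf : ∀ i ≤ N, |Real.log (ℓ (Z i)) - Real.log (ℓ X)| ≤ Lam / 2 := by
    intro i hi
    have h1 := hfw i hi
    have h2 := hbw (N - i) (by omega)
    have he : N - (N - i) = i := by omega
    rw [he, Nat.cast_sub hi] at h2
    have h3 : (N : ℝ) * (Lam / N) = Lam := by field_simp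
    have h4 : ((N : ℝ) - i) * (Lam / N) = Lam - i * (Lam / N) := by rw [sub_mul, h3]
    rw [h4] at h2
    linarith
  have hpow : ∀ i ≤ N, (ℓ (Z i)) ^ (-(3 / 2) : ℝ) ≤ L * Real.exp (3 / 4 * Lam) := by
    intro i hi
    have h1 := (abs_le.mp (hhalf i hi)).1
    rw [hLdef, Real.rpow_def_of_pos (hpos _), Real.rpow_def_of_pos (hpos _), ← Real.exp_add]
    apply Real.exp_le_exp.mpr
    nlinarith
  have hst : ∀ i < N, tws (Z i) (Z (i + 1)) ≤ C * (1 + L * Real.exp (3 / 4 * Lam)) := by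
    intro i hi
    have h0 : d (Z i) (Z (i + 1)) ≤ 1 := by
      refine (hstep1 i hi).trans ?_
      rw [← ENNReal.ofReal_one]
      exact ENNReal.ofReal_le_ofReal hLN
    refine (hstep _ _ h0).trans ?_
    have := hpow i hi.le
    have hC0 : 0 ≤ C := by linarith
    gcongr
  have hsum : ∀ i, i < N → tws (Z 0) (Z (i + 1)) ≤ (i + 1) * (C * (1 + L * Real.exp (3 / 4 * Lam))) := by
    intro i
    induction i with
    | zero => intro h; have := hst 0 h; simpa using this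
    | succ i ih =>
      intro h
      have h1 := ih (by omega)
      have h2 := hst (i + 1) h
      have h3 := htri (Z 0) (Z (i + 1)) (Z (i + 1 + 1))
      push_cast
      linarith
  have hfin : tws X (Y n) ≤ N * (C * (1 + L * Real.exp (3 / 4 * Lam))) := by
    have := hsum (N - 1) (by omega)
    have he : N - 1 + 1 = N := by omega
    rw [he, hZ0, hZN] at this
    have h5 : ((N - 1 : ℕ) : ℝ) + 1 = N := by exact_mod_cast he
    rwa [h5] at this
  have hlow' := hlow n hn1'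
  -- final inequality
  set y : ℝ := Real.exp (x / 8) with hy
  have hy1 : 1 ≤ y := Real.one_le_exp (by linarith)
  have hy8 : y ^ 8 = C * n := by
    rw [← hex, hy, ← Real.exp_nat_mul]; congr 1; push_cast; ring
  have hy6 : Real.exp (3 / 4 * x) = y ^ 6 := by
    rw [hy, ← Real.exp_nat_mul]; congr 1; push_cast; ring
  have hN8 : (N : ℝ) ≤ 8 * y := by
    have := Real.add_one_le_exp (x / 8)
    linarith
  have he34 : Real.exp (3 / 4) ≤ 3 := by
    have h1 : Real.exp (3 / 4) ≤ Real.exp 1 := Real.exp_le_exp.mpr (by norm_num)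
    have h2 := Real.exp_one_lt_d9
    linarith
  have hexp : Real.exp (3 / 4 * Lam) ≤ 3 * y ^ 6 := by
    have : 3 / 4 * Lam = 3 / 4 + 3 / 4 * x := by rw [hLam]; ring
    rw [this, Real.exp_add, hy6]
    gcongr
  have hy6pos : (1 : ℝ) ≤ y ^ 6 := one_le_pow₀ hy1
  have hC0 : 0 ≤ C := by linarith
  have hR : N * (C * (1 + L * Real.exp (3 / 4 * Lam))) ≤ (8 * y) * (C * ((1 + 3 * L) * y ^ 6)) := by
    have h1 : 1 + L * Real.exp (3 / 4 * Lam) ≤ (1 + 3 * L) * y ^ 6 := by nlinarith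
    have h2 : 0 ≤ 1 + L * Real.exp (3 / 4 * Lam) := by positivity
    gcongr
  have hmain : (n : ℝ) ≤ C + 8 * C * (1 + 3 * L) * y ^ 7 := by
    have : (8 * y) * (C * ((1 + 3 * L) * y ^ 6)) = 8 * C * (1 + 3 * L) * y ^ 7 := by ring
    linarith
  have hy7 : (1 : ℝ) ≤ y ^ 7 := one_le_pow₀ hy1
  have hmain2 : y ^ 8 ≤ B * y ^ 7 := by
    rw [hy8, hB]
    have : C ≤ C * y ^ 7 := by nlinarith
    nlinarith
  have hyB : y ≤ B := by
    have h7 : 0 < y ^ 7 := by linarith
    have : y * y ^ 7 ≤ B * y ^ 7 := by rw [← pow_succ']; exact hmain2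
    exact le_of_mul_le_mul_right this h7
  have : y ^ 8 ≤ B ^ 8 := pow_le_pow_left₀ (by linarith) hyB 8
  rw [hy8] at this
  nlinarith

end Pool.Agent.LengthSpec
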