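import Pool.Agent.LengthSpec.Fuchs2

open UpperHalfPlane MeasureTheory Set
open scoped MatrixGroups Manifold ENNReal Topology

namespace Pool.Agent.LengthSpec

lemma co_diag_entries (s t : ℝ) (g : SL(2, ℝ)) :
    (dg s * g * dg t) 0 1 = Real.exp (s / 2) * g 0 1 * Real.exp (-(t / 2)) ∧
    (dg s * g * dg t) 1 0 = Real.exp (-(s / 2)) * g 1 0 * Real.exp (t / 2) := by
  obtain ⟨a1, a2, a3, a4⟩ := mul_entries (dg s * g) (dg t)
  obtain ⟨b1, b2, b3, b4⟩ := mul_entries (dg s) g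
  obtain ⟨c1, c2, c3, c4⟩ := dg_entries s
  obtain ⟨d1, d2, d3, d4⟩ := dg_entries t
  rw [a2, a3, b1, b2, b3, b4, c1, c2, c3, c4, d1, d2, d3, d4]
  constructor <;> ring

lemma co_zpow {γ : SL(2, ℝ)} {ℓ : ℝ} (h : γ = dg ℓ ∨ γ = - dg ℓ) (k : ℤ) :
    γ ^ k = dg (k * ℓ) ∨ γ ^ k = - dg (k * ℓ) := by
  have hstep : ∀ k : ℤ, (γ ^ k = dg (k * ℓ) ∨ γ ^ k = - dg (k * ℓ)) →
      (γ ^ (k + 1) = dg ((k + 1 : ℤ) * ℓ) ∨ γ ^ (k + 1) = - dg ((k + 1 : ℤ) * ℓ)) := by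
    intro k hk
    have e : dg (((k + 1 : ℤ) : ℝ) * ℓ) = dg (k * ℓ) * dg ℓ := by
      rw [← dg_add]; congr 1; push_cast; ring
    rw [zpow_add_one, e]
    rcases hk with hk | hk <;> rcases h with h | h <;> rw [hk, h]
    · exact Or.inl rfl
    · exact Or.inr (mul_neg _ _)
    · exact Or.inr (neg_mul _ _)
    · exact Or.inl (neg_mul_neg _ _)
  have hstep' : ∀ k : ℤ, (γ ^ k = dg (k * ℓ) ∨ γ ^ k = - dg (k * ℓ)) →
      (γ ^ (k - 1) = dg ((k - 1 : ℤ) * ℓ) ∨ γ ^ (k - 1) = - dg ((k - 1 : ℤ) * ℓ)) := by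
    intro k hk
    have e : dg (((k - 1 : ℤ) : ℝ) * ℓ) = dg (k * ℓ) * (dg ℓ)⁻¹ := by
      rw [dg_inv, ← dg_add]; congr 1; push_cast; ring
    have hinv : (- dg ℓ)⁻¹ = - (dg ℓ)⁻¹ := by
      rw [inv_eq_iff_mul_eq_one, neg_mul_neg, mul_inv_cancel]
    rw [zpow_sub_one, e]
    rcases hk with hk | hk <;> rcases h with h | h <;> rw [hk, h]
    · exact Or.inl rfl
    · rw [hinv]; exact Or.inr (mul_neg _ _)
    · exact Or.inr (neg_mul _ _)
    · rw [hinv]; exact Or.inl (neg_mul_neg _ _)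
  induction k with
  | zero => left; simp [dg_zero]
  | succ k ih => exact hstep _ ih
  | pred k ih =>
    have := hstep' _ ih
    exact this

lemma co_zpow_smul {γ : SL(2, ℝ)} {ℓ : ℝ} (h : γ = dg ℓ ∨ γ = - dg ℓ) (k : ℤ) (z : ℍ) :
    γ ^ k • z = dg (k * ℓ) • z := by
  rcases co_zpow h k with h | h
  · rw [h]
  · rw [h, neg_smul']

lemma co_ratio (s κ : ℝ) (z : ℍ) : |(dg s • z).re| ≤ κ * (dg s • z).im ↔ |z.re| ≤ κ * z.im := by
  obtain ⟨h1, h2⟩ := dg_re_im s z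
  have he := Real.exp_pos s
  rw [h1, h2, abs_mul, abs_of_pos he, show κ * (Real.exp s * z.im) = Real.exp s * (κ * z.im) by ring]
  exact mul_le_mul_iff_right₀ he

/-- the compact set -/
def coK (ℓ : ℝ) : Set ℍ := {z | |z.re| ≤ z.im ∧ 1 ≤ z.im ∧ z.im ≤ Real.exp ℓ}

lemma coK_compact (ℓ : ℝ) : IsCompact (coK ℓ) := by
  rw [UpperHalfPlane.isEmbedding_coe.isCompact_iff]
  have e : UpperHalfPlane.coe '' coK ℓ = {w : ℂ | |w.re| ≤ w.im ∧ 1 ≤ w.im ∧ w.im ≤ Real.exp ℓ} := by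
    ext w
    constructor
    · rintro ⟨z, hz, rfl⟩
      exact hz
    · rintro ⟨h1, h2, h3⟩
      exact ⟨⟨w, by linarith⟩, ⟨h1, h2, h3⟩, rfl⟩
  rw [e]
  refine Metric.isCompact_of_isClosed_isBounded ?_ ?_
  · have c1 : Continuous (fun w : ℂ => |w.re|) := by fun_prop
    have c2 : Continuous (fun w : ℂ => w.im) := by fun_prop
    exact (isClosed_le c1 c2).inter ((isClosed_le continuous_const c2).inter
      (isClosed_le c2 continuous_const))
  · refine (Metric.isBounded_closedBall (x := (0 : ℂ)) (r := 2 * Real.exp ℓ)).subset ?_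
    rintro w ⟨h1, h2, h3⟩
    rw [mem_closedBall_zero_iff]
    refine (Complex.norm_le_abs_re_add_abs_im w).trans ?_
    rw [abs_of_pos (show 0 < w.im by linarith)]
    linarith

lemma co_move {ℓ : ℝ} (hℓ : 0 < ℓ) (z : ℍ) (h : |z.re| ≤ z.im) :
    ∃ k : ℤ, dg (k * ℓ) • z ∈ coK ℓ := by
  have hz := z.im_pos
  refine ⟨-⌊Real.log z.im / ℓ⌋, ?_⟩
  set m := ⌊Real.log z.im / ℓ⌋ with hm
  have h1 := Int.floor_le (Real.log z.im / ℓ)
  have h2 := Int.lt_floor_add_one (Real.log z.im / ℓ)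
  rw [← hm] at h1 h2
  rw [le_div_iff₀ hℓ] at h1
  rw [div_lt_iff₀ hℓ] at h2
  obtain ⟨e1, e2⟩ := dg_re_im (((-m : ℤ) : ℝ) * ℓ) z
  have him : (dg (((-m : ℤ) : ℝ) * ℓ) • z).im = Real.exp (Real.log z.im - m * ℓ) := by
    rw [e2, sub_eq_add_neg, Real.exp_add, Real.exp_log hz, mul_comm]
    congr 2; push_cast; ring
  refine ⟨?_, ?_, ?_⟩
  · have := (co_ratio (((-m : ℤ) : ℝ) * ℓ) 1 z).2 (by simpa using h)
    simpa using this
  · rw [him]; exact Real.one_le_exp (by linarith)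
  · rw [him]; exact Real.exp_le_exp.2 (by linarith)

/-- Collars: the closed `κ`-collar of a simple axis is precisely invariant for small `κ`. -/
theorem collar_exists (Δ : Subgroup SL(2, ℝ)) (hΔ : DF Δ) (ℓ : ℝ) (hℓ : 0 < ℓ)
    (hdg : dg ℓ ∈ Δ ∨ - dg ℓ ∈ Δ) (hs : ∀ g ∈ Δ, ¬ link (dg ℓ) (g * dg ℓ * g⁻¹)) :
    ∃ κ : ℝ, 0 < κ ∧ ∀ g ∈ Δ, ∀ z : ℍ, |z.re| ≤ κ * z.im → |(g • z).re| ≤ κ * (g • z).im →
      g 0 1 = 0 ∧ g 1 0 = 0 := by
  obtain ⟨γ, hγ, hγd⟩ : ∃ γ ∈ Δ, γ = dg ℓ ∨ γ = - dg ℓ := by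
    rcases hdg with h | h
    · exact ⟨_, h, Or.inl rfl⟩
    · exact ⟨_, h, Or.inr rfl⟩
  have hfin := hΔ.finite' (coK ℓ) (coK_compact ℓ)
  have hev : ∀ g ∈ {g : SL(2, ℝ) | g ∈ Δ ∧ ∃ z ∈ coK ℓ, g • z ∈ coK ℓ}, ∀ᶠ κ in 𝓝[>] (0 : ℝ),
      (g 0 1 = 0 ∧ g 1 0 = 0) ∨
        ∀ z ∈ coK ℓ, ¬ (|z.re| ≤ κ * z.im ∧ |(g • z).re| ≤ κ * (g • z).im) := by
    rintro g ⟨hg, z₀, hz₀, -⟩
    by_cases hdiag : g 0 1 = 0 ∧ g 1 0 = 0
    · exact Filter.Eventually.of_forall fun _ => Or.inl hdiag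
    let f : ℍ → ℝ := fun z => max (|z.re| / z.im) (|(g • z).re| / (g • z).im)
    have hf : Continuous f := by
      have c1 := UpperHalfPlane.continuous_re
      have c2 := UpperHalfPlane.continuous_im
      have c3 : Continuous (fun z : ℍ => g • z) := continuous_const_smul g
      refine Continuous.max (Continuous.div c1.abs c2 fun z => z.im_ne_zero)
        (Continuous.div (c1.comp c3).abs (c2.comp c3) fun z => (g • z).im_ne_zero)
    obtain ⟨z₁, hz₁, hmin⟩ := (coK_compact ℓ).exists_isMinOn ⟨z₀, hz₀⟩ hf.continuousOn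
    have hpos : 0 < f z₁ := by
      by_contra hcon
      push Not at hcon
      have hz := z₁.im_pos
      have hgz := (g • z₁).im_pos
      have a1 : |z₁.re| / z₁.im ≤ 0 := (le_max_left _ _).trans hcon
      have a2 : |(g • z₁).re| / (g • z₁).im ≤ 0 := (le_max_right _ _).trans hcon
      rw [div_le_iff₀ hz, zero_mul] at a1
      rw [div_le_iff₀ hgz, zero_mul] at a2
      have b1 : z₁.re = 0 := abs_nonpos_iff.1 a1
      have b2 : (g • z₁).re = 0 := abs_nonpos_iff.1 a2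
      rw [(smul_re_im g z₁).1, b1] at b2
      have hden := den_pos g z₁
      rw [b1] at hden
      rw [div_eq_zero_iff] at b2
      rcases b2 with b2 | b2
      · have hdet := det_eq g
        have b3 : g 0 1 * g 1 1 + g 0 0 * g 1 0 * z₁.im ^ 2 = 0 := by
          linear_combination b2
        have hbc : 0 < (1 + g 0 1 * g 1 0) * (g 0 1 * g 1 0) := by
          rcases hΔ.trichotomy hℓ hdg hs hg with h | h | h
          · exact absurd h hdiag
          · positivity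
          · nlinarith
        have hy2 : 0 < z₁.im ^ 2 := by positivity
        have b4 : (g 0 0 * g 1 0) * (g 0 1 * g 1 1) = (1 + g 0 1 * g 1 0) * (g 0 1 * g 1 0) := by
          linear_combination (g 0 1 * g 1 0) * hdet
        have b5 : g 0 1 * g 1 1 = - (g 0 0 * g 1 0 * z₁.im ^ 2) := by linarith
        rw [b5] at b4
        have b6 : (g 0 0 * g 1 0) * -(g 0 0 * g 1 0 * z₁.im ^ 2) ≤ 0 := by
          have : 0 ≤ (g 0 0 * g 1 0) ^ 2 * z₁.im ^ 2 := by positivity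
          nlinarith
        linarith
      · exact hden.ne' b2
    filter_upwards [Ioo_mem_nhdsGT hpos] with κ hκ
    right
    rintro z hz ⟨h1, h2⟩
    have hz' := z.im_pos
    have hgz' := (g • z).im_pos
    have h3 : f z ≤ κ := by
      refine max_le ?_ ?_
      · rw [div_le_iff₀ hz']; exact h1
      · rw [div_le_iff₀ hgz']; exact h2
    have h4 : f z₁ ≤ f z := hmin hz
    linarith [hκ.2]
  have hall := (Filter.eventually_all_finite hfin).2 hev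
  obtain ⟨κ, hκ, hκ1⟩ := (hall.and (Ioo_mem_nhdsGT (show (0 : ℝ) < 1 by norm_num))).exists
  refine ⟨κ, hκ1.1, ?_⟩
  intro g hg z h1 h2
  have hz := z.im_pos
  have hgz := (g • z).im_pos
  obtain ⟨i, hi⟩ := co_move hℓ z (h1.trans (by nlinarith [hκ1.2]))
  obtain ⟨j, hj⟩ := co_move hℓ (g • z) (h2.trans (by nlinarith [hκ1.2]))
  set g' := γ ^ j * g * (γ ^ i)⁻¹ with hg'
  have hg'Δ : g' ∈ Δ := Δ.mul_mem (Δ.mul_mem (Δ.zpow_mem hγ j) hg) (Δ.inv_mem (Δ.zpow_mem hγ i))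
  set z' := dg (i * ℓ) • z with hz'
  have hzz : g' • z' = dg (j * ℓ) • (g • z) := by
    rw [hg', hz', ← co_zpow_smul hγd i z, ← co_zpow_smul hγd j (g • z), mul_smul, mul_smul,
      inv_smul_smul]
  have hmem : g' ∈ {g : SL(2, ℝ) | g ∈ Δ ∧ ∃ z ∈ coK ℓ, g • z ∈ coK ℓ} :=
    ⟨hg'Δ, z', hi, by rw [hzz]; exact hj⟩
  rcases hκ g' hmem with h | h
  · -- g' diagonal
    have key : g' = dg (j * ℓ) * g * dg (-(i * ℓ)) ∨ g' = - (dg (j * ℓ) * g * dg (-(i * ℓ))) := by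
      have hinv : (- dg (i * ℓ))⁻¹ = - (dg (i * ℓ))⁻¹ := by
        rw [inv_eq_iff_mul_eq_one, neg_mul_neg, mul_inv_cancel]
      rw [hg', ← dg_inv]
      rcases co_zpow hγd i with hi' | hi' <;> rcases co_zpow hγd j with hj' | hj' <;>
        rw [hi', hj']
      · exact Or.inl rfl
      · right; rw [neg_mul, neg_mul]
      · right; rw [hinv, mul_neg]
      · left; rw [hinv, neg_mul, neg_mul_neg]
    obtain ⟨e1, e2⟩ := co_diag_entries (j * ℓ) (-(i * ℓ)) g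
    have h01 : (dg (j * ℓ) * g * dg (-(i * ℓ))) 0 1 = 0 ∧ (dg (j * ℓ) * g * dg (-(i * ℓ))) 1 0 = 0 := by
      rcases key with h' | h'
      · rw [← h']; exact h
      · rw [h', neg_entries, neg_entries] at h
        exact ⟨neg_eq_zero.1 h.1, neg_eq_zero.1 h.2⟩
    rw [e1, e2] at h01
    constructor
    · simpa [Real.exp_ne_zero] using h01.1
    · simpa [Real.exp_ne_zero] using h01.2
  · exfalso
    refine h z' hi ⟨(co_ratio _ _ _).2 h1, ?_⟩
    rw [hzz]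
    exact (co_ratio _ _ _).2 h2

end Pool.Agent.LengthSpec
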