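import Mathlib

open UpperHalfPlane MeasureTheory Set
open scoped MatrixGroups Manifold ENNReal Topology

namespace Pool.Agent.LengthSpec

/-- Translation length of an isometry `g` of the hyperbolic plane: the infimum of its displacement.
For a nontrivial element `g` of a torsion-free Fuchsian group `Γ` this is the infimum of the
lengths of the closed curves in the free homotopy class of `g` in `ℍ/Γ`, i.e. the length of the
closed geodesic in this class (and `0` if the class is peripheral). -/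
noncomputable def len (g : SL(2, ℝ)) : ℝ := ⨅ z : ℍ, dist z (g • z)

/-- The axis of `g`: the points whose displacement is the translation length. -/
def axis (g : SL(2, ℝ)) : Set ℍ := {z | dist z (g • z) = len g}

/-- `Γ` has a fundamental domain in the hyperbolic plane of hyperbolic area `A`. -/
def HasArea (Γ : Subgroup SL(2, ℝ)) (A : ℝ≥0∞) : Prop :=
  ∃ D : Set ℍ, IsFundamentalDomain Γ D (volume : Measure ℍ) ∧ volume D = A

/-- `Γ` is discrete and acts freely on the hyperbolic plane, and `ℍ/Γ` has finite area: so `ℍ/Γ`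
is a complete hyperbolic surface of finite area with fundamental group `Γ`. -/
structure IsSurfaceGroup (Γ : Subgroup SL(2, ℝ)) : Prop where
  discrete : DiscreteTopology Γ
  free : ∀ g ∈ Γ, ∀ z : ℍ, g • z = z → g = 1
  finite_area : ∃ A : ℝ≥0∞, A ≠ ⊤ ∧ HasArea Γ A

/-- Essential (nontrivial, nonperipheral) simple closed curves on `ℍ/Γ`, up to isotopy: elements
`g` of `Γ` of positive translation length (nontrivial, not parabolic), not a proper power in `Γ`,
whose closed geodesic is simple, that is, any two `Γ`-translates of the axis of `g` are equal or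
disjoint. -/
structure IsSimpleClosed (Γ : Subgroup SL(2, ℝ)) (g : Γ) : Prop where
  pos : 0 < len (g : SL(2, ℝ))
  primitive : ∀ (h : Γ) (k : ℤ), h ^ k = g → k = 1 ∨ k = -1
  simple : ∀ h : Γ, (fun z : ℍ => (h : SL(2, ℝ)) • z) '' axis g = axis g ∨
    Disjoint ((fun z : ℍ => (h : SL(2, ℝ)) • z) '' axis g) (axis g)

/-- Marked complete hyperbolic structures of finite area on the surface `S = ℍ/Γ`, given by their
holonomy `ρ`: a faithful representation with discrete image acting freely, with quotient of finite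
area, conjugate to the inclusion by a homeomorphism `F` of `ℍ` (the lift of the marking
`S → ℍ/ρ(Γ)`), and type-preserving. By Gauss-Bonnet, `ℍ/ρ(Γ)` has the same area as `S`. -/
structure IsMarked (Γ : Subgroup SL(2, ℝ)) (ρ : Γ →* SL(2, ℝ)) : Prop where
  injective : Function.Injective ρ
  surface : IsSurfaceGroup ρ.range
  area : ∀ A, HasArea Γ A → HasArea ρ.range A
  marking : ∃ F : ℍ ≃ₜ ℍ, ∀ (g : Γ) (z : ℍ), F ((g : SL(2, ℝ)) • z) = ρ g • F z
  type_preserving : ∀ g : Γ, len (ρ g) = 0 ↔ len (g : SL(2, ℝ)) = 0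

/-- Two marked structures are equivalent if an isometry of `ℍ` conjugates the holonomies, that is,
if there is an isometry between the two surfaces compatible with the markings up to homotopy. -/
def markedSetoid (Γ : Subgroup SL(2, ℝ)) : Setoid {ρ : Γ →* SL(2, ℝ) // IsMarked Γ ρ} where
  r ρ₁ ρ₂ := ∃ φ : ℍ ≃ᵢ ℍ, ∀ (g : Γ) (z : ℍ), φ (ρ₁.1 g • z) = ρ₂.1 g • φ z
  iseqv :=
    { refl := fun _ => ⟨IsometryEquiv.refl ℍ, fun _ _ => rfl⟩
      symm := by
        rintro ρ₁ ρ₂ ⟨φ, h⟩
        refine ⟨φ.symm, fun g z => ?_⟩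
        apply φ.injective
        rw [h, IsometryEquiv.apply_symm_apply, IsometryEquiv.apply_symm_apply]
      trans := by
        rintro ρ₁ ρ₂ ρ₃ ⟨φ, h⟩ ⟨ψ, h'⟩
        exact ⟨φ.trans ψ, fun g z => by simp [h, h']⟩ }

/-- The Teichmüller space of the surface `S = ℍ/Γ`. -/
def Teich (Γ : Subgroup SL(2, ℝ)) : Type := Quotient (markedSetoid Γ)

lemma len_congr {g₁ g₂ : SL(2, ℝ)} (φ : ℍ ≃ᵢ ℍ) (h : ∀ z : ℍ, φ (g₁ • z) = g₂ • φ z) :
    len g₁ = len g₂ := by
  unfold len
  apply le_antisymm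
  · refine le_ciInf fun z => ?_
    refine (ciInf_le ⟨0, by rintro _ ⟨z, rfl⟩; exact dist_nonneg⟩ (φ.symm z)).trans ?_
    rw [← φ.isometry.dist_eq, h]; simp
  · refine le_ciInf fun z => ?_
    refine (ciInf_le ⟨0, by rintro _ ⟨z, rfl⟩; exact dist_nonneg⟩ (φ z)).trans ?_
    rw [← h, φ.isometry.dist_eq]

/-- Length function of the class `g` of closed curves, on Teichmüller space. -/
noncomputable def lenAt (Γ : Subgroup SL(2, ℝ)) (g : Γ) : Teich Γ → ℝ :=
  Quotient.lift (fun ρ => len (ρ.1 g)) (by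
    rintro ρ₁ ρ₂ ⟨φ, h⟩
    exact len_congr φ (h g))

/-- The length-spectrum metric: the logarithm of the supremum over essential simple closed curves
of the ratio of lengths, taken in both orders. -/
noncomputable def dL (Γ : Subgroup SL(2, ℝ)) (X Y : Teich Γ) : ℝ≥0∞ :=
  ⨆ (g : Γ) (_ : IsSimpleClosed Γ g), ENNReal.ofReal
    (Real.log (max (lenAt Γ g Y / lenAt Γ g X) (lenAt Γ g X / lenAt Γ g Y)))

section Finsler

variable (E : Type*) [NormedAddCommGroup E] [NormedSpace ℝ E] {M : Type*} [TopologicalSpace M]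
  [ChartedSpace E M] [IsManifold 𝓘(ℝ, E) 1 M]

/-- A piecewise `C¹` path `[0,1] → M` from `X` to `Y`. -/
structure IsPath (c : ℝ → M) (X Y : M) : Prop where
  start : c 0 = X
  finish : c 1 = Y
  continuousOn : ContinuousOn c (Icc 0 1)
  pieces : ∃ (k : ℕ) (t : ℕ → ℝ), t 0 = 0 ∧ t k = 1 ∧ (∀ i < k, t i < t (i + 1)) ∧
    ∀ i < k, ContMDiffOn 𝓘(ℝ, ℝ) 𝓘(ℝ, E) 1 c (Icc (t i) (t (i + 1)))

/-- The velocity of a path, as an element of the tangent bundle. -/
noncomputable def velocity (c : ℝ → M) (t : ℝ) : TangentBundle 𝓘(ℝ, E) M :=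
  ⟨c t, mfderiv 𝓘(ℝ, ℝ) 𝓘(ℝ, E) c t (1 : ℝ)⟩

/-- The length of a path for the field of norms `F`. -/
noncomputable def pathLength (F : TangentBundle 𝓘(ℝ, E) M → ℝ) (c : ℝ → M) : ℝ≥0∞ :=
  ∫⁻ t in Icc (0 : ℝ) 1, ENNReal.ofReal (F (velocity E c t))

/-- `F` restricts to a norm on every tangent space. -/
structure IsNormField (F : TangentBundle 𝓘(ℝ, E) M → ℝ) : Prop where
  nonneg : ∀ v, 0 ≤ F v
  definite : ∀ (x : M) (v : TangentSpace 𝓘(ℝ, E) x), F ⟨x, v⟩ = 0 ↔ v = 0
  smul : ∀ (x : M) (a : ℝ) (v : TangentSpace 𝓘(ℝ, E) x), F ⟨x, a • v⟩ = |a| * F ⟨x, v⟩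
  add_le : ∀ (x : M) (v w : TangentSpace 𝓘(ℝ, E) x), F ⟨x, v + w⟩ ≤ F ⟨x, v⟩ + F ⟨x, w⟩

/-- `d` is a Finsler metric: it is the path metric of a continuous field of norms. -/
def IsFinsler (d : M → M → ℝ≥0∞) : Prop :=
  ∃ F : TangentBundle 𝓘(ℝ, E) M → ℝ, Continuous F ∧ IsNormField E F ∧
    ∀ X Y, d X Y = ⨅ (c : ℝ → M) (_ : IsPath E c X Y), pathLength E F c

end Finsler

end Pool.Agent.LengthSpec
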