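import Pool.Agent.LengthSpec.Fuchs2

open UpperHalfPlane MeasureTheory Set
open scoped MatrixGroups Manifold ENNReal Topology

namespace Pool.Agent.LengthSpec

/-! ### algebraic tools -/

lemma nt_ratio (g : SL(2, ℝ)) (z : ℍ) : (g • z).re / (g • z).im =
    (g 0 0 * g 1 0 * (z.re ^ 2 + z.im ^ 2) + (g 0 0 * g 1 1 + g 0 1 * g 1 0) * z.re +
      g 0 1 * g 1 1) / z.im := by
  obtain ⟨h1, h2⟩ := smul_re_im g z
  have hd := den_pos g z
  have hz := z.im_pos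
  rw [h1, h2, div_div_div_cancel_right₀ hd.ne']
  congr 1; ring

lemma nt_key (g : SL(2, ℝ)) (z : ℍ) :
    ((g 0 0 * g 1 1 + g 0 1 * g 1 0) + (z.re / z.im) * ((g • z).re / (g • z).im)) ^ 2 ≤
      (1 + (z.re / z.im) ^ 2) * (1 + ((g • z).re / (g • z).im) ^ 2) := by
  rw [nt_ratio]
  have hz := z.im_pos
  have hdet := det_eq g
  have key : (1 + (z.re / z.im) ^ 2) * (1 + ((g 0 0 * g 1 0 * (z.re ^ 2 + z.im ^ 2) +
      (g 0 0 * g 1 1 + g 0 1 * g 1 0) * z.re + g 0 1 * g 1 1) / z.im) ^ 2) -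
      ((g 0 0 * g 1 1 + g 0 1 * g 1 0) + (z.re / z.im) * ((g 0 0 * g 1 0 * (z.re ^ 2 + z.im ^ 2) +
      (g 0 0 * g 1 1 + g 0 1 * g 1 0) * z.re + g 0 1 * g 1 1) / z.im)) ^ 2 =
      ((g 0 0 * g 1 0 * (z.re ^ 2 + z.im ^ 2) - g 0 1 * g 1 1) / z.im) ^ 2 := by
    have hd2 : (g 0 0 * g 1 1 - g 0 1 * g 1 0) ^ 2 = 1 := by rw [hdet]; ring
    field_simp
    linear_combination (-(z.re ^ 2 + z.im ^ 2) * z.im ^ 2) * hd2
  have := sq_nonneg ((g 0 0 * g 1 0 * (z.re ^ 2 + z.im ^ 2) - g 0 1 * g 1 1) / z.im)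
  linarith

lemma nt_zpow {ℓ : ℝ} {γ : SL(2, ℝ)} (hγd : γ = dg ℓ ∨ γ = - dg ℓ) (m : ℤ) :
    γ ^ m = dg (m * ℓ) ∨ γ ^ m = - dg (m * ℓ) := by
  rcases hγd with h | h
  · left; rw [h, dg_zpow]
  · subst h
    induction m using Int.induction_on with
    | zero => left; simp [dg_zero]
    | succ n ih =>
      have e : dg ((((n : ℤ) + 1 : ℤ) : ℝ) * ℓ) = dg (((n : ℤ) : ℝ) * ℓ) * dg ℓ := by
        rw [← dg_add]; congr 1; push_cast; ring
      rcases ih with ih | ih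
      · right; rw [zpow_add_one, ih, e, mul_neg]
      · left; rw [zpow_add_one, ih, e, neg_mul_neg]
    | pred n ih =>
      have e : dg (((-(n : ℤ) - 1 : ℤ) : ℝ) * ℓ) = dg (((-(n : ℤ) : ℤ) : ℝ) * ℓ) * (dg ℓ)⁻¹ := by
        rw [dg_inv, ← dg_add]; congr 1; push_cast; ring
      have e' : (-dg ℓ)⁻¹ = -(dg ℓ)⁻¹ := by
        rw [inv_eq_iff_mul_eq_one, neg_mul_neg, mul_inv_cancel]
      rcases ih with ih | ih
      · right; rw [zpow_sub_one, ih, e, e', mul_neg]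
      · left; rw [zpow_sub_one, ih, e, e', neg_mul_neg]

lemma nt_entries {ℓ : ℝ} {γ : SL(2, ℝ)} (hγd : γ = dg ℓ ∨ γ = - dg ℓ) (g : SL(2, ℝ)) (i j : ℤ) :
    ∃ η : ℝ, η ^ 2 = 1 ∧
      (γ ^ (i + j) * g * γ ^ (i - j)) 0 0 = η * (g 0 0 * Real.exp (i * ℓ)) ∧
      (γ ^ (i + j) * g * γ ^ (i - j)) 0 1 = η * (g 0 1 * Real.exp (j * ℓ)) ∧
      (γ ^ (i + j) * g * γ ^ (i - j)) 1 0 = η * (g 1 0 * Real.exp (-(j * ℓ))) ∧
      (γ ^ (i + j) * g * γ ^ (i - j)) 1 1 = η * (g 1 1 * Real.exp (-(i * ℓ))) := by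
  have key : ∃ η : ℝ, η ^ 2 = 1 ∧ ∀ k l : Fin 2, (γ ^ (i + j) * g * γ ^ (i - j)) k l =
      η * (dg (((i + j : ℤ) : ℝ) * ℓ) * g * dg (((i - j : ℤ) : ℝ) * ℓ)) k l := by
    rcases nt_zpow hγd (i + j) with h1 | h1 <;> rcases nt_zpow hγd (i - j) with h2 | h2
    · exact ⟨1, by norm_num, fun k l => by rw [h1, h2, one_mul]⟩
    · exact ⟨-1, by norm_num, fun k l => by rw [h1, h2, mul_neg, neg_entries]; ring⟩
    · exact ⟨-1, by norm_num, fun k l => by rw [h1, h2, neg_mul, neg_mul, neg_entries]; ring⟩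
    · exact ⟨1, by norm_num, fun k l => by rw [h1, h2, neg_mul, neg_mul_neg, one_mul]⟩
  obtain ⟨η, hη, hk⟩ := key
  obtain ⟨a1, a2, a3, a4⟩ := mul_entries (dg (((i + j : ℤ) : ℝ) * ℓ) * g)
    (dg (((i - j : ℤ) : ℝ) * ℓ))
  obtain ⟨b1, b2, b3, b4⟩ := mul_entries (dg (((i + j : ℤ) : ℝ) * ℓ)) g
  obtain ⟨c1, c2, c3, c4⟩ := dg_entries (((i + j : ℤ) : ℝ) * ℓ)
  obtain ⟨d1, d2, d3, d4⟩ := dg_entries (((i - j : ℤ) : ℝ) * ℓ)
  refine ⟨η, hη, ?_, ?_, ?_, ?_⟩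
  · rw [hk, a1, b1, b2, c1, c2, d1, d3]
    have : Real.exp (i * ℓ) = Real.exp (((i + j : ℤ) : ℝ) * ℓ / 2) *
        Real.exp (((i - j : ℤ) : ℝ) * ℓ / 2) := by
      rw [← Real.exp_add]; congr 1; push_cast; ring
    rw [this]; ring
  · rw [hk, a2, b1, b2, c1, c2, d2, d4]
    have : Real.exp (j * ℓ) = Real.exp (((i + j : ℤ) : ℝ) * ℓ / 2) *
        Real.exp (-(((i - j : ℤ) : ℝ) * ℓ / 2)) := by
      rw [← Real.exp_add]; congr 1; push_cast; ring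
    rw [this]; ring
  · rw [hk, a3, b3, b4, c3, c4, d1, d3]
    have : Real.exp (-(j * ℓ)) = Real.exp (-(((i + j : ℤ) : ℝ) * ℓ / 2)) *
        Real.exp (((i - j : ℤ) : ℝ) * ℓ / 2) := by
      rw [← Real.exp_add]; congr 1; push_cast; ring
    rw [this]; ring
  · rw [hk, a4, b3, b4, c3, c4, d2, d4]
    have : Real.exp (-(i * ℓ)) = Real.exp (-(((i + j : ℤ) : ℝ) * ℓ / 2)) *
        Real.exp (-(((i - j : ℤ) : ℝ) * ℓ / 2)) := by
      rw [← Real.exp_add]; congr 1; push_cast; ring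
    rw [this]; ring

lemma nt_choose (ℓ : ℝ) (hℓ : 0 < ℓ) (a d : ℝ) (ha : a ≠ 0) (hd : d ≠ 0) :
    ∃ i : ℤ, (a * Real.exp (i * ℓ)) ^ 2 + (d * Real.exp (-(i * ℓ))) ^ 2 ≤
      |a * d| * (Real.exp (2 * ℓ) + 1) := by
  have ha' : 0 < |a| := abs_pos.2 ha
  have hd' : 0 < |d| := abs_pos.2 hd
  set α := Real.log |a| with hα
  set β := Real.log |d| with hβ
  have ea : |a| = Real.exp α := (Real.exp_log ha').symm
  have ed : |d| = Real.exp β := (Real.exp_log hd').symm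
  refine ⟨-⌊(α - β) / (2 * ℓ)⌋, ?_⟩
  have f1 := Int.floor_le ((α - β) / (2 * ℓ))
  have f2 := Int.lt_floor_add_one ((α - β) / (2 * ℓ))
  rw [le_div_iff₀ (by positivity)] at f1
  rw [div_lt_iff₀ (by positivity)] at f2
  set N := ⌊(α - β) / (2 * ℓ)⌋ with hN
  have e1 : (a * Real.exp (((-N : ℤ) : ℝ) * ℓ)) ^ 2 = Real.exp (2 * α - 2 * N * ℓ) := by
    rw [mul_pow, ← sq_abs a, ea, ← Real.exp_nat_mul, ← Real.exp_nat_mul, ← Real.exp_add]
    congr 1; push_cast; ring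
  have e2 : (d * Real.exp (-(((-N : ℤ) : ℝ) * ℓ))) ^ 2 = Real.exp (2 * β + 2 * N * ℓ) := by
    rw [mul_pow, ← sq_abs d, ed, ← Real.exp_nat_mul, ← Real.exp_nat_mul, ← Real.exp_add]
    congr 1; push_cast; ring
  have e3 : |a * d| = Real.exp (α + β) := by rw [abs_mul, ea, ed, Real.exp_add]
  rw [e1, e2, e3, mul_add, mul_one, ← Real.exp_add]
  have g1 : Real.exp (2 * α - 2 * N * ℓ) ≤ Real.exp (α + β + 2 * ℓ) :=
    Real.exp_le_exp.2 (by nlinarith)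
  have g2 : Real.exp (2 * β + 2 * N * ℓ) ≤ Real.exp (α + β) :=
    Real.exp_le_exp.2 (by nlinarith)
  linarith

lemma nt_finite {Δ : Subgroup SL(2, ℝ)} (hΔ : DF Δ) (B : ℝ) :
    {g : SL(2, ℝ) | g ∈ Δ ∧ g 0 0 ^ 2 + g 0 1 ^ 2 + g 1 0 ^ 2 + g 1 1 ^ 2 ≤ B}.Finite := by
  apply (hΔ.finite UpperHalfPlane.I B).subset
  rintro g ⟨hg, hB⟩
  refine ⟨hg, ?_⟩
  have h1 := cosh_dist_eq UpperHalfPlane.I (g • UpperHalfPlane.I)
  obtain ⟨h2, h3⟩ := smul_re_im g UpperHalfPlane.I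
  have hd := den_pos g UpperHalfPlane.I
  have hI1 : (UpperHalfPlane.I).re = 0 := by simp
  have hI2 : (UpperHalfPlane.I).im = 1 := by simp
  rw [hI1, hI2] at h2 h3 hd
  rw [hI1, hI2, h2, h3] at h1
  have hdet := det_eq g
  have h4 : 2 * Real.cosh (dist UpperHalfPlane.I (g • UpperHalfPlane.I)) =
      g 0 0 ^ 2 + g 0 1 ^ 2 + g 1 0 ^ 2 + g 1 1 ^ 2 := by
    simp only [mul_zero, zero_add, mul_one, one_pow, zero_sub, one_mul] at h1 hd
    rw [h1, div_eq_iff (by positivity)]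
    have hd2 : (g 0 0 * g 1 1 - g 0 1 * g 1 0) ^ 2 = 1 := by rw [hdet]; ring
    field_simp
    linear_combination (-1 : ℝ) * hd2
  set x := dist UpperHalfPlane.I (g • UpperHalfPlane.I)
  have h5 := Real.add_one_le_exp x
  have h6 : Real.exp x = Real.cosh x + Real.sinh x := (Real.cosh_add_sinh x).symm
  have h7 := Real.sinh_lt_cosh x
  linarith

/-- right (`ε = 1`) or left (`ε = -1`) elements -/
def nt_R (ε : ℝ) (g : SL(2, ℝ)) : Prop := 0 < ε * (g 0 0 * g 1 0) ∧ 0 < ε * (g 0 1 * g 1 1)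

lemma nt_min {Δ : Subgroup SL(2, ℝ)} (hΔ : DF Δ) {ℓ : ℝ} (hℓ : 0 < ℓ) {γ : SL(2, ℝ)}
    (hγ : γ ∈ Δ) (hγd : γ = dg ℓ ∨ γ = - dg ℓ)
    (htri : ∀ g ∈ Δ, (g 0 1 = 0 ∧ g 1 0 = 0) ∨ 0 < g 0 1 * g 1 0 ∨ g 0 1 * g 1 0 < -1)
    (ε : ℝ) (hR : ∃ g ∈ Δ, nt_R ε g) :
    ∃ h ∈ Δ, nt_R ε h ∧ ∀ g ∈ Δ, nt_R ε g →
      |h 0 0 * h 1 1 + h 0 1 * h 1 0| ≤ |g 0 0 * g 1 1 + g 0 1 * g 1 0| := by
  -- reduction
  have red : ∀ g ∈ Δ, nt_R ε g → ∃ g' ∈ Δ, nt_R ε g' ∧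
      |g' 0 0 * g' 1 1 + g' 0 1 * g' 1 0| = |g 0 0 * g 1 1 + g 0 1 * g 1 0| ∧
      g' 0 0 ^ 2 + g' 0 1 ^ 2 + g' 1 0 ^ 2 + g' 1 1 ^ 2 ≤
        |g 0 0 * g 1 1 + g 0 1 * g 1 0| * (Real.exp (2 * ℓ) + 1) := by
    intro g hg hgR
    obtain ⟨r1, r2⟩ := hgR
    have hε : ε ≠ 0 := by rintro rfl; simp at r1
    have n00 : g 0 0 ≠ 0 := by rintro h; rw [h] at r1; simp at r1
    have n10 : g 1 0 ≠ 0 := by rintro h; rw [h] at r1; simp at r1
    have n01 : g 0 1 ≠ 0 := by rintro h; rw [h] at r2; simp at r2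
    have n11 : g 1 1 ≠ 0 := by rintro h; rw [h] at r2; simp at r2
    obtain ⟨i, hi⟩ := nt_choose ℓ hℓ _ _ n00 n11
    obtain ⟨j, hj⟩ := nt_choose ℓ hℓ _ _ n01 n10
    obtain ⟨η, hη, k1, k2, k3, k4⟩ := nt_entries hγd g i j
    have ei : Real.exp (i * ℓ) * Real.exp (-(i * ℓ)) = 1 := by
      rw [← Real.exp_add]; simp
    have ej : Real.exp (j * ℓ) * Real.exp (-(j * ℓ)) = 1 := by
      rw [← Real.exp_add]; simp
    refine ⟨γ ^ (i + j) * g * γ ^ (i - j),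
      Δ.mul_mem (Δ.mul_mem (Δ.zpow_mem hγ _) hg) (Δ.zpow_mem hγ _), ⟨?_, ?_⟩, ?_, ?_⟩
    · rw [k1, k3]
      have : ε * (η * (g 0 0 * Real.exp (i * ℓ)) * (η * (g 1 0 * Real.exp (-(j * ℓ))))) =
          ε * (g 0 0 * g 1 0) * (Real.exp (i * ℓ) * Real.exp (-(j * ℓ))) * η ^ 2 := by ring
      rw [this, hη]; positivity
    · rw [k2, k4]
      have : ε * (η * (g 0 1 * Real.exp (j * ℓ)) * (η * (g 1 1 * Real.exp (-(i * ℓ))))) =
          ε * (g 0 1 * g 1 1) * (Real.exp (j * ℓ) * Real.exp (-(i * ℓ))) * η ^ 2 := by ring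
      rw [this, hη]; positivity
    · rw [k1, k2, k3, k4]
      congr 1
      have : η * (g 0 0 * Real.exp (i * ℓ)) * (η * (g 1 1 * Real.exp (-(i * ℓ)))) +
          η * (g 0 1 * Real.exp (j * ℓ)) * (η * (g 1 0 * Real.exp (-(j * ℓ)))) =
          η ^ 2 * (g 0 0 * g 1 1 * (Real.exp (i * ℓ) * Real.exp (-(i * ℓ))) +
            g 0 1 * g 1 0 * (Real.exp (j * ℓ) * Real.exp (-(j * ℓ)))) := by ring
      rw [this, hη, ei, ej]; ring
    · have habs : |g 0 0 * g 1 1 + g 0 1 * g 1 0| = |g 0 0 * g 1 1| + |g 0 1 * g 1 0| := by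
        have hdet := det_eq g
        rcases htri g hg with ⟨h0, _⟩ | h0 | h0
        · exact absurd h0 n01
        · rw [abs_of_pos (by linarith), abs_of_pos (by linarith), abs_of_pos h0]
        · rw [abs_of_neg (by linarith), abs_of_neg (by linarith), abs_of_neg (by linarith)]; ring
      rw [habs, k1, k2, k3, k4]
      have : (η * (g 0 0 * Real.exp (i * ℓ))) ^ 2 + (η * (g 0 1 * Real.exp (j * ℓ))) ^ 2 +
          (η * (g 1 0 * Real.exp (-(j * ℓ)))) ^ 2 + (η * (g 1 1 * Real.exp (-(i * ℓ)))) ^ 2 =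
          η ^ 2 * (((g 0 0 * Real.exp (i * ℓ)) ^ 2 + (g 1 1 * Real.exp (-(i * ℓ))) ^ 2) +
            ((g 0 1 * Real.exp (j * ℓ)) ^ 2 + (g 1 0 * Real.exp (-(j * ℓ))) ^ 2)) := by ring
      rw [this, hη]; linarith
  obtain ⟨g0, hg0, hg0R⟩ := hR
  set B := |g0 0 0 * g0 1 1 + g0 0 1 * g0 1 0| * (Real.exp (2 * ℓ) + 1) with hB
  have hfin : ({g : SL(2, ℝ) | g ∈ Δ ∧ g 0 0 ^ 2 + g 0 1 ^ 2 + g 1 0 ^ 2 + g 1 1 ^ 2 ≤ B} ∩
      {g | nt_R ε g}).Finite := (nt_finite hΔ B).inter_of_left _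
  obtain ⟨g1, hg1, hg1R, hg1k, hg1B⟩ := red g0 hg0 hg0R
  obtain ⟨h, ⟨⟨hh1, hh2⟩, hh3⟩, hmin⟩ := Set.exists_min_image _
    (fun g : SL(2, ℝ) => |g 0 0 * g 1 1 + g 0 1 * g 1 0|) hfin ⟨g1, ⟨hg1, hg1B⟩, hg1R⟩
  refine ⟨h, hh1, hh3, fun g hg hgR => ?_⟩
  have hle : |h 0 0 * h 1 1 + h 0 1 * h 1 0| ≤ |g0 0 0 * g0 1 1 + g0 0 1 * g0 1 0| := by
    rw [← hg1k]
    exact hmin g1 ⟨⟨hg1, hg1B⟩, hg1R⟩
  rcases le_or_gt |g 0 0 * g 1 1 + g 0 1 * g 1 0| |g0 0 0 * g0 1 1 + g0 0 1 * g0 1 0| with hc | hc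
  · obtain ⟨g2, hg2, hg2R, hg2k, hg2B⟩ := red g hg hgR
    rw [← hg2k]
    refine hmin g2 ⟨⟨hg2, hg2B.trans ?_⟩, hg2R⟩
    exact mul_le_mul_of_nonneg_right hc (by positivity)
  · exact hle.trans hc.le



lemma nt_cont_mk (f g : ℝ → ℝ) (hf : Continuous f) (hg : Continuous g) (hpos : ∀ t, 0 < g t) :
    Continuous (fun t => (⟨⟨f t, g t⟩, hpos t⟩ : ℍ)) := by
  rw [UpperHalfPlane.isEmbedding_coe.continuous_iff]
  have : (UpperHalfPlane.coe ∘ fun t => (⟨⟨f t, g t⟩, hpos t⟩ : ℍ)) =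
      fun t => ((f t : ℝ) : ℂ) + ((g t : ℝ) : ℂ) * Complex.I := by
    funext t
    apply Complex.ext <;> simp
  rw [this]
  exact (Complex.continuous_ofReal.comp hf).add
    ((Complex.continuous_ofReal.comp hg).mul continuous_const)

/-- the point at distance `t` from the imaginary axis on the circle of radius `r` -/
noncomputable def nt_pt (r ε : ℝ) (hr : 0 < r) (t : ℝ) : ℍ :=
  ⟨⟨r * (ε * (Real.sinh t / Real.cosh t)), r / Real.cosh t⟩, div_pos hr (Real.cosh_pos t)⟩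

/-- parametrisation of the line `re = κ im` -/
noncomputable def nt_ray (κ : ℝ) (u : ℝ) : ℍ :=
  ⟨⟨κ * Real.exp u, Real.exp u⟩, Real.exp_pos u⟩

lemma nt_pt_cont (r ε : ℝ) (hr : 0 < r) : Continuous (nt_pt r ε hr) := by
  unfold nt_pt
  apply nt_cont_mk
  · exact continuous_const.mul (continuous_const.mul
      (Real.continuous_sinh.div Real.continuous_cosh (fun t => (Real.cosh_pos t).ne')))
  · exact continuous_const.div Real.continuous_cosh (fun t => (Real.cosh_pos t).ne')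

lemma nt_ray_cont (κ : ℝ) : Continuous (nt_ray κ) := by
  unfold nt_ray
  apply nt_cont_mk
  · exact continuous_const.mul Real.continuous_exp
  · exact Real.continuous_exp

lemma nt_pt_re (r ε : ℝ) (hr : 0 < r) (t : ℝ) :
    (nt_pt r ε hr t).re = r * (ε * (Real.sinh t / Real.cosh t)) := rfl
lemma nt_pt_im (r ε : ℝ) (hr : 0 < r) (t : ℝ) :
    (nt_pt r ε hr t).im = r / Real.cosh t := rfl
lemma nt_ray_re (κ u : ℝ) : (nt_ray κ u).re = κ * Real.exp u := rfl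
lemma nt_ray_im (κ u : ℝ) : (nt_ray κ u).im = Real.exp u := rfl

lemma nt_ray_surj (z : ℍ) : nt_ray (z.re / z.im) (Real.log z.im) = z := by
  have hz := z.im_pos
  apply UpperHalfPlane.ext
  apply Complex.ext
  · show z.re / z.im * Real.exp (Real.log z.im) = z.re
    rw [Real.exp_log hz]; field_simp
  · show Real.exp (Real.log z.im) = z.im
    rw [Real.exp_log hz]

lemma nt_abs_le (z : ℍ) (κ : ℝ) : |z.re| ≤ κ * z.im ↔ |z.re / z.im| ≤ κ := by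
  rw [abs_div, abs_of_pos z.im_pos, div_le_iff₀ z.im_pos]

lemma nt_abs_lt (z : ℍ) (κ : ℝ) : |z.re| < κ * z.im ↔ |z.re / z.im| < κ := by
  rw [abs_div, abs_of_pos z.im_pos, div_lt_iff₀ z.im_pos]

lemma nt_diag (g : SL(2, ℝ)) (h1 : g 0 1 = 0) (h2 : g 1 0 = 0) (z : ℍ) :
    (g • z).re / (g • z).im = z.re / z.im := by
  have hdet := det_eq g
  rw [h1, h2] at hdet
  rw [nt_ratio, h1, h2]
  congr 1
  linear_combination z.re * hdet

/-- points on the boundary of a collar are outside the open collars -/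
lemma nt_out (Δ : Subgroup SL(2, ℝ)) (κ₀ : ℝ)
    (hcol : ∀ g ∈ Δ, ∀ z : ℍ, |z.re| ≤ κ₀ * z.im → |(g • z).re| ≤ κ₀ * (g • z).im →
      g 0 1 = 0 ∧ g 1 0 = 0)
    (κ : ℝ) (hκκ : κ < κ₀) (z : ℍ) (hz : |z.re / z.im| = κ) (g : SL(2, ℝ)) (hg : g ∈ Δ) :
    κ * (g • z).im ≤ |(g • z).re| := by
  by_contra hlt
  push Not at hlt
  rw [nt_abs_lt] at hlt
  obtain ⟨h1, h2⟩ := hcol g hg z ((nt_abs_le z κ₀).2 (by linarith))
    ((nt_abs_le (g • z) κ₀).2 (by linarith))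
  rw [nt_diag g h1 h2, hz] at hlt
  exact lt_irrefl _ hlt

/-- ratio along the perpendicular -/
lemma nt_pt_ratio (r ε : ℝ) (hr : 0 < r) (t : ℝ) :
    (nt_pt r ε hr t).re / (nt_pt r ε hr t).im = ε * Real.sinh t := by
  have := Real.cosh_pos t
  rw [nt_pt_re, nt_pt_im]; field_simp

lemma nt_pt_norm (r ε : ℝ) (hr : 0 < r) (hε : ε ^ 2 = 1) (t : ℝ) :
    (nt_pt r ε hr t).re ^ 2 + (nt_pt r ε hr t).im ^ 2 = r ^ 2 := by
  have h1 := Real.cosh_pos t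
  have h2 := Real.cosh_sq t
  rw [nt_pt_re, nt_pt_im]; field_simp
  rw [h2, hε]; ring

/-- the estimate on the perpendicular -/
lemma nt_perp (Δ : Subgroup SL(2, ℝ))
    (htri : ∀ g ∈ Δ, (g 0 1 = 0 ∧ g 1 0 = 0) ∨ 0 < g 0 1 * g 1 0 ∨ g 0 1 * g 1 0 < -1)
    (ε : ℝ) (hε : ε ^ 2 = 1) (K : ℝ)
    (hmin : ∀ g ∈ Δ, nt_R ε g → K ≤ |g 0 0 * g 1 1 + g 0 1 * g 1 0|)
    (D w κ : ℝ) (hK : Real.cosh D = K) (hw : Real.sinh w = κ) (hκ : 0 < κ)
    (r : ℝ) (hr : 0 < r) (t : ℝ) (ht1 : w ≤ t) (ht2 : t ≤ D - w) (g : SL(2, ℝ)) (hg : g ∈ Δ) :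
    κ * (g • nt_pt r ε hr t).im ≤ |(g • nt_pt r ε hr t).re| := by
  by_contra hlt
  push Not at hlt
  rw [nt_abs_lt] at hlt
  have hs : κ ≤ Real.sinh t := by rw [← hw]; exact Real.sinh_le_sinh.2 ht1
  have hε1 : |ε| = 1 := by
    rw [← sq_eq_sq₀ (abs_nonneg _) zero_le_one, sq_abs, hε, one_pow]
  have hε0 : ε ≠ 0 := by rintro rfl; norm_num at hε
  have hw0 : 0 < w := by
    rw [← Real.sinh_pos_iff, hw]; exact hκ
  set z := nt_pt r ε hr t with hz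
  have hzr : z.re / z.im = ε * Real.sinh t := nt_pt_ratio r ε hr t
  have hdet := det_eq g
  rcases htri g hg with ⟨h1, h2⟩ | hbc
  · rw [nt_diag g h1 h2, hzr, abs_mul, hε1, one_mul, abs_of_pos (by linarith)] at hlt
    linarith
  · -- nondiagonal
    have hP : 0 < (g 0 0 * g 0 1) * (g 1 0 * g 1 1) := by
      have e : (g 0 0 * g 0 1) * (g 1 0 * g 1 1) = (g 0 1 * g 1 0) * (1 + g 0 1 * g 1 0) := by
        linear_combination (g 0 1 * g 1 0) * hdet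
      rw [e]
      rcases hbc with h | h
      · positivity
      · nlinarith
    have hk1 : 1 ≤ |g 0 0 * g 1 1 + g 0 1 * g 1 0| := by
      rcases hbc with h | h
      · rw [abs_of_pos (by linarith)]; linarith
      · rw [abs_of_neg (by linarith)]; linarith
    set S := (g • z).re / (g • z).im with hS
    rcases lt_trichotomy (ε * (g 1 0 * g 1 1)) 0 with hc | hc | hc
    · -- the translate is on the good side
      have hc2 : ε * (g 0 0 * g 0 1) < 0 := by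
        have e : (ε * (g 0 0 * g 0 1)) * (ε * (g 1 0 * g 1 1)) =
            (g 0 0 * g 0 1) * (g 1 0 * g 1 1) := by
          linear_combination ((g 0 0 * g 0 1) * (g 1 0 * g 1 1)) * hε
        by_contra hcon
        push Not at hcon
        nlinarith
      obtain ⟨i1, i2, i3, i4⟩ := inv_entries g
      have hR : nt_R ε g⁻¹ := by
        refine ⟨?_, ?_⟩
        · rw [i1, i3]; nlinarith
        · rw [i2, i4]; nlinarith
      have h1 := hmin g⁻¹ (Δ.inv_mem hg) hR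
      rw [i1, i2, i3, i4] at h1
      have h2 : g 1 1 * g 0 0 + -g 0 1 * -g 1 0 = g 0 0 * g 1 1 + g 0 1 * g 1 0 := by ring
      rw [h2] at h1
      have key := nt_key g z
      rw [← hS, hzr] at key
      set τ := Real.arsinh |S| with hτ
      have hsτ : Real.sinh τ = |S| := Real.sinh_arsinh _
      have hτ0 : 0 ≤ τ := by
        rw [← Real.sinh_nonneg_iff, hsτ]; exact abs_nonneg _
      have hτw : τ < w := by
        rw [← Real.sinh_lt_sinh, hsτ, hw]; exact hlt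
      have e1 : (1 + (ε * Real.sinh t) ^ 2) * (1 + S ^ 2) =
          (Real.cosh t * Real.cosh τ) ^ 2 := by
        rw [mul_pow, mul_pow, hε, Real.cosh_sq, Real.cosh_sq, hsτ, sq_abs]; ring
      rw [e1] at key
      have h3 := abs_le_of_sq_le_sq key
        (mul_pos (Real.cosh_pos t) (Real.cosh_pos τ)).le
      have h4 : |g 0 0 * g 1 1 + g 0 1 * g 1 0| ≤ Real.cosh (t + τ) := by
        rw [Real.cosh_add, hsτ]
        have h5 : |ε * Real.sinh t * S| = Real.sinh t * |S| := by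
          rw [abs_mul, abs_mul, hε1, abs_of_pos (by linarith), one_mul]
        have h6 : |g 0 0 * g 1 1 + g 0 1 * g 1 0| ≤
            |(g 0 0 * g 1 1 + g 0 1 * g 1 0) + ε * Real.sinh t * S| + |ε * Real.sinh t * S| := by
          have := abs_sub_abs_le_abs_sub (g 0 0 * g 1 1 + g 0 1 * g 1 0) (-(ε * Real.sinh t * S))
          rw [abs_neg, sub_neg_eq_add] at this
          linarith
        rw [h5] at h6
        have h7 : |(g 0 0 * g 1 1 + g 0 1 * g 1 0) + ε * Real.sinh t * S| ≤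
            Real.cosh t * Real.cosh τ := h3
        linarith
      have h5 : Real.cosh (t + τ) < Real.cosh D := by
        rw [Real.cosh_lt_cosh, abs_of_nonneg (by linarith), abs_of_nonneg (by linarith)]
        linarith
      linarith
    · exfalso
      have : g 1 0 * g 1 1 = 0 := by
        rcases mul_eq_zero.1 hc with h | h
        · exact absurd h hε0
        · exact h
      rw [this, mul_zero] at hP
      exact lt_irrefl _ hP
    · -- the translate is on the other side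
      have hc2 : 0 < ε * (g 0 0 * g 0 1) := by
        have e : (ε * (g 0 0 * g 0 1)) * (ε * (g 1 0 * g 1 1)) =
            (g 0 0 * g 0 1) * (g 1 0 * g 1 1) := by
          linear_combination ((g 0 0 * g 0 1) * (g 1 0 * g 1 1)) * hε
        by_contra hcon
        push Not at hcon
        nlinarith
      have hzi := z.im_pos
      have hSe : S = (g 0 0 * g 1 0 * (z.re ^ 2 + z.im ^ 2) +
          (g 0 0 * g 1 1 + g 0 1 * g 1 0) * z.re + g 0 1 * g 1 1) / z.im := nt_ratio g z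
      set k := g 0 0 * g 1 1 + g 0 1 * g 1 0 with hk
      have hzre : z.re = ε * Real.sinh t * z.im := by
        rw [← hzr]; field_simp
      have e1 : ε * k * S = (ε * (k * (g 0 0 * g 1 0)) * (z.re ^ 2 + z.im ^ 2) +
          ε * (k * (g 0 1 * g 1 1))) / z.im + k ^ 2 * Real.sinh t := by
        rw [hSe]
        have : k ^ 2 * Real.sinh t = (k ^ 2 * Real.sinh t * z.im) / z.im := by field_simp
        rw [this, ← add_div, ← mul_div_assoc]
        congr 1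
        have e2 : ε * k * (k * z.re) = k ^ 2 * Real.sinh t * z.im := by
          rw [hzre]
          linear_combination (k ^ 2 * Real.sinh t * z.im) * hε
        linear_combination e2
      have e3 : 0 < ε * (k * (g 0 0 * g 1 0)) := by
        have n0 : g 0 0 ≠ 0 := by rintro h; rw [h] at hP; simp at hP
        have : ε * (k * (g 0 0 * g 1 0)) = g 0 0 ^ 2 * (ε * (g 1 0 * g 1 1)) +
            g 1 0 ^ 2 * (ε * (g 0 0 * g 0 1)) := by rw [hk]; ring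
        rw [this]; positivity
      have e4 : 0 < ε * (k * (g 0 1 * g 1 1)) := by
        have n0 : g 0 1 ≠ 0 := by rintro h; rw [h] at hP; simp at hP
        have : ε * (k * (g 0 1 * g 1 1)) = g 1 1 ^ 2 * (ε * (g 0 0 * g 0 1)) +
            g 0 1 ^ 2 * (ε * (g 1 0 * g 1 1)) := by rw [hk]; ring
        rw [this]; positivity
      have e5 : k ^ 2 * Real.sinh t ≤ ε * k * S := by
        rw [e1]
        have : 0 < (ε * (k * (g 0 0 * g 1 0)) * (z.re ^ 2 + z.im ^ 2) +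
          ε * (k * (g 0 1 * g 1 1))) / z.im := by positivity
        linarith
      have e6 : ε * k * S ≤ |k| * |S| := by
        have := le_abs_self (ε * k * S)
        rwa [abs_mul, abs_mul, hε1, one_mul] at this
      rw [← sq_abs k] at e5
      have hk0 : 0 < |k| := by linarith
      have e7 : |k| * Real.sinh t ≤ |S| := by
        have : |k| * (|k| * Real.sinh t) ≤ |k| * |S| := by linarith
        exact le_of_mul_le_mul_left this hk0
      nlinarith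



/-- common form of both targets -/
theorem nt_core (Δ : Subgroup SL(2, ℝ)) (hΔ : DF Δ) (ℓ : ℝ) (hℓ : 0 < ℓ) (γ : SL(2, ℝ))
    (hγ : γ ∈ Δ) (hγd : γ = dg ℓ ∨ γ = - dg ℓ)
    (htri : ∀ g ∈ Δ, (g 0 1 = 0 ∧ g 1 0 = 0) ∨ 0 < g 0 1 * g 1 0 ∨ g 0 1 * g 1 0 < -1)
    (κ₀ : ℝ)
    (hcol : ∀ g ∈ Δ, ∀ z : ℍ, |z.re| ≤ κ₀ * z.im → |(g • z).re| ≤ κ₀ * (g • z).im →
      g 0 1 = 0 ∧ g 1 0 = 0) (ε : ℝ) (hε : ε ^ 2 = 1)
    (hR : ∃ g ∈ Δ, nt_R ε g) (κ : ℝ) (hκ : 0 < κ) (hκκ : κ < κ₀) :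
    ∃ δ ∈ Δ, 0 < ε * (δ 0 1 * δ 1 1) ∧ δ 0 1 * δ 1 0 < 0 ∧ ∃ C : Set ℍ, IsPreconnected C ∧
      (∀ z ∈ C, ∀ g ∈ Δ, κ * (g • z).im ≤ |(g • z).re|) ∧
      (∃ z ∈ C, z.re = ε * (κ * z.im)) ∧
      ∃ z ∈ C, δ • z ∈ C := by
  obtain ⟨h, hh, ⟨r1, r2⟩, hmin⟩ := nt_min hΔ hℓ hγ hγd htri ε hR
  have hdet := det_eq h
  obtain ⟨i1, i2, i3, i4⟩ := inv_entries h
  have hε1 : |ε| = 1 := by
    rw [← sq_eq_sq₀ (abs_nonneg _) zero_le_one, sq_abs, hε, one_pow]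
  have hε0 : ε ≠ 0 := by rintro rfl; norm_num at hε
  obtain ⟨a, ha⟩ : ∃ a, a = h 0 0 := ⟨_, rfl⟩
  obtain ⟨b, hb⟩ : ∃ b, b = h 0 1 := ⟨_, rfl⟩
  obtain ⟨c, hc⟩ : ∃ c, c = h 1 0 := ⟨_, rfl⟩
  obtain ⟨d, hd⟩ : ∃ d, d = h 1 1 := ⟨_, rfl⟩
  rw [← ha, ← hc] at r1
  rw [← hb, ← hd] at r2
  simp only [← ha, ← hb, ← hc, ← hd] at hdet i1 i2 i3 i4 hmin
  have nb : b ≠ 0 := by rintro h; rw [h] at r2; simp at r2
  have nc : c ≠ 0 := by rintro h; rw [h] at r1; simp at r1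
  have nd : d ≠ 0 := by rintro h; rw [h] at r2; simp at r2
  have na : a ≠ 0 := by rintro h; rw [h] at r1; simp at r1
  have habcd : 0 < (a * b) * (c * d) := by
    have : (a * b) * (c * d) = (ε * (a * c)) * (ε * (b * d)) := by
      linear_combination (-(a * b * (c * d))) * hε
    rw [this]; positivity
  have hbc : 0 < b * c ∨ b * c < -1 := by
    rcases htri h hh with ⟨h0, _⟩ | h0 | h0
    · exact absurd (hb.trans h0) nb
    · left; rw [hb, hc]; exact h0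
    · right; rw [hb, hc]; exact h0
  set k := a * d + b * c with hk
  have hk2 : k ^ 2 = 1 + 4 * ((a * b) * (c * d)) := by
    have : (a * d - b * c) ^ 2 = 1 := by rw [hdet]; ring
    rw [hk]; linear_combination this
  have hkab : 0 < ε * (k * (a * b)) := by
    have : ε * (k * (a * b)) = a ^ 2 * (ε * (b * d)) + b ^ 2 * (ε * (a * c)) := by rw [hk]; ring
    rw [this]; positivity
  have hcd0 : c * d ≠ 0 := mul_ne_zero nc nd
  have hq : 0 < a * b / (c * d) := by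
    have : a * b / (c * d) = (a * b) * (c * d) / (c * d) ^ 2 := by field_simp
    rw [this]; positivity
  set r := Real.sqrt (a * b / (c * d)) with hr
  have hr0 : 0 < r := Real.sqrt_pos.2 hq
  have hr2 : r ^ 2 * (c * d) = a * b := by
    rw [hr, Real.sq_sqrt hq.le]; field_simp
  set sD := 2 * |a * b| / r with hsD
  have hab0 : a * b ≠ 0 := mul_ne_zero na nb
  have hsD0 : 0 < sD := by
    have := abs_pos.2 hab0
    positivity
  have hsD2 : 1 + sD ^ 2 = k ^ 2 := by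
    rw [hsD, div_pow, mul_pow, sq_abs, hk2]
    have : (a * b) ^ 2 / r ^ 2 = (a * b) * (c * d) := by
      rw [div_eq_iff (by positivity)]
      linear_combination (-(a * b)) * hr2
    have e : (2 : ℝ) ^ 2 * (a * b) ^ 2 / r ^ 2 = 4 * ((a * b) ^ 2 / r ^ 2) := by ring
    rw [e, this]
  set D := Real.arsinh sD with hD
  have hDs : Real.sinh D = sD := Real.sinh_arsinh _
  have hDc : Real.cosh D = |k| := by
    rw [← sq_eq_sq₀ (Real.cosh_pos D).le (abs_nonneg k), Real.cosh_sq, hDs, sq_abs]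
    linarith
  have hD0 : 0 < D := by rw [← Real.sinh_pos_iff, hDs]; exact hsD0
  set w := Real.arsinh κ with hw
  have hws : Real.sinh w = κ := Real.sinh_arsinh _
  have hw0 : 0 < w := by rw [← Real.sinh_pos_iff, hws]; exact hκ
  -- the ratio for h⁻¹
  have hS : ∀ t, |(h⁻¹ • nt_pt r ε hr0 t).re / (h⁻¹ • nt_pt r ε hr0 t).im| =
      |Real.sinh (t - D)| := by
    intro t
    rw [← sq_eq_sq_iff_abs_eq_abs, nt_ratio, nt_pt_norm r ε hr0 hε, i1, i2, i3, i4]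
    have hz := (nt_pt r ε hr0 t).im_pos
    have hzr := nt_pt_ratio r ε hr0 t
    have hct := Real.cosh_pos t
    have e1 : (d * -c * r ^ 2 + (d * a + -b * -c) * (nt_pt r ε hr0 t).re + -b * a) /
        (nt_pt r ε hr0 t).im = k * (ε * Real.sinh t) - 2 * (a * b) / r * Real.cosh t := by
      rw [← hzr, nt_pt_re, nt_pt_im]
      have : d * -c * r ^ 2 = -(a * b) := by linear_combination (-1 : ℝ) * hr2
      rw [this, hk]
      field_simp
      ring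
    rw [e1, Real.sinh_sub, hDs, hDc]
    have e2 : ε * (k * (a * b)) = |k| * |a * b| := by
      rw [← abs_of_pos hkab, abs_mul, abs_mul, hε1, one_mul]
    have e3 : sD = 2 * |a * b| / r := hsD
    have e4 : |k| ^ 2 = k ^ 2 := sq_abs k
    have e5 : |a * b| ^ 2 = (a * b) ^ 2 := sq_abs _
    rw [e3]
    have e6 : (k * (ε * Real.sinh t) - 2 * (a * b) / r * Real.cosh t) ^ 2 =
        k ^ 2 * ε ^ 2 * Real.sinh t ^ 2 - 4 * (ε * (k * (a * b))) / r * Real.sinh t * Real.cosh t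
          + 4 * (a * b) ^ 2 / r ^ 2 * Real.cosh t ^ 2 := by field_simp; ring
    have e7 : (Real.sinh t * |k| - Real.cosh t * (2 * |a * b| / r)) ^ 2 =
        |k| ^ 2 * Real.sinh t ^ 2 - 4 * (|k| * |a * b|) / r * Real.sinh t * Real.cosh t
          + 4 * |a * b| ^ 2 / r ^ 2 * Real.cosh t ^ 2 := by field_simp; ring
    rw [e6, e7, e2, e4, e5, hε]; ring
  -- the perpendicular is long
  have hwD : w ≤ D - w := by
    by_contra hcon
    push Not at hcon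
    have h1 : Real.sinh (D / 2) ≤ κ₀ := by
      have : Real.sinh (D / 2) < Real.sinh w := Real.sinh_lt_sinh.2 (by linarith)
      rw [hws] at this; linarith
    have h1' : 0 < Real.sinh (D / 2) := Real.sinh_pos_iff.2 (by linarith)
    have h2 := hcol h⁻¹ (Δ.inv_mem hh) (nt_pt r ε hr0 (D / 2)) (by
      rw [nt_abs_le, nt_pt_ratio, abs_mul, hε1, one_mul, abs_of_pos h1']; exact h1) (by
      rw [nt_abs_le, hS, show D / 2 - D = -(D / 2) by ring, Real.sinh_neg, abs_neg,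
        abs_of_pos h1']
      exact h1)
    rw [i2] at h2
    exact nb (neg_eq_zero.1 h2.1)
  -- the element
  set δ := h * γ * h⁻¹ with hδ
  have hδΔ : δ ∈ Δ := Δ.mul_mem (Δ.mul_mem hh hγ) (Δ.inv_mem hh)
  have hent : ∃ η : ℝ, η ^ 2 = 1 ∧ ∀ i j : Fin 2, δ i j = η * (h * dg ℓ * h⁻¹) i j := by
    rcases hγd with e | e
    · exact ⟨1, by norm_num, fun i j => by rw [hδ, e, one_mul]⟩
    · exact ⟨-1, by norm_num, fun i j => by
        rw [hδ, e, mul_neg, neg_mul, neg_entries]; ring⟩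
  obtain ⟨η, hη, hent⟩ := hent
  obtain ⟨m1, m2, m3, m4⟩ := mul_entries (h * dg ℓ) h⁻¹
  obtain ⟨n1, n2, n3, n4⟩ := mul_entries h (dg ℓ)
  obtain ⟨d1, d2, d3, d4⟩ := dg_entries ℓ
  rw [n1, n2, i1, i3, d1, d2, d3, d4, ← ha, ← hb] at m1
  rw [n1, n2, i2, i4, d1, d2, d3, d4, ← ha, ← hb] at m2
  rw [n3, n4, i1, i3, d1, d2, d3, d4, ← hc, ← hd] at m3
  rw [n3, n4, i2, i4, d1, d2, d3, d4, ← hc, ← hd] at m4
  set μ := Real.exp (ℓ / 2) with hμ
  set ν := Real.exp (-(ℓ / 2)) with hν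
  have hμν : μ * ν = 1 := by rw [hμ, hν, ← Real.exp_add]; simp
  have hlt : 0 < μ - ν := by
    have : ν < μ := Real.exp_lt_exp.2 (by linarith)
    linarith
  have hν0 : 0 < ν := Real.exp_pos _
  have hμ0 : 0 < μ := Real.exp_pos _
  have p1 : δ 0 1 * δ 1 0 = -((a * b) * (c * d) * (μ - ν) ^ 2) := by
    rw [hent, hent, m2, m3]
    linear_combination (-((a * b) * (c * d) * (μ - ν) ^ 2)) * hη
  have p2 : δ 0 1 * δ 1 0 < 0 := by
    rw [p1]
    have : 0 < (a * b) * (c * d) * (μ - ν) ^ 2 := by positivity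
    linarith
  have p3 : δ 0 1 * δ 1 0 < -1 := by
    rcases htri δ hδΔ with ⟨h0, _⟩ | h0 | h0
    · rw [h0] at p2; simp at p2
    · linarith
    · exact h0
  have p4 : δ 0 0 * δ 1 1 < 0 := by
    have := det_eq δ
    linarith
  have p5 : (a * d * μ - b * c * ν) * (a * d * ν - b * c * μ) < 0 := by
    have : δ 0 0 * δ 1 1 = (a * d * μ - b * c * ν) * (a * d * ν - b * c * μ) := by
      rw [hent, hent, m1, m4]
      linear_combination ((a * d * μ - b * c * ν) * (a * d * ν - b * c * μ)) * hη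
    rw [← this]; exact p4
  have p6 : ε * (δ 0 1 * δ 1 1) = -(ε * (a * b)) * (μ - ν) * (a * d * ν - b * c * μ) := by
    rw [hent, hent, m2, m4]
    linear_combination (-(ε * (a * b)) * (μ - ν) * (a * d * ν - b * c * μ)) * hη
  have p7 : 0 < ε * (δ 0 1 * δ 1 1) := by
    rw [p6]
    have had : a * d = 1 + b * c := by linarith
    rcases hbc with h0 | h0
    · have k0 : 0 < k := by rw [hk, had]; linarith
      have q1 : 0 < ε * (a * b) := by
        have : ε * (k * (a * b)) = k * (ε * (a * b)) := by ring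
        rw [this] at hkab
        exact (mul_pos_iff_of_pos_left k0).1 hkab
      have q2 : 0 < a * d * μ - b * c * ν := by
        rw [had]
        have : (1 + b * c) * μ - b * c * ν = μ + b * c * (μ - ν) := by ring
        rw [this]; positivity
      have q3 : a * d * ν - b * c * μ < 0 := by
        by_contra hcon
        push Not at hcon
        have := mul_nonneg q2.le hcon
        linarith
      have : -(ε * (a * b)) * (μ - ν) * (a * d * ν - b * c * μ) =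
        (ε * (a * b)) * (μ - ν) * (-(a * d * ν - b * c * μ)) := by ring
      rw [this]
      exact mul_pos (mul_pos q1 hlt) (by linarith)
    · have k0 : k < 0 := by rw [hk, had]; linarith
      have q1 : ε * (a * b) < 0 := by
        have : ε * (k * (a * b)) = (-k) * (-(ε * (a * b))) := by ring
        rw [this] at hkab
        have := (mul_pos_iff_of_pos_left (by linarith : 0 < -k)).1 hkab
        linarith
      have q3 : 0 < a * d * ν - b * c * μ := by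
        rw [had]
        have : (1 + b * c) * ν - b * c * μ = ν + (-(b * c)) * (μ - ν) := by ring
        rw [this]
        have : 0 < -(b * c) := by linarith
        positivity
      exact mul_pos (mul_pos (by linarith) hlt) q3
  -- the connected set
  set κ' := (h⁻¹ • nt_pt r ε hr0 (D - w)).re / (h⁻¹ • nt_pt r ε hr0 (D - w)).im with hκ'
  have hκ'a : |κ'| = κ := by
    rw [hκ', hS, show D - w - D = -w by ring, Real.sinh_neg, abs_neg, hws, abs_of_pos hκ]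
  have hray : ∀ (x u : ℝ), (nt_ray x u).re / (nt_ray x u).im = x := by
    intro x u
    rw [nt_ray_re, nt_ray_im]
    have := Real.exp_pos u
    field_simp
  refine ⟨δ, hδΔ, p7, p2, (Set.range (nt_ray (ε * κ)) ∪ nt_pt r ε hr0 '' Set.Icc w (D - w)) ∪
    Set.range (fun u => h • nt_ray κ' u), ?_, ?_, ?_, ?_⟩
  · apply IsPreconnected.union (nt_pt r ε hr0 (D - w))
    · exact Or.inr ⟨D - w, ⟨hwD, le_rfl⟩, rfl⟩
    · refine ⟨Real.log (h⁻¹ • nt_pt r ε hr0 (D - w)).im, ?_⟩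
      simp only
      rw [hκ', nt_ray_surj, smul_inv_smul]
    · apply IsPreconnected.union (nt_pt r ε hr0 w)
      · refine ⟨Real.log (nt_pt r ε hr0 w).im, ?_⟩
        have := nt_ray_surj (nt_pt r ε hr0 w)
        rwa [nt_pt_ratio, hws] at this
      · exact ⟨w, ⟨le_rfl, hwD⟩, rfl⟩
      · exact isPreconnected_range (nt_ray_cont _)
      · exact isPreconnected_Icc.image _ (nt_pt_cont r ε hr0).continuousOn
    · exact isPreconnected_range ((continuous_const_smul h).comp (nt_ray_cont _))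
  · rintro z ((⟨u, rfl⟩ | ⟨t, ⟨ht1, ht2⟩, rfl⟩) | ⟨u, rfl⟩) g hg
    · exact nt_out Δ κ₀ hcol κ hκκ _ (by rw [hray, abs_mul, hε1, one_mul, abs_of_pos hκ]) g hg
    · exact nt_perp Δ htri ε hε |k| (fun g hg hgR => hmin g hg hgR) D w κ hDc hws hκ r hr0 t
        ht1 ht2 g hg
    · simp only
      rw [← mul_smul]
      exact nt_out Δ κ₀ hcol κ hκκ _ (by rw [hray, hκ'a]) (g * h) (Δ.mul_mem hg hh)
  · refine ⟨nt_ray (ε * κ) 0, Or.inl (Or.inl ⟨0, rfl⟩), ?_⟩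
    rw [nt_ray_re, nt_ray_im]; ring
  · refine ⟨h • nt_ray κ' 0, Or.inr ⟨0, rfl⟩, Or.inr ⟨ℓ, ?_⟩⟩
    simp only
    rw [hδ, mul_smul, mul_smul, inv_smul_smul]
    congr 1
    have e : γ • nt_ray κ' 0 = dg ℓ • nt_ray κ' 0 := by
      rcases hγd with e | e
      · rw [e]
      · rw [e, neg_smul']
    rw [e]
    obtain ⟨e1, e2⟩ := dg_re_im ℓ (nt_ray κ' 0)
    apply UpperHalfPlane.ext
    apply Complex.ext
    · show (nt_ray κ' ℓ).re = (dg ℓ • nt_ray κ' 0).re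
      rw [e1, nt_ray_re, nt_ray_re]; simp; ring
    · show (nt_ray κ' ℓ).im = (dg ℓ • nt_ray κ' 0).im
      rw [e2, nt_ray_im, nt_ray_im]; simp

/-- An element `δ` (a generator of the stabiliser of the nearest translate on the right) and a
connected set outside all open collars joining the right boundary of the collar to points
`z`, `δ z`. -/
theorem delta_right (Δ : Subgroup SL(2, ℝ)) (hΔ : DF Δ) (ℓ : ℝ) (hℓ : 0 < ℓ) (γ : SL(2, ℝ))
    (hγ : γ ∈ Δ) (hγd : γ = dg ℓ ∨ γ = - dg ℓ)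
    (htri : ∀ g ∈ Δ, (g 0 1 = 0 ∧ g 1 0 = 0) ∨ 0 < g 0 1 * g 1 0 ∨ g 0 1 * g 1 0 < -1)
    (κ₀ : ℝ) (hκ₀ : 0 < κ₀)
    (hcol : ∀ g ∈ Δ, ∀ z : ℍ, |z.re| ≤ κ₀ * z.im → |(g • z).re| ≤ κ₀ * (g • z).im →
      g 0 1 = 0 ∧ g 1 0 = 0)
    (hR : ∃ g ∈ Δ, 0 < g 0 0 * g 1 0 ∧ 0 < g 0 1 * g 1 1) (κ : ℝ) (hκ : 0 < κ) (hκκ : κ < κ₀) :
    ∃ δ ∈ Δ, 0 < δ 0 1 * δ 1 1 ∧ ∃ C : Set ℍ, IsPreconnected C ∧
      (∀ z ∈ C, ∀ g ∈ Δ, κ * (g • z).im ≤ |(g • z).re|) ∧ (∃ z ∈ C, z.re = κ * z.im) ∧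
      ∃ z ∈ C, δ • z ∈ C := by
  obtain ⟨g, hg, hg1, hg2⟩ := hR
  obtain ⟨δ, hδ, h1, h2, C, hC1, hC2, ⟨z, hz, hz'⟩, hC4⟩ := nt_core Δ hΔ ℓ hℓ γ hγ hγd htri κ₀
    hcol 1 (by norm_num) ⟨g, hg, by rw [one_mul]; exact hg1, by rw [one_mul]; exact hg2⟩ κ hκ hκκ
  rw [one_mul] at h1 hz'
  exact ⟨δ, hδ, h1, C, hC1, hC2, ⟨z, hz, hz'⟩, hC4⟩

theorem delta_left (Δ : Subgroup SL(2, ℝ)) (hΔ : DF Δ) (ℓ : ℝ) (hℓ : 0 < ℓ) (γ : SL(2, ℝ))
    (hγ : γ ∈ Δ) (hγd : γ = dg ℓ ∨ γ = - dg ℓ)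
    (htri : ∀ g ∈ Δ, (g 0 1 = 0 ∧ g 1 0 = 0) ∨ 0 < g 0 1 * g 1 0 ∨ g 0 1 * g 1 0 < -1)
    (κ₀ : ℝ) (hκ₀ : 0 < κ₀)
    (hcol : ∀ g ∈ Δ, ∀ z : ℍ, |z.re| ≤ κ₀ * z.im → |(g • z).re| ≤ κ₀ * (g • z).im →
      g 0 1 = 0 ∧ g 1 0 = 0)
    (hL : ∃ g ∈ Δ, g 0 0 * g 1 0 < 0 ∧ g 0 1 * g 1 1 < 0) (κ : ℝ) (hκ : 0 < κ) (hκκ : κ < κ₀) :
    ∃ δ ∈ Δ, 0 < δ 1 0 * δ 1 1 ∧ ∃ C : Set ℍ, IsPreconnected C ∧
      (∀ z ∈ C, ∀ g ∈ Δ, κ * (g • z).im ≤ |(g • z).re|) ∧ (∃ z ∈ C, z.re = -(κ * z.im)) ∧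
      ∃ z ∈ C, δ • z ∈ C := by
  obtain ⟨g, hg, hg1, hg2⟩ := hL
  obtain ⟨δ, hδ, h1, h2, C, hC1, hC2, ⟨z, hz, hz'⟩, hC4⟩ := nt_core Δ hΔ ℓ hℓ γ hγ hγd htri κ₀
    hcol (-1) (by norm_num) ⟨g, hg, by nlinarith, by nlinarith⟩ κ hκ hκκ
  refine ⟨δ, hδ, ?_, C, hC1, hC2, ⟨z, hz, by rw [hz']; ring⟩, hC4⟩
  have h3 : δ 0 1 * δ 1 1 < 0 := by linarith
  by_contra hcon
  push Not at hcon
  have h4 : 0 < (δ 0 1 * δ 1 1) * (δ 0 1 * δ 1 0) := mul_pos_of_neg_of_neg h3 h2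
  have h5 : (δ 0 1 * δ 1 1) * (δ 0 1 * δ 1 0) = δ 0 1 ^ 2 * (δ 1 0 * δ 1 1) := by ring
  rw [h5] at h4
  have := mul_nonpos_of_nonneg_of_nonpos (sq_nonneg (δ 0 1)) hcon
  linarith

end Pool.Agent.LengthSpec
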