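import Pool.Agent.LengthSpec.Defs

open UpperHalfPlane MeasureTheory Set
open scoped MatrixGroups Manifold ENNReal Topology

namespace Pool.Agent.LengthSpec

section Finsler

variable (E : Type*) [NormedAddCommGroup E] [NormedSpace ℝ E] {M : Type*} [TopologicalSpace M]
  [ChartedSpace E M] [IsManifold 𝓘(ℝ, E) 1 M]





omit [IsManifold 𝓘(ℝ, E) 1 M] in
theorem split_mass (f : ℝ → ℝ≥0∞) (hf : ∫⁻ t in Icc (0 : ℝ) 1, f t ≠ ⊤) (N : ℕ) (hN : 0 < N) :
    ∃ s : ℕ → ℝ, s 0 = 0 ∧ s N = 1 ∧ (∀ i < N, s i < s (i + 1)) ∧ (∀ i ≤ N, s i ∈ Icc (0 : ℝ) 1) ∧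
      ∀ i < N, ∫⁻ t in Icc (s i) (s (i + 1)), f t ≤ (∫⁻ t in Icc (0 : ℝ) 1, f t) / N := by
  have hN' : (0 : ℝ) < N := by exact_mod_cast hN
  set ν : Measure ℝ := volume.restrict (Icc (0 : ℝ) 1) with hν
  set L : ℝ≥0∞ := ∫⁻ t in Icc (0 : ℝ) 1, f t with hL
  have hsub : ∀ x y : ℝ, 0 ≤ x → y ≤ 1 → ∫⁻ t in Icc x y, f t ≤ L := by
    intro x y hx hy
    exact lintegral_mono_set (Icc_subset_Icc hx hy)
  rcases eq_or_ne L 0 with h0 | h0
  · refine ⟨fun i => (i : ℝ) / N, by simp, by simp [hN'.ne'], ?_, ?_, ?_⟩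
    · intro i _
      push_cast
      exact div_lt_div_of_pos_right (by linarith) hN'
    · intro i hi
      have h1 : (i : ℝ) ≤ N := by exact_mod_cast hi
      exact ⟨by positivity, by rw [div_le_one hN']; exact h1⟩
    · intro i hi
      have h1 : ((i + 1 : ℕ) : ℝ) ≤ N := by exact_mod_cast hi
      have h2 := hsub ((i : ℝ) / N) (((i + 1 : ℕ) : ℝ) / N) (by positivity) (by rw [div_le_one hN']; exact h1)
      rw [h0] at h2
      exact h2.trans zero_le
  · have hI : ∀ S : Set ℝ, ∫⁻ t in S, f t ∂ν ≤ L := fun S => setLIntegral_le_lintegral S f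
    have hIt : ∀ S : Set ℝ, ∫⁻ t in S, f t ∂ν ≠ ⊤ := fun S => ne_top_of_le_ne_top hf (hI S)
    set A : ℝ → ℝ≥0∞ := fun x => ∫⁻ t in Iic x, f t ∂ν with hA
    have hadd : ∀ x y : ℝ, x ≤ y → A y = A x + ∫⁻ t in Ioc x y, f t ∂ν := by
      intro x y hxy
      have h1 : Iic y = Iic x ∪ Ioc x y := (Iic_union_Ioc_eq_Iic hxy).symm
      simp only [hA]
      rw [h1, lintegral_union measurableSet_Ioc]
      exact Set.disjoint_left.2 fun t ht ht' => absurd ht (not_le.2 ht'.1)
    set a : ℝ → ℝ := fun x => (A x).toReal with ha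
    have hadd' : ∀ x y : ℝ, x ≤ y → a y = a x + (∫⁻ t in Ioc x y, f t ∂ν).toReal := by
      intro x y hxy
      simp only [ha]
      rw [hadd x y hxy, ENNReal.toReal_add (hIt _) (hIt _)]
    have hcont : Continuous a := by
      rw [Metric.continuous_iff]
      intro x ε hε
      obtain ⟨δ, hδ0, hδ⟩ := exists_pos_setLIntegral_lt_of_measure_lt (μ := ν) (f := f) hf
        (ε := ENNReal.ofReal ε) (by simpa using hε)
      obtain ⟨δ', hδ'0, hδ'⟩ : ∃ δ' : ℝ, 0 < δ' ∧ ENNReal.ofReal δ' ≤ δ := by
        by_cases h : δ = ⊤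
        · exact ⟨1, one_pos, by rw [h]; exact le_top⟩
        · exact ⟨δ.toReal, ENNReal.toReal_pos hδ0.ne' h, by rw [ENNReal.ofReal_toReal h]⟩
      have key : ∀ u v : ℝ, u ≤ v → v - u < δ' → (∫⁻ t in Ioc u v, f t ∂ν).toReal < ε := by
        intro u v huv hlt
        have h1 : ν (Ioc u v) < δ := by
          refine lt_of_le_of_lt (Measure.restrict_apply_le _ _) ?_
          rw [Real.volume_Ioc]
          refine lt_of_lt_of_le ?_ hδ'
          exact (ENNReal.ofReal_lt_ofReal_iff hδ'0).2 hlt
        have h2 := hδ _ h1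
        have h3 := (ENNReal.toReal_lt_toReal (hIt _) ENNReal.ofReal_ne_top).2 h2
        rwa [ENNReal.toReal_ofReal hε.le] at h3
      refine ⟨δ', hδ'0, fun y hy => ?_⟩
      rw [Real.dist_eq] at hy ⊢
      rcases le_total x y with h | h
      · rw [hadd' x y h, add_sub_cancel_left, abs_of_nonneg ENNReal.toReal_nonneg]
        rw [abs_of_nonneg (by linarith)] at hy
        exact key x y h hy
      · rw [hadd' y x h, sub_add_cancel_left, abs_neg, abs_of_nonneg ENNReal.toReal_nonneg]
        rw [abs_of_nonpos (by linarith)] at hy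
        exact key y x h (by linarith)
    have ha0 : a 0 = 0 := by
      simp only [ha, hA]
      have : ν (Iic 0) = 0 := by
        rw [hν, Measure.restrict_apply measurableSet_Iic]
        have : Iic (0 : ℝ) ∩ Icc 0 1 ⊆ {0} := by
          rintro t ⟨h1, h2⟩
          exact le_antisymm h1 h2.1
        exact measure_mono_null this (by simp)
      rw [Measure.restrict_eq_zero.2 this]
      simp
    have ha1 : a 1 = L.toReal := by
      simp only [ha, hA, hν]
      rw [Measure.restrict_restrict measurableSet_Iic]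
      have : Iic (1 : ℝ) ∩ Icc 0 1 = Icc 0 1 := inter_eq_right.2 fun t ht => ht.2
      rw [this]
    have hmono : Monotone a := by
      intro x y hxy
      rw [hadd' x y hxy]
      have := ENNReal.toReal_nonneg (a := ∫⁻ t in Ioc x y, f t ∂ν)
      linarith
    have hLpos : 0 < L.toReal := ENNReal.toReal_pos h0 hf
    have hex : ∀ i : ℕ, ∃ x ∈ Icc (0 : ℝ) 1, i ≤ N → a x = i * L.toReal / N := by
      intro i
      by_cases hi : i ≤ N
      · have h1 : (i : ℝ) ≤ N := by exact_mod_cast hi
        have hmem : (i : ℝ) * L.toReal / N ∈ Icc (a 0) (a 1) := by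
          rw [ha0, ha1]
          refine ⟨by positivity, ?_⟩
          rw [div_le_iff₀ hN', mul_comm]
          exact mul_le_mul_of_nonneg_left h1 hLpos.le
        obtain ⟨x, hx, hx'⟩ := intermediate_value_Icc (zero_le_one' ℝ) hcont.continuousOn hmem
        exact ⟨x, hx, fun _ => hx'⟩
      · exact ⟨0, by simp, fun h => absurd h hi⟩
    choose σ hσ1 hσ2 using hex
    set s : ℕ → ℝ := fun i => if i = 0 then 0 else if i = N then 1 else σ i with hs
    have has : ∀ i ≤ N, a (s i) = i * L.toReal / N := by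
      intro i hi
      simp only [hs]
      split_ifs with h1 h2
      · rw [ha0, h1]; simp
      · rw [ha1, h2]; field_simp
      · exact hσ2 i hi
    have hs01 : ∀ i, s i ∈ Icc (0 : ℝ) 1 := by
      intro i
      simp only [hs]
      split_ifs with h1 h2
      · simp
      · simp
      · exact hσ1 i
    have hslt : ∀ i < N, s i < s (i + 1) := by
      intro i hi
      by_contra hcon
      push Not at hcon
      have h1 := hmono hcon
      rw [has i hi.le, has (i + 1) hi] at h1
      rw [div_le_div_iff_of_pos_right hN'] at h1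
      push_cast at h1
      nlinarith
    refine ⟨s, by simp [hs], ?_, hslt, fun i _ => hs01 i, ?_⟩
    · simp only [hs]
      rw [if_neg (by omega)]
      simp
    · intro i hi
      have h1 := hadd' (s i) (s (i + 1)) (hslt i hi).le
      rw [has i hi.le, has (i + 1) hi] at h1
      have h2 : (∫⁻ t in Ioc (s i) (s (i + 1)), f t ∂ν).toReal = L.toReal / N := by
        push_cast at h1
        have : ((i : ℝ) + 1) * L.toReal / N = i * L.toReal / N + L.toReal / N := by ring
        linarith
      have h3 : ∫⁻ t in Icc (s i) (s (i + 1)), f t = ∫⁻ t in Ioc (s i) (s (i + 1)), f t ∂ν := by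
        rw [hν, Measure.restrict_restrict measurableSet_Ioc]
        have h4 : Ioc (s i) (s (i + 1)) ∩ Icc 0 1 = Ioc (s i) (s (i + 1)) := by
          apply inter_eq_left.2
          intro t ht
          exact ⟨(hs01 i).1.trans ht.1.le, ht.2.trans (hs01 (i + 1)).2⟩
        rw [h4]
        exact (setLIntegral_congr Ioc_ae_eq_Icc).symm
      rw [h3, ← ENNReal.ofReal_toReal (hIt (Ioc (s i) (s (i + 1)))), h2,
        ENNReal.ofReal_div_of_pos hN', ENNReal.ofReal_toReal hf, ENNReal.ofReal_natCast]

omit [IsManifold 𝓘(ℝ, E) 1 M] in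
/-- restriction of a path to a subinterval -/
theorem IsPath.sub {c : ℝ → M} {X Y : M} (hc : IsPath E c X Y) {p q : ℝ} (hp : 0 ≤ p) (hq : q ≤ 1)
    (hpq : p < q) : IsPath E (fun u => c (p + (q - p) * u)) (c p) (c q) := by
  have hqp : 0 < q - p := by linarith
  refine ⟨by simp, by simp, ?_, ?_⟩
  · refine hc.continuousOn.comp (by fun_prop) ?_
    intro u hu
    constructor
    · have := mul_nonneg hqp.le hu.1
      linarith
    · have := mul_le_mul_of_nonneg_left hu.2 hqp.le
      linarith
  · obtain ⟨k, t, ht0, htk, htlt, htp⟩ := hc.pieces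
    -- a partition of [p, q]
    set Q : ℝ → ℝ → Prop := fun x y => ContMDiffOn 𝓘(ℝ, ℝ) 𝓘(ℝ, E) 1 c (Icc x y) with hQ
    have hQm : ∀ x y x' y', Q x y → x ≤ x' → y' ≤ y → Q x' y' := by
      intro x y x' y' h h1 h2
      exact ContMDiffOn.mono h (Icc_subset_Icc h1 h2)
    have key : ∀ i ≤ k, p < min q (t i) → ∃ (k' : ℕ) (t' : ℕ → ℝ), t' 0 = p ∧ t' k' = min q (t i) ∧
        (∀ j < k', t' j < t' (j + 1)) ∧ ∀ j < k', Q (t' j) (t' (j + 1)) := by
      intro i
      induction i with
      | zero =>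
        intro _ h
        rw [ht0] at h
        have := min_le_right q (0 : ℝ)
        linarith
      | succ i ih =>
        intro hi h
        have hti := htlt i (by omega)
        by_cases h1 : p < min q (t i)
        · obtain ⟨k', t', a1, a2, a3, a4⟩ := ih (by omega) h1
          by_cases h2 : q ≤ t i
          · refine ⟨k', t', a1, ?_, a3, a4⟩
            rw [a2, min_eq_left h2, min_eq_left (h2.trans hti.le)]
          · push Not at h2
            rw [min_eq_right h2.le] at a2 h1
            refine ⟨k' + 1, fun j => if j ≤ k' then t' j else min q (t (i + 1)), by simp [a1],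
              by simp, ?_, ?_⟩
            · intro j hj
              by_cases hj' : j < k'
              · simp only [if_pos hj'.le, if_pos (show j + 1 ≤ k' by omega)]
                exact a3 j hj'
              · have : j = k' := by omega
                subst this
                simp only [le_refl, if_true, if_neg (show ¬ j + 1 ≤ j by omega)]
                rw [a2]
                exact lt_min h2 hti
            · intro j hj
              by_cases hj' : j < k'
              · simp only [if_pos hj'.le, if_pos (show j + 1 ≤ k' by omega)]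
                exact a4 j hj'
              · have : j = k' := by omega
                subst this
                simp only [le_refl, if_true, if_neg (show ¬ j + 1 ≤ j by omega)]
                rw [a2]
                exact hQm _ _ _ _ (htp i (by omega)) le_rfl (min_le_right _ _)
        · have h2 : t i ≤ p := by
            by_contra hcon
            push Not at hcon
            exact h1 (lt_min hpq hcon)
          refine ⟨1, fun j => if j = 0 then p else min q (t (i + 1)), by simp, by simp, ?_, ?_⟩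
          · intro j hj
            have : j = 0 := by omega
            subst this
            simpa using h
          · intro j hj
            have : j = 0 := by omega
            subst this
            simp only [if_true]
            exact hQm _ _ _ _ (htp i (by omega)) h2 (min_le_right _ _)
    obtain ⟨k', t', a1, a2, a3, a4⟩ := key k le_rfl (by rw [htk, min_eq_left hq]; exact hpq)
    rw [htk, min_eq_left hq] at a2
    refine ⟨k', fun i => (t' i - p) / (q - p), by simp [a1], ?_, ?_, ?_⟩
    · simp only [a2]; exact div_self hqp.ne'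
    · intro i hi
      exact div_lt_div_of_pos_right (by linarith [a3 i hi]) hqp
    · intro i hi
      have h1 := a4 i hi
      have h2 : ContMDiffOn 𝓘(ℝ, ℝ) 𝓘(ℝ, ℝ) 1 (fun u : ℝ => p + (q - p) * u)
          (Icc ((t' i - p) / (q - p)) ((t' (i + 1) - p) / (q - p))) := by
        apply ContDiffOn.contMDiffOn
        fun_prop
      refine ContMDiffOn.comp (g := c) h1 h2 ?_
      intro u hu
      constructor
      · have := hu.1
        rw [div_le_iff₀ hqp] at this
        linarith
      · have := hu.2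
        rw [le_div_iff₀ hqp] at this
        linarith

omit [IsManifold 𝓘(ℝ, E) 1 M] in
theorem mfderiv_affine (c : ℝ → M) {p q : ℝ} (hpq : p < q) (u : ℝ) :
    mfderiv 𝓘(ℝ, ℝ) 𝓘(ℝ, E) (fun u => c (p + (q - p) * u)) u (1 : ℝ) =
      (q - p) • mfderiv 𝓘(ℝ, ℝ) 𝓘(ℝ, E) c (p + (q - p) * u) (1 : ℝ) := by
  have hqp : 0 < q - p := by linarith
  set A : ℝ → ℝ := fun u => p + (q - p) * u with hA
  have hAd : ∀ u, HasFDerivAt A ((q - p) • ContinuousLinearMap.id ℝ ℝ) u := by
    intro u
    have h1 : HasDerivAt A (q - p) u := by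
      have : HasDerivAt (fun u : ℝ => p + (q - p) * u) ((q - p) * 1) u :=
        ((hasDerivAt_id u).const_mul (q - p)).const_add p
      rwa [mul_one] at this
    have h2 := h1.hasFDerivAt
    have h3 : ContinuousLinearMap.toSpanSingleton ℝ (q - p) = (q - p) • ContinuousLinearMap.id ℝ ℝ := by
      ext
      simp
    rw [← h3]
    exact h2
  have hAm : ∀ u, MDifferentiableAt 𝓘(ℝ, ℝ) 𝓘(ℝ, ℝ) A u := fun u =>
    (hAd u).differentiableAt.mdifferentiableAt
  by_cases h : MDifferentiableAt 𝓘(ℝ, ℝ) 𝓘(ℝ, E) c (A u)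
  · have h1 := mfderiv_comp (I := 𝓘(ℝ, ℝ)) (I' := 𝓘(ℝ, ℝ)) (I'' := 𝓘(ℝ, E)) (g := c) (f := A) u h (hAm u)
    have h2 : mfderiv 𝓘(ℝ, ℝ) 𝓘(ℝ, ℝ) A u = (q - p) • ContinuousLinearMap.id ℝ ℝ := by
      rw [mfderiv_eq_fderiv]; exact (hAd u).fderiv
    have h3 : mfderiv 𝓘(ℝ, ℝ) 𝓘(ℝ, E) (c ∘ A) u (1 : ℝ) =
        (mfderiv 𝓘(ℝ, ℝ) 𝓘(ℝ, E) c (A u)) ((q - p) • (1 : ℝ)) := by
      rw [h1, h2]
      rfl
    have h4 : (mfderiv 𝓘(ℝ, ℝ) 𝓘(ℝ, E) c (A u)) ((q - p) • (1 : ℝ)) =
        (q - p) • (mfderiv 𝓘(ℝ, ℝ) 𝓘(ℝ, E) c (A u)) (1 : ℝ) :=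
      ContinuousLinearMap.map_smul _ _ _
    exact h3.trans h4
  · have h1 : ¬ MDifferentiableAt 𝓘(ℝ, ℝ) 𝓘(ℝ, E) (fun u => c (p + (q - p) * u)) u := by
      intro h2
      apply h
      set B : ℝ → ℝ := fun s => (s - p) / (q - p) with hB
      have hBA : B (A u) = u := by
        simp only [hB, hA]
        field_simp
        ring
      have hBm : MDifferentiableAt 𝓘(ℝ, ℝ) 𝓘(ℝ, ℝ) B (A u) := by
        apply DifferentiableAt.mdifferentiableAt
        simp only [hB]
        fun_prop
      have h3 : MDifferentiableAt 𝓘(ℝ, ℝ) 𝓘(ℝ, E) ((fun u => c (p + (q - p) * u)) ∘ B) (A u) := by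
        refine MDifferentiableAt.comp (A u) ?_ hBm
        rw [hBA]; exact h2
      have h4 : ((fun u => c (p + (q - p) * u)) ∘ B) = c := by
        funext s
        simp only [Function.comp, hB]
        congr 1
        field_simp
        ring
      rw [h4] at h3
      exact h3
    rw [mfderiv_zero_of_not_mdifferentiableAt h1, mfderiv_zero_of_not_mdifferentiableAt h]
    have h5 : (q - p) • (0 : TangentSpace 𝓘(ℝ, E) (c (A u))) = 0 := smul_zero _
    exact h5.symm

omit [IsManifold 𝓘(ℝ, E) 1 M] in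
theorem pathLength_sub {F : TangentBundle 𝓘(ℝ, E) M → ℝ} (hF : IsNormField E F) (c : ℝ → M)
    {p q : ℝ} (hpq : p < q) : pathLength E F (fun u => c (p + (q - p) * u)) =
      ∫⁻ t in Icc p q, ENNReal.ofReal (F (velocity E c t)) := by
  have hqp : 0 < q - p := by linarith
  have himg : (fun u : ℝ => p + (q - p) * u) '' Icc 0 1 = Icc p q := by
    ext s
    constructor
    · rintro ⟨u, hu, rfl⟩
      constructor
      · have := mul_nonneg hqp.le hu.1
        show p ≤ p + (q - p) * u
        linarith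
      · have := mul_le_mul_of_nonneg_left hu.2 hqp.le
        show p + (q - p) * u ≤ q
        linarith
    · intro hs
      refine ⟨(s - p) / (q - p), ⟨div_nonneg (by linarith [hs.1]) hqp.le, ?_⟩, ?_⟩
      · rw [div_le_one hqp]; linarith [hs.2]
      · show p + (q - p) * ((s - p) / (q - p)) = s
        field_simp
        ring
  have hinj : InjOn (fun u : ℝ => p + (q - p) * u) (Icc 0 1) := by
    intro x _ y _ hxy
    have : (q - p) * x = (q - p) * y := by
      have : p + (q - p) * x = p + (q - p) * y := hxy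
      linarith
    exact mul_left_cancel₀ hqp.ne' this
  have hd : ∀ x ∈ Icc (0 : ℝ) 1, HasDerivWithinAt (fun u : ℝ => p + (q - p) * u) (q - p) (Icc 0 1) x := by
    intro x _
    have := ((hasDerivAt_id x).const_mul (q - p)).const_add p
    simpa using this.hasDerivWithinAt
  have h1 := lintegral_image_eq_lintegral_abs_deriv_mul measurableSet_Icc hd hinj
    (fun t => ENNReal.ofReal (F (velocity E c t)))
  rw [himg] at h1
  rw [h1]
  unfold pathLength
  refine lintegral_congr fun u => ?_
  rw [← ENNReal.ofReal_mul (abs_nonneg _)]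
  congr 1
  have h2 : velocity E (fun u => c (p + (q - p) * u)) u =
      ⟨c (p + (q - p) * u), (q - p) • mfderiv 𝓘(ℝ, ℝ) 𝓘(ℝ, E) c (p + (q - p) * u) (1 : ℝ)⟩ := by
    unfold velocity
    rw [mfderiv_affine E c hpq u]
  rw [h2, hF.smul]
  rfl

/-- A Finsler (path) metric admits chains of `N` equal short steps. -/
theorem finsler_chain {d : M → M → ℝ≥0∞} (h : IsFinsler E d) (X Y : M) (hd : d X Y ≠ ⊤)
    (N : ℕ) (hN : 0 < N) : ∃ Z : ℕ → M, Z 0 = X ∧ Z N = Y ∧
      ∀ i < N, d (Z i) (Z (i + 1)) ≤ (d X Y + 1) / N := by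
  obtain ⟨F, -, hF, hdF⟩ := h
  have h1 : (⨅ (c : ℝ → M) (_ : IsPath E c X Y), pathLength E F c) < d X Y + 1 := by
    rw [← hdF]
    exact ENNReal.lt_add_right hd one_ne_zero
  obtain ⟨c, h2⟩ := iInf_lt_iff.1 h1
  obtain ⟨hc, h3⟩ := iInf_lt_iff.1 h2
  have hfin : ∫⁻ t in Icc (0 : ℝ) 1, ENNReal.ofReal (F (velocity E c t)) ≠ ⊤ := h3.ne_top
  obtain ⟨s, s0, sN, s1, s2, s3⟩ := split_mass (fun t => ENNReal.ofReal (F (velocity E c t))) hfin N hN
  refine ⟨fun i => c (s i), by simp only [s0]; exact hc.start, by simp only [sN]; exact hc.finish, ?_⟩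
  intro i hi
  rw [hdF]
  have hp := IsPath.sub E hc (s2 i hi.le).1 (s2 (i + 1) hi).2 (s1 i hi)
  have h5 : (⨅ (c' : ℝ → M) (_ : IsPath E c' (c (s i)) (c (s (i + 1)))), pathLength E F c') ≤
      pathLength E F (fun u => c (s i + (s (i + 1) - s i) * u)) :=
    iInf₂_le (f := fun (c' : ℝ → M) (_ : IsPath E c' (c (s i)) (c (s (i + 1)))) => pathLength E F c')
      (fun u => c (s i + (s (i + 1) - s i) * u)) hp
  refine h5.trans ?_
  rw [pathLength_sub E hF c (s1 i hi)]
  refine (s3 i hi).trans ?_
  exact ENNReal.div_le_div_right h3.le _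

end Finsler

end Pool.Agent.LengthSpec
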