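import Pool.Agent.LengthSpec.Len

open UpperHalfPlane MeasureTheory Set
open scoped MatrixGroups Manifold ENNReal Topology

namespace Pool.Agent.LengthSpec

/-- discrete and acting freely -/
structure DF (Δ : Subgroup SL(2, ℝ)) : Prop where
  discrete : DiscreteTopology Δ
  free : ∀ g ∈ Δ, ∀ z : ℍ, g • z = z → g = 1



lemma DF.finite' {Δ : Subgroup SL(2, ℝ)} (hΔ : DF Δ) (K : Set ℍ) (hK : IsCompact K) :
    {g : SL(2, ℝ) | g ∈ Δ ∧ ∃ z ∈ K, g • z ∈ K}.Finite := by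
  haveI := hΔ.discrete
  have h := ProperlyDiscontinuousSMul.finite_disjoint_inter_image (Γ := Δ) (T := ℍ) hK hK
  have h2 := h.image (fun g : Δ => (g : SL(2, ℝ)))
  apply h2.subset
  rintro g ⟨hg, z, hz, hgz⟩
  exact ⟨⟨g, hg⟩, ⟨g • z, ⟨z, hz, rfl⟩, hgz⟩, rfl⟩

lemma DF.finite {Δ : Subgroup SL(2, ℝ)} (hΔ : DF Δ) (z : ℍ) (R : ℝ) :
    {g : SL(2, ℝ) | g ∈ Δ ∧ dist z (g • z) ≤ R}.Finite := by
  apply (hΔ.finite' (Metric.closedBall z R) (isCompact_closedBall z R)).subset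
  rintro g ⟨hg, hd⟩
  refine ⟨hg, z, ?_, ?_⟩
  · rw [Metric.mem_closedBall, dist_self]
    exact dist_nonneg.trans hd
  · rw [Metric.mem_closedBall, dist_comm]
    exact hd

lemma DF.neg_one_notMem {Δ : Subgroup SL(2, ℝ)} (hΔ : DF Δ) : (-1 : SL(2, ℝ)) ∉ Δ := by
  intro h
  have h1 : (-1 : SL(2, ℝ)) = 1 := by
    apply hΔ.free _ h I
    rw [neg_smul', one_smul]
  have h2 : (-1 : SL(2, ℝ)) 0 0 = (1 : SL(2, ℝ)) 0 0 := by rw [h1]
  rw [neg_entries, one_entries.1] at h2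
  norm_num at h2

lemma DF.two_le_abs_tr {Δ : Subgroup SL(2, ℝ)} (hΔ : DF Δ) {g : SL(2, ℝ)} (hg : g ∈ Δ)
    (h1 : g ≠ 1) : 2 ≤ |tr g| := by
  by_contra hlt
  push Not at hlt
  have hdet := det_eq g
  have ht : tr g ^ 2 < 4 := by
    have := sq_lt_sq' (by linarith [abs_nonneg (tr g)]) hlt
    rw [sq_abs] at this
    linarith
  have htr : tr g = g 0 0 + g 1 1 := rfl
  have hc : g 1 0 ≠ 0 := by
    intro h0
    rw [h0] at hdet
    rw [htr] at ht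
    nlinarith [sq_nonneg (g 0 0 - g 1 1)]
  have hw : 0 < 4 - tr g ^ 2 := by linarith
  have hy : 0 < √(4 - tr g ^ 2) / (2 * |g 1 0|) := by
    have := abs_pos.mpr hc
    have := Real.sqrt_pos.mpr hw
    positivity
  set z : ℍ := ⟨⟨(g 0 0 - g 1 1) / (2 * g 1 0), √(4 - tr g ^ 2) / (2 * |g 1 0|)⟩, hy⟩ with hz
  have hre : z.re = (g 0 0 - g 1 1) / (2 * g 1 0) := rfl
  have him : z.im = √(4 - tr g ^ 2) / (2 * |g 1 0|) := rfl
  have him2 : z.im ^ 2 * (4 * g 1 0 ^ 2) = 4 - tr g ^ 2 := by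
    rw [him, div_pow, mul_pow, sq_abs, Real.sq_sqrt hw.le]
    field_simp
    ring
  have hre2 : z.re * (2 * g 1 0) = g 0 0 - g 1 1 := by
    rw [hre]; field_simp
  have hN : (g 1 0 * (z.re ^ 2 + z.im ^ 2) + (g 1 1 - g 0 0) * z.re - g 0 1) * (2 * g 1 0) =
      4 - tr g ^ 2 := by
    have e1 : (g 1 0 * (z.re ^ 2 + z.im ^ 2) + (g 1 1 - g 0 0) * z.re - g 0 1) * (2 * g 1 0) * 2 =
      (z.re * (2 * g 1 0)) ^ 2 + z.im ^ 2 * (4 * g 1 0 ^ 2) +
        2 * (g 1 1 - g 0 0) * (z.re * (2 * g 1 0)) - 4 * (g 0 1 * g 1 0) := by ring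
    rw [hre2, him2] at e1
    rw [htr] at e1 ⊢
    linarith
  have hside : side g z ^ 2 = 4 - tr g ^ 2 := by
    rw [side, div_pow, div_eq_iff (pow_ne_zero 2 z.im_ne_zero)]
    have e2 : (g 1 0 * (z.re ^ 2 + z.im ^ 2) + (g 1 1 - g 0 0) * z.re - g 0 1) ^ 2 *
        (4 * g 1 0 ^ 2) = (4 - tr g ^ 2) * z.im ^ 2 * (4 * g 1 0 ^ 2) := by
      have e3 : (g 1 0 * (z.re ^ 2 + z.im ^ 2) + (g 1 1 - g 0 0) * z.re - g 0 1) ^ 2 *
        (4 * g 1 0 ^ 2) = ((g 1 0 * (z.re ^ 2 + z.im ^ 2) + (g 1 1 - g 0 0) * z.re - g 0 1) *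
          (2 * g 1 0)) ^ 2 := by ring
      rw [e3, hN, mul_assoc, him2]
      ring
    exact mul_right_cancel₀ (by positivity) e2
  have hcd := cosh_disp g z
  rw [hside] at hcd
  have h2 : Real.cosh (dist z (g • z)) = 1 := by linarith
  have h3 : dist z (g • z) = 0 := by
    by_contra hne
    have := Real.one_lt_cosh.mpr hne
    linarith
  have h4 : z = g • z := dist_eq_zero.mp h3
  exact h1 (hΔ.free g hg z h4.symm)

lemma mem_dg_conj {Δ : Subgroup SL(2, ℝ)} {s : ℝ} (hs : dg s ∈ Δ ∨ - dg s ∈ Δ)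
    {k : SL(2, ℝ)} (hk : k ∈ Δ) : dg s * k * (dg s)⁻¹ ∈ Δ := by
  rcases hs with h | h
  · exact Δ.mul_mem (Δ.mul_mem h hk) (Δ.inv_mem h)
  · have h2 := Δ.mul_mem (Δ.mul_mem h hk) (Δ.inv_mem h)
    have e : -dg s * k * (-dg s)⁻¹ = dg s * k * (dg s)⁻¹ := by
      rw [inv_neg]
      simp
    rwa [e] at h2

lemma mem_dg_neg {Δ : Subgroup SL(2, ℝ)} {s : ℝ} (hs : dg s ∈ Δ ∨ - dg s ∈ Δ) :
    dg (-s) ∈ Δ ∨ - dg (-s) ∈ Δ := by
  rcases hs with h | h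
  · left
    rw [← dg_inv]
    exact Δ.inv_mem h
  · right
    have h2 := Δ.inv_mem h
    rw [inv_neg, dg_inv] at h2
    exact h2

lemma mem_dg_conj_nat {Δ : Subgroup SL(2, ℝ)} {s : ℝ} (hs : dg s ∈ Δ ∨ - dg s ∈ Δ)
    {k : SL(2, ℝ)} (hk : k ∈ Δ) (n : ℕ) : dg (n * s) * k * (dg (n * s))⁻¹ ∈ Δ := by
  induction n with
  | zero => simpa [dg_zero] using hk
  | succ n ih =>
    have h := mem_dg_conj hs ih
    have e : dg s * (dg (n * s) * k * (dg (n * s))⁻¹) * (dg s)⁻¹ =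
        dg ((n + 1 : ℕ) * s) * k * (dg ((n + 1 : ℕ) * s))⁻¹ := by
      have e1 : ((n + 1 : ℕ) : ℝ) * s = s + n * s := by push_cast; ring
      rw [e1, dg_add, mul_inv_rev]
      group
    rwa [e] at h

lemma DF.no_unipotent {Δ : Subgroup SL(2, ℝ)} (hΔ : DF Δ) {s : ℝ} (hs0 : s ≠ 0)
    (hs : dg s ∈ Δ ∨ - dg s ∈ Δ) {h : SL(2, ℝ)} (hh : h ∈ Δ) (C : ℝ)
    (hne : h 0 1 ≠ 0 ∨ h 1 0 ≠ 0)
    (hb : ∀ n : ℕ, (Real.exp (-(n * s)) * h 1 0 - Real.exp (n * s) * h 0 1) ^ 2 ≤ C) : False := by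
  have hfin := hΔ.finite I (tr h ^ 2 - 2 + C)
  have hinf : {g : SL(2, ℝ) | g ∈ Δ ∧ dist I (g • I) ≤ tr h ^ 2 - 2 + C}.Infinite := by
    apply Set.infinite_of_injective_forall_mem
      (f := fun n : ℕ => dg (n * s) * h * (dg (n * s))⁻¹)
    · intro n n' hnn
      obtain ⟨-, a2, a3, -⟩ := dg_conj_entries (n * s) h
      obtain ⟨-, b2, b3, -⟩ := dg_conj_entries (n' * s) h
      simp only at hnn
      have key : (n : ℝ) * s = n' * s := by
        rcases hne with h0 | h0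
        · rw [hnn, b2] at a2
          exact (Real.exp_injective (mul_right_cancel₀ h0 a2)).symm
        · rw [hnn, b3] at a3
          have := Real.exp_injective (mul_right_cancel₀ h0 a3)
          linarith
      exact_mod_cast mul_right_cancel₀ hs0 key
    · intro n
      refine ⟨mem_dg_conj_nat hs hh n, ?_⟩
      obtain ⟨a1, a2, a3, a4⟩ := dg_conj_entries (n * s) h
      have hcd := cosh_disp (dg (n * s) * h * (dg (n * s))⁻¹) I
      rw [tr_conj] at hcd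
      have hside : side (dg (n * s) * h * (dg (n * s))⁻¹) I =
          Real.exp (-(n * s)) * h 1 0 - Real.exp (n * s) * h 0 1 := by
        rw [side, a1, a2, a3, a4]
        simp
      rw [hside] at hcd
      set D := dist I ((dg (n * s) * h * (dg (n * s))⁻¹) • I) with hD
      have h1 : D ≤ 2 * Real.cosh D := by
        rw [Real.cosh_eq]
        have e1 := Real.add_one_le_exp D
        have e2 := Real.exp_pos (-D)
        linarith
      have h2 := hb n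
      linarith
  exact hinf hfin

lemma DF.entries_zero {Δ : Subgroup SL(2, ℝ)} (hΔ : DF Δ) {ℓ : ℝ} (hℓ : 0 < ℓ)
    (hdg : dg ℓ ∈ Δ ∨ - dg ℓ ∈ Δ) {h : SL(2, ℝ)} (hh : h ∈ Δ) (h0 : h 0 1 * h 1 0 = 0) :
    h 0 1 = 0 ∧ h 1 0 = 0 := by
  rcases mul_eq_zero.mp h0 with hb | hc
  · refine ⟨hb, ?_⟩
    by_contra hc
    refine hΔ.no_unipotent hℓ.ne' hdg hh (h 1 0 ^ 2) (Or.inr hc) ?_
    intro n
    rw [hb, mul_zero, sub_zero, mul_pow]
    have h1 : Real.exp (-(n * ℓ)) ≤ 1 := by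
      rw [Real.exp_le_one_iff]
      have : 0 ≤ (n : ℝ) * ℓ := by positivity
      linarith
    have h2 : Real.exp (-(n * ℓ)) ^ 2 ≤ 1 := pow_le_one₀ (Real.exp_pos _).le h1
    nlinarith [sq_nonneg (h 1 0)]
  · refine ⟨?_, hc⟩
    by_contra hb
    refine hΔ.no_unipotent (neg_ne_zero.mpr hℓ.ne') (mem_dg_neg hdg) hh (h 0 1 ^ 2)
      (Or.inl hb) ?_
    intro n
    rw [hc, mul_zero, zero_sub, neg_sq, mul_pow]
    have h1 : Real.exp (n * -ℓ) ≤ 1 := by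
      rw [Real.exp_le_one_iff]
      have : 0 ≤ (n : ℝ) * ℓ := by positivity
      linarith
    have h2 : Real.exp (n * -ℓ) ^ 2 ≤ 1 := pow_le_one₀ (Real.exp_pos _).le h1
    nlinarith [sq_nonneg (h 0 1)]

lemma DF.conj {Δ : Subgroup SL(2, ℝ)} (hΔ : DF Δ) (m : SL(2, ℝ)) :
    DF (Δ.map (MulAut.conj m).toMonoidHom) := by
  refine ⟨?_, ?_⟩
  · haveI := hΔ.discrete
    have hmem : ∀ x : Δ.map (MulAut.conj m).toMonoidHom, m⁻¹ * (x : SL(2, ℝ)) * m ∈ Δ := by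
      rintro ⟨x, y, hy, rfl⟩
      have e : m⁻¹ * (MulAut.conj m).toMonoidHom y * m = y := by
        simp [MulAut.conj_apply, mul_assoc]
      rw [e]
      exact hy
    refine DiscreteTopology.of_continuous_injective
      (f := fun x : Δ.map (MulAut.conj m).toMonoidHom => (⟨m⁻¹ * (x : SL(2, ℝ)) * m, hmem x⟩ : Δ))
      ?_ ?_
    · apply Continuous.subtype_mk
      fun_prop
    · intro x y hxy
      have h1 : m⁻¹ * (x : SL(2, ℝ)) * m = m⁻¹ * (y : SL(2, ℝ)) * m := congrArg Subtype.val hxy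
      apply Subtype.ext
      exact mul_left_cancel (mul_right_cancel h1)
  · rintro g ⟨y, hy, rfl⟩ z hz
    have e : (MulAut.conj m).toMonoidHom y = m * y * m⁻¹ := by
      simp [MulAut.conj_apply]
    rw [e] at hz ⊢
    have h1 : y • (m⁻¹ • z) = m⁻¹ • z := by
      have h2 : m⁻¹ • ((m * y * m⁻¹) • z) = m⁻¹ • z := by rw [hz]
      have h3 : y • (m⁻¹ • z) = m⁻¹ • ((m * y * m⁻¹) • z) := by
        rw [smul_smul, smul_smul]
        congr 1
        group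
      rw [h3, h2]
    rw [hΔ.free y hy _ h1]
    simp

lemma DF.commute_of_tr {Δ : Subgroup SL(2, ℝ)} (hΔ : DF Δ) {g h : SL(2, ℝ)} (hg : g ∈ Δ)
    (hh : h ∈ Δ) (hyp : 2 < |tr g|) (h2 : tr (g * h * g⁻¹ * h⁻¹) = 2) : Commute g h := by
  obtain ⟨m, hm⟩ := exists_diag hyp
  have hℓ : 0 < len g := (len_pos_iff g).mpr hyp
  have hΔ' := hΔ.conj m
  have hg' : m * g * m⁻¹ ∈ Δ.map (MulAut.conj m).toMonoidHom := ⟨g, hg, by simp [MulAut.conj_apply]⟩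
  have hh' : m * h * m⁻¹ ∈ Δ.map (MulAut.conj m).toMonoidHom := ⟨h, hh, by simp [MulAut.conj_apply]⟩
  have hdg : dg (len g) ∈ Δ.map (MulAut.conj m).toMonoidHom ∨
      - dg (len g) ∈ Δ.map (MulAut.conj m).toMonoidHom := by
    rcases hm with h3 | h3
    · left; rw [← h3]; exact hg'
    · right; rw [← h3]; exact hg'
  have htr : tr (dg (len g) * (m * h * m⁻¹) * (dg (len g))⁻¹ * (m * h * m⁻¹)⁻¹) = 2 := by
    have e1 : tr ((m * g * m⁻¹) * (m * h * m⁻¹) * (m * g * m⁻¹)⁻¹ * (m * h * m⁻¹)⁻¹) = 2 := by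
      rw [← h2, ← tr_conj m (g * h * g⁻¹ * h⁻¹)]
      congr 1
      group
    rcases hm with h3 | h3
    · rwa [h3] at e1
    · rw [h3] at e1
      have e2 : -dg (len g) * (m * h * m⁻¹) * (-dg (len g))⁻¹ * (m * h * m⁻¹)⁻¹ =
          dg (len g) * (m * h * m⁻¹) * (dg (len g))⁻¹ * (m * h * m⁻¹)⁻¹ := by
        rw [inv_neg]; simp
      rwa [e2] at e1
  rw [tr_comm_dg] at htr
  have hsinh : Real.sinh (len g / 2) ≠ 0 := by
    have : 0 < Real.sinh (len g / 2) := Real.sinh_pos_iff.mpr (by linarith)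
    exact this.ne'
  have hz : (m * h * m⁻¹) 0 1 * (m * h * m⁻¹) 1 0 = 0 := by
    have h3 : (m * h * m⁻¹) 0 1 * (m * h * m⁻¹) 1 0 * (2 * Real.sinh (len g / 2)) ^ 2 = 0 := by
      linarith
    rcases mul_eq_zero.mp h3 with h4 | h4
    · exact h4
    · exfalso
      have := pow_eq_zero_iff (two_ne_zero) |>.mp h4
      apply hsinh
      linarith
  obtain ⟨hb, hc⟩ := hΔ'.entries_zero hℓ hdg hh' hz
  have hcomm : Commute (dg (len g)) (m * h * m⁻¹) := by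
    obtain ⟨a1, a2, a3, a4⟩ := dg_entries (len g)
    obtain ⟨p1, p2, p3, p4⟩ := mul_entries (dg (len g)) (m * h * m⁻¹)
    obtain ⟨q1, q2, q3, q4⟩ := mul_entries (m * h * m⁻¹) (dg (len g))
    apply ext4
    · rw [p1, q1, a1, a2, a3, hb]; ring
    · rw [p2, q2, a2, a4, hb, a1]; ring
    · rw [p3, q3, a3, a4, hc, a1]; ring
    · rw [p4, q4, a2, a3, a4]; ring
  have hcomm' : Commute (m * g * m⁻¹) (m * h * m⁻¹) := by
    rcases hm with h3 | h3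
    · rw [h3]; exact hcomm
    · rw [h3]; exact hcomm.neg_left
  have h5 : (m * g * m⁻¹) * (m * h * m⁻¹) = (m * h * m⁻¹) * (m * g * m⁻¹) := hcomm'
  have h6 : m * (g * h) * m⁻¹ = m * (h * g) * m⁻¹ := by
    have e1 : (m * g * m⁻¹) * (m * h * m⁻¹) = m * (g * h) * m⁻¹ := by group
    have e2 : (m * h * m⁻¹) * (m * g * m⁻¹) = m * (h * g) * m⁻¹ := by group
    rw [← e1, ← e2, h5]
  exact mul_left_cancel (mul_right_cancel h6)

lemma DF.tr_comm_le {Δ : Subgroup SL(2, ℝ)} (hΔ : DF Δ) {g h : SL(2, ℝ)} (hg : g ∈ Δ)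
    (hh : h ∈ Δ) (hl : link g h) : tr (g * h * g⁻¹ * h⁻¹) ≤ -2 := by
  have hmem : g * h * g⁻¹ * h⁻¹ ∈ Δ :=
    Δ.mul_mem (Δ.mul_mem (Δ.mul_mem hg hh) (Δ.inv_mem hg)) (Δ.inv_mem hh)
  have hlt : tr (g * h * g⁻¹ * h⁻¹) < 2 := hl
  have hne : g * h * g⁻¹ * h⁻¹ ≠ 1 := by
    intro h1
    rw [h1, tr_one] at hlt
    exact lt_irrefl _ hlt
  have h2 := hΔ.two_le_abs_tr hmem hne
  rcases le_abs.mp h2 with h3 | h3
  · linarith
  · linarith

end Pool.Agent.LengthSpec
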