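import Pool.Agent.LengthSpec.Fuchs

open UpperHalfPlane MeasureTheory Set
open scoped MatrixGroups Manifold ENNReal Topology

namespace Pool.Agent.LengthSpec

lemma pm_eq {Δ : Subgroup SL(2, ℝ)} (hΔ : DF Δ) {x y : SL(2, ℝ)} (hx : x ∈ Δ) (hy : y ∈ Δ)
    (h : x = y ∨ x = -y) : x = y := by
  rcases h with h | h
  · exact h
  · exfalso
    apply hΔ.neg_one_notMem
    have : x * y⁻¹ = -1 := by rw [h]; simp
    rw [← this]
    exact Δ.mul_mem hx (Δ.inv_mem hy)

lemma axes_aux {Δ : Subgroup SL(2, ℝ)} (hΔ : DF Δ) {g h : SL(2, ℝ)} {ℓ : ℝ} (hℓ : 0 < ℓ)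
    (hg : g ∈ Δ) (hh : h ∈ Δ) (hgd : g = dg ℓ ∨ g = - dg ℓ) (hg2 : 2 < |tr g|)
    (hh2 : 2 < |tr h|) :
    (axis h = axis g ∨ Disjoint (axis h) (axis g)) ↔ ¬ link g h := by
  have haxg : ∀ z : ℍ, z ∈ axis g ↔ z.re = 0 := by
    intro z
    rw [mem_axis_iff hg2]
    have hsinh : 2 * Real.sinh (ℓ / 2) ≠ 0 := by
      have := Real.sinh_pos_iff.2 (by linarith : 0 < ℓ / 2)
      positivity
    have hz := z.im_pos
    have h0 : side (dg ℓ) z = 0 ↔ z.re = 0 := by
      rw [side_dg]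
      constructor
      · intro h
        rcases mul_eq_zero.1 h with h | h
        · exact absurd (neg_eq_zero.1 h) hsinh
        · rcases div_eq_zero_iff.1 h with h | h
          · exact h
          · exact absurd h hz.ne'
      · intro h; rw [h]; simp
    rcases hgd with h | h
    · rw [h]; exact h0
    · rw [h, side_neg, neg_eq_zero]; exact h0
  have hlink : link g h ↔ 0 < h 0 1 * h 1 0 := by
    rcases hgd with h' | h'
    · rw [h']; exact link_dg hℓ.ne' h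
    · rw [h', link_neg_left]; exact link_dg hℓ.ne' h
  have haxh : ∀ z : ℍ, z ∈ axis h ↔
      h 1 0 * (z.re ^ 2 + z.im ^ 2) + (h 1 1 - h 0 0) * z.re - h 0 1 = 0 := by
    intro z
    rw [mem_axis_iff hh2, side]
    have hz := z.im_pos
    constructor
    · intro h'
      rcases div_eq_zero_iff.1 h' with h' | h'
      · exact h'
      · exact absurd h' hz.ne'
    · intro h'; rw [h', zero_div]
  have hdet := det_eq h
  rw [hlink]
  constructor
  · intro hor hpos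
    have hc : h 1 0 ≠ 0 := by
      intro h'; rw [h', mul_zero] at hpos; exact lt_irrefl _ hpos
    have hbc : 0 < h 0 1 / h 1 0 := by
      rw [div_pos_iff]
      rcases pos_and_pos_or_neg_and_neg_of_mul_pos hpos with h' | h'
      · exact Or.inl h'
      · exact Or.inr h'
    set y := Real.sqrt (h 0 1 / h 1 0) with hy
    have hypos : 0 < y := Real.sqrt_pos.2 hbc
    have hy2 : y ^ 2 = h 0 1 / h 1 0 := Real.sq_sqrt hbc.le
    have hcy : h 1 0 * y ^ 2 = h 0 1 := by rw [hy2]; field_simp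
    let z : ℍ := ⟨⟨0, y⟩, hypos⟩
    have hzre : z.re = 0 := rfl
    have hzim : z.im = y := rfl
    have hz1 : z ∈ axis g := (haxg z).2 hzre
    have hz2 : z ∈ axis h := by
      rw [haxh, hzre, hzim]
      linarith [hcy]
    rcases hor with hor | hor
    · let w : ℍ := ⟨⟨0, y + 1⟩, by show 0 < y + 1; linarith⟩
      have hwre : w.re = 0 := rfl
      have hwim : w.im = y + 1 := rfl
      have hw : w ∈ axis h := by rw [hor]; exact (haxg w).2 hwre
      rw [haxh, hwre, hwim] at hw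
      have : h 1 0 * (2 * y + 1) = 0 := by linarith [hcy]
      rcases mul_eq_zero.1 this with h' | h'
      · exact hc h'
      · linarith
    · exact Set.disjoint_left.1 hor hz2 hz1
  · intro hle
    push Not at hle
    rcases hle.lt_or_eq with hlt | heq
    · right
      rw [Set.disjoint_left]
      intro z hz hz'
      rw [haxh, (haxg z).1 hz'] at hz
      have hzim := z.im_pos
      have hb : h 0 1 = h 1 0 * z.im ^ 2 := by linarith
      rw [hb] at hlt
      have : 0 ≤ h 1 0 * z.im ^ 2 * h 1 0 := by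
        have : h 1 0 * z.im ^ 2 * h 1 0 = (h 1 0 * z.im) ^ 2 := by ring
        rw [this]; positivity
      linarith
    · left
      have hdgm : dg ℓ ∈ Δ ∨ - dg ℓ ∈ Δ := by
        rcases hgd with h' | h'
        · left; rw [← h']; exact hg
        · right; rw [← h']; exact hg
      obtain ⟨hb, hc⟩ := hΔ.entries_zero hℓ hdgm hh heq
      rw [hb, hc] at hdet
      have hda : h 1 1 - h 0 0 ≠ 0 := by
        intro h'
        have h1 : h 1 1 = h 0 0 := by linarith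
        have h2 : tr h = 2 * h 0 0 := by unfold tr; rw [h1]; ring
        rw [h1] at hdet
        have h3 : tr h ^ 2 = 4 := by rw [h2]; nlinarith
        have h4 : (2 : ℝ) ^ 2 < |tr h| ^ 2 := pow_lt_pow_left₀ hh2 (by norm_num) (by norm_num)
        rw [sq_abs, h3] at h4
        norm_num at h4
      ext z
      rw [haxh, haxg, hb, hc]
      constructor
      · intro h'
        have : (h 1 1 - h 0 0) * z.re = 0 := by linarith
        rcases mul_eq_zero.1 this with h'' | h''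
        · exact absurd h'' hda
        · exact h''
      · intro h'; rw [h']; ring

/-- Two hyperbolic elements of a discrete free group: the axes are equal or disjoint iff they are
not linked. -/
lemma DF.axes {Δ : Subgroup SL(2, ℝ)} (hΔ : DF Δ) {g h : SL(2, ℝ)} (hg : g ∈ Δ)
    (hh : h ∈ Δ) (hg2 : 2 < |tr g|) (hh2 : 2 < |tr h|) :
    (axis h = axis g ∨ Disjoint (axis h) (axis g)) ↔ ¬ link g h := by
  obtain ⟨m, hm⟩ := exists_diag hg2
  have hℓ : 0 < len g := (len_pos_iff g).2 hg2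
  have hg' : m * g * m⁻¹ ∈ Δ.map (MulAut.conj m).toMonoidHom := ⟨g, hg, rfl⟩
  have hh' : m * h * m⁻¹ ∈ Δ.map (MulAut.conj m).toMonoidHom := ⟨h, hh, rfl⟩
  have key := axes_aux (hΔ.conj m) hℓ hg' hh' hm (by rwa [tr_conj]) (by rwa [tr_conj])
  rw [link_conj, axis_conj, axis_conj] at key
  have hinj : Function.Injective (fun z : ℍ => m • z) := MulAction.injective m
  rw [← key, Set.image_eq_image hinj, Set.disjoint_image_iff hinj]

lemma conj_dg_entries (ℓ : ℝ) (g : SL(2, ℝ)) :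
    (g * dg ℓ * g⁻¹) 0 1 = -(g 0 0 * g 0 1) * (2 * Real.sinh (ℓ / 2)) ∧
    (g * dg ℓ * g⁻¹) 1 0 = (g 1 0 * g 1 1) * (2 * Real.sinh (ℓ / 2)) := by
  obtain ⟨a1, a2, a3, a4⟩ := mul_entries (g * dg ℓ) g⁻¹
  obtain ⟨b1, b2, b3, b4⟩ := mul_entries g (dg ℓ)
  obtain ⟨c1, c2, c3, c4⟩ := inv_entries g
  obtain ⟨d1, d2, d3, d4⟩ := dg_entries ℓ
  rw [a2, a3, b1, b2, b3, b4, c1, c2, c3, c4, d1, d2, d3, d4, Real.sinh_eq]
  constructor <;> ring

/-- trichotomy for a simple axis, normalised to be the imaginary axis -/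
lemma DF.trichotomy {Δ : Subgroup SL(2, ℝ)} (hΔ : DF Δ) {ℓ : ℝ} (hℓ : 0 < ℓ)
    (hdg : dg ℓ ∈ Δ ∨ - dg ℓ ∈ Δ) (hs : ∀ g ∈ Δ, ¬ link (dg ℓ) (g * dg ℓ * g⁻¹)) {g : SL(2, ℝ)}
    (hg : g ∈ Δ) : (g 0 1 = 0 ∧ g 1 0 = 0) ∨ 0 < g 0 1 * g 1 0 ∨ g 0 1 * g 1 0 < -1 := by
  have h1 := hs g hg
  rw [link_dg hℓ.ne'] at h1
  obtain ⟨e1, e2⟩ := conj_dg_entries ℓ g
  have hsinh : 0 < 2 * Real.sinh (ℓ / 2) := by
    have := Real.sinh_pos_iff.2 (by linarith : 0 < ℓ / 2)
    positivity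
  set σ := 2 * Real.sinh (ℓ / 2) with hσ
  have hdet := det_eq g
  rw [e1, e2] at h1
  push Not at h1
  have h2 : 0 ≤ (g 0 0 * g 1 1) * (g 0 1 * g 1 0) := by
    by_contra hcon
    push Not at hcon
    have : 0 < -(g 0 0 * g 0 1) * σ * (g 1 0 * g 1 1 * σ) := by
      have e : -(g 0 0 * g 0 1) * σ * (g 1 0 * g 1 1 * σ) =
        -((g 0 0 * g 1 1) * (g 0 1 * g 1 0)) * σ ^ 2 := by ring
      rw [e]
      exact mul_pos (by linarith) (by positivity)
    linarith
  have had : g 0 0 * g 1 1 = 1 + g 0 1 * g 1 0 := by linarith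
  rw [had] at h2
  by_cases hzero : g 0 1 * g 1 0 = 0
  · left; exact hΔ.entries_zero hℓ hdg hg hzero
  right
  by_cases hpos : 0 < g 0 1 * g 1 0
  · left; exact hpos
  right
  push Not at hpos
  have hneg : g 0 1 * g 1 0 < 0 := lt_of_le_of_ne hpos hzero
  have hle : g 0 1 * g 1 0 ≤ -1 := by
    by_contra hcon
    push Not at hcon
    nlinarith
  refine lt_of_le_of_ne hle ?_
  intro heq
  exfalso
  have had0 : g 0 0 * g 1 1 = 0 := by rw [had, heq]; ring
  -- the conjugate of the diagonal element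
  have hconj : (g * dg ℓ * g⁻¹) 0 1 * (g * dg ℓ * g⁻¹) 1 0 = 0 := by
    rw [e1, e2]
    have : -(g 0 0 * g 0 1) * σ * (g 1 0 * g 1 1 * σ) =
        -((g 0 0 * g 1 1) * (g 0 1 * g 1 0)) * σ ^ 2 := by ring
    rw [this, had0]; ring
  have hboth : (g * dg ℓ * g⁻¹) 0 1 = 0 ∧ (g * dg ℓ * g⁻¹) 1 0 = 0 := by
    rcases hdg with h | h
    · exact hΔ.entries_zero hℓ (Or.inl h) (Δ.mul_mem (Δ.mul_mem hg h) (Δ.inv_mem hg)) hconj
    · have h3 : g * (-dg ℓ) * g⁻¹ ∈ Δ := Δ.mul_mem (Δ.mul_mem hg h) (Δ.inv_mem hg)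
      have h4 : g * (-dg ℓ) * g⁻¹ = -(g * dg ℓ * g⁻¹) := by
        rw [mul_neg, neg_mul]
      rw [h4] at h3
      have h5 := hΔ.entries_zero hℓ (Or.inr h) h3 (by
        rw [neg_entries, neg_entries, neg_mul_neg]; exact hconj)
      rw [neg_entries, neg_entries, neg_eq_zero, neg_eq_zero] at h5
      exact h5
  rw [e1, e2] at hboth
  obtain ⟨hb1, hb2⟩ := hboth
  have hb : g 0 1 ≠ 0 := by intro h; rw [h, zero_mul] at heq; norm_num at heq
  have hc : g 1 0 ≠ 0 := by intro h; rw [h, mul_zero] at heq; norm_num at heq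
  have ha0 : g 0 0 = 0 := by
    rcases mul_eq_zero.1 hb1 with h | h
    · rcases mul_eq_zero.1 (neg_eq_zero.1 h) with h' | h'
      · exact h'
      · exact absurd h' hb
    · exact absurd h hsinh.ne'
  have hd0 : g 1 1 = 0 := by
    rcases mul_eq_zero.1 hb2 with h | h
    · rcases mul_eq_zero.1 h with h' | h'
      · exact absurd h' hc
      · exact h'
    · exact absurd h hsinh.ne'
  have htr : tr g = 0 := by unfold tr; rw [ha0, hd0, add_zero]
  have hne : g ≠ 1 := by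
    intro h
    rw [h, one_entries.2.1] at hb
    exact hb rfl
  have := hΔ.two_le_abs_tr hg hne
  rw [htr, abs_zero] at this
  norm_num at this

lemma pm_zpow {x y : SL(2, ℝ)} (h : x = y ∨ x = -y) (k : ℤ) : x ^ k = y ^ k ∨ x ^ k = -y ^ k := by
  rcases h with h | h
  · left; rw [h]
  · rw [h]
    rcases Int.even_or_odd k with hk | hk
    · left; exact hk.neg_zpow y
    · right; exact hk.neg_zpow y

lemma pm_trans {x y z : SL(2, ℝ)} (h : x = y ∨ x = -y) (h' : y = z ∨ y = -z) :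
    x = z ∨ x = -z := by
  rcases h with h | h <;> rcases h' with h' | h' <;> rw [h, h']
  · left; rfl
  · right; rfl
  · right; rfl
  · left; rw [neg_neg]

lemma pm_symm {x y : SL(2, ℝ)} (h : x = y ∨ x = -y) : y = x ∨ y = -x := by
  rcases h with h | h
  · left; exact h.symm
  · right; rw [h, neg_neg]

lemma diag_pm {g : SL(2, ℝ)} (h01 : g 0 1 = 0) (h10 : g 1 0 = 0) :
    ∃ t : ℝ, g = dg t ∨ g = - dg t := by
  have hdet := det_eq g
  rw [h01, zero_mul, sub_zero] at hdet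
  have ha : g 0 0 ≠ 0 := by intro h; rw [h, zero_mul] at hdet; norm_num at hdet
  obtain ⟨t, ht⟩ : ∃ t : ℝ, Real.exp (t / 2) = |g 0 0| := by
    refine ⟨2 * Real.log |g 0 0|, ?_⟩
    have e1 : 2 * Real.log |g 0 0| / 2 = Real.log |g 0 0| := by ring
    rw [e1, Real.exp_log (abs_pos.2 ha)]
  refine ⟨t, ?_⟩
  obtain ⟨d1, d2, d3, d4⟩ := dg_entries t
  rw [ht] at d1
  rw [Real.exp_neg, ht] at d4
  have hinv : g 1 1 = (g 0 0)⁻¹ := eq_inv_of_mul_eq_one_right hdet
  rcases le_or_gt 0 (g 0 0) with hpos | hneg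
  · left
    rw [abs_of_nonneg hpos] at d1 d4
    exact ext4 d1.symm (h01.trans d2.symm) (h10.trans d3.symm) (hinv.trans d4.symm)
  · right
    rw [abs_of_neg hneg] at d1 d4
    refine ext4 ?_ ?_ ?_ ?_
    · rw [neg_entries, d1, neg_neg]
    · rw [neg_entries, d2, h01, neg_zero]
    · rw [neg_entries, d3, h10, neg_zero]
    · rw [neg_entries, d4, hinv, inv_neg, neg_neg]

/-- the subgroup of the logarithms of the diagonal elements -/
noncomputable def diagSub (Δ : Subgroup SL(2, ℝ)) : AddSubgroup ℝ where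
  carrier := {s | dg s ∈ Δ ∨ - dg s ∈ Δ}
  zero_mem' := by
    left; rw [dg_zero]; exact Δ.one_mem
  add_mem' := by
    intro s t hs ht
    rcases hs with hs | hs <;> rcases ht with ht | ht
    · left; rw [dg_add]; exact Δ.mul_mem hs ht
    · right; rw [dg_add, ← mul_neg]; exact Δ.mul_mem hs ht
    · right; rw [dg_add, ← neg_mul]; exact Δ.mul_mem hs ht
    · left; rw [dg_add, ← neg_mul_neg]; exact Δ.mul_mem hs ht
  neg_mem' := by
    intro s hs
    rcases hs with hs | hs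
    · left; rw [← dg_inv]; exact Δ.inv_mem hs
    · right
      rw [← dg_inv]
      have : -(dg s)⁻¹ = (-dg s)⁻¹ := by
        rw [eq_comm, inv_eq_iff_mul_eq_one]; simp
      rw [this]; exact Δ.inv_mem hs

lemma dist_I_dg (s : ℝ) : dist (I : ℍ) (dg s • (I : ℍ)) = |s| := by
  obtain ⟨h1, h2⟩ := dg_re_im s I
  have h3 := cosh_dist_eq I (dg s • (I : ℍ))
  rw [h1, h2] at h3
  have hre : (I : ℍ).re = 0 := by simp
  have him : (I : ℍ).im = 1 := by simp
  rw [hre, him] at h3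
  have h4 : Real.cosh (dist (I : ℍ) (dg s • (I : ℍ))) = Real.cosh s := by
    rw [Real.cosh_eq s, Real.exp_neg]
    have hpos := Real.exp_pos s
    have : 2 * Real.cosh (dist (I : ℍ) (dg s • (I : ℍ))) = Real.exp s + (Real.exp s)⁻¹ := by
      rw [h3]; field_simp; ring
    linarith
  have h5 := Real.cosh_abs s
  rw [← h5] at h4
  have h6 := Real.cosh_strictMonoOn.injOn (show dist (I : ℍ) (dg s • (I : ℍ)) ∈ Set.Ici 0 from
    dist_nonneg) (show |s| ∈ Set.Ici 0 from abs_nonneg s) h4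
  exact h6

lemma diagSub_cyclic {Δ : Subgroup SL(2, ℝ)} (hΔ : DF Δ) :
    ∃ b : ℝ, diagSub Δ = AddSubgroup.closure {b} := by
  have hfin := hΔ.finite I 1
  have hF : {s : ℝ | s ∈ diagSub Δ ∧ 0 < s ∧ s ≤ 1}.Finite := by
    refine (hfin.image (fun g => 2 * Real.log |g 0 0|)).subset ?_
    rintro s ⟨hs, h0, h1⟩
    obtain ⟨d1, d2, d3, d4⟩ := dg_entries s
    rcases hs with hs | hs
    · refine ⟨dg s, ⟨hs, ?_⟩, ?_⟩
      · rw [dist_I_dg, abs_of_pos h0]; exact h1
      · show 2 * Real.log |dg s 0 0| = s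
        rw [d1, abs_of_pos (Real.exp_pos _), Real.log_exp]; ring
    · refine ⟨-dg s, ⟨hs, ?_⟩, ?_⟩
      · rw [neg_smul', dist_I_dg, abs_of_pos h0]; exact h1
      · show 2 * Real.log |(-dg s) 0 0| = s
        rw [neg_entries, abs_neg, d1, abs_of_pos (Real.exp_pos _), Real.log_exp]; ring
  have hopen := hF.isClosed.isOpen_compl
  have h0 : (0 : ℝ) ∈ {s : ℝ | s ∈ diagSub Δ ∧ 0 < s ∧ s ≤ 1}ᶜ := by
    intro h; exact lt_irrefl _ h.2.1
  obtain ⟨ε, hε, hball⟩ := Metric.isOpen_iff.1 hopen 0 h0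
  refine AddSubgroup.cyclic_of_isolated_zero (a := min ε 1) (lt_min hε one_pos) ?_
  rw [Set.disjoint_left]
  intro s hs hs'
  have h1 : s ∈ Metric.ball (0 : ℝ) ε := by
    rw [Metric.mem_ball, Real.dist_eq, sub_zero, abs_of_pos hs'.1]
    exact lt_of_lt_of_le hs'.2 (min_le_left _ _)
  exact hball h1 ⟨hs, hs'.1, (lt_of_lt_of_le hs'.2 (min_le_right _ _)).le⟩

/-- if `γ = ± dg ℓ` is primitive, all diagonal elements are powers of `γ` -/
lemma DF.diag_eq_zpow {Δ : Subgroup SL(2, ℝ)} (hΔ : DF Δ) {ℓ : ℝ} (hℓ : 0 < ℓ) {γ : SL(2, ℝ)}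
    (hγ : γ ∈ Δ) (hγd : γ = dg ℓ ∨ γ = - dg ℓ)
    (hprim : ∀ h ∈ Δ, ∀ k : ℤ, h ^ k = γ → k = 1 ∨ k = -1) {g : SL(2, ℝ)} (hg : g ∈ Δ)
    (h01 : g 0 1 = 0) (h10 : g 1 0 = 0) : ∃ k : ℤ, g = γ ^ k := by
  obtain ⟨b, hb⟩ := diagSub_cyclic hΔ
  have hmem : ∀ {x : SL(2, ℝ)} {t : ℝ}, x ∈ Δ → (x = dg t ∨ x = - dg t) → t ∈ diagSub Δ := by
    intro x t hx h
    rcases h with h | h
    · left; rw [← h]; exact hx
    · right; rw [← h]; exact hx
  have hex : ∀ {t : ℝ}, t ∈ diagSub Δ → ∃ x ∈ Δ, (x = dg t ∨ x = - dg t) := by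
    intro t ht
    rcases ht with h | h
    · exact ⟨_, h, Or.inl rfl⟩
    · exact ⟨_, h, Or.inr rfl⟩
  have hmul : ∀ t ∈ diagSub Δ, ∃ k : ℤ, t = k * b := by
    intro t ht
    rw [hb, AddSubgroup.mem_closure_singleton] at ht
    obtain ⟨k, hk⟩ := ht
    exact ⟨k, by rw [← hk, zsmul_eq_mul]⟩
  have hbmem : b ∈ diagSub Δ := by
    rw [hb]; exact AddSubgroup.subset_closure rfl
  obtain ⟨x0, hx0, hx0d⟩ := hex hbmem
  obtain ⟨m, hm⟩ := hmul ℓ (hmem hγ hγd)
  have h1 : x0 ^ m = γ := by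
    refine pm_eq hΔ (Δ.zpow_mem hx0 m) hγ ?_
    refine pm_trans (pm_zpow hx0d m) ?_
    rw [dg_zpow, ← hm]
    exact pm_symm hγd
  have hm1 := hprim x0 hx0 m h1
  obtain ⟨t, ht⟩ := diag_pm h01 h10
  obtain ⟨k, hk⟩ := hmul t (hmem hg ht)
  have hmm : m * m = 1 := by rcases hm1 with h | h <;> rw [h] <;> norm_num
  refine ⟨k * m, ?_⟩
  refine pm_eq hΔ hg (Δ.zpow_mem hγ _) ?_
  refine pm_trans ht ?_
  have h2 : dg t = dg ℓ ^ (k * m) := by
    rw [dg_zpow]
    congr 1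
    rw [hk, hm]
    push_cast
    have : (m : ℝ) * m = 1 := by exact_mod_cast hmm
    linear_combination (-(k : ℝ) * b) * this
  rw [h2]
  exact pm_symm (pm_zpow hγd _)

end Pool.Agent.LengthSpec
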