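import Pool.Agent.LengthSpec.Basic

open UpperHalfPlane MeasureTheory Set
open scoped MatrixGroups Manifold ENNReal Topology

namespace Pool.Agent.LengthSpec

lemma bdd_disp (g : SL(2, ℝ)) : BddBelow (Set.range fun z : ℍ => dist z (g • z)) :=
  ⟨0, by rintro _ ⟨z, rfl⟩; exact dist_nonneg⟩

lemma len_nonneg (g : SL(2, ℝ)) : 0 ≤ len g := Real.iInf_nonneg fun _ => dist_nonneg

lemma len_le_dist (g : SL(2, ℝ)) (z : ℍ) : len g ≤ dist z (g • z) := ciInf_le (bdd_disp g) z

lemma side_mk (g : SL(2, ℝ)) (x y : ℝ) (hy : 0 < y) :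
    side g (UpperHalfPlane.mk ⟨x, y⟩ hy) =
      (g 1 0 * (x ^ 2 + y ^ 2) + (g 1 1 - g 0 0) * x - g 0 1) / y := rfl

lemma exists_side_eq_zero {g : SL(2, ℝ)} (hg : 2 < |tr g|) : ∃ z : ℍ, side g z = 0 := by
  have hdet := det_eq g
  have htr : 4 < tr g ^ 2 := by
    rw [← sq_abs]; nlinarith
  by_cases hc : g 1 0 = 0
  · have hne : g 1 1 - g 0 0 ≠ 0 := by
      intro h0
      rw [hc] at hdet
      have e : g 1 1 = g 0 0 := by linarith
      rw [tr, e] at htr
      rw [e] at hdet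
      nlinarith
    refine ⟨UpperHalfPlane.mk ⟨g 0 1 / (g 1 1 - g 0 0), 1⟩ one_pos, ?_⟩
    rw [side_mk, hc]
    field_simp
    ring
  · have hs : 0 < Real.sqrt (tr g ^ 2 - 4) := Real.sqrt_pos.2 (by linarith)
    have hy : 0 < Real.sqrt (tr g ^ 2 - 4) / (2 * |g 1 0|) := by positivity
    refine ⟨UpperHalfPlane.mk ⟨(g 0 0 - g 1 1) / (2 * g 1 0), _⟩ hy, ?_⟩
    rw [side_mk]
    have h1 : (Real.sqrt (tr g ^ 2 - 4) / (2 * |g 1 0|)) ^ 2 = (tr g ^ 2 - 4) / (4 * g 1 0 ^ 2) := by
      rw [div_pow, Real.sq_sqrt (by linarith), mul_pow, sq_abs]; norm_num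
    rw [h1, tr, div_eq_zero_iff]
    left
    field_simp
    linear_combination (16 * hdet)

lemma cosh_lt_of_lt {x y : ℝ} (hx : 0 ≤ x) (h : x < y) : Real.cosh x < Real.cosh y := by
  rw [Real.cosh_lt_cosh, abs_of_nonneg hx, abs_of_nonneg (hx.trans h.le)]
  exact h

lemma le_of_cosh_le {x y : ℝ} (hy : 0 ≤ y) (h : Real.cosh x ≤ Real.cosh y) : x ≤ y := by
  rw [Real.cosh_le_cosh, abs_of_nonneg hy] at h
  exact (le_abs_self x).trans h

lemma eq_of_cosh_eq {x y : ℝ} (hx : 0 ≤ x) (hy : 0 ≤ y) (h : Real.cosh x = Real.cosh y) : x = y :=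
  le_antisymm (le_of_cosh_le hy h.le) (le_of_cosh_le hx h.ge)

lemma two_cosh_len {g : SL(2, ℝ)} (hg : 2 < |tr g|) : 2 * Real.cosh (len g) = tr g ^ 2 - 2 := by
  obtain ⟨z0, hz0⟩ := exists_side_eq_zero hg
  have h0 := cosh_disp g z0
  rw [hz0] at h0
  have h1 : len g = dist z0 (g • z0) := by
    apply le_antisymm (len_le_dist g z0)
    refine le_ciInf fun z => ?_
    apply le_of_cosh_le dist_nonneg
    have := cosh_disp g z
    nlinarith [sq_nonneg (side g z)]
  rw [h1, h0]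
  ring

lemma two_cosh_half_len {g : SL(2, ℝ)} (hg : 2 < |tr g|) :
    2 * Real.cosh (len g / 2) = |tr g| := by
  have h := two_cosh_len hg
  have h2 : Real.cosh (len g) = Real.cosh (len g / 2) ^ 2 + Real.sinh (len g / 2) ^ 2 := by
    rw [← Real.cosh_two_mul]; congr 1; ring
  have h3 := Real.cosh_sq (len g / 2)
  have h4 : (2 * Real.cosh (len g / 2)) ^ 2 = |tr g| ^ 2 := by
    rw [sq_abs]; nlinarith
  have h5 := Real.cosh_pos (len g / 2)
  exact (pow_left_inj₀ (by positivity) (abs_nonneg _) two_ne_zero).1 h4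

lemma len_pos_iff (g : SL(2, ℝ)) : 0 < len g ↔ 2 < |tr g| := by
  constructor
  · intro hl
    by_contra hcon
    push Not at hcon
    have htr : tr g ^ 2 ≤ 4 := by
      rw [← sq_abs]; nlinarith [abs_nonneg (tr g)]
    have hdet := det_eq g
    set δ := 2 * Real.cosh (len g) - 2 with hδ
    have hδp : 0 < δ := by
      have := cosh_lt_of_lt le_rfl hl
      rw [Real.cosh_zero] at this
      linarith
    -- it suffices to find a point with small side
    have key : ∀ z : ℍ, δ + (4 - tr g ^ 2) ≤ side g z ^ 2 := by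
      intro z
      have h1 := cosh_disp g z
      have h2 : Real.cosh (len g) ≤ Real.cosh (dist z (g • z)) := by
        rw [Real.cosh_le_cosh, abs_of_nonneg hl.le, abs_of_nonneg dist_nonneg]
        exact len_le_dist g z
      linarith
    by_cases hc : g 1 0 = 0
    · rw [hc] at hdet
      have hbd : g 1 1 = g 0 0 := by
        rw [tr] at htr
        nlinarith [sq_nonneg (g 1 1 - g 0 0)]
      have hsq : 0 < Real.sqrt δ := Real.sqrt_pos.2 hδp
      have hy : 0 < 2 * (|g 0 1| + 1) / Real.sqrt δ := by positivity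
      have h1 := key (UpperHalfPlane.mk ⟨0, _⟩ hy)
      rw [side_mk, hc, hbd] at h1
      have h2 : ((0 * (0 ^ 2 + (2 * (|g 0 1| + 1) / Real.sqrt δ) ^ 2) + (g 0 0 - g 0 0) * 0 - g 0 1) /
          (2 * (|g 0 1| + 1) / Real.sqrt δ)) ^ 2 = g 0 1 ^ 2 * δ / (2 * (|g 0 1| + 1)) ^ 2 := by
        rw [div_pow, div_pow, Real.sq_sqrt hδp.le]
        field_simp
        ring
      rw [h2] at h1
      have h3 : g 0 1 ^ 2 * δ / (2 * (|g 0 1| + 1)) ^ 2 < δ := by
        rw [div_lt_iff₀ (by positivity)]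
        have h4 : g 0 1 ^ 2 < (2 * (|g 0 1| + 1)) ^ 2 := by
          rw [← sq_abs (g 0 1)]
          nlinarith [abs_nonneg (g 0 1)]
        nlinarith
      linarith
    · have hside : ∀ y : ℝ, 0 < y → ∃ z : ℍ, side g z = g 1 0 * y + (4 - tr g ^ 2) / (4 * g 1 0 * y) := by
        intro y hy
        refine ⟨UpperHalfPlane.mk ⟨(g 0 0 - g 1 1) / (2 * g 1 0), y⟩ hy, ?_⟩
        rw [side_mk, tr]
        field_simp
        linear_combination (16 * hdet)
      rcases eq_or_lt_of_le htr with he | hlt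
      · have hsq : 0 < Real.sqrt δ := Real.sqrt_pos.2 hδp
        obtain ⟨z, hz⟩ := hside (Real.sqrt δ / (2 * |g 1 0|)) (by positivity)
        have h1 := key z
        rw [hz, he] at h1
        have h2 : (g 1 0 * (Real.sqrt δ / (2 * |g 1 0|)) +
            (4 - 4) / (4 * g 1 0 * (Real.sqrt δ / (2 * |g 1 0|)))) ^ 2 = δ / 4 := by
          rw [sub_self, zero_div, add_zero, mul_pow, div_pow, Real.sq_sqrt hδp.le, mul_pow, sq_abs]
          field_simp
          ring
        rw [h2] at h1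
        linarith
      · have hsq : 0 < Real.sqrt (4 - tr g ^ 2) := Real.sqrt_pos.2 (by linarith)
        obtain ⟨z, hz⟩ := hside (Real.sqrt (4 - tr g ^ 2) / (2 * |g 1 0|)) (by positivity)
        have h1 := key z
        rw [hz] at h1
        set y := Real.sqrt (4 - tr g ^ 2) / (2 * |g 1 0|) with hy
        have hyp : 0 < y := by positivity
        have hy2 : 4 * g 1 0 ^ 2 * y ^ 2 = 4 - tr g ^ 2 := by
          rw [hy, div_pow, Real.sq_sqrt (by linarith), mul_pow, sq_abs]
          field_simp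
          ring
        have h2 : g 1 0 * y + (4 - tr g ^ 2) / (4 * g 1 0 * y) = 2 * g 1 0 * y := by
          rw [← hy2]
          field_simp
          ring
        rw [h2] at h1
        nlinarith
  · intro hg
    have h := two_cosh_len hg
    have htr : 4 < tr g ^ 2 := by
      rw [← sq_abs]; nlinarith
    rcases eq_or_lt_of_le (len_nonneg g) with he | hlt
    · rw [← he, Real.cosh_zero] at h
      linarith
    · exact hlt

lemma mem_axis_iff {g : SL(2, ℝ)} (hg : 2 < |tr g|) (z : ℍ) : z ∈ axis g ↔ side g z = 0 := by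
  have h1 := two_cosh_len hg
  have h2 := cosh_disp g z
  constructor
  · intro hz
    have hz' : dist z (g • z) = len g := hz
    rw [hz'] at h2
    have : side g z ^ 2 = 0 := by linarith
    exact pow_eq_zero_iff two_ne_zero |>.1 this
  · intro hz
    rw [hz] at h2
    apply eq_of_cosh_eq dist_nonneg (len_nonneg g)
    linarith

lemma len_conj (h g : SL(2, ℝ)) : len (h * g * h⁻¹) = len g := by
  symm
  apply len_congr (IsometryEquiv.constSMul h)
  intro z
  show h • g • z = (h * g * h⁻¹) • h • z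
  rw [← mul_smul, ← mul_smul, inv_mul_cancel_right]

lemma len_neg (g : SL(2, ℝ)) : len (-g) = len g := by
  unfold len
  congr 1
  funext z
  rw [neg_smul']

lemma len_inv (g : SL(2, ℝ)) : len g⁻¹ = len g := by
  unfold len
  congr 1
  funext z
  rw [← dist_smul g z (g⁻¹ • z), smul_inv_smul, dist_comm]

lemma len_one : len 1 = 0 := by
  apply le_antisymm _ (len_nonneg 1)
  have := len_le_dist 1 UpperHalfPlane.I
  simpa using this

lemma len_dg {s : ℝ} (hs : 0 ≤ s) : len (dg s) = s := by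
  rcases eq_or_lt_of_le hs with he | hlt
  · rw [← he, dg_zero, len_one]
  · have h1 : 1 < Real.cosh (s / 2) := by
      have := cosh_lt_of_lt le_rfl (show (0 : ℝ) < s / 2 by positivity)
      rwa [Real.cosh_zero] at this
    have h2 : |tr (dg s)| = 2 * Real.cosh (s / 2) := by
      rw [tr_dg, abs_of_pos]
      linarith
    have h3 : 2 < |tr (dg s)| := by rw [h2]; linarith
    have h4 := two_cosh_half_len h3
    rw [h2] at h4
    have h5 := eq_of_cosh_eq (x := len (dg s) / 2) (y := s / 2)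
      (by have := len_nonneg (dg s); positivity) (by positivity) (by linarith)
    linarith

lemma exists_diag_pos {g : SL(2, ℝ)} (hg : 2 < tr g) :
    ∃ m : SL(2, ℝ), m * g * m⁻¹ = dg (len g) := by
  have habs : |tr g| = tr g := abs_of_pos (by linarith)
  have h1 := two_cosh_half_len (g := g) (by rw [habs]; exact hg)
  have hl : 0 < len g := (len_pos_iff g).2 (by rw [habs]; exact hg)
  rw [habs, Real.cosh_eq, tr] at h1
  have hdet := det_eq g
  obtain ⟨d1, d2, d3, d4⟩ := dg_entries (len g)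
  set e := Real.exp (len g / 2) with he
  have hep : 0 < e := Real.exp_pos _
  have he1 : 1 < e := by
    rw [he]; exact Real.one_lt_exp_iff.2 (by positivity)
  have hei : Real.exp (-(len g / 2)) = e⁻¹ := Real.exp_neg _
  rw [hei] at h1 d4
  have hq : e ^ 2 - (g 0 0 + g 1 1) * e + 1 = 0 := by
    have : e * (e + e⁻¹) = e * (g 0 0 + g 1 1) := by
      rw [← h1]; ring
    rw [mul_add, mul_inv_cancel₀ hep.ne'] at this
    linarith
  have hee : e - e⁻¹ ≠ 0 := by
    have : e⁻¹ < 1 := inv_lt_one_of_one_lt₀ he1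
    intro h0
    linarith
  have hsum : e⁻¹ = g 0 0 + g 1 1 - e := by linarith
  -- it suffices to find P
  suffices hP : ∃ P : SL(2, ℝ), g * P = P * dg (len g) by
    obtain ⟨P, hP⟩ := hP
    refine ⟨P⁻¹, ?_⟩
    rw [inv_inv, mul_assoc, hP, inv_mul_cancel_left]
  by_cases hc : g 1 0 = 0
  · rw [hc] at hdet
    have had : g 0 0 * g 1 1 = 1 := by linarith
    have hfac : (e - g 0 0) * (e - g 1 1) = 0 := by nlinarith
    have hne : g 1 1 - g 0 0 ≠ 0 := by
      intro h0
      have e1 : g 1 1 = g 0 0 := by linarith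
      rw [e1] at had hfac
      have e2 : e = g 0 0 := by
        rcases mul_eq_zero.1 hfac with h | h <;> linarith
      rw [← e2] at had
      nlinarith
    rcases mul_eq_zero.1 hfac with ha | ha
    · have ha' : g 0 0 = e := by linarith
      have hd' : g 1 1 = e⁻¹ := by linarith
      refine ⟨⟨!![1, g 0 1 / (g 1 1 - g 0 0); 0, 1], by rw [Matrix.det_fin_two_of]; ring⟩, ?_⟩
      set P : SL(2, ℝ) := ⟨!![1, g 0 1 / (g 1 1 - g 0 0); 0, 1], _⟩ with hPdef
      obtain ⟨a1, a2, a3, a4⟩ := mul_entries g P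
      obtain ⟨b1, b2, b3, b4⟩ := mul_entries P (dg (len g))
      have p1 : P 0 0 = 1 := rfl
      have p2 : P 0 1 = g 0 1 / (g 1 1 - g 0 0) := rfl
      have p3 : P 1 0 = 0 := rfl
      have p4 : P 1 1 = 1 := rfl
      apply ext4
      · rw [a1, b1, p1, p2, p3, d1, d3, ha']; ring
      · rw [a2, b2, p1, p2, p4, d2, d4, ← hd']; field_simp; ring
      · rw [a3, b3, p1, p3, p4, d1, d3, hc]; ring
      · rw [a4, b4, p2, p3, p4, d2, d4, hc, hd']; ring
    · have ha' : g 1 1 = e := by linarith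
      have hd' : g 0 0 = e⁻¹ := by linarith
      refine ⟨⟨!![g 0 1 / (g 1 1 - g 0 0), -1; 1, 0], by rw [Matrix.det_fin_two_of]; ring⟩, ?_⟩
      set P : SL(2, ℝ) := ⟨!![g 0 1 / (g 1 1 - g 0 0), -1; 1, 0], _⟩ with hPdef
      obtain ⟨a1, a2, a3, a4⟩ := mul_entries g P
      obtain ⟨b1, b2, b3, b4⟩ := mul_entries P (dg (len g))
      have p1 : P 0 0 = g 0 1 / (g 1 1 - g 0 0) := rfl
      have p2 : P 0 1 = -1 := rfl
      have p3 : P 1 0 = 1 := rfl
      have p4 : P 1 1 = 0 := rfl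
      apply ext4
      · rw [a1, b1, p1, p2, p3, d1, d3, ← ha']; field_simp; ring
      · rw [a2, b2, p1, p2, p4, d2, d4, ← hd']; ring
      · rw [a3, b3, p1, p3, p4, d1, d3, hc, ha']; ring
      · rw [a4, b4, p2, p3, p4, d2, d4, hc]; ring
  · have hdetP : (e - g 1 1) * (1 / (e - e⁻¹)) -
        (e⁻¹ - g 1 1) / (g 1 0 * (e - e⁻¹)) * g 1 0 = 1 := by
      generalize e⁻¹ = f at hee
      field_simp
      ring
    refine ⟨⟨!![e - g 1 1, (e⁻¹ - g 1 1) / (g 1 0 * (e - e⁻¹)); g 1 0, 1 / (e - e⁻¹)], by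
      rw [Matrix.det_fin_two_of]; exact hdetP⟩, ?_⟩
    set P : SL(2, ℝ) :=
      ⟨!![e - g 1 1, (e⁻¹ - g 1 1) / (g 1 0 * (e - e⁻¹)); g 1 0, 1 / (e - e⁻¹)], _⟩ with hPdef
    obtain ⟨a1, a2, a3, a4⟩ := mul_entries g P
    obtain ⟨b1, b2, b3, b4⟩ := mul_entries P (dg (len g))
    have p1 : P 0 0 = e - g 1 1 := rfl
    have p2 : P 0 1 = (e⁻¹ - g 1 1) / (g 1 0 * (e - e⁻¹)) := rfl
    have p3 : P 1 0 = g 1 0 := rfl
    have p4 : P 1 1 = 1 / (e - e⁻¹) := rfl
    set f := e⁻¹ with hf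
    have hq' : f ^ 2 - (g 0 0 + g 1 1) * f + 1 = 0 := by
      have hef : e * f = 1 := mul_inv_cancel₀ hep.ne'
      have : g 0 0 + g 1 1 = e + f := by linarith
      rw [this]; linear_combination (-1 : ℝ) * hef
    apply ext4
    · rw [a1, b1, p1, p2, p3, d1, d3]; linear_combination (-1 : ℝ) * hq - hdet
    · rw [a2, b2, p1, p2, p4, d2, d4]
      field_simp
      linear_combination (-1 : ℝ) * hq' - hdet
    · rw [a3, b3, p1, p3, p4, d1, d3]; ring
    · rw [a4, b4, p2, p3, p4, d2, d4]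
      field_simp
      ring

/-- Normal form of hyperbolic elements. -/
lemma exists_diag {g : SL(2, ℝ)} (hg : 2 < |tr g|) :
    ∃ m : SL(2, ℝ), m * g * m⁻¹ = dg (len g) ∨ m * g * m⁻¹ = - dg (len g) := by
  rcases lt_abs.1 hg with h | h
  · obtain ⟨m, hm⟩ := exists_diag_pos h
    exact ⟨m, Or.inl hm⟩
  · have h' : 2 < tr (-g) := by rw [tr_neg]; exact h
    obtain ⟨m, hm⟩ := exists_diag_pos h'
    refine ⟨m, Or.inr ?_⟩
    rw [len_neg] at hm
    rw [← hm]
    simp

lemma axis_conj (h g : SL(2, ℝ)) : axis (h * g * h⁻¹) = (fun z : ℍ => h • z) '' axis g := by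
  ext z
  constructor
  · intro hz
    refine ⟨h⁻¹ • z, ?_, smul_inv_smul h z⟩
    have hz' : dist z ((h * g * h⁻¹) • z) = len (h * g * h⁻¹) := hz
    show dist (h⁻¹ • z) (g • h⁻¹ • z) = len g
    rw [← len_conj h g, ← hz', ← dist_smul h (h⁻¹ • z) (g • h⁻¹ • z), smul_inv_smul, mul_smul,
      mul_smul]
  · rintro ⟨w, hw, rfl⟩
    have hw' : dist w (g • w) = len g := hw
    show dist (h • w) ((h * g * h⁻¹) • h • w) = len (h * g * h⁻¹)
    rw [len_conj, ← hw', mul_smul, inv_smul_smul, mul_smul, dist_smul]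

end Pool.Agent.LengthSpec
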