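import Pool.Agent.LengthSpec.Fuchs2

open UpperHalfPlane MeasureTheory Set
open scoped MatrixGroups Manifold ENNReal Topology

namespace Pool.Agent.LengthSpec

/-- A map which is locally continuous up to the action of `Δ` can be corrected to a continuous
one (lifting to the universal covering `ℍ → ℍ/Δ`). -/
theorem lift_exists (Δ : Subgroup SL(2, ℝ)) (hΔ : DF Δ) (G : ℍ → ℍ)
    (hG : ∀ x : ℍ, ∃ e : ℍ → ℍ, Continuous e ∧ ∀ᶠ y in 𝓝 x, ∃ g ∈ Δ, G y = g • e y) (z₀ : ℍ) :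
    ∃ F : ℍ → ℍ, Continuous F ∧ (∀ z, ∃ g ∈ Δ, F z = g • G z) ∧ F z₀ = G z₀ := by
  haveI := hΔ.discrete
  haveI : IsCancelSMul Δ ℍ := by
    rw [isCancelSMul_iff_eq_one_of_smul_eq]
    intro g x hg
    exact Subtype.ext (hΔ.free g.1 g.2 x hg)
  have cov : IsQuotientCoveringMap (Quotient.mk <| MulAction.orbitRel Δ ℍ) Δ :=
    isQuotientCoveringMap_quotientMk_of_properlyDiscontinuousSMul
  have hmk : ∀ x y : ℍ, (Quotient.mk (MulAction.orbitRel Δ ℍ) x =
      Quotient.mk (MulAction.orbitRel Δ ℍ) y) ↔ ∃ g ∈ Δ, x = g • y := by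
    intro x y
    rw [Quotient.eq, MulAction.orbitRel_apply, MulAction.mem_orbit_iff]
    constructor
    · rintro ⟨g, hg⟩
      exact ⟨g.1, g.2, hg.symm⟩
    · rintro ⟨g, hg, h⟩
      exact ⟨⟨g, hg⟩, h.symm⟩
  have hcont : Continuous (fun z => Quotient.mk (MulAction.orbitRel Δ ℍ) (G z)) := by
    rw [continuous_iff_continuousAt]
    intro x
    obtain ⟨e, he, hy⟩ := hG x
    have h1 : ContinuousAt (fun z => Quotient.mk (MulAction.orbitRel Δ ℍ) (e z)) x :=
      (continuous_quotient_mk'.comp he).continuousAt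
    refine h1.congr ?_
    filter_upwards [hy] with y hy
    obtain ⟨g, hg, h⟩ := hy
    exact ((hmk _ _).2 ⟨g, hg, h⟩).symm
  obtain ⟨F, ⟨hF0, hF⟩, -⟩ := cov.isCoveringMap.existsUnique_continuousMap_lifts
    (⟨_, hcont⟩ : C(ℍ, Quotient (MulAction.orbitRel Δ ℍ))) z₀ (G z₀) rfl
  refine ⟨F, F.continuous, fun z => ?_, hF0⟩
  exact (hmk _ _).1 (congrFun hF z)

theorem lift_unique (Δ : Subgroup SL(2, ℝ)) (hΔ : DF Δ) (F₁ F₂ : ℍ → ℍ) (C : Set ℍ)
    (hC : IsPreconnected C) (h₁ : ContinuousOn F₁ C) (h₂ : ContinuousOn F₂ C)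
    (h : ∀ z ∈ C, ∃ g ∈ Δ, F₁ z = g • F₂ z) (g₀ : SL(2, ℝ)) (hg₀ : g₀ ∈ Δ) (z₀ : ℍ)
    (hz₀ : z₀ ∈ C) (h₀ : F₁ z₀ = g₀ • F₂ z₀) : ∀ z ∈ C, F₁ z = g₀ • F₂ z := by
  have huniq : ∀ z : ℍ, ∀ g ∈ Δ, ∀ g' ∈ Δ, g • z = g' • z → g = g' := by
    intro z g hg g' hg' he
    have h1 : (g'⁻¹ * g) • z = z := by rw [mul_smul, he, inv_smul_smul]
    have h2 := hΔ.free _ (Δ.mul_mem (Δ.inv_mem hg') hg) z h1
    exact (inv_mul_eq_one.1 h2).symm
  haveI : PreconnectedSpace C := Subtype.preconnectedSpace hC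
  choose φ hφΔ hφ using fun z : C => h z.1 z.2
  have hloc : IsLocallyConstant φ := by
    rw [IsLocallyConstant.iff_eventually_eq]
    intro z1
    set w := F₂ z1 with hw
    obtain ⟨K, hK, hwK⟩ := exists_compact_mem_nhds w
    have hfin := hΔ.finite' K hK
    have hc2 : ContinuousAt (fun z : C => F₂ z.1) z1 :=
      (continuousOn_iff_continuous_domRestrict.1 h₂).continuousAt
    have hc1 : ContinuousAt (fun z : C => F₁ z.1) z1 :=
      (continuousOn_iff_continuous_domRestrict.1 h₁).continuousAt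
    have hc1' : Filter.Tendsto (fun z : C => (φ z1)⁻¹ • F₁ z.1) (𝓝 z1) (𝓝 w) := by
      have h1 : Filter.Tendsto (fun z : C => (φ z1)⁻¹ • F₁ z.1) (𝓝 z1)
          (𝓝 ((φ z1)⁻¹ • F₁ z1.1)) := hc1.tendsto.const_smul _
      rw [hφ z1, inv_smul_smul] at h1
      exact h1
    have e1 := hc2.tendsto.eventually hwK
    have e2 := hc1'.eventually hwK
    have e3 : ∀ᶠ z in 𝓝 z1, ∀ g ∈ {g : SL(2, ℝ) | g ∈ Δ ∧ ∃ z ∈ K, g • z ∈ K}, g ≠ 1 →
        g • F₂ z.1 ≠ (φ z1)⁻¹ • F₁ z.1 := by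
      rw [Filter.eventually_all_finite hfin]
      rintro g ⟨hg, -⟩
      by_cases hg1 : g = 1
      · exact Filter.Eventually.of_forall fun z hz => absurd hg1 hz
      have hne : g • w ≠ w := fun hcon => hg1 (hΔ.free g hg w hcon)
      have hgt : Filter.Tendsto (fun z : C => g • F₂ z.1) (𝓝 z1) (𝓝 (g • w)) :=
        hc2.tendsto.const_smul _
      obtain ⟨U, W, hU, hW, hgU, hwW, hdisj⟩ := t2_separation hne
      filter_upwards [hgt.eventually (hU.mem_nhds hgU), hc1'.eventually (hW.mem_nhds hwW)]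
        with z hz1 hz2 _ heq
      rw [heq] at hz1
      exact Set.disjoint_left.1 hdisj hz1 hz2
    filter_upwards [e1, e2, e3] with z hz1 hz2 hz3
    have hmem : (φ z1)⁻¹ * φ z ∈ Δ := Δ.mul_mem (Δ.inv_mem (hφΔ z1)) (hφΔ z)
    have heq : ((φ z1)⁻¹ * φ z) • F₂ z.1 = (φ z1)⁻¹ • F₁ z.1 := by
      rw [mul_smul, ← hφ z]
    by_contra hcon
    refine hz3 ((φ z1)⁻¹ * φ z) ⟨hmem, F₂ z.1, hz1, ?_⟩ ?_ heq
    · rw [heq]; exact hz2
    · intro h1
      exact hcon (inv_mul_eq_one.1 h1).symm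
  intro z hz
  have h1 := hloc.apply_eq_of_preconnectedSpace ⟨z, hz⟩ ⟨z₀, hz₀⟩
  have h2 : φ ⟨z₀, hz₀⟩ = g₀ := by
    refine huniq (F₂ z₀) _ (hφΔ _) _ hg₀ ?_
    rw [← h₀]; exact (hφ ⟨z₀, hz₀⟩).symm
  rw [hφ ⟨z, hz⟩, h1, h2]

/-- rotation about `i` -/
noncomputable def rotI (θ : ℝ) : SL(2, ℝ) :=
  ⟨!![Real.cos θ, Real.sin θ; -Real.sin θ, Real.cos θ], by
    rw [Matrix.det_fin_two_of]; nlinarith [Real.sin_sq_add_cos_sq θ]⟩

lemma rotI_entries (θ : ℝ) : rotI θ 0 0 = Real.cos θ ∧ rotI θ 0 1 = Real.sin θ ∧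
    rotI θ 1 0 = -Real.sin θ ∧ rotI θ 1 1 = Real.cos θ := by
  refine ⟨?_, ?_, ?_, ?_⟩ <;> simp [rotI]

/-- unipotent -/
noncomputable def upI (t : ℝ) : SL(2, ℝ) := ⟨!![1, t; 0, 1], by rw [Matrix.det_fin_two_of]; simp⟩

lemma upI_entries (t : ℝ) : upI t 0 0 = 1 ∧ upI t 0 1 = t ∧ upI t 1 0 = 0 ∧ upI t 1 1 = 1 := by
  refine ⟨?_, ?_, ?_, ?_⟩ <;> simp [upI]

lemma ext_re_im {z w : ℍ} (h : z.re = w.re) (h' : z.im = w.im) : z = w :=
  UpperHalfPlane.ext (Complex.ext h h')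

/-- any two points can be moved to the imaginary axis -/
lemma exists_to_axis (x y : ℍ) : ∃ g : SL(2, ℝ), (g • x).re = 0 ∧ (g • y).re = 0 := by
  -- first move x to i
  set g1 : SL(2, ℝ) := dg (-Real.log x.im) * upI (-x.re) with hg1
  have hx1 : (g1 • x).re = 0 ∧ (g1 • x).im = 1 := by
    rw [hg1, mul_smul]
    obtain ⟨h1, h2⟩ := dg_re_im (-Real.log x.im) (upI (-x.re) • x)
    obtain ⟨h3, h4⟩ := smul_re_im (upI (-x.re)) x
    obtain ⟨a1, a2, a3, a4⟩ := upI_entries (-x.re)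
    rw [h1, h2, h3, h4, a1, a2, a3, a4]
    constructor
    · simp
    · rw [Real.exp_neg, Real.exp_log x.im_pos]
      have := x.im_pos.ne'
      simp [this]
  set w := g1 • y with hw
  -- rotate
  obtain ⟨θ, -, hθ⟩ : ∃ θ ∈ Icc (0:ℝ) (Real.pi / 2),
      (Real.cos θ * w.re + Real.sin θ) * (-Real.sin θ * w.re + Real.cos θ) +
        Real.cos θ * (-Real.sin θ) * w.im ^ 2 = 0 := by
    have hcont : ContinuousOn (fun θ : ℝ => (Real.cos θ * w.re + Real.sin θ) *
        (-Real.sin θ * w.re + Real.cos θ) + Real.cos θ * (-Real.sin θ) * w.im ^ 2)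
        (Icc (0:ℝ) (Real.pi / 2)) := by fun_prop
    rcases le_total 0 w.re with h | h
    · have := intermediate_value_Icc' (by positivity) hcont
      simp only [Real.cos_pi_div_two, Real.sin_pi_div_two, Real.cos_zero, Real.sin_zero] at this
      exact this ⟨by simpa using h, by simpa using h⟩
    · have := intermediate_value_Icc (by positivity) hcont
      simp only [Real.cos_pi_div_two, Real.sin_pi_div_two, Real.cos_zero, Real.sin_zero] at this
      exact this ⟨by simpa using h, by simpa using h⟩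
  refine ⟨rotI θ * g1, ?_, ?_⟩
  · rw [mul_smul]
    obtain ⟨h1, h2⟩ := smul_re_im (rotI θ) (g1 • x)
    obtain ⟨a1, a2, a3, a4⟩ := rotI_entries θ
    rw [h1, hx1.1, hx1.2, a1, a2, a3, a4]
    have : (Real.cos θ * 0 + Real.sin θ) * (-Real.sin θ * 0 + Real.cos θ) +
      Real.cos θ * -Real.sin θ * 1 ^ 2 = 0 := by ring
    rw [this, zero_div]
  · rw [mul_smul, ← hw]
    obtain ⟨h1, h2⟩ := smul_re_im (rotI θ) w
    obtain ⟨a1, a2, a3, a4⟩ := rotI_entries θ
    rw [h1, a1, a2, a3, a4, hθ, zero_div]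

lemma exists_geodesic (x y : ℍ) : ∃ (c : ℝ → ℍ) (a b : ℝ), Isometry c ∧ c a = x ∧ c b = y := by
  obtain ⟨g, h1, h2⟩ := exists_to_axis x y
  refine ⟨fun s => g⁻¹ • (UpperHalfPlane.mk ⟨0, Real.exp s⟩ (Real.exp_pos s)),
    Real.log (g • x).im, Real.log (g • y).im, ?_, ?_, ?_⟩
  · exact (isometry_smul ℍ g⁻¹).comp (UpperHalfPlane.isometry_vertical_line 0)
  · have : UpperHalfPlane.mk ⟨0, Real.exp (Real.log (g • x).im)⟩ (Real.exp_pos _) = g • x := by
      apply ext_re_im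
      · rw [h1]; rfl
      · change Real.exp (Real.log (g • x).im) = (g • x).im
        exact Real.exp_log (g • x).im_pos
    change g⁻¹ • (UpperHalfPlane.mk ⟨0, Real.exp (Real.log (g • x).im)⟩ (Real.exp_pos _)) = x
    rw [this, inv_smul_smul]
  · have : UpperHalfPlane.mk ⟨0, Real.exp (Real.log (g • y).im)⟩ (Real.exp_pos _) = g • y := by
      apply ext_re_im
      · rw [h2]; rfl
      · change Real.exp (Real.log (g • y).im) = (g • y).im
        exact Real.exp_log (g • y).im_pos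
    change g⁻¹ • (UpperHalfPlane.mk ⟨0, Real.exp (Real.log (g • y).im)⟩ (Real.exp_pos _)) = y
    rw [this, inv_smul_smul]

/-- local to global on the line -/
lemma line_lip {X : Type*} [MetricSpace X] (u : ℝ → X) (K : ℝ)
    (h : ∀ s, ∃ ε > 0, ∀ t, dist s t < ε → dist (u s) (u t) ≤ K * dist s t) (a b : ℝ)
    (hab : a ≤ b) : dist (u a) (u b) ≤ K * (b - a) := by
  have hcont : Continuous u := by
    rw [continuous_iff_continuousAt]
    intro s
    obtain ⟨ε, hε, hs⟩ := h s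
    rw [ContinuousAt, tendsto_iff_dist_tendsto_zero]
    have h1 : Filter.Tendsto (fun t => K * dist s t) (𝓝 s) (𝓝 0) := by
      have : Continuous (fun t => K * dist s t) := by fun_prop
      have h2 := this.tendsto s
      simpa using h2
    refine squeeze_zero' (Filter.Eventually.of_forall fun t => dist_nonneg) ?_ h1
    filter_upwards [Metric.ball_mem_nhds s hε] with t ht
    rw [dist_comm (u t)]
    exact hs t (by rwa [Metric.mem_ball, dist_comm] at ht)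
  set S := {t : ℝ | dist (u a) (u t) ≤ K * (t - a)} with hS
  have hclosed : IsClosed (S ∩ Icc a b) := by
    refine IsClosed.inter ?_ isClosed_Icc
    exact isClosed_le (by fun_prop) (by fun_prop)
  have hsub : Icc a b ⊆ S := by
    refine hclosed.Icc_subset_of_forall_mem_nhdsWithin ?_ ?_
    · simp [hS]
    · rintro t ⟨htS, ht1, ht2⟩
      obtain ⟨ε, hε, hs⟩ := h t
      have h1 : Metric.ball t ε ∈ 𝓝[>] t := mem_nhdsWithin_of_mem_nhds (Metric.ball_mem_nhds t hε)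
      filter_upwards [h1, self_mem_nhdsWithin] with r hr1 hr2
      have h2 := hs r (by rwa [Metric.mem_ball, dist_comm] at hr1)
      have h3 : dist t r = r - t := by
        rw [dist_comm, Real.dist_eq, abs_of_pos (sub_pos.2 hr2)]
      rw [h3] at h2
      have h4 : dist (u a) (u t) ≤ K * (t - a) := htS
      change dist (u a) (u r) ≤ K * (r - a)
      calc dist (u a) (u r) ≤ dist (u a) (u t) + dist (u t) (u r) := dist_triangle _ _ _
        _ ≤ K * (t - a) + K * (r - t) := add_le_add h4 h2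
        _ = K * (r - a) := by ring
  exact hsub ⟨hab, le_rfl⟩

theorem lipschitz_of_local (f : ℍ → ℍ) (K : ℝ) (hK : 0 ≤ K)
    (h : ∀ x, ∃ ε > 0, ∀ y, dist x y < ε → dist (f x) (f y) ≤ K * dist x y) :
    ∀ x y, dist (f x) (f y) ≤ K * dist x y := by
  intro x y
  obtain ⟨c, a, b, hc, rfl, rfl⟩ := exists_geodesic x y
  have hu : ∀ s, ∃ ε > 0, ∀ t, dist s t < ε →
      dist ((f ∘ c) s) ((f ∘ c) t) ≤ K * dist s t := by
    intro s
    obtain ⟨ε, hε, hs⟩ := h (c s)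
    refine ⟨ε, hε, fun t ht => ?_⟩
    have := hs (c t) (by rwa [hc.dist_eq])
    rwa [hc.dist_eq] at this
  rcases le_total a b with hab | hab
  · have := line_lip (f ∘ c) K hu a b hab
    rwa [hc.dist_eq, dist_comm a b, Real.dist_eq, abs_of_nonneg (sub_nonneg.2 hab)]
  · have := line_lip (f ∘ c) K hu b a hab
    rw [dist_comm (f (c a))]
    rwa [hc.dist_eq, Real.dist_eq, abs_of_nonneg (sub_nonneg.2 hab)]

end Pool.Agent.LengthSpec
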