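import Pool.Agent.LengthSpec.Fuchs2

open UpperHalfPlane MeasureTheory Set
open scoped MatrixGroups Manifold ENNReal Topology

namespace Pool.Agent.LengthSpec

lemma tr_comm_symm (u k : SL(2, ℝ)) : tr (u * k * u⁻¹ * k⁻¹) = tr (k * u * k⁻¹ * u⁻¹) := by
  have h1 := tr_comm_formula u k
  have h2 := tr_comm_formula k u
  rw [tr_mul_comm k u] at h2
  linarith

lemma tr_comm_neg_left (u k : SL(2, ℝ)) : tr ((-u) * k * (-u)⁻¹ * k⁻¹) = tr (u * k * u⁻¹ * k⁻¹) := by
  have h1 := tr_comm_formula u k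
  have h2 := tr_comm_formula (-u) k
  have h3 : tr (-u * k) = - tr (u * k) := by rw [neg_mul, tr_neg]
  rw [tr_neg, h3] at h2
  nlinarith

lemma tr_comm_conj (m u k : SL(2, ℝ)) :
    tr ((m * u * m⁻¹) * (m * k * m⁻¹) * (m * u * m⁻¹)⁻¹ * (m * k * m⁻¹)⁻¹) =
      tr (u * k * u⁻¹ * k⁻¹) := by
  have : (m * u * m⁻¹) * (m * k * m⁻¹) * (m * u * m⁻¹)⁻¹ * (m * k * m⁻¹)⁻¹ =
      m * (u * k * u⁻¹ * k⁻¹) * m⁻¹ := by group
  rw [this, tr_conj]

lemma side_dg_smul (u : SL(2, ℝ)) (s : ℝ) (w : ℍ) : side u (dg s • w) =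
    (u 1 0 * (w.re ^ 2 + w.im ^ 2) * Real.exp s + (u 1 1 - u 0 0) * w.re +
      (- u 0 1) * Real.exp (-s)) / w.im := by
  obtain ⟨h1, h2⟩ := dg_re_im s w
  have hw := w.im_pos
  have he := Real.exp_pos s
  simp only [side]
  rw [h1, h2, Real.exp_neg]
  field_simp
  ring

lemma tendsto_aux {P Q B y l : ℝ} (hP : 0 < P) (hy : 0 < y) (hl : 0 < l) :
    Filter.Tendsto (fun n : ℕ => (P * Real.exp (n * l) + B + Q * Real.exp (-(n * l))) / y)
      Filter.atTop Filter.atTop := by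
  have h0 : Filter.Tendsto (fun n : ℕ => (n : ℝ) * l) Filter.atTop Filter.atTop :=
    tendsto_natCast_atTop_atTop.atTop_mul_const hl
  have h1 : Filter.Tendsto (fun n : ℕ => P * Real.exp (n * l)) Filter.atTop Filter.atTop :=
    (Real.tendsto_exp_atTop.comp h0).const_mul_atTop hP
  have h2 : Filter.Tendsto (fun n : ℕ => B + Q * Real.exp (-(n * l))) Filter.atTop
      (nhds (B + Q * 0)) :=
    ((Real.tendsto_exp_neg_atTop_nhds_zero.comp h0).const_mul Q).const_add B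
  have h3 := (h1.atTop_add h2).atTop_div_const hy
  refine h3.congr fun n => ?_
  ring

/-- `side u` along the orbit of a hyperbolic element `k`. -/
lemma side_orbit {u k : SL(2, ℝ)} (hk : 2 < |tr k|) (hne : tr (u * k * u⁻¹ * k⁻¹) ≠ 2) :
    ∃ e₁ e₂ : ℝ, (e₁ = 1 ∨ e₁ = -1) ∧ (e₂ = 1 ∨ e₂ = -1) ∧ (link u k → e₂ = - e₁) ∧
      (¬ link u k → e₂ = e₁) ∧ ∀ (z : ℍ) (R : ℝ), ∀ᶠ n : ℕ in Filter.atTop,
        R < e₁ * side u (k ^ n • z) ∧ R < e₂ * side u (k⁻¹ ^ n • z) := by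
  obtain ⟨m, hm⟩ := exists_diag hk
  have hl : 0 < len k := (len_pos_iff k).2 hk
  set l := len k with hldef
  set v : SL(2, ℝ) := m * u * m⁻¹ with hv
  -- action of k
  have hact : ∀ w : ℍ, m • (k • w) = dg l • (m • w) := by
    intro w
    have h1 : m • (k • w) = (m * k * m⁻¹) • (m • w) := by
      rw [← mul_smul, ← mul_smul]; congr 1; group
    rw [h1]
    rcases hm with hm | hm
    · rw [hm]
    · rw [hm, neg_smul']
  have hact' : ∀ w : ℍ, m • (k⁻¹ • w) = dg (-l) • (m • w) := by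
    intro w
    have h1 := hact (k⁻¹ • w)
    rw [smul_inv_smul] at h1
    rw [h1, ← dg_inv, inv_smul_smul]
  have hn : ∀ (n : ℕ) (z : ℍ), m • (k ^ n • z) = dg (n * l) • (m • z) := by
    intro n z
    induction n with
    | zero => simp [dg_zero]
    | succ n ih =>
      rw [pow_succ', mul_smul, hact, ih, ← mul_smul, ← dg_add]
      congr 2
      push_cast
      ring
  have hn' : ∀ (n : ℕ) (z : ℍ), m • (k⁻¹ ^ n • z) = dg (-(n * l)) • (m • z) := by
    intro n z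
    induction n with
    | zero => simp [dg_zero]
    | succ n ih =>
      rw [pow_succ', mul_smul, hact', ih, ← mul_smul, ← dg_add]
      congr 2
      push_cast
      ring
  have hs : ∀ (n : ℕ) (z : ℍ), side u (k ^ n • z) = side v (dg (n * l) • (m • z)) := by
    intro n z
    rw [← hn, hv, side_conj]
  have hs' : ∀ (n : ℕ) (z : ℍ), side u (k⁻¹ ^ n • z) = side v (dg (-(n * l)) • (m • z)) := by
    intro n z
    rw [← hn', hv, side_conj]
  -- link
  have hlink : link u k ↔ 0 < v 0 1 * v 1 0 := by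
    rw [← link_dg hl.ne' v, link_comm (dg l) v, ← link_conj m u k]
    rcases hm with hm | hm
    · rw [hm]
    · rw [hm, link_neg_right]
  have htr : tr (u * k * u⁻¹ * k⁻¹) = tr (dg l * v * (dg l)⁻¹ * v⁻¹) := by
    rw [tr_comm_symm, ← tr_comm_conj m]
    rcases hm with hm | hm
    · rw [hm]
    · rw [hm, tr_comm_neg_left]
  have hbc : v 0 1 * v 1 0 ≠ 0 := by
    intro h0
    apply hne
    rw [htr, tr_comm_dg, h0]
    ring
  have hb : v 0 1 ≠ 0 := left_ne_zero_of_mul hbc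
  have hc : v 1 0 ≠ 0 := right_ne_zero_of_mul hbc
  obtain ⟨e₁, he₁, hp₁⟩ : ∃ e : ℝ, (e = 1 ∨ e = -1) ∧ 0 < e * v 1 0 := by
    rcases lt_or_gt_of_ne hc with h | h
    · exact ⟨-1, Or.inr rfl, by linarith⟩
    · exact ⟨1, Or.inl rfl, by linarith⟩
  obtain ⟨e₂, he₂, hp₂⟩ : ∃ e : ℝ, (e = 1 ∨ e = -1) ∧ 0 < e * (- v 0 1) := by
    rcases lt_or_gt_of_ne hb with h | h
    · exact ⟨1, Or.inl rfl, by linarith⟩
    · exact ⟨-1, Or.inr rfl, by linarith⟩
  refine ⟨e₁, e₂, he₁, he₂, ?_, ?_, ?_⟩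
  · intro h
    rw [hlink] at h
    rcases he₁ with rfl | rfl <;> rcases he₂ with rfl | rfl
    · nlinarith
    · rfl
    · norm_num
    · nlinarith
  · intro h
    rw [hlink, not_lt] at h
    rcases he₁ with rfl | rfl <;> rcases he₂ with rfl | rfl
    · rfl
    · nlinarith
    · nlinarith
    · rfl
  · intro z R
    set w : ℍ := m • z with hw
    have hwi := w.im_pos
    have t1 := tendsto_aux (P := e₁ * v 1 0 * (w.re ^ 2 + w.im ^ 2)) (Q := e₁ * (- v 0 1))
      (B := e₁ * ((v 1 1 - v 0 0) * w.re)) (by positivity) hwi hl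
    have t2 := tendsto_aux (P := e₂ * (- v 0 1)) (Q := e₂ * (v 1 0 * (w.re ^ 2 + w.im ^ 2)))
      (B := e₂ * ((v 1 1 - v 0 0) * w.re)) hp₂ hwi hl
    filter_upwards [t1.eventually_gt_atTop R, t2.eventually_gt_atTop R] with n hn1 hn2
    refine ⟨?_, ?_⟩
    · rw [hs, side_dg_smul]
      refine hn1.trans_eq ?_
      ring
    · rw [hs', side_dg_smul, neg_neg]
      refine hn2.trans_eq ?_
      ring

lemma isPreconnected_cone (R κ : ℝ) : IsPreconnected {w : ℍ | R < κ * (w.re / w.im)} := by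
  rw [← UpperHalfPlane.isOpenEmbedding_coe.isInducing.isPreconnected_image]
  have : ((fun w : ℍ => (w : ℂ)) '' {w : ℍ | R < κ * (w.re / w.im)}) =
      {z : ℂ | 0 < z.im ∧ 0 < κ * z.re - R * z.im} := by
    ext z
    constructor
    · rintro ⟨w, hw, rfl⟩
      have hw' : R < κ * (w.re / w.im) := hw
      have := w.im_pos
      refine ⟨w.im_pos, ?_⟩
      rw [← mul_div_assoc, lt_div_iff₀ this] at hw'
      change 0 < κ * w.re - R * w.im
      linarith
    · rintro ⟨h1, h2⟩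
      refine ⟨⟨z, h1⟩, ?_, rfl⟩
      change R < κ * (z.re / z.im)
      rw [← mul_div_assoc, lt_div_iff₀ h1]
      linarith
  rw [this]
  apply Convex.isPreconnected
  intro x hx y hy a b ha hb hab
  obtain ⟨hx1, hx2⟩ := hx
  obtain ⟨hy1, hy2⟩ := hy
  have key : ∀ p q : ℝ, 0 < p → 0 < q → 0 < a * p + b * q := by
    intro p q hp hq
    rcases eq_or_lt_of_le ha with h | h
    · subst h
      have : b = 1 := by linarith
      subst this; linarith
    · have := mul_pos h hp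
      have := mul_nonneg hb hq.le
      linarith
  refine ⟨?_, ?_⟩
  · have := key _ _ hx1 hy1
    simpa using this
  · have := key _ _ hx2 hy2
    simp
    nlinarith

lemma isPreconnected_side {g : SL(2, ℝ)} (hg : 2 < |tr g|) (R e : ℝ) :
    IsPreconnected {w : ℍ | R < e * side g w} := by
  obtain ⟨m, hm⟩ := exists_diag hg
  have hκ : ∃ κ : ℝ, ∀ w : ℍ, e * side g w = κ * ((m • w).re / (m • w).im) := by
    rcases hm with hm | hm
    · refine ⟨e * (-(2 * Real.sinh (len g / 2))), fun w => ?_⟩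
      rw [← side_conj m g w, hm, side_dg]; ring
    · refine ⟨e * ((2 * Real.sinh (len g / 2))), fun w => ?_⟩
      rw [← side_conj m g w, hm, side_neg, side_dg]; ring
  obtain ⟨κ, hκ⟩ := hκ
  have : {w : ℍ | R < e * side g w} =
      (fun w : ℍ => m⁻¹ • w) '' {w : ℍ | R < κ * (w.re / w.im)} := by
    ext w
    constructor
    · intro h
      have h' : R < e * side g w := h
      rw [hκ] at h'
      exact ⟨m • w, h', by simp⟩
    · rintro ⟨w', h, rfl⟩
      have h' : R < κ * (w'.re / w'.im) := h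
      change R < e * side g (m⁻¹ • w')
      rw [hκ, smul_inv_smul]
      exact h'
  rw [this]
  exact (isPreconnected_cone R κ).image _ (continuous_const_smul m⁻¹).continuousOn

lemma bounded_on_axis {g : SL(2, ℝ)} (hg : 2 < |tr g|) {f : ℍ → ℝ} (hf : Continuous f)
    (hinv : ∀ z : ℍ, f (g • z) = f z) : ∃ R : ℝ, ∀ z : ℍ, side g z = 0 → |f z| ≤ R := by
  obtain ⟨m, hm⟩ := exists_diag hg
  have hl : 0 < len g := (len_pos_iff g).2 hg
  set l := len g with hldef
  have hact : ∀ w : ℍ, m⁻¹ • (dg l • w) = g • (m⁻¹ • w) := by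
    intro w
    have h1 : g • (m⁻¹ • w) = m⁻¹ • ((m * g * m⁻¹) • w) := by
      rw [← mul_smul, ← mul_smul]; congr 1; group
    rw [h1]
    rcases hm with hm | hm
    · rw [hm]
    · rw [hm, neg_smul']
  let pt : ℝ → ℍ := fun t => ⟨⟨0, Real.exp t⟩, Real.exp_pos t⟩
  have hpt : Continuous pt := by
    rw [UpperHalfPlane.isOpenEmbedding_coe.isInducing.continuous_iff]
    change Continuous (fun t : ℝ => (⟨0, Real.exp t⟩ : ℂ))
    have : (fun t : ℝ => (⟨0, Real.exp t⟩ : ℂ)) = fun t : ℝ => (Real.exp t : ℂ) * Complex.I := by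
      funext t
      apply Complex.ext <;> simp [Complex.exp_ofReal_re]
    rw [this]
    fun_prop
  have hper : Function.Periodic (fun t => f (m⁻¹ • pt t)) l := by
    intro t
    have h1 : pt (t + l) = dg l • pt t := by
      obtain ⟨h1, h2⟩ := dg_re_im l (pt t)
      refine UpperHalfPlane.ext (Complex.ext ?_ ?_)
      · change (0 : ℝ) = (dg l • pt t).re
        rw [h1]
        change (0 : ℝ) = Real.exp l * 0
        simp
      · change Real.exp (t + l) = (dg l • pt t).im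
        rw [h2]
        change Real.exp (t + l) = Real.exp l * Real.exp t
        rw [Real.exp_add]; ring
    change f (m⁻¹ • pt (t + l)) = f (m⁻¹ • pt t)
    rw [h1, hact, hinv]
  have hcont : Continuous (fun t => f (m⁻¹ • pt t)) :=
    hf.comp ((continuous_const_smul m⁻¹).comp hpt)
  have hb := hper.isBounded_of_continuous hl.ne' hcont
  obtain ⟨R, hR⟩ := hb.exists_norm_le
  refine ⟨R, fun z hz => ?_⟩
  have hz0 : (m • z).re = 0 := by
    have h1 := side_conj m g z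
    rw [hz] at h1
    have hsinh : 0 < Real.sinh (l / 2) := Real.sinh_pos_iff.2 (by linarith)
    have him := (m • z).im_pos
    have h2 : side (dg l) (m • z) = 0 := by
      rcases hm with hm | hm
      · rw [hm] at h1; exact h1
      · rw [hm, side_neg] at h1; linarith
    rw [side_dg] at h2
    rcases mul_eq_zero.1 h2 with h3 | h3
    · linarith
    · rcases div_eq_zero_iff.1 h3 with h4 | h4
      · exact h4
      · exact absurd h4 him.ne'
  have hz1 : z = m⁻¹ • pt (Real.log (m • z).im) := by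
    have : pt (Real.log (m • z).im) = m • z := by
      refine UpperHalfPlane.ext (Complex.ext ?_ ?_)
      · exact hz0.symm
      · exact Real.exp_log (m • z).im_pos
    rw [this, inv_smul_smul]
  rw [hz1]
  exact hR _ ⟨Real.log (m • z).im, rfl⟩



/-- Linking of axes is preserved by topological conjugacy. -/
theorem link_of_link {G : Type*} [Group G] (ρ₁ ρ₂ : G →* SL(2, ℝ)) (h₁ : DF ρ₁.range)
    (h₂ : DF ρ₂.range) (hi₁ : Function.Injective ρ₁) (hi₂ : Function.Injective ρ₂) (F : ℍ ≃ₜ ℍ)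
    (hF : ∀ (g : G) (z : ℍ), F (ρ₁ g • z) = ρ₂ g • F z) (g h : G)
    (hg₁ : 2 < |tr (ρ₁ g)|) (hg₂ : 2 < |tr (ρ₂ g)|) (hh₁ : 2 < |tr (ρ₁ h)|)
    (hh₂ : 2 < |tr (ρ₂ h)|) (hl : link (ρ₁ g) (ρ₁ h)) : link (ρ₂ g) (ρ₂ h) := by
  by_contra hnl
  have hne1 : tr (ρ₁ g * ρ₁ h * (ρ₁ g)⁻¹ * (ρ₁ h)⁻¹) ≠ 2 := ne_of_lt hl
  have hne2 : tr (ρ₂ g * ρ₂ h * (ρ₂ g)⁻¹ * (ρ₂ h)⁻¹) ≠ 2 := by
    intro h2
    have hc := h₂.commute_of_tr ⟨g, rfl⟩ ⟨h, rfl⟩ hg₂ h2
    have hc' : g * h = h * g := hi₂ (by rw [map_mul, map_mul]; exact hc)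
    apply hne1
    have : ρ₁ g * ρ₁ h * (ρ₁ g)⁻¹ * (ρ₁ h)⁻¹ = 1 := by
      rw [← map_mul, hc', map_mul]
      group
    rw [this, tr_one]
  obtain ⟨e₁, e₂, he₁, he₂, hlk, -, horb⟩ := side_orbit hh₁ hne1
  obtain ⟨d₁, d₂, hd₁, hd₂, -, hnlk, horb'⟩ := side_orbit hh₂ hne2
  have he := hlk hl
  have hd := hnlk hnl
  obtain ⟨R, hR⟩ := bounded_on_axis hg₁ (f := fun z => side (ρ₂ g) (F z))
    ((continuous_side _).comp F.continuous) (fun z => by
      rw [hF, side_self])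
  set W : Set ℍ := {w : ℍ | R < d₁ * side (ρ₂ g) w} with hW
  have hWpre : IsPreconnected W := isPreconnected_side hg₂ R d₁
  have hVpre : IsPreconnected (F.symm '' W) := hWpre.image _ F.symm.continuous.continuousOn
  have hVz : ∀ z ∈ F.symm '' W, side (ρ₁ g) z ≠ 0 := by
    rintro _ ⟨w, hw, rfl⟩ h0
    have h1 := hR _ h0
    rw [Homeomorph.apply_symm_apply] at h1
    have h2 : R < d₁ * side (ρ₂ g) w := hw
    have h3 := abs_le.1 h1
    rcases hd₁ with rfl | rfl <;> linarith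
  obtain ⟨n, ⟨hn1, hn2⟩, hn3, hn4⟩ :=
    ((horb UpperHalfPlane.I 0).and (horb' (F UpperHalfPlane.I) R)).exists
  have hF1 : F (ρ₁ h ^ n • UpperHalfPlane.I) = ρ₂ h ^ n • F UpperHalfPlane.I := by
    rw [← map_pow, hF, map_pow]
  have hF2 : F ((ρ₁ h)⁻¹ ^ n • UpperHalfPlane.I) = (ρ₂ h)⁻¹ ^ n • F UpperHalfPlane.I := by
    rw [← map_inv, ← map_pow, hF, map_pow, map_inv]
  have hm1 : ρ₁ h ^ n • UpperHalfPlane.I ∈ F.symm '' W := by
    refine ⟨ρ₂ h ^ n • F UpperHalfPlane.I, hn3, ?_⟩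
    rw [← hF1, Homeomorph.symm_apply_apply]
  have hm2 : (ρ₁ h)⁻¹ ^ n • UpperHalfPlane.I ∈ F.symm '' W := by
    refine ⟨(ρ₂ h)⁻¹ ^ n • F UpperHalfPlane.I, ?_, ?_⟩
    · rw [hd] at hn4
      exact hn4
    · rw [← hF2, Homeomorph.symm_apply_apply]
  rw [he] at hn2
  have hcs : ContinuousOn (side (ρ₁ g)) (F.symm '' W) := (continuous_side _).continuousOn
  have himg := hVpre.image _ hcs
  have h0 : (0 : ℝ) ∈ side (ρ₁ g) '' (F.symm '' W) := by
    have hoc := himg.ordConnected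
    rcases he₁ with rfl | rfl
    · exact hoc.out ⟨_, hm2, rfl⟩ ⟨_, hm1, rfl⟩ ⟨by linarith, by linarith⟩
    · exact hoc.out ⟨_, hm1, rfl⟩ ⟨_, hm2, rfl⟩ ⟨by linarith, by linarith⟩
  obtain ⟨z, hz, hz0⟩ := h0
  exact hVz z hz hz0

end Pool.Agent.LengthSpec
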