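import Pool.Agent.LengthSpec.Fuchs2

open UpperHalfPlane MeasureTheory Set
open scoped MatrixGroups Manifold ENNReal Topology

namespace Pool.Agent.LengthSpec

lemma sc_zpow {ℓ : ℝ} {γ : SL(2, ℝ)} (hγd : γ = dg ℓ ∨ γ = - dg ℓ) (k : ℤ) :
    γ ^ k = dg (k * ℓ) ∨ γ ^ k = - dg (k * ℓ) := by
  have hinv : γ⁻¹ = dg (-ℓ) ∨ γ⁻¹ = - dg (-ℓ) := by
    rcases hγd with h | h
    · left; rw [h, dg_inv]
    · right; rw [h, inv_neg, dg_inv]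
  induction k using Int.induction_on with
  | zero => left; simp [dg_zero]
  | succ k ih =>
    have h1 : ((k : ℤ) + 1 : ℤ) * ℓ = k * ℓ + ℓ := by push_cast; ring
    rw [zpow_add_one]
    have h2 : (((k : ℤ) + 1 : ℤ) : ℝ) * ℓ = ((k : ℤ) : ℝ) * ℓ + ℓ := by push_cast; ring
    rw [h2, dg_add]
    rcases ih with h | h <;> rcases hγd with h' | h' <;> rw [h, h'] <;> simp
  | pred k ih =>
    rw [zpow_sub_one]
    have h2 : ((-(k : ℤ) - 1 : ℤ) : ℝ) * ℓ = ((-(k : ℤ) : ℤ) : ℝ) * ℓ + -ℓ := by push_cast; ring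
    rw [h2, dg_add]
    rcases ih with h | h <;> rcases hinv with h' | h' <;> rw [h, h'] <;> simp

lemma sc_foot {κ : ℝ} (hκ : 0 < κ) (z : ℍ) (hz : |z.re| ≤ κ * z.im) :
    ∃ p : ℍ, p.re = 0 ∧ dist z p ≤ Real.arsinh κ := by
  have hy := z.im_pos
  set r : ℝ := Real.sqrt (z.re ^ 2 + z.im ^ 2) with hr
  have hrpos : 0 < r := Real.sqrt_pos.2 (by positivity)
  have hr2 : r ^ 2 = z.re ^ 2 + z.im ^ 2 := Real.sq_sqrt (by positivity)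
  refine ⟨⟨⟨0, r⟩, hrpos⟩, rfl, ?_⟩
  have h1 := cosh_dist_eq z ⟨⟨0, r⟩, hrpos⟩
  have hre : (UpperHalfPlane.re ⟨⟨0, r⟩, hrpos⟩) = 0 := rfl
  have him : (UpperHalfPlane.im ⟨⟨0, r⟩, hrpos⟩) = r := rfl
  rw [hre, him] at h1
  have h2 : Real.cosh (dist z ⟨⟨0, r⟩, hrpos⟩) = r / z.im := by
    have h3 : ((z.re - 0) ^ 2 + z.im ^ 2 + r ^ 2) / (z.im * r) = 2 * (r / z.im) := by
      rw [sub_zero, ← hr2]
      field_simp
      ring
    rw [h3] at h1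
    linarith
  have h4 : Real.cosh (dist z ⟨⟨0, r⟩, hrpos⟩) ≤ Real.cosh (Real.arsinh κ) := by
    rw [h2, Real.cosh_arsinh, div_le_iff₀ hy]
    rw [hr]
    apply Real.sqrt_le_iff.2
    refine ⟨by positivity, ?_⟩
    rw [mul_pow, Real.sq_sqrt (by positivity)]
    have h5 : z.re ^ 2 ≤ (κ * z.im) ^ 2 := by
      rw [← sq_abs z.re]
      exact pow_le_pow_left₀ (abs_nonneg _) hz 2
    nlinarith
  rw [Real.cosh_le_cosh, abs_of_nonneg dist_nonneg,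
    abs_of_nonneg (Real.arsinh_nonneg_iff.2 hκ.le)] at h4
  exact h4

lemma sc_pair {κ : ℝ} (hκ : 0 < κ) (g : SL(2, ℝ)) (z : ℍ) (hz : |z.re| ≤ κ * z.im)
    (hgz : |(g • z).re| ≤ κ * (g • z).im) :
    ∃ p₁ p₂ : ℍ, p₁.re = 0 ∧ p₂.re = 0 ∧ dist p₁ (g • p₂) ≤ 2 * Real.arsinh κ := by
  obtain ⟨p₁, h1, h2⟩ := sc_foot hκ _ hgz
  obtain ⟨p₂, h3, h4⟩ := sc_foot hκ _ hz
  refine ⟨p₁, p₂, h1, h3, ?_⟩
  have h5 : dist (g • z) (g • p₂) = dist z p₂ := dist_smul g z p₂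
  have h6 := dist_triangle p₁ (g • z) (g • p₂)
  rw [h5, dist_comm p₁ (g • z)] at h6
  linarith

lemma sc_shift {ℓ : ℝ} (hℓ : 0 < ℓ) {γ : SL(2, ℝ)} (hγd : γ = dg ℓ ∨ γ = - dg ℓ) (p q : ℍ)
    (hp : p.re = 0) (hq : q.re = 0) : ∃ k : ℤ, dist (γ ^ k • p) q ≤ ℓ := by
  set D : ℝ := Real.log q.im - Real.log p.im with hD
  refine ⟨⌊D / ℓ⌋, ?_⟩
  have h1 : (γ ^ ⌊D / ℓ⌋) • p = dg (⌊D / ℓ⌋ * ℓ) • p := by
    rcases sc_zpow hγd ⌊D / ℓ⌋ with h | h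
    · rw [h]
    · rw [h, neg_smul']
  rw [h1]
  obtain ⟨h2, h3⟩ := dg_re_im (⌊D / ℓ⌋ * ℓ) p
  rw [UpperHalfPlane.dist_of_re_eq (by rw [h2, hp, hq, mul_zero]), h3,
    Real.log_mul (Real.exp_pos _).ne' p.im_pos.ne', Real.log_exp, Real.dist_eq]
  have h4 := Int.floor_le (D / ℓ)
  have h5 := (Int.lt_floor_add_one (D / ℓ)).le
  rw [le_div_iff₀ hℓ] at h4
  rw [div_le_iff₀ hℓ] at h5
  rw [abs_le]
  constructor <;> linarith

/-- entries of `g * γ ^ k` up to a positive factor and a sign -/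
lemma sc_entries {ℓ : ℝ} {γ : SL(2, ℝ)} (hγd : γ = dg ℓ ∨ γ = - dg ℓ) (g : SL(2, ℝ)) (k : ℤ) :
    ∃ m σ : ℝ, 0 < m ∧ σ * σ = 1 ∧ (g * γ ^ k) 0 0 = σ * (g 0 0 * m) ∧
      (g * γ ^ k) 0 1 = σ * (g 0 1 * m⁻¹) ∧
      (g * γ ^ k) 1 0 = σ * (g 1 0 * m) ∧ (g * γ ^ k) 1 1 = σ * (g 1 1 * m⁻¹) := by
  obtain ⟨e1, e2, e3, e4⟩ := mul_entries g (γ ^ k)
  obtain ⟨d1, d2, d3, d4⟩ := dg_entries (k * ℓ)
  rw [Real.exp_neg] at d4
  rcases sc_zpow hγd k with h | h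
  · refine ⟨Real.exp (k * ℓ / 2), 1, Real.exp_pos _, by norm_num, ?_, ?_, ?_, ?_⟩
    · rw [e1, h, d1, d3]; ring
    · rw [e2, h, d2, d4]; ring
    · rw [e3, h, d1, d3]; ring
    · rw [e4, h, d2, d4]; ring
  · refine ⟨Real.exp (k * ℓ / 2), -1, Real.exp_pos _, by norm_num, ?_, ?_, ?_, ?_⟩
    · rw [e1, h, neg_entries, neg_entries, d1, d3]; ring
    · rw [e2, h, neg_entries, neg_entries, d2, d4]; ring
    · rw [e3, h, neg_entries, neg_entries, d1, d3]; ring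
    · rw [e4, h, neg_entries, neg_entries, d2, d4]; ring

lemma sc_prod {ℓ : ℝ} {γ : SL(2, ℝ)} (hγd : γ = dg ℓ ∨ γ = - dg ℓ) (g : SL(2, ℝ)) (k : ℤ) :
    (g * γ ^ k) 0 1 * (g * γ ^ k) 1 0 = g 0 1 * g 1 0 := by
  obtain ⟨m, σ, hm, hσ, _, h2, h3, _⟩ := sc_entries hγd g k
  rw [h2, h3]
  have h4 : m⁻¹ * m = 1 := inv_mul_cancel₀ hm.ne'
  calc σ * (g 0 1 * m⁻¹) * (σ * (g 1 0 * m)) = (σ * σ) * (m⁻¹ * m) * (g 0 1 * g 1 0) := by ring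
    _ = g 0 1 * g 1 0 := by rw [hσ, h4]; ring

/-- the numerator of the real part -/
lemma sc_num (g : SL(2, ℝ)) (z : ℍ) :
    ∃ D : ℝ, 0 < D ∧ (g • z).re * D = g 0 0 * g 1 0 * (z.re ^ 2 + z.im ^ 2) +
      (g 0 0 * g 1 1 + g 0 1 * g 1 0) * z.re + g 0 1 * g 1 1 := by
  refine ⟨_, den_pos g z, ?_⟩
  rw [(smul_re_im g z).1, div_mul_cancel₀ _ (den_pos g z).ne']
  ring

theorem right_translate (Δ : Subgroup SL(2, ℝ)) (ℓ : ℝ) (hℓ : 0 < ℓ)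
    (htri : ∀ g ∈ Δ, (g 0 1 = 0 ∧ g 1 0 = 0) ∨ 0 < g 0 1 * g 1 0 ∨ g 0 1 * g 1 0 < -1)
    (κ : ℝ) (hκ : 0 < κ)
    (hr : ∃ g ∈ Δ, ¬ (g 0 1 = 0 ∧ g 1 0 = 0) ∧ ∃ z : ℍ, 0 < z.re ∧ z.re < κ * z.im ∧
      0 < (g • z).re ∧ (g • z).re < κ * (g • z).im) :
    ∃ g ∈ Δ, 0 < g 0 0 * g 1 0 ∧ 0 < g 0 1 * g 1 1 := by
  obtain ⟨g, hg, hne, z, hz1, _, hz3, _⟩ := hr
  obtain ⟨D, hD, hnum⟩ := sc_num g z
  have hdet := det_eq g
  have hN : 0 < g 0 0 * g 1 0 * (z.re ^ 2 + z.im ^ 2) +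
      (g 0 0 * g 1 1 + g 0 1 * g 1 0) * z.re + g 0 1 * g 1 1 := by
    rw [← hnum]; positivity
  have hy := z.im_pos
  have hprod : (g 0 0 * g 1 0) * (g 0 1 * g 1 1) = (g 0 0 * g 1 1) * (g 0 1 * g 1 0) := by ring
  rcases htri g hg with h | h | h
  · exact absurd h hne
  · have h1 : 0 < g 0 0 * g 1 1 := by linarith
    have h2 : 0 < (g 0 0 * g 1 0) * (g 0 1 * g 1 1) := by rw [hprod]; positivity
    rcases pos_and_pos_or_neg_and_neg_of_mul_pos h2 with ⟨h3, h4⟩ | ⟨h3, h4⟩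
    · exact ⟨g, hg, h3, h4⟩
    · refine ⟨g⁻¹, Δ.inv_mem hg, ?_⟩
      obtain ⟨i1, i2, i3, i4⟩ := inv_entries g
      rw [i1, i2, i3, i4]
      -- want 0 < d * (-c), 0 < -b * a
      have h5 : (g 0 0 * g 1 0) * (g 1 0 * g 1 1) = (g 1 0) ^ 2 * (g 0 0 * g 1 1) := by ring
      have h6 : (g 0 0 * g 1 0) * (g 0 0 * g 0 1) = (g 0 0) ^ 2 * (g 0 1 * g 1 0) := by ring
      have hc0 : g 1 0 ≠ 0 := by
        intro h0
        rw [h0, mul_zero] at h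
        exact lt_irrefl _ h
      have ha0 : g 0 0 ≠ 0 := by
        intro h0
        rw [h0, zero_mul] at h1
        exact lt_irrefl _ h1
      have h7 : 0 < (g 0 0 * g 1 0) * (g 1 0 * g 1 1) := by rw [h5]; positivity
      have h8 : 0 < (g 0 0 * g 1 0) * (g 0 0 * g 0 1) := by rw [h6]; positivity
      have h9 : g 1 0 * g 1 1 < 0 := by
        by_contra hcon
        push Not at hcon
        nlinarith
      have h10 : g 0 0 * g 0 1 < 0 := by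
        by_contra hcon
        push Not at hcon
        nlinarith
      constructor <;> linarith
  · have h1 : g 0 0 * g 1 1 < 0 := by linarith
    have h2 : 0 < (g 0 0 * g 1 0) * (g 0 1 * g 1 1) := by
      rw [hprod]
      exact mul_pos_of_neg_of_neg h1 (by linarith)
    rcases pos_and_pos_or_neg_and_neg_of_mul_pos h2 with ⟨h3, h4⟩ | ⟨h3, h4⟩
    · exact ⟨g, hg, h3, h4⟩
    · exfalso
      have h5 : g 0 0 * g 1 0 * (z.re ^ 2 + z.im ^ 2) < 0 :=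
        mul_neg_of_neg_of_pos h3 (by positivity)
      have h6 : (g 0 0 * g 1 1 + g 0 1 * g 1 0) * z.re < 0 :=
        mul_neg_of_neg_of_pos (by linarith) hz1
      linarith

theorem left_translate (Δ : Subgroup SL(2, ℝ)) (ℓ : ℝ) (hℓ : 0 < ℓ)
    (htri : ∀ g ∈ Δ, (g 0 1 = 0 ∧ g 1 0 = 0) ∨ 0 < g 0 1 * g 1 0 ∨ g 0 1 * g 1 0 < -1)
    (κ : ℝ) (hκ : 0 < κ)
    (hl : ∃ g ∈ Δ, ¬ (g 0 1 = 0 ∧ g 1 0 = 0) ∧ ∃ z : ℍ, z.re < 0 ∧ -(κ * z.im) < z.re ∧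
      (g • z).re < 0 ∧ -(κ * (g • z).im) < (g • z).re) :
    ∃ g ∈ Δ, g 0 0 * g 1 0 < 0 ∧ g 0 1 * g 1 1 < 0 := by
  obtain ⟨g, hg, hne, z, hz1, _, hz3, _⟩ := hl
  obtain ⟨D, hD, hnum⟩ := sc_num g z
  have hdet := det_eq g
  have hN : g 0 0 * g 1 0 * (z.re ^ 2 + z.im ^ 2) +
      (g 0 0 * g 1 1 + g 0 1 * g 1 0) * z.re + g 0 1 * g 1 1 < 0 := by
    rw [← hnum]; exact mul_neg_of_neg_of_pos hz3 hD
  have hy := z.im_pos
  have hprod : (g 0 0 * g 1 0) * (g 0 1 * g 1 1) = (g 0 0 * g 1 1) * (g 0 1 * g 1 0) := by ring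
  rcases htri g hg with h | h | h
  · exact absurd h hne
  · have h1 : 0 < g 0 0 * g 1 1 := by linarith
    have h2 : 0 < (g 0 0 * g 1 0) * (g 0 1 * g 1 1) := by rw [hprod]; positivity
    rcases pos_and_pos_or_neg_and_neg_of_mul_pos h2 with ⟨h3, h4⟩ | ⟨h3, h4⟩
    · refine ⟨g⁻¹, Δ.inv_mem hg, ?_⟩
      obtain ⟨i1, i2, i3, i4⟩ := inv_entries g
      rw [i1, i2, i3, i4]
      have h5 : (g 0 0 * g 1 0) * (g 1 0 * g 1 1) = (g 1 0) ^ 2 * (g 0 0 * g 1 1) := by ring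
      have h6 : (g 0 0 * g 1 0) * (g 0 0 * g 0 1) = (g 0 0) ^ 2 * (g 0 1 * g 1 0) := by ring
      have hc0 : g 1 0 ≠ 0 := by
        intro h0
        rw [h0, mul_zero] at h
        exact lt_irrefl _ h
      have ha0 : g 0 0 ≠ 0 := by
        intro h0
        rw [h0, zero_mul] at h1
        exact lt_irrefl _ h1
      have h7 : 0 < (g 0 0 * g 1 0) * (g 1 0 * g 1 1) := by rw [h5]; positivity
      have h8 : 0 < (g 0 0 * g 1 0) * (g 0 0 * g 0 1) := by rw [h6]; positivity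
      have h9 : 0 < g 1 0 * g 1 1 := (mul_pos_iff_of_pos_left h3).1 h7
      have h10 : 0 < g 0 0 * g 0 1 := (mul_pos_iff_of_pos_left h3).1 h8
      constructor <;> linarith
    · exact ⟨g, hg, h3, h4⟩
  · have h1 : g 0 0 * g 1 1 < 0 := by linarith
    have h2 : 0 < (g 0 0 * g 1 0) * (g 0 1 * g 1 1) := by
      rw [hprod]
      exact mul_pos_of_neg_of_neg h1 (by linarith)
    rcases pos_and_pos_or_neg_and_neg_of_mul_pos h2 with ⟨h3, h4⟩ | ⟨h3, h4⟩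
    · exfalso
      have h5 : 0 < g 0 0 * g 1 0 * (z.re ^ 2 + z.im ^ 2) := by positivity
      have h6 : 0 < (g 0 0 * g 1 1 + g 0 1 * g 1 0) * z.re :=
        mul_pos_of_neg_of_neg (by linarith) hz1
      linarith
    · exact ⟨g, hg, h3, h4⟩

/-- case of one pair with positive product -/
lemma sc_case1 (Δ : Subgroup SL(2, ℝ)) (ℓ : ℝ) (hℓ : 0 < ℓ)
    (γ : SL(2, ℝ)) (hγ : γ ∈ Δ) (hγd : γ = dg ℓ ∨ γ = - dg ℓ) (κ : ℝ) (hκ : 0 < κ)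
    (g : SL(2, ℝ)) (hg : g ∈ Δ) (hpos : 0 < g 0 1 * g 1 0) (p₁ p₂ : ℍ) (h1 : p₁.re = 0)
    (h2 : p₂.re = 0) (hd : dist p₁ (g • p₂) ≤ 2 * Real.arsinh κ) :
    ∃ h ∈ Δ, 0 < h 0 1 * h 1 0 ∧ len h ≤ 4 * Real.arsinh κ + 2 * ℓ := by
  obtain ⟨k, hk⟩ := sc_shift hℓ hγd p₁ p₂ h1 h2
  refine ⟨g * γ ^ k, Δ.mul_mem hg (Δ.zpow_mem hγ k), ?_, ?_⟩
  · rw [sc_prod hγd]; exact hpos
  · have h3 := len_le_dist (g * γ ^ k) p₁
    rw [mul_smul] at h3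
    have h4 := dist_triangle p₁ (g • p₂) (g • γ ^ k • p₁)
    rw [dist_smul, dist_comm p₂] at h4
    have h5 : 0 ≤ Real.arsinh κ := Real.arsinh_nonneg_iff.2 hκ.le
    linarith

/-- A short element whose axis crosses the imaginary axis, from overlaps of the one-sided
collars. -/
theorem short_crossing (Δ : Subgroup SL(2, ℝ)) (ℓ : ℝ) (hℓ : 0 < ℓ)
    (γ : SL(2, ℝ)) (hγ : γ ∈ Δ) (hγd : γ = dg ℓ ∨ γ = - dg ℓ)
    (htri : ∀ g ∈ Δ, (g 0 1 = 0 ∧ g 1 0 = 0) ∨ 0 < g 0 1 * g 1 0 ∨ g 0 1 * g 1 0 < -1)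
    (κ : ℝ) (hκ : 0 < κ)
    (hr : ∃ g ∈ Δ, ¬ (g 0 1 = 0 ∧ g 1 0 = 0) ∧ ∃ z : ℍ, 0 < z.re ∧ z.re < κ * z.im ∧
      0 < (g • z).re ∧ (g • z).re < κ * (g • z).im)
    (hl : ∃ g ∈ Δ, ¬ (g 0 1 = 0 ∧ g 1 0 = 0) ∧ ∃ z : ℍ, z.re < 0 ∧ -(κ * z.im) < z.re ∧
      (g • z).re < 0 ∧ -(κ * (g • z).im) < (g • z).re) :
    ∃ h ∈ Δ, 0 < h 0 1 * h 1 0 ∧ len h ≤ 4 * Real.arsinh κ + 2 * ℓ := by
  obtain ⟨g, hg, hne, z, hz1, hz2, hz3, hz4⟩ := hr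
  obtain ⟨g', hg', hne', z', hz1', hz2', hz3', hz4'⟩ := hl
  obtain ⟨p₁, p₂, hp1, hp2, hd⟩ := sc_pair hκ g z (by rw [abs_of_pos hz1]; exact hz2.le)
    (by rw [abs_of_pos hz3]; exact hz4.le)
  obtain ⟨q₁, q₂, hq1, hq2, hd'⟩ := sc_pair hκ g' z' (by rw [abs_of_neg hz1']; linarith)
    (by rw [abs_of_neg hz3']; linarith)
  rcases htri g hg with h | h | h
  · exact absurd h hne
  · exact sc_case1 Δ ℓ hℓ γ hγ hγd κ hκ g hg h p₁ p₂ hp1 hp2 hd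
  rcases htri g' hg' with h' | h' | h'
  · exact absurd h' hne'
  · exact sc_case1 Δ ℓ hℓ γ hγ hγd κ hκ g' hg' h' q₁ q₂ hq1 hq2 hd'
  -- signs
  have hA : 0 < g 0 0 * g 1 0 ∧ 0 < g 0 1 * g 1 1 := by
    obtain ⟨D, hD, hnum⟩ := sc_num g z
    have hdet := det_eq g
    have hN : 0 < g 0 0 * g 1 0 * (z.re ^ 2 + z.im ^ 2) +
        (g 0 0 * g 1 1 + g 0 1 * g 1 0) * z.re + g 0 1 * g 1 1 := by
      rw [← hnum]; positivity
    have hy := z.im_pos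
    have hprod : (g 0 0 * g 1 0) * (g 0 1 * g 1 1) = (g 0 0 * g 1 1) * (g 0 1 * g 1 0) := by ring
    have h1 : g 0 0 * g 1 1 < 0 := by linarith
    have h2 : 0 < (g 0 0 * g 1 0) * (g 0 1 * g 1 1) := by
      rw [hprod]
      exact mul_pos_of_neg_of_neg h1 (by linarith)
    rcases pos_and_pos_or_neg_and_neg_of_mul_pos h2 with ⟨h3, h4⟩ | ⟨h3, h4⟩
    · exact ⟨h3, h4⟩
    · exfalso
      have h5 : g 0 0 * g 1 0 * (z.re ^ 2 + z.im ^ 2) < 0 :=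
        mul_neg_of_neg_of_pos h3 (by positivity)
      have h6 : (g 0 0 * g 1 1 + g 0 1 * g 1 0) * z.re < 0 :=
        mul_neg_of_neg_of_pos (by linarith) hz1
      linarith
  have hB : g' 0 0 * g' 1 0 < 0 ∧ g' 0 1 * g' 1 1 < 0 := by
    obtain ⟨D, hD, hnum⟩ := sc_num g' z'
    have hdet := det_eq g'
    have hN : g' 0 0 * g' 1 0 * (z'.re ^ 2 + z'.im ^ 2) +
        (g' 0 0 * g' 1 1 + g' 0 1 * g' 1 0) * z'.re + g' 0 1 * g' 1 1 < 0 := by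
      rw [← hnum]; exact mul_neg_of_neg_of_pos hz3' hD
    have hy := z'.im_pos
    have hprod : (g' 0 0 * g' 1 0) * (g' 0 1 * g' 1 1) =
        (g' 0 0 * g' 1 1) * (g' 0 1 * g' 1 0) := by ring
    have h1 : g' 0 0 * g' 1 1 < 0 := by linarith
    have h2 : 0 < (g' 0 0 * g' 1 0) * (g' 0 1 * g' 1 1) := by
      rw [hprod]
      exact mul_pos_of_neg_of_neg h1 (by linarith)
    rcases pos_and_pos_or_neg_and_neg_of_mul_pos h2 with ⟨h3, h4⟩ | ⟨h3, h4⟩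
    · exfalso
      have h5 : 0 < g' 0 0 * g' 1 0 * (z'.re ^ 2 + z'.im ^ 2) := by positivity
      have h6 : 0 < (g' 0 0 * g' 1 1 + g' 0 1 * g' 1 0) * z'.re :=
        mul_pos_of_neg_of_neg (by linarith) hz1'
      linarith
    · exact ⟨h3, h4⟩
  obtain ⟨j, hj⟩ := sc_shift hℓ hγd q₁ p₂ hq1 hp2
  obtain ⟨k, hk⟩ := sc_shift hℓ hγd p₁ q₂ hp1 hq2
  refine ⟨(g * γ ^ j * g') * γ ^ k,
    Δ.mul_mem (Δ.mul_mem (Δ.mul_mem hg (Δ.zpow_mem hγ j)) hg') (Δ.zpow_mem hγ k), ?_, ?_⟩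
  · rw [sc_prod hγd]
    obtain ⟨m, σ, hm, hσ, e1, e2, e3, e4⟩ := sc_entries hγd g j
    obtain ⟨f1, f2, f3, f4⟩ := mul_entries (g * γ ^ j) g'
    rw [f2, f3, e1, e2, e3, e4]
    have hm' : 0 < m⁻¹ := inv_pos.2 hm
    set a := g 0 0
    set b := g 0 1
    set c := g 1 0
    set d := g 1 1
    set a' := g' 0 0
    set b' := g' 0 1
    set c' := g' 1 0
    set d' := g' 1 1
    set n := m⁻¹
    have h1 : (σ * (a * m) * b' + σ * (b * n) * d') * (σ * (c * m) * a' + σ * (d * n) * c') =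
        (σ * σ) * ((a * c) * (a' * b') * m ^ 2 + (a * d) * (b' * c') * (m * n) +
          (b * c) * (a' * d') * (m * n) + (b * d) * (c' * d') * n ^ 2) := by ring
    have hdet := det_eq g
    have hdet' := det_eq g'
    have h2 : a * d < 0 := by linarith
    have h3 : a' * d' < 0 := by linarith
    have ha' : a' ≠ 0 := by
      intro h0
      rw [h0, zero_mul] at h3
      exact lt_irrefl _ h3
    have hd0' : d' ≠ 0 := by
      intro h0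
      rw [h0, mul_zero] at h3
      exact lt_irrefl _ h3
    have h4 : 0 < a' * b' := by
      have h5 : (a' * c') * (a' * b') = a' ^ 2 * (b' * c') := by ring
      have h6 : a' ^ 2 * (b' * c') < 0 := mul_neg_of_pos_of_neg (by positivity) (by linarith)
      by_contra hcon
      push Not at hcon
      have h7 : 0 ≤ (a' * c') * (a' * b') := mul_nonneg_of_nonpos_of_nonpos hB.1.le hcon
      linarith
    have h5 : 0 < c' * d' := by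
      have h5 : (b' * d') * (c' * d') = d' ^ 2 * (b' * c') := by ring
      have h6 : d' ^ 2 * (b' * c') < 0 := mul_neg_of_pos_of_neg (by positivity) (by linarith)
      by_contra hcon
      push Not at hcon
      have h7 : 0 ≤ (b' * d') * (c' * d') := mul_nonneg_of_nonpos_of_nonpos hB.2.le hcon
      linarith
    have h6 : 0 < (a * d) * (b' * c') := mul_pos_of_neg_of_neg h2 (by linarith)
    have h7 : 0 < (b * c) * (a' * d') := mul_pos_of_neg_of_neg (by linarith) h3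
    rw [h1, hσ, one_mul]
    obtain ⟨hA1, hA2⟩ := hA
    positivity
  · have h3 := len_le_dist ((g * γ ^ j * g') * γ ^ k) p₁
    simp only [mul_smul] at h3
    have t1 := dist_triangle p₁ (g • p₂) (g • γ ^ j • g' • γ ^ k • p₁)
    have t2 : dist (g • p₂) (g • γ ^ j • g' • γ ^ k • p₁) =
      dist p₂ (γ ^ j • g' • γ ^ k • p₁) := dist_smul _ _ _
    have t3 := dist_triangle p₂ (γ ^ j • q₁) (γ ^ j • g' • γ ^ k • p₁)
    have t4 : dist (γ ^ j • q₁) (γ ^ j • g' • γ ^ k • p₁) = dist q₁ (g' • γ ^ k • p₁) :=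
      dist_smul _ _ _
    have t5 := dist_triangle q₁ (g' • q₂) (g' • γ ^ k • p₁)
    have t6 : dist (g' • q₂) (g' • γ ^ k • p₁) = dist q₂ (γ ^ k • p₁) := dist_smul _ _ _
    rw [dist_comm (γ ^ j • q₁)] at hj
    rw [dist_comm (γ ^ k • p₁)] at hk
    linarith

end Pool.Agent.LengthSpec
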