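import Pool.Agent.LengthSpec.Fuchs2
import Pool.Agent.LengthSpec.Area

open UpperHalfPlane MeasureTheory Set
open scoped MatrixGroups Manifold ENNReal Topology

namespace Pool.Agent.LengthSpec

lemma zpow_im_h {ℓ : ℝ} {γ : SL(2, ℝ)} (hγd : γ = dg ℓ ∨ γ = - dg ℓ) (k : ℤ) (z : ℍ) :
    (γ ^ k • z).im = Real.exp (k * ℓ) * z.im := by
  have h1 : ∀ w : ℍ, (γ • w).im = Real.exp ℓ * w.im := by
    intro w
    rcases hγd with h | h
    · rw [h]; exact (dg_re_im ℓ w).2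
    · rw [h, neg_smul']; exact (dg_re_im ℓ w).2
  have h2 : ∀ w : ℍ, (γ⁻¹ • w).im = Real.exp (-ℓ) * w.im := by
    intro w
    have h3 := h1 (γ⁻¹ • w)
    rw [smul_inv_smul] at h3
    rw [h3, ← mul_assoc, ← Real.exp_add]
    simp
  induction k using Int.induction_on generalizing z with
  | zero => simp
  | succ k ih =>
    rw [zpow_add_one, mul_smul, ih, h1, ← mul_assoc, ← Real.exp_add]
    congr 2
    push_cast; ring
  | pred k ih =>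
    rw [zpow_sub_one, mul_smul, ih, h2, ← mul_assoc, ← Real.exp_add]
    congr 2
    push_cast; ring

lemma pair_core_h (Δ : Subgroup SL(2, ℝ)) (hΔ : DF Δ) (ℓ : ℝ) (hℓ : 0 < ℓ) (γ : SL(2, ℝ))
    (hγd : γ = dg ℓ ∨ γ = - dg ℓ)
    (hgen : ∀ g ∈ Δ, g 0 1 = 0 → g 1 0 = 0 → ∃ k : ℤ, g = γ ^ k) (A : ℝ)
    (hA : HasArea Δ (ENNReal.ofReal A)) (κ : ℝ) (hκ : 0 < κ) (hAκ : A < κ * ℓ) (E : Set ℍ)
    (hEm : MeasurableSet E) (hE : ∀ z ∈ E, 1 ≤ z.im ∧ z.im < Real.exp ℓ)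
    (hvol : (volume : Measure ℍ) E = ENNReal.ofReal (κ * ℓ)) :
    ∃ g ∈ Δ, ¬ (g 0 1 = 0 ∧ g 1 0 = 0) ∧ ∃ z ∈ E, g • z ∈ E := by
  obtain ⟨D, hD, hDA⟩ := hA
  have hlt : volume D < volume E := by
    rw [hDA, hvol]
    exact (ENNReal.ofReal_lt_ofReal_iff (by positivity)).2 hAκ
  obtain ⟨g, hg, hg1, z, hz, hgz⟩ := exists_ne_one_smul_mem Δ hΔ.discrete D hD E hEm hlt
  refine ⟨g, hg, ?_, z, hz, hgz⟩
  rintro ⟨h01, h10⟩
  obtain ⟨k, rfl⟩ := hgen g hg h01 h10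
  apply hg1
  have h1 := hE z hz
  have h2 := hE _ hgz
  rw [zpow_im_h hγd] at h2
  have hzpos : 0 < z.im := z.im_pos
  rcases lt_trichotomy k 0 with hk | hk | hk
  · exfalso
    have hk' : (k : ℝ) ≤ -1 := by
      have : k ≤ -1 := by omega
      exact_mod_cast this
    have h3 : Real.exp (k * ℓ) ≤ Real.exp (-ℓ) := by
      apply Real.exp_le_exp.2
      nlinarith
    have h4 : Real.exp (-ℓ) * Real.exp ℓ = 1 := by rw [← Real.exp_add]; simp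
    have h5 : Real.exp (k * ℓ) * z.im < 1 := by
      calc Real.exp (k * ℓ) * z.im ≤ Real.exp (-ℓ) * z.im :=
            mul_le_mul_of_nonneg_right h3 hzpos.le
        _ < Real.exp (-ℓ) * Real.exp ℓ := mul_lt_mul_of_pos_left h1.2 (Real.exp_pos _)
        _ = 1 := h4
    linarith [h2.1]
  · rw [hk, zpow_zero]
  · exfalso
    have hk' : (1 : ℝ) ≤ k := by
      have : 1 ≤ k := by omega
      exact_mod_cast this
    have h3 : Real.exp ℓ ≤ Real.exp (k * ℓ) := by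
      apply Real.exp_le_exp.2
      nlinarith
    have h5 : Real.exp ℓ ≤ Real.exp (k * ℓ) * z.im := by
      calc Real.exp ℓ ≤ Real.exp (k * ℓ) := h3
        _ = Real.exp (k * ℓ) * 1 := (mul_one _).symm
        _ ≤ Real.exp (k * ℓ) * z.im := mul_le_mul_of_nonneg_left h1.1 (Real.exp_pos _).le
    linarith [h2.2]


/-- The one-sided collar of large area overlaps itself. -/
theorem right_pair (Δ : Subgroup SL(2, ℝ)) (hΔ : DF Δ) (ℓ : ℝ) (hℓ : 0 < ℓ) (γ : SL(2, ℝ))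
    (hγ : γ ∈ Δ) (hγd : γ = dg ℓ ∨ γ = - dg ℓ)
    (hgen : ∀ g ∈ Δ, g 0 1 = 0 → g 1 0 = 0 → ∃ k : ℤ, g = γ ^ k) (A : ℝ)
    (hA : HasArea Δ (ENNReal.ofReal A)) (κ : ℝ) (hκ : 0 < κ) (hAκ : A < κ * ℓ) :
    ∃ g ∈ Δ, ¬ (g 0 1 = 0 ∧ g 1 0 = 0) ∧ ∃ z : ℍ, 0 < z.re ∧ z.re < κ * z.im ∧
      0 < (g • z).re ∧ (g • z).re < κ * (g • z).im := by
  have hre : Measurable (fun z : ℍ => z.re) := UpperHalfPlane.continuous_re.measurable
  have him : Measurable (fun z : ℍ => z.im) := UpperHalfPlane.continuous_im.measurable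
  obtain ⟨g, hg, hd, z, hz, hgz⟩ := pair_core_h Δ hΔ ℓ hℓ γ hγd hgen A hA κ hκ hAκ
    {z : ℍ | 1 ≤ z.im ∧ z.im < Real.exp ℓ ∧ 0 < z.re ∧ z.re < κ * z.im}
    ((measurableSet_le measurable_const him).inter ((measurableSet_lt him measurable_const).inter
      ((measurableSet_lt measurable_const hre).inter (measurableSet_lt hre (him.const_mul κ)))))
    (fun z hz => ⟨hz.1, hz.2.1⟩) (volume_collar κ ℓ hκ hℓ)
  exact ⟨g, hg, hd, z, hz.2.2.1, hz.2.2.2, hgz.2.2.1, hgz.2.2.2⟩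


theorem left_pair (Δ : Subgroup SL(2, ℝ)) (hΔ : DF Δ) (ℓ : ℝ) (hℓ : 0 < ℓ) (γ : SL(2, ℝ))
    (hγ : γ ∈ Δ) (hγd : γ = dg ℓ ∨ γ = - dg ℓ)
    (hgen : ∀ g ∈ Δ, g 0 1 = 0 → g 1 0 = 0 → ∃ k : ℤ, g = γ ^ k) (A : ℝ)
    (hA : HasArea Δ (ENNReal.ofReal A)) (κ : ℝ) (hκ : 0 < κ) (hAκ : A < κ * ℓ) :
    ∃ g ∈ Δ, ¬ (g 0 1 = 0 ∧ g 1 0 = 0) ∧ ∃ z : ℍ, z.re < 0 ∧ -(κ * z.im) < z.re ∧
      (g • z).re < 0 ∧ -(κ * (g • z).im) < (g • z).re := by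
  have hre : Measurable (fun z : ℍ => z.re) := UpperHalfPlane.continuous_re.measurable
  have him : Measurable (fun z : ℍ => z.im) := UpperHalfPlane.continuous_im.measurable
  obtain ⟨g, hg, hd, z, hz, hgz⟩ := pair_core_h Δ hΔ ℓ hℓ γ hγd hgen A hA κ hκ hAκ
    {z : ℍ | 1 ≤ z.im ∧ z.im < Real.exp ℓ ∧ z.re < 0 ∧ -(κ * z.im) < z.re}
    ((measurableSet_le measurable_const him).inter ((measurableSet_lt him measurable_const).inter
      ((measurableSet_lt hre measurable_const).inter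
        (measurableSet_lt (him.const_mul κ).neg hre))))
    (fun z hz => ⟨hz.1, hz.2.1⟩) (volume_collar' κ ℓ hκ hℓ)
  exact ⟨g, hg, hd, z, hz.2.2.1, hz.2.2.2, hgz.2.2.1, hgz.2.2.2⟩

end Pool.Agent.LengthSpec
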