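import Pool.Agent.LengthSpec.Tmap
import Pool.Agent.LengthSpec.Lift

open UpperHalfPlane MeasureTheory Set
open scoped MatrixGroups Manifold ENNReal Topology

namespace Pool.Agent.LengthSpec

section twistaux

/-- closed collar of the imaginary axis -/
def Nc (κ : ℝ) : Set ℍ := {z | |z.re| ≤ κ * z.im}

lemma mem_Nc_iff (κ : ℝ) (z : ℍ) : z ∈ Nc κ ↔ |z.re / z.im| ≤ κ := by
  rw [abs_div, abs_of_pos z.im_pos, div_le_iff₀ z.im_pos]
  rfl

lemma isClosed_Nc (κ : ℝ) : IsClosed (Nc κ) :=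
  isClosed_le UpperHalfPlane.continuous_re.abs
    (continuous_const.mul UpperHalfPlane.continuous_im)

lemma tmap_mem_Nc {κ a : ℝ} {z : ℍ} (hz : z ∈ Nc κ) : tmap κ a z ∈ Nc κ := by
  rw [mem_Nc_iff, tmap_ratio, ← mem_Nc_iff]
  exact hz

lemma diag_smul {g : SL(2, ℝ)} (h01 : g 0 1 = 0) (h10 : g 1 0 = 0) :
    ∃ s : ℝ, ∀ z : ℍ, g • z = dg s • z := by
  have hd := det_eq g
  rw [h01, h10, mul_zero, sub_zero] at hd
  have h0 : g 0 0 ≠ 0 := by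
    intro h
    rw [h, zero_mul] at hd
    exact zero_ne_one hd
  have h11 : g 1 1 = (g 0 0)⁻¹ := by
    field_simp
    linarith
  obtain ⟨d1, d2, d3, d4⟩ := dg_entries (2 * Real.log |g 0 0|)
  have e1 : Real.exp (2 * Real.log |g 0 0| / 2) = |g 0 0| := by
    rw [mul_div_cancel_left₀ _ (two_ne_zero), Real.exp_log (abs_pos.mpr h0)]
  have e2 : Real.exp (-(2 * Real.log |g 0 0| / 2)) = |g 0 0|⁻¹ := by
    rw [Real.exp_neg, e1]
  refine ⟨2 * Real.log |g 0 0|, ?_⟩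
  rcases lt_or_gt_of_ne h0 with h | h
  · have : g = - dg (2 * Real.log |g 0 0|) := by
      refine ext4 ?_ ?_ ?_ ?_
      · rw [neg_entries, d1, e1, abs_of_neg h, neg_neg]
      · rw [neg_entries, d2, h01, neg_zero]
      · rw [neg_entries, d3, h10, neg_zero]
      · rw [neg_entries, d4, e2, abs_of_neg h, h11, inv_neg, neg_neg]
    intro z
    conv_lhs => rw [this]
    exact neg_smul' _ z
  · have : g = dg (2 * Real.log |g 0 0|) := by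
      refine ext4 ?_ ?_ ?_ ?_
      · rw [d1, e1, abs_of_pos h]
      · rw [d2, h01]
      · rw [d3, h10]
      · rw [d4, e2, abs_of_pos h, h11]
    intro z
    conv_lhs => rw [this]

lemma dg_mem_Nc {κ s : ℝ} {z : ℍ} (hz : z ∈ Nc κ) : dg s • z ∈ Nc κ := by
  rw [mem_Nc_iff, (dg_re_im s z).1, (dg_re_im s z).2,
    mul_div_mul_left _ _ (Real.exp_pos s).ne', ← mem_Nc_iff]
  exact hz

lemma diag_mem_Nc {κ : ℝ} {g : SL(2, ℝ)} (h01 : g 0 1 = 0) (h10 : g 1 0 = 0) {z : ℍ}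
    (hz : z ∈ Nc κ) : g • z ∈ Nc κ := by
  obtain ⟨s, hs⟩ := diag_smul h01 h10
  rw [hs]
  exact dg_mem_Nc hz

lemma tmap_diag {κ a : ℝ} {g : SL(2, ℝ)} (h01 : g 0 1 = 0) (h10 : g 1 0 = 0) (z : ℍ) :
    tmap κ a (g • z) = g • tmap κ a z := by
  obtain ⟨s, hs⟩ := diag_smul h01 h10
  rw [hs, hs, tmap_dg]

open Classical in
/-- the twist map, up to the action of `Δ` -/
noncomputable def Gm (Δ : Subgroup SL(2, ℝ)) (κ a : ℝ) (z : ℍ) : ℍ :=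
  if h : ∃ g ∈ Δ, g⁻¹ • z ∈ Nc κ then
    (Classical.choose h) • tmap κ a ((Classical.choose h)⁻¹ • z) else z

variable {Δ : Subgroup SL(2, ℝ)} {κ : ℝ}

lemma Gm_eq (hcol : ∀ g ∈ Δ, ∀ z : ℍ, |z.re| ≤ κ * z.im → |(g • z).re| ≤ κ * (g • z).im →
      g 0 1 = 0 ∧ g 1 0 = 0) (a : ℝ) {g : SL(2, ℝ)} (hg : g ∈ Δ) {z : ℍ} (hz : g⁻¹ • z ∈ Nc κ) :
    Gm Δ κ a z = g • tmap κ a (g⁻¹ • z) := by
  have h : ∃ g ∈ Δ, g⁻¹ • z ∈ Nc κ := ⟨g, hg, hz⟩
  rw [Gm, dif_pos h]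
  obtain ⟨hk, hkz⟩ := Classical.choose_spec h
  set k := Classical.choose h with hkdef
  have e1 : (g⁻¹ * k) • (k⁻¹ • z) = g⁻¹ • z := by
    rw [smul_smul, mul_assoc, mul_inv_cancel, mul_one]
  obtain ⟨d1, d2⟩ := hcol (g⁻¹ * k) (Δ.mul_mem (Δ.inv_mem hg) hk) (k⁻¹ • z) hkz (by
    rw [e1]
    exact hz)
  have h1 := tmap_diag (κ := κ) (a := a) d1 d2 (k⁻¹ • z)
  rw [e1] at h1
  rw [h1, smul_smul, mul_inv_cancel_left]

lemma Gm_neg {a : ℝ} {z : ℍ} (h : ¬ ∃ g ∈ Δ, g⁻¹ • z ∈ Nc κ) : Gm Δ κ a z = z := by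
  rw [Gm, dif_neg h]

lemma Gm_smul (hcol : ∀ g ∈ Δ, ∀ z : ℍ, |z.re| ≤ κ * z.im → |(g • z).re| ≤ κ * (g • z).im →
      g 0 1 = 0 ∧ g 1 0 = 0) (a : ℝ) {k : SL(2, ℝ)} (hk : k ∈ Δ) (z : ℍ) :
    Gm Δ κ a (k • z) = k • Gm Δ κ a z := by
  by_cases h : ∃ g ∈ Δ, g⁻¹ • z ∈ Nc κ
  · obtain ⟨g, hg, hz⟩ := h
    have e1 : (k * g)⁻¹ • (k • z) = g⁻¹ • z := by
      rw [smul_smul, mul_inv_rev, mul_assoc, inv_mul_cancel, mul_one]
    rw [Gm_eq hcol a hg hz, Gm_eq hcol a (Δ.mul_mem hk hg) (by rw [e1]; exact hz), e1, mul_smul]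
  · have h' : ¬ ∃ g ∈ Δ, g⁻¹ • (k • z) ∈ Nc κ := by
      rintro ⟨g, hg, hz⟩
      refine h ⟨k⁻¹ * g, Δ.mul_mem (Δ.inv_mem hk) hg, ?_⟩
      rw [mul_inv_rev, inv_inv, mul_smul]
      exact hz
    rw [Gm_neg h, Gm_neg h']

lemma Gm_Gm (hcol : ∀ g ∈ Δ, ∀ z : ℍ, |z.re| ≤ κ * z.im → |(g • z).re| ≤ κ * (g • z).im →
      g 0 1 = 0 ∧ g 1 0 = 0) (a b : ℝ) (hab : b + a = 0) (z : ℍ) :
    Gm Δ κ b (Gm Δ κ a z) = z := by
  by_cases h : ∃ g ∈ Δ, g⁻¹ • z ∈ Nc κ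
  · obtain ⟨g, hg, hz⟩ := h
    rw [Gm_eq hcol a hg hz]
    have e1 : g⁻¹ • (g • tmap κ a (g⁻¹ • z)) = tmap κ a (g⁻¹ • z) := inv_smul_smul _ _
    rw [Gm_eq hcol b hg (by rw [e1]; exact tmap_mem_Nc hz), e1, tmap_tmap, hab, tmap_zero,
      smul_inv_smul]
  · rw [Gm_neg h, Gm_neg h]

lemma gamma_zpow {ℓ : ℝ} {γ : SL(2, ℝ)} (hγd : γ = dg ℓ ∨ γ = - dg ℓ) (m : ℤ) (z : ℍ) :
    γ ^ m • z = dg (m * ℓ) • z := by
  have h : MulAction.toPermHom SL(2, ℝ) ℍ γ = MulAction.toPermHom SL(2, ℝ) ℍ (dg ℓ) := by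
    ext1 z
    rcases hγd with h | h
    · rw [h]
    · rw [h]
      exact neg_smul' _ z
  have h2 : MulAction.toPermHom SL(2, ℝ) ℍ (γ ^ m) =
      MulAction.toPermHom SL(2, ℝ) ℍ (dg ℓ ^ m) := by
    rw [map_zpow, map_zpow, h]
  rw [← dg_zpow]
  exact congrArg (fun e : Equiv.Perm ℍ => e z) h2

/-- a compact set which meets all `γ`-orbits in the collar -/
lemma exists_compact {ℓ : ℝ} (hℓ : 0 < ℓ) {γ : SL(2, ℝ)} (hγd : γ = dg ℓ ∨ γ = - dg ℓ) (κ : ℝ) :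
    ∃ K : Set ℍ, IsCompact K ∧ ∀ z ∈ Nc κ, ∃ m : ℤ, γ ^ m • z ∈ K := by
  refine ⟨{z : ℍ | |z.re| ≤ κ * z.im ∧ 1 ≤ z.im ∧ z.im ≤ Real.exp ℓ}, ?_, ?_⟩
  · rw [isEmbedding_coe.isCompact_iff]
    have : ((↑) : ℍ → ℂ) '' {z : ℍ | |z.re| ≤ κ * z.im ∧ 1 ≤ z.im ∧ z.im ≤ Real.exp ℓ} =
        {w : ℂ | |w.re| ≤ κ * w.im ∧ 1 ≤ w.im ∧ w.im ≤ Real.exp ℓ} := by
      ext w
      constructor
      · rintro ⟨z, hz, rfl⟩
        exact hz
      · rintro ⟨h1, h2, h3⟩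
        exact ⟨⟨w, by linarith⟩, ⟨h1, h2, h3⟩, rfl⟩
    rw [this]
    refine Metric.isCompact_of_isClosed_isBounded ?_ ?_
    · refine IsClosed.inter (isClosed_le Complex.continuous_re.abs
        (continuous_const.mul Complex.continuous_im)) (IsClosed.inter
        (isClosed_le continuous_const Complex.continuous_im)
        (isClosed_le Complex.continuous_im continuous_const))
    · rw [isBounded_iff_forall_norm_le]
      refine ⟨|κ| * Real.exp ℓ + Real.exp ℓ, ?_⟩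
      rintro w ⟨h1, h2, h3⟩
      have h4 : 0 ≤ w.im := by linarith
      refine (Complex.norm_le_abs_re_add_abs_im w).trans ?_
      refine add_le_add ?_ ?_
      · refine h1.trans ?_
        refine (mul_le_mul_of_nonneg_right (le_abs_self κ) h4).trans ?_
        exact mul_le_mul_of_nonneg_left h3 (abs_nonneg κ)
      · rw [abs_of_nonneg h4]
        exact h3
  · intro z hz
    set t := Real.log z.im / ℓ with ht
    have hlog : Real.log z.im = t * ℓ := by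
      rw [ht, div_mul_cancel₀ _ hℓ.ne']
    have him : z.im = Real.exp (t * ℓ) := by
      rw [← hlog, Real.exp_log z.im_pos]
    refine ⟨-⌊t⌋, ?_⟩
    rw [gamma_zpow hγd]
    refine ⟨dg_mem_Nc hz, ?_⟩
    have h1 : (dg (((-⌊t⌋ : ℤ) : ℝ) * ℓ) • z).im = Real.exp ((t - ⌊t⌋) * ℓ) := by
      rw [(dg_re_im _ z).2]
      conv_lhs => rw [him]
      rw [← Real.exp_add]
      congr 1
      push_cast
      ring
    rw [h1]
    have h2 : 0 ≤ t - ⌊t⌋ := by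
      have := Int.floor_le t
      linarith
    have h3 : t - ⌊t⌋ ≤ 1 := by
      have := Int.lt_floor_add_one t
      linarith
    constructor
    · exact Real.one_le_exp (mul_nonneg h2 hℓ.le)
    · exact Real.exp_le_exp.mpr (by nlinarith)

/-- local finiteness of the collars -/
lemma collar_locfin (hΔ : DF Δ) {ℓ : ℝ} (hℓ : 0 < ℓ) {γ : SL(2, ℝ)} (hγ : γ ∈ Δ)
    (hγd : γ = dg ℓ ∨ γ = - dg ℓ) (κ : ℝ) (x : ℍ) :
    ∀ᶠ y in 𝓝 x, ∀ h ∈ Δ, h⁻¹ • y ∈ Nc κ → h⁻¹ • x ∈ Nc κ := by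
  obtain ⟨K, hK, hKN⟩ := exists_compact hℓ hγd κ
  obtain ⟨B, hB, hxB⟩ := exists_compact_mem_nhds x
  have hfin := hΔ.finite' (B ∪ K) (hB.union hK)
  have h1 : ∀ᶠ y in 𝓝 x, ∀ g ∈ {g : SL(2, ℝ) | g ∈ Δ ∧ ∃ z ∈ B ∪ K, g • z ∈ B ∪ K},
      g • y ∈ Nc κ → g • x ∈ Nc κ := by
    rw [Filter.eventually_all_finite hfin]
    intro g _
    by_cases hx : g • x ∈ Nc κ
    · exact Filter.Eventually.of_forall fun _ _ => hx
    · have hc : ContinuousAt (fun y : ℍ => g • y) x := (continuous_const_smul g).continuousAt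
      have h2 : ∀ᶠ y in 𝓝 x, g • y ∈ (Nc κ)ᶜ :=
        hc.eventually_mem ((isClosed_Nc κ).isOpen_compl.mem_nhds hx)
      filter_upwards [h2] with y hy hy'
      exact absurd hy' hy
  filter_upwards [h1, hxB] with y hy hyB h hh hhy
  obtain ⟨m, hm⟩ := hKN _ hhy
  have h3 : γ ^ m * h⁻¹ ∈ Δ := Δ.mul_mem (Δ.zpow_mem hγ m) (Δ.inv_mem hh)
  have h4 := hy (γ ^ m * h⁻¹) ⟨h3, y, Or.inl hyB, by
    rw [mul_smul]
    exact Or.inr hm⟩ (by
      rw [mul_smul, gamma_zpow hγd]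
      exact dg_mem_Nc hhy)
  have h5 : h⁻¹ • x = dg ((-m : ℤ) * ℓ) • ((γ ^ m * h⁻¹) • x) := by
    rw [← gamma_zpow hγd, smul_smul, ← mul_assoc, ← zpow_add]
    simp
  rw [h5]
  exact dg_mem_Nc h4

/-- local form of the twist map -/
lemma Gm_local (hΔ : DF Δ) {ℓ : ℝ} (hℓ : 0 < ℓ) {γ : SL(2, ℝ)} (hγ : γ ∈ Δ)
    (hγd : γ = dg ℓ ∨ γ = - dg ℓ) (hκ : 0 < κ)
    (hcol : ∀ g ∈ Δ, ∀ z : ℍ, |z.re| ≤ κ * z.im → |(g • z).re| ≤ κ * (g • z).im →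
      g 0 1 = 0 ∧ g 1 0 = 0) (m : ℤ) (x : ℍ) :
    ∃ e : ℍ → ℍ, Continuous e ∧
      (∀ y, dist (e x) (e y) ≤ (1 + |m * ℓ| * (1 + κ ^ 2) / κ) * dist x y) ∧
      ∀ᶠ y in 𝓝 x, ∃ g ∈ Δ, Gm Δ κ (m * ℓ) y = g • e y := by
  have hLF := collar_locfin hΔ hℓ hγ hγd κ x
  by_cases hx : ∃ g ∈ Δ, g⁻¹ • x ∈ Nc κ
  · obtain ⟨g, hg, hgx⟩ := hx
    refine ⟨fun y => g • tmap κ (m * ℓ) (g⁻¹ • y), ?_, ?_, ?_⟩
    · exact (continuous_const_smul g).comp ((continuous_tmap κ _ hκ).comp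
        (continuous_const_smul g⁻¹))
    · intro y
      show dist (g • tmap κ (m * ℓ) (g⁻¹ • x)) (g • tmap κ (m * ℓ) (g⁻¹ • y)) ≤ _
      rw [dist_smul]
      refine (tmap_lip κ (m * ℓ) hκ _ _ hgx).trans ?_
      rw [dist_smul]
    · filter_upwards [hLF] with y hy
      by_cases hyN : g⁻¹ • y ∈ Nc κ
      · exact ⟨1, Δ.one_mem, by rw [one_smul, Gm_eq hcol _ hg hyN]⟩
      · have hy2 : ¬ ∃ h ∈ Δ, h⁻¹ • y ∈ Nc κ := by
          rintro ⟨h, hh, hhy⟩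
          apply hyN
          have hhx := hy h hh hhy
          have e1 : (g⁻¹ * h) • (h⁻¹ • x) = g⁻¹ • x := by
            rw [smul_smul, mul_assoc, mul_inv_cancel, mul_one]
          have e2 : (g⁻¹ * h) • (h⁻¹ • y) = g⁻¹ • y := by
            rw [smul_smul, mul_assoc, mul_inv_cancel, mul_one]
          obtain ⟨d1, d2⟩ := hcol (g⁻¹ * h) (Δ.mul_mem (Δ.inv_mem hg) hh) (h⁻¹ • x) hhx (by
            rw [e1]
            exact hgx)
          rw [← e2]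
          exact diag_mem_Nc d1 d2 hhy
        rw [Gm_neg hy2]
        have hlt : κ * (g⁻¹ • y).im < |(g⁻¹ • y).re| := not_le.mp hyN
        rcases lt_abs.mp hlt with h | h
        · refine ⟨g * γ ^ (-m) * g⁻¹, Δ.mul_mem (Δ.mul_mem hg (Δ.zpow_mem hγ _))
            (Δ.inv_mem hg), ?_⟩
          show y = (g * γ ^ (-m) * g⁻¹) • (g • tmap κ (m * ℓ) (g⁻¹ • y))
          rw [tmap_right κ _ hκ _ h.le, ← gamma_zpow hγd]
          simp only [smul_smul]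
          have : g * γ ^ (-m) * g⁻¹ * (g * (γ ^ m * g⁻¹)) = 1 := by
            rw [zpow_neg]
            group
          rw [this, one_smul]
        · refine ⟨1, Δ.one_mem, ?_⟩
          show y = (1 : SL(2, ℝ)) • (g • tmap κ (m * ℓ) (g⁻¹ • y))
          rw [tmap_left κ _ hκ _ (by linarith), one_smul, smul_inv_smul]
  · refine ⟨id, continuous_id, ?_, ?_⟩
    · intro y
      show dist x y ≤ _
      have h1 : 0 ≤ |m * ℓ| * (1 + κ ^ 2) / κ := by positivity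
      nlinarith [dist_nonneg (x := x) (y := y)]
    · filter_upwards [hLF] with y hy
      refine ⟨1, Δ.one_mem, ?_⟩
      rw [one_smul, Gm_neg]
      · rfl
      · rintro ⟨h, hh, hhy⟩
        exact hx ⟨h, hh, hy h hh hhy⟩

lemma isPreconnected_Nc (κ : ℝ) : IsPreconnected (Nc κ) := by
  rw [← isEmbedding_coe.isInducing.isPreconnected_image]
  have : ((↑) : ℍ → ℂ) '' Nc κ = {w : ℂ | 0 < w.im ∧ |w.re| ≤ κ * w.im} := by
    ext w
    constructor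
    · rintro ⟨z, hz, rfl⟩
      exact ⟨z.im_pos, hz⟩
    · rintro ⟨h1, h2⟩
      exact ⟨⟨w, h1⟩, h2, rfl⟩
  rw [this]
  apply Convex.isPreconnected
  intro z hz w hw a b ha hb hab
  obtain ⟨z1, z2⟩ := hz
  obtain ⟨w1, w2⟩ := hw
  have e1 : (a • z + b • w).im = a * z.im + b * w.im := by simp
  have e2 : (a • z + b • w).re = a * z.re + b * w.re := by simp
  constructor
  · rw [e1]
    rcases ha.eq_or_lt with h | h
    · have : b = 1 := by linarith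
      rw [← h, this]
      linarith
    · have := mul_pos h z1
      have := mul_nonneg hb w1.le
      linarith
  · rw [e1, e2]
    calc |a * z.re + b * w.re| ≤ |a * z.re| + |b * w.re| := abs_add_le _ _
      _ = a * |z.re| + b * |w.re| := by rw [abs_mul, abs_mul, abs_of_nonneg ha, abs_of_nonneg hb]
      _ ≤ a * (κ * z.im) + b * (κ * w.im) := by gcongr
      _ = _ := by ring

end twistaux



/-- The lifts of the powers of the Dehn twist along a simple closed geodesic. -/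
theorem twist_exists (Δ : Subgroup SL(2, ℝ)) (hΔ : DF Δ) (ℓ : ℝ) (hℓ : 0 < ℓ) (γ : SL(2, ℝ))
    (hγ : γ ∈ Δ) (hγd : γ = dg ℓ ∨ γ = - dg ℓ) (κ : ℝ) (hκ : 0 < κ)
    (hcol : ∀ g ∈ Δ, ∀ z : ℍ, |z.re| ≤ κ * z.im → |(g • z).re| ≤ κ * (g • z).im →
      g 0 1 = 0 ∧ g 1 0 = 0) (n : ℕ) :
    ∃ (F : ℍ ≃ₜ ℍ) (T : Δ ≃* Δ),
      (∀ (g : Δ) (z : ℍ), F ((g : SL(2, ℝ)) • z) = (T g : SL(2, ℝ)) • F z) ∧
      (∀ z w, dist (F z) (F w) ≤ (1 + n * ℓ * (1 + κ ^ 2) / κ) * dist z w) ∧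
      (∀ z w, dist (F.symm z) (F.symm w) ≤ (1 + n * ℓ * (1 + κ ^ 2) / κ) * dist z w) ∧
      (∀ z : ℍ, z.re = -(κ * z.im) → F z = z) ∧
      (∀ z : ℍ, z.re = κ * z.im → F z = γ ^ n • z) ∧
      (∀ C : Set ℍ, IsPreconnected C → (∀ z ∈ C, ∀ g ∈ Δ, κ * (g • z).im ≤ |(g • z).re|) →
        ∀ g₀ ∈ Δ, ∀ z₀ ∈ C, F z₀ = g₀ • z₀ → ∀ z ∈ C, F z = g₀ • z) := by
  obtain ⟨z₀, hz0re, hz0im⟩ : ∃ z : ℍ, z.re = -κ ∧ z.im = 1 :=
    ⟨⟨⟨-κ, 1⟩, one_pos⟩, rfl, rfl⟩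
  have hz0N : z₀ ∈ Nc κ := by
    show |z₀.re| ≤ κ * z₀.im
    rw [hz0re, hz0im, abs_neg, abs_of_pos hκ, mul_one]
  have htz0 : ∀ a, tmap κ a z₀ = z₀ := by
    intro a
    exact tmap_left κ a hκ _ (by rw [hz0re, hz0im, mul_one])
  have hGN : ∀ (a : ℝ) (z : ℍ), z ∈ Nc κ → Gm Δ κ a z = tmap κ a z := by
    intro a z hz
    rw [Gm_eq hcol a Δ.one_mem (by rw [inv_one, one_smul]; exact hz), inv_one, one_smul, one_smul]
  have hex : ∀ m : ℤ, ∃ F : ℍ → ℍ, Continuous F ∧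
      (∀ z, ∃ g ∈ Δ, F z = g • Gm Δ κ (m * ℓ) z) ∧ F z₀ = z₀ := by
    intro m
    obtain ⟨F, h1, h2, h3⟩ := lift_exists Δ hΔ (Gm Δ κ (m * ℓ)) (fun x => by
      obtain ⟨e, e1, -, e3⟩ := Gm_local hΔ hℓ hγ hγd hκ hcol m x
      exact ⟨e, e1, e3⟩) z₀
    exact ⟨F, h1, h2, h3.trans ((hGN _ _ hz0N).trans (htz0 _))⟩
  choose Fm hFc hFG hF0 using hex
  have hcomp : ∀ m z, Fm (-m) (Fm m z) = z := by
    intro m z
    have h := lift_unique Δ hΔ (fun z => Fm (-m) (Fm m z)) id univ isPreconnected_univ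
      ((hFc (-m)).comp (hFc m)).continuousOn continuousOn_id (fun z _ => by
        obtain ⟨k, hk, h1⟩ := hFG m z
        obtain ⟨k', hk', h2⟩ := hFG (-m) (Fm m z)
        refine ⟨k' * k, Δ.mul_mem hk' hk, ?_⟩
        show Fm (-m) (Fm m z) = (k' * k) • z
        rw [h2, h1, Gm_smul hcol _ hk, Gm_Gm hcol _ _ (by push_cast; ring), mul_smul])
      1 Δ.one_mem z₀ (mem_univ _) (by
        show Fm (-m) (Fm m z₀) = (1 : SL(2, ℝ)) • z₀
        rw [hF0, hF0, one_smul]) z (mem_univ _)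
    rw [one_smul] at h
    exact h
  have hT0 : ∀ (m : ℤ) (g : Δ), ∃ h : Δ, ∀ z, Fm m ((g : SL(2, ℝ)) • z) =
      (h : SL(2, ℝ)) • Fm m z := by
    intro m g
    have h1 : ∀ z, ∃ h ∈ Δ, Fm m ((g : SL(2, ℝ)) • z) = h • Fm m z := by
      intro z
      obtain ⟨k, hk, h1⟩ := hFG m ((g : SL(2, ℝ)) • z)
      obtain ⟨k', hk', h2⟩ := hFG m z
      refine ⟨k * g * k'⁻¹, Δ.mul_mem (Δ.mul_mem hk g.2) (Δ.inv_mem hk'), ?_⟩
      rw [h1, h2, Gm_smul hcol _ g.2, smul_smul, smul_smul, mul_assoc (k * g), inv_mul_cancel,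
        mul_one]
    obtain ⟨h₀, hh₀, h2⟩ := h1 z₀
    refine ⟨⟨h₀, hh₀⟩, fun z => ?_⟩
    exact lift_unique Δ hΔ (fun z => Fm m ((g : SL(2, ℝ)) • z)) (Fm m) univ isPreconnected_univ
      ((hFc m).comp (continuous_const_smul (g : SL(2, ℝ)))).continuousOn (hFc m).continuousOn
      (fun z _ => h1 z) h₀ hh₀ z₀ (mem_univ _) h2 z (mem_univ _)
  choose T hT using hT0
  have huniq : ∀ (h h' : Δ) (w : ℍ), (h : SL(2, ℝ)) • w = (h' : SL(2, ℝ)) • w → h = h' := by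
    intro h h' w hw
    have h1 : ((h' : SL(2, ℝ))⁻¹ * (h : SL(2, ℝ))) • w = w := by
      rw [mul_smul, hw, inv_smul_smul]
    have h2 := hΔ.free _ (Δ.mul_mem (Δ.inv_mem h'.2) h.2) w h1
    exact Subtype.ext (inv_mul_eq_one.mp h2).symm
  have hTT : ∀ m g, T (-m) (T m g) = g := by
    intro m g
    apply huniq _ _ z₀
    have h1 := hT (-m) (T m g) (Fm m z₀)
    rw [← hT m g z₀, hcomp, hcomp] at h1
    exact h1.symm
  have hTmul : ∀ m g h, T m (g * h) = T m g * T m h := by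
    intro m g h
    apply huniq _ _ (Fm m z₀)
    rw [← hT m (g * h) z₀, Subgroup.coe_mul, mul_smul, hT m g, hT m h, Subgroup.coe_mul, mul_smul]
  have hLip : ∀ (m : ℤ) z w, dist (Fm m z) (Fm m w) ≤
      (1 + |m * ℓ| * (1 + κ ^ 2) / κ) * dist z w := by
    intro m
    apply lipschitz_of_local _ _ (by positivity)
    intro x
    obtain ⟨e, e1, e2, e3⟩ := Gm_local hΔ hℓ hγ hγd hκ hcol m x
    have h3 : ∀ᶠ y in 𝓝 x, ∃ g ∈ Δ, Fm m y = g • e y := by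
      filter_upwards [e3] with y hy
      obtain ⟨g, hg, h⟩ := hy
      obtain ⟨k, hk, h'⟩ := hFG m y
      exact ⟨k * g, Δ.mul_mem hk hg, by rw [h', h, mul_smul]⟩
    obtain ⟨V, ⟨hVo, hxV, hVc⟩, hVsub⟩ :=
      (LocallyConnectedSpace.open_connected_basis x).mem_iff.mp h3
    obtain ⟨g₀, hg₀, h4⟩ := hVsub hxV
    have h5 := lift_unique Δ hΔ (Fm m) e V hVc.isPreconnected (hFc m).continuousOn
      e1.continuousOn (fun z hz => hVsub hz) g₀ hg₀ x hxV h4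
    obtain ⟨ε, hε, hball⟩ := Metric.isOpen_iff.mp hVo x hxV
    refine ⟨ε, hε, fun y hy => ?_⟩
    rw [h5 x hxV, h5 y (hball (by rw [Metric.mem_ball, dist_comm]; exact hy)), dist_smul]
    exact e2 y
  have hFN : ∀ (m : ℤ) (z : ℍ), z ∈ Nc κ → Fm m z = tmap κ (m * ℓ) z := by
    intro m z hz
    have h := lift_unique Δ hΔ (Fm m) (tmap κ (m * ℓ)) (Nc κ) (isPreconnected_Nc κ)
      (hFc m).continuousOn (continuous_tmap κ _ hκ).continuousOn (fun z hz => by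
        obtain ⟨k, hk, h⟩ := hFG m z
        exact ⟨k, hk, by rw [h, hGN _ _ hz]⟩) 1 Δ.one_mem z₀ hz0N (by
        rw [one_smul, hF0, htz0]) z hz
    rw [one_smul] at h
    exact h
  have hcomp' : ∀ m z, Fm m (Fm (-m) z) = z := by
    intro m z
    have := hcomp (-m) z
    rwa [neg_neg] at this
  have hTT' : ∀ m g, T m (T (-m) g) = g := by
    intro m g
    have := hTT (-m) g
    rwa [neg_neg] at this
  have habs : |((n : ℤ) : ℝ) * ℓ| = n * ℓ := by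
    rw [abs_of_nonneg (by positivity)]
    push_cast
    rfl
  have habs' : |((-(n : ℤ) : ℤ) : ℝ) * ℓ| = n * ℓ := by
    rw [← habs]
    push_cast
    rw [neg_mul, abs_neg]
  refine ⟨{ toFun := Fm n, invFun := Fm (-n), left_inv := hcomp n, right_inv := hcomp' n,
            continuous_toFun := hFc n, continuous_invFun := hFc (-n) },
    { toFun := T n, invFun := T (-n), left_inv := hTT n, right_inv := hTT' n,
      map_mul' := hTmul n }, ?_, ?_, ?_, ?_, ?_, ?_⟩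
  · intro g z
    exact hT n g z
  · intro z w
    have h := hLip n z w
    rw [habs] at h
    exact h
  · intro z w
    have h := hLip (-n) z w
    rw [habs'] at h
    exact h
  · intro z hz
    show Fm n z = z
    rw [hFN, tmap_left κ _ hκ _ hz.le]
    show |z.re| ≤ κ * z.im
    rw [hz, abs_neg, abs_of_pos (mul_pos hκ z.im_pos)]
  · intro z hz
    show Fm n z = γ ^ n • z
    rw [hFN, tmap_right κ _ hκ _ hz.ge, ← gamma_zpow hγd, zpow_natCast]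
    show |z.re| ≤ κ * z.im
    rw [hz, abs_of_pos (mul_pos hκ z.im_pos)]
  · intro C hC hCN g₀ hg₀ w₀ hw₀ hw
    refine lift_unique Δ hΔ (Fm n) id C hC (hFc n).continuousOn continuousOn_id ?_ g₀ hg₀ w₀ hw₀ hw
    intro z hz
    obtain ⟨k, hk, h1⟩ := hFG n z
    by_cases hx : ∃ g ∈ Δ, g⁻¹ • z ∈ Nc κ
    · obtain ⟨g, hg, hgz⟩ := hx
      have h2 : κ * (g⁻¹ • z).im ≤ |(g⁻¹ • z).re| := hCN z hz g⁻¹ (Δ.inv_mem hg)
      have h3 : |(g⁻¹ • z).re| = κ * (g⁻¹ • z).im := le_antisymm hgz h2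
      rw [Gm_eq hcol _ hg hgz] at h1
      rcases abs_cases (g⁻¹ • z).re with ⟨h4, -⟩ | ⟨h4, -⟩
      · rw [h4] at h3
        rw [tmap_right κ _ hκ _ h3.ge, ← gamma_zpow hγd] at h1
        refine ⟨k * (g * (γ ^ (n : ℤ) * g⁻¹)), Δ.mul_mem hk (Δ.mul_mem hg
          (Δ.mul_mem (Δ.zpow_mem hγ _) (Δ.inv_mem hg))), ?_⟩
        rw [h1]
        simp only [smul_smul, id]
      · rw [h4] at h3
        rw [tmap_left κ _ hκ _ (by linarith), smul_inv_smul] at h1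
        exact ⟨k, hk, h1⟩
    · rw [Gm_neg hx] at h1
      exact ⟨k, hk, h1⟩

end Pool.Agent.LengthSpec
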