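import Pool.Agent.LengthSpec.Marked
import Pool.Agent.LengthSpec.Collar
import Pool.Agent.LengthSpec.Sides
import Pool.Agent.LengthSpec.Short
import Pool.Agent.LengthSpec.Delta
import Pool.Agent.LengthSpec.Twist

open UpperHalfPlane MeasureTheory Set
open scoped MatrixGroups Manifold ENNReal Topology

namespace Pool.Agent.LengthSpec

lemma HasArea.conj {Γ : Subgroup SL(2, ℝ)} {A : ℝ≥0∞} (h : HasArea Γ A) (m : SL(2, ℝ)) :
    HasArea (Γ.map (MulAut.conj m).toMonoidHom) A := by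
  obtain ⟨D, hD, hvol⟩ := h
  have hinj : Function.Injective (MulAut.conj m).toMonoidHom := (MulAut.conj m).injective
  let e : Γ ≃* Γ.map (MulAut.conj m).toMonoidHom := Γ.equivMapOfInjective _ hinj
  have hmp : ∀ k : SL(2, ℝ), MeasurePreserving (fun z : ℍ => k • z) volume volume := fun k =>
    measurePreserving_smul (k : GL (Fin 2) ℝ) (volume : Measure ℍ)
  refine ⟨(MulAction.toPerm m : ℍ ≃ ℍ) '' D, ?_, ?_⟩
  · refine IsFundamentalDomain.image_of_equiv hD (MulAction.toPerm m : ℍ ≃ ℍ)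
      (hmp m⁻¹).quasiMeasurePreserving e.symm.toEquiv ?_
    intro g z
    obtain ⟨g0, rfl⟩ := e.surjective g
    show m • (((e.symm (e g0) : Γ) : SL(2, ℝ)) • z) = ((e g0 : _) : SL(2, ℝ)) • (m • z)
    rw [MulEquiv.symm_apply_apply]
    have : ((e g0 : _) : SL(2, ℝ)) = m * g0 * m⁻¹ := Subgroup.coe_equivMapOfInjective_apply _ _ _ _
    rw [this, smul_smul, smul_smul]
    congr 1
    group
  · rw [Equiv.image_eq_preimage_symm, ← hvol]
    exact (hmp m⁻¹).measure_preimage hD.nullMeasurableSet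

lemma len_lip (F : ℍ ≃ₜ ℍ) (K : ℝ) (hK : 0 ≤ K) (hF : ∀ z w, dist (F z) (F w) ≤ K * dist z w)
    (g h : SL(2, ℝ)) (hgh : ∀ z, F (g • z) = h • F z) : len h ≤ K * len g := by
  unfold len
  rw [Real.mul_iInf_of_nonneg hK]
  refine le_ciInf fun z => ?_
  refine (ciInf_le ⟨0, by rintro _ ⟨z, rfl⟩; exact dist_nonneg⟩ (F z)).trans ?_
  rw [← hgh]
  exact hF _ _

lemma eq_of_smul_eq {Δ : Subgroup SL(2, ℝ)} (hΔ : DF Δ) {g h : SL(2, ℝ)} (hg : g ∈ Δ) (hh : h ∈ Δ)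
    {z : ℍ} (h1 : g • z = h • z) : g = h := by
  have : (h⁻¹ * g) • z = z := by rw [mul_smul, h1, inv_smul_smul]
  have := hΔ.free _ (Δ.mul_mem (Δ.inv_mem hh) hg) z this
  exact (inv_mul_eq_one.1 this).symm

lemma conj_pow_eq {ℓ : ℝ} {γ : SL(2, ℝ)} (hγd : γ = dg ℓ ∨ γ = - dg ℓ) (n : ℕ) (x : SL(2, ℝ)) :
    γ ^ n * x * (γ ^ n)⁻¹ = dg (n * ℓ) * x * (dg (n * ℓ))⁻¹ := by
  have h1 : dg (n * ℓ) = dg ℓ ^ n := by
    have := dg_zpow ℓ (n : ℤ)
    rw [zpow_natCast] at this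
    rw [this]; norm_cast
  rw [h1]
  rcases hγd with rfl | rfl
  · rfl
  · rcases neg_one_pow_eq_or (SL(2, ℝ)) n with h | h
    · rw [neg_pow, h, one_mul]
    · rw [neg_pow, h]
      simp

/-- The twisted structures. -/
theorem exists_twisted {Γ : Subgroup SL(2, ℝ)} (hΓ : IsSurfaceGroup Γ) {γ : Γ}
    (hγ : IsSimpleClosed Γ γ) : ∃ (C : ℝ) (r : ℕ → (Γ →* SL(2, ℝ))) (m : SL(2, ℝ)) (β : Γ),
      1 ≤ C ∧ (∀ n, IsMarked Γ (r n)) ∧ (∀ n, r n γ = γ) ∧ (∀ n, Nrm γ (r n) m) ∧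
      (∀ n : ℕ, 1 ≤ n → ∀ g : Γ, len (r n g) ≤ C * n * len (g : SL(2, ℝ)) ∧
        len (g : SL(2, ℝ)) ≤ C * n * len (r n g)) ∧
      (∀ n : ℕ, C ≤ n → link (r n γ) (r n β) ∧ |tn γ (r n) m β - n| ≤ C) := by
  classical
  have hρ0 : IsMarked Γ Γ.subtype := IsMarked.subtype hΓ
  have hℓ : 0 < len (γ : SL(2, ℝ)) := hγ.pos
  obtain ⟨m, hm⟩ := exists_nrm hρ0 hℓ
  set ℓ := len (γ : SL(2, ℝ)) with hℓdef
  set Δ := Γ.map (MulAut.conj m).toMonoidHom with hΔdef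
  have hΔ : DF Δ := hΓ.df.conj m
  have hinj : Function.Injective (MulAut.conj m).toMonoidHom := (MulAut.conj m).injective
  let c : Γ ≃* Δ := Γ.equivMapOfInjective _ hinj
  have hc : ∀ g : Γ, ((c g : Δ) : SL(2, ℝ)) = m * g * m⁻¹ := fun g =>
    Subgroup.coe_equivMapOfInjective_apply _ _ _ _
  have hcs : ∀ g : Δ, ((c.symm g : Γ) : SL(2, ℝ)) = m⁻¹ * g * m := by
    intro g
    have := hc (c.symm g)
    rw [MulEquiv.apply_symm_apply] at this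
    rw [this]; group
  set γ' : SL(2, ℝ) := m * γ * m⁻¹ with hγ'def
  have hγ'c : ((c γ : Δ) : SL(2, ℝ)) = γ' := hc γ
  have hγ' : γ' ∈ Δ := by rw [← hγ'c]; exact (c γ).2
  have hγd : γ' = dg ℓ ∨ γ' = - dg ℓ := hm
  have hdg : dg ℓ ∈ Δ ∨ - dg ℓ ∈ Δ := by
    rcases hγd with h | h
    · left; rw [← h]; exact hγ'
    · right; rw [← h]; exact hγ'
  have hs : ∀ g ∈ Δ, ¬ link (dg ℓ) (g * dg ℓ * g⁻¹) := by
    intro g hg hl
    obtain ⟨g0, hg0⟩ := c.surjective ⟨g, hg⟩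
    have hg1 : g = m * g0 * m⁻¹ := by rw [← hc, hg0]
    have h1 := not_link_of_simple hΓ hρ0 hγ g0
    apply h1
    have h2 : link γ' (g * γ' * g⁻¹) := by
      rcases hγd with h | h
      · rw [h]; exact hl
      · rw [h, link_neg_left]
        have : g * -dg ℓ * g⁻¹ = -(g * dg ℓ * g⁻¹) := by simp
        rw [this, link_neg_right]
        exact hl
    have h3 : g * γ' * g⁻¹ = m * ((g0 : SL(2, ℝ)) * γ * (g0 : SL(2, ℝ))⁻¹) * m⁻¹ := by
      rw [hg1, hγ'def]; group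
    rw [h3, hγ'def, link_conj] at h2
    exact h2
  have htri : ∀ g ∈ Δ, (g 0 1 = 0 ∧ g 1 0 = 0) ∨ 0 < g 0 1 * g 1 0 ∨ g 0 1 * g 1 0 < -1 :=
    fun g hg => hΔ.trichotomy hℓ hdg hs hg
  have hprim : ∀ h ∈ Δ, ∀ k : ℤ, h ^ k = γ' → k = 1 ∨ k = -1 := by
    intro h hh k hk
    obtain ⟨h0, hh0⟩ := c.surjective ⟨h, hh⟩
    apply hγ.primitive h0 k
    apply c.injective
    rw [map_zpow, hh0]
    apply Subtype.ext
    rw [hγ'c, ← hk]
    rfl
  have hgen : ∀ g ∈ Δ, g 0 1 = 0 → g 1 0 = 0 → ∃ k : ℤ, g = γ' ^ k :=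
    fun g hg h01 h10 => hΔ.diag_eq_zpow hℓ hγ' hγd hprim hg h01 h10
  obtain ⟨κ₀, hκ₀, hcol₀⟩ := collar_exists Δ hΔ ℓ hℓ hdg hs
  set κ := κ₀ / 2 with hκdef
  have hκ : 0 < κ := by positivity
  have hκκ : κ < κ₀ := by rw [hκdef]; linarith
  have hcol : ∀ g ∈ Δ, ∀ z : ℍ, |z.re| ≤ κ * z.im → |(g • z).re| ≤ κ * (g • z).im →
      g 0 1 = 0 ∧ g 1 0 = 0 := by
    intro g hg z h1 h2
    refine hcol₀ g hg z (h1.trans ?_) (h2.trans ?_)
    · exact mul_le_mul_of_nonneg_right hκκ.le z.im_pos.le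
    · exact mul_le_mul_of_nonneg_right hκκ.le (g • z).im_pos.le
  obtain ⟨A, hAtop, hA⟩ := hΓ.finite_area
  have hAΔ : HasArea Δ (ENNReal.ofReal A.toReal) := by
    rw [ENNReal.ofReal_toReal hAtop]; exact hA.conj m
  set κ₁ := (A.toReal + 1) / ℓ with hκ₁def
  have hκ₁ : 0 < κ₁ := div_pos (by have := ENNReal.toReal_nonneg (a := A); linarith) hℓ
  have hAκ : A.toReal < κ₁ * ℓ := by rw [hκ₁def, div_mul_cancel₀ _ hℓ.ne']; linarith
  have hR := right_translate Δ ℓ hℓ htri κ₁ hκ₁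
    (right_pair Δ hΔ ℓ hℓ γ' hγ' hγd hgen A.toReal hAΔ κ₁ hκ₁ hAκ)
  have hL := left_translate Δ ℓ hℓ htri κ₁ hκ₁
    (left_pair Δ hΔ ℓ hℓ γ' hγ' hγd hgen A.toReal hAΔ κ₁ hκ₁ hAκ)
  obtain ⟨δp, hδp, hδp1, Cp, hCp1, hCp2, ⟨zp, hzp, hzp'⟩, yp, hyp, hyp'⟩ :=
    delta_right Δ hΔ ℓ hℓ γ' hγ' hγd htri κ₀ hκ₀ hcol₀ hR κ hκ hκκ
  obtain ⟨δm, hδm, hδm1, Cm, hCm1, hCm2, ⟨zm, hzm, hzm'⟩, ym, hym, hym'⟩ :=
    delta_left Δ hΔ ℓ hℓ γ' hγ' hγd htri κ₀ hκ₀ hcol₀ hL κ hκ hκκ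
  choose F T hFT hF1 hF2 hF3 hF4 hF5 using twist_exists Δ hΔ ℓ hℓ γ' hγ' hγd κ hκ hcol
  -- values of T
  have hTγ : ∀ n, (T n (c γ) : SL(2, ℝ)) = γ' := by
    intro n
    let z : ℍ := ⟨⟨-κ, 1⟩, one_pos⟩
    have hz : z.re = -(κ * z.im) := by
      show -κ = -(κ * 1); ring
    have hz2 : (γ' • z).re = -(κ * (γ' • z).im) := by
      have hdz : (dg ℓ • z).re = -(κ * (dg ℓ • z).im) := by
        obtain ⟨h1, h2⟩ := dg_re_im ℓ z
        rw [h1, h2, hz]; ring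
      rcases hγd with h | h
      · rw [h]; exact hdz
      · rw [h, neg_smul']; exact hdz
    have h1 := hFT n (c γ) z
    rw [hγ'c, hF3 n z hz, hF3 n _ hz2] at h1
    exact (eq_of_smul_eq hΔ hγ' (T n (c γ)).2 h1).symm
  have hTm : ∀ n, (T n ⟨δm, hδm⟩ : SL(2, ℝ)) = δm := by
    intro n
    have h0 : F n zm = (1 : SL(2, ℝ)) • zm := by rw [one_smul]; exact hF3 n zm hzm'
    have h1 := hF5 n Cm hCm1 hCm2 1 Δ.one_mem zm hzm h0
    have h2 := hFT n ⟨δm, hδm⟩ ym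
    rw [h1 ym hym, one_smul] at h2
    have h3 := h1 _ hym'
    rw [one_smul] at h3
    have h4 : δm • ym = (T n ⟨δm, hδm⟩ : SL(2, ℝ)) • ym := by rw [← h2]; exact h3.symm
    exact (eq_of_smul_eq hΔ hδm (T n ⟨δm, hδm⟩).2 h4).symm
  have hTp : ∀ n, (T n ⟨δp, hδp⟩ : SL(2, ℝ)) = γ' ^ n * δp * (γ' ^ n)⁻¹ := by
    intro n
    have hγn : γ' ^ n ∈ Δ := Δ.pow_mem hγ' n
    have h1 := hF5 n Cp hCp1 hCp2 (γ' ^ n) hγn zp hzp (hF4 n zp hzp')
    have h2 := hFT n ⟨δp, hδp⟩ yp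
    rw [h1 yp hyp] at h2
    have h3 := h1 _ hyp'
    have h4 : (γ' ^ n * δp * (γ' ^ n)⁻¹) • (γ' ^ n • yp) =
        (T n ⟨δp, hδp⟩ : SL(2, ℝ)) • (γ' ^ n • yp) := by
      rw [← h2, mul_smul, inv_smul_smul, mul_smul]
      exact h3.symm
    exact (eq_of_smul_eq hΔ (Δ.mul_mem (Δ.mul_mem hγn hδp) (Δ.inv_mem hγn))
      (T n ⟨δp, hδp⟩).2 h4).symm
  -- the representations
  let e : ℕ → (Γ ≃* Γ) := fun n => (c.trans (T n)).trans c.symm
  let r : ℕ → (Γ →* SL(2, ℝ)) := fun n => Γ.subtype.comp (e n).toMonoidHom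
  have hr : ∀ n g, r n g = m⁻¹ * (T n (c g) : SL(2, ℝ)) * m := fun n g => hcs (T n (c g))
  have hrange : ∀ n, (r n).range = Γ := by
    intro n
    ext x
    constructor
    · rintro ⟨g, rfl⟩
      exact (e n g).2
    · intro hx
      refine ⟨(e n).symm ⟨x, hx⟩, ?_⟩
      show ((e n ((e n).symm ⟨x, hx⟩) : Γ) : SL(2, ℝ)) = x
      rw [MulEquiv.apply_symm_apply]
  -- the marking
  let FF : ℕ → (ℍ ≃ₜ ℍ) := fun n =>
    ((Homeomorph.smul m).trans (F n)).trans (Homeomorph.smul m⁻¹)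
  have hFF : ∀ n z, FF n z = m⁻¹ • F n (m • z) := fun n z => rfl
  have hmark : ∀ n (g : Γ) (z : ℍ), FF n ((g : SL(2, ℝ)) • z) = r n g • FF n z := by
    intro n g z
    rw [hFF, hFF, hr]
    have h1 : m • ((g : SL(2, ℝ)) • z) = ((c g : Δ) : SL(2, ℝ)) • (m • z) := by
      rw [hc, smul_smul, smul_smul]; congr 1; group
    rw [h1, hFT, mul_smul, smul_inv_smul, mul_smul]
  set K : ℕ → ℝ := fun n => 1 + n * ℓ * (1 + κ ^ 2) / κ with hKdef
  have hK0 : ∀ n, 0 ≤ K n := fun n => by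
    rw [hKdef]; positivity
  have hFFl : ∀ n z w, dist (FF n z) (FF n w) ≤ K n * dist z w := by
    intro n z w
    rw [hFF, hFF, dist_smul]
    refine (hF1 n _ _).trans ?_
    rw [dist_smul]
  have hFFs : ∀ n z, (FF n).symm z = m⁻¹ • (F n).symm (m • z) := by
    intro n z
    rw [Homeomorph.symm_apply_eq, hFF, smul_inv_smul, Homeomorph.apply_symm_apply, inv_smul_smul]
  have hFFl' : ∀ n z w, dist ((FF n).symm z) ((FF n).symm w) ≤ K n * dist z w := by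
    intro n z w
    rw [hFFs, hFFs, dist_smul]
    refine (hF2 n _ _).trans ?_
    rw [dist_smul]
  have hlen1 : ∀ n (g : Γ), len (r n g) ≤ K n * len (g : SL(2, ℝ)) := fun n g =>
    len_lip (FF n) (K n) (hK0 n) (hFFl n) _ _ (hmark n g)
  have hlen2 : ∀ n (g : Γ), len (g : SL(2, ℝ)) ≤ K n * len (r n g) := fun n g =>
    len_lip (FF n).symm (K n) (hK0 n) (hFFl' n) _ _ (by
      intro z
      rw [Homeomorph.symm_apply_eq, hmark, Homeomorph.apply_symm_apply])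
  have hrγ : ∀ n, r n γ = γ := by
    intro n
    rw [hr, hTγ, hγ'def]; group
  -- the curve
  let β : Γ := c.symm (⟨δp, hδp⟩ * ⟨δm, hδm⟩)
  have hβ : ∀ n : ℕ, m * r n β * m⁻¹ = dg (n * ℓ) * δp * (dg (n * ℓ))⁻¹ * δm := by
    intro n
    rw [hr]
    have h1 : c β = ⟨δp, hδp⟩ * ⟨δm, hδm⟩ := c.apply_symm_apply _
    rw [h1, map_mul, Subgroup.coe_mul, hTp, hTm, ← conj_pow_eq hγd]
    group
  obtain ⟨C', hC'⟩ := tw_growth ℓ hℓ δp δm hδp1 hδm1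
  refine ⟨max 1 (max (1 + ℓ * (1 + κ ^ 2) / κ) (max C' (C' / ℓ))), r, m, β, le_max_left _ _,
    ?_, hrγ, ?_, ?_, ?_⟩
  · intro n
    refine ⟨?_, ?_, ?_, ⟨FF n, hmark n⟩, ?_⟩
    · exact Subtype.val_injective.comp (e n).injective
    · rw [hrange]; exact hΓ
    · intro A hA; rw [hrange]; exact hA
    · intro g
      constructor
      · intro h
        have := hlen2 n g
        rw [h, mul_zero] at this
        exact le_antisymm this (len_nonneg _)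
      · intro h
        have := hlen1 n g
        rw [h, mul_zero] at this
        exact le_antisymm this (len_nonneg _)
  · intro n
    unfold Nrm
    rw [hrγ]
    exact hm
  · intro n hn g
    have hn1 : (1 : ℝ) ≤ n := by exact_mod_cast hn
    have hKn : K n ≤ max 1 (max (1 + ℓ * (1 + κ ^ 2) / κ) (max C' (C' / ℓ))) * n := by
      have h1 : 1 + ℓ * (1 + κ ^ 2) / κ ≤ max 1 (max (1 + ℓ * (1 + κ ^ 2) / κ) (max C' (C' / ℓ))) :=
        (le_max_left _ _).trans (le_max_right _ _)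
      have h2 : K n ≤ (1 + ℓ * (1 + κ ^ 2) / κ) * n := by
        have : K n = 1 + (ℓ * (1 + κ ^ 2) / κ) * n := by rw [hKdef]; ring
        rw [this]; linarith
      exact h2.trans (mul_le_mul_of_nonneg_right h1 (by linarith))
    constructor
    · exact (hlen1 n g).trans (mul_le_mul_of_nonneg_right hKn (len_nonneg _))
    · exact (hlen2 n g).trans (mul_le_mul_of_nonneg_right hKn (len_nonneg _))
  · intro n hn
    have h1 : C' ≤ max 1 (max (1 + ℓ * (1 + κ ^ 2) / κ) (max C' (C' / ℓ))) :=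
      (le_max_left _ _).trans ((le_max_right _ _).trans (le_max_right _ _))
    have h2 : C' / ℓ ≤ max 1 (max (1 + ℓ * (1 + κ ^ 2) / κ) (max C' (C' / ℓ))) :=
      (le_max_right _ _).trans ((le_max_right _ _).trans (le_max_right _ _))
    obtain ⟨h3, h4⟩ := hC' n (h1.trans hn)
    have hlenγ : len (r n γ) = ℓ := by rw [hrγ]
    have hnrm : Nrm γ (r n) m := by
      unfold Nrm
      rw [hrγ]
      exact hm
    constructor
    · rw [nrm_link_iff (by rw [hlenγ]; exact hℓ) hnrm, hβ]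
      exact h3
    · unfold tn
      rw [hβ, hlenγ]
      have h5 : tw (dg (n * ℓ) * δp * (dg (n * ℓ))⁻¹ * δm) / ℓ - n =
          (tw (dg (n * ℓ) * δp * (dg (n * ℓ))⁻¹ * δm) - n * ℓ) / ℓ := by
        field_simp
      rw [h5, abs_div, abs_of_pos hℓ]
      exact (div_le_div_of_nonneg_right h4 hℓ.le).trans h2

end Pool.Agent.LengthSpec
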