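import Pool.Agent.LengthSpec.ShortSimple
import Pool.Agent.LengthSpec.Twisted
import Pool.Agent.LengthSpec.FinslerChain
import Pool.Agent.LengthSpec.ChainEnd

open UpperHalfPlane MeasureTheory Set
open scoped MatrixGroups Manifold ENNReal Topology

namespace Pool.Agent.LengthSpec

section final

variable {Γ : Subgroup SL(2, ℝ)}

/-- a representing holonomy of a point of Teichmüller space -/
noncomputable def rep (Z : Teich Γ) : Γ →* SL(2, ℝ) := (Quotient.out Z).1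

lemma rep_marked (Z : Teich Γ) : IsMarked Γ (rep Z) := (Quotient.out Z).2

lemma lenAt_eq (Z : Teich Γ) (g : Γ) : lenAt Γ g Z = len (rep Z g) := by
  conv_lhs => rw [← Quotient.out_eq Z]
  rfl

/-- the class of a marked structure -/
def cls (ρ : Γ →* SL(2, ℝ)) (h : IsMarked Γ ρ) : Teich Γ := Quotient.mk (markedSetoid Γ) ⟨ρ, h⟩

lemma lenAt_cls (ρ : Γ →* SL(2, ℝ)) (h : IsMarked Γ ρ) (g : Γ) :
    lenAt Γ g (cls ρ h) = len (ρ g) := rfl

lemma lenAt_pos {g : Γ} (hg : 0 < len (g : SL(2, ℝ))) (Z : Teich Γ) : 0 < lenAt Γ g Z := by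
  rw [lenAt_eq]; exact (rep_marked Z).len_pos hg

lemma log_max_nonneg {a b : ℝ} (ha : 0 < a) (hb : 0 < b) :
    0 ≤ Real.log (max (a / b) (b / a)) := by
  apply Real.log_nonneg
  rcases le_total a b with h | h
  · exact le_max_of_le_right ((one_le_div ha).mpr h)
  · exact le_max_of_le_left ((one_le_div hb).mpr h)

lemma abs_log_sub_le {a b : ℝ} (ha : 0 < a) (hb : 0 < b) :
    |Real.log a - Real.log b| ≤ Real.log (max (a / b) (b / a)) := by
  rw [abs_le]
  constructor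
  · have : Real.log (b / a) ≤ Real.log (max (a / b) (b / a)) :=
      Real.log_le_log (div_pos hb ha) (le_max_right _ _)
    rw [Real.log_div hb.ne' ha.ne'] at this
    linarith
  · have : Real.log (a / b) ≤ Real.log (max (a / b) (b / a)) :=
      Real.log_le_log (div_pos ha hb) (le_max_left _ _)
    rw [Real.log_div ha.ne' hb.ne'] at this
    linarith

lemma le_dL {g : Γ} (hg : IsSimpleClosed Γ g) (Z Z' : Teich Γ) :
    ENNReal.ofReal |Real.log (lenAt Γ g Z') - Real.log (lenAt Γ g Z)| ≤ dL Γ Z Z' := by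
  refine le_trans (ENNReal.ofReal_le_ofReal (abs_log_sub_le (lenAt_pos hg.pos Z')
    (lenAt_pos hg.pos Z))) ?_
  unfold dL
  exact le_iSup₂_of_le g hg le_rfl

lemma lenAt_le_of_dL {g : Γ} (hg : IsSimpleClosed Γ g) {Z Z' : Teich Γ} (h : dL Γ Z Z' ≤ 1) :
    lenAt Γ g Z' ≤ Real.exp 1 * lenAt Γ g Z ∧ lenAt Γ g Z ≤ Real.exp 1 * lenAt Γ g Z' := by
  have h1 := (le_dL hg Z Z').trans h
  have h2 : |Real.log (lenAt Γ g Z') - Real.log (lenAt Γ g Z)| ≤ 1 := by
    have : (1 : ℝ≥0∞) = ENNReal.ofReal 1 := by simp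
    rw [this] at h1
    exact (ENNReal.ofReal_le_ofReal_iff zero_le_one).mp h1
  have p := lenAt_pos hg.pos Z
  have p' := lenAt_pos hg.pos Z'
  rw [abs_le] at h2
  constructor
  · rw [← Real.log_le_log_iff p' (by positivity), Real.log_mul (Real.exp_pos 1).ne' p.ne',
      Real.log_exp]
    linarith
  · rw [← Real.log_le_log_iff p (by positivity), Real.log_mul (Real.exp_pos 1).ne' p'.ne',
      Real.log_exp]
    linarith

lemma arsinh_le_sqrt {x : ℝ} (hx : 0 ≤ x) : Real.arsinh x ≤ 4 * √x := by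
  have h1 : √(1 + x ^ 2) ≤ 1 + x := by
    rw [Real.sqrt_le_left (by positivity)]
    nlinarith
  have hsx : 0 ≤ √x := Real.sqrt_nonneg x
  have hsq : √x * √x = x := Real.mul_self_sqrt hx
  have h2 : x + √(1 + x ^ 2) ≤ (1 + 2 * √x) ^ 2 := by nlinarith
  have h3 : 0 < x + √(1 + x ^ 2) := by positivity
  calc Real.arsinh x = Real.log (x + √(1 + x ^ 2)) := by rw [Real.arsinh]
    _ ≤ Real.log ((1 + 2 * √x) ^ 2) := Real.log_le_log h3 h2
    _ = 2 * Real.log (1 + 2 * √x) := by rw [Real.log_pow]; norm_num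
    _ ≤ 2 * (2 * √x) := by
        have := Real.log_le_sub_one_of_pos (show 0 < 1 + 2 * √x by positivity)
        linarith
    _ = 4 * √x := by ring

/-- numerical bound for the step -/
lemma step_bound {A ℓ ℓ' c c' e : ℝ} (hA : 0 ≤ A) (he : 1 ≤ e) (hℓ : 0 < ℓ) (hℓ' : 0 < ℓ')
    (h2 : ℓ ≤ e * ℓ')
    (hc : c ≤ e * (4 * Real.arsinh ((A + 1) / ℓ) + 2 * ℓ))
    (hc' : c' ≤ 4 * Real.arsinh ((A + 1) / ℓ') + 2 * ℓ') :
    (c + ℓ') / ℓ' + (c' + ℓ') / ℓ' + 2 ≤
      (100 * e ^ 4 * (A + 1)) * (1 + ℓ ^ (-(3 / 2) : ℝ)) := by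
  have hB : 1 ≤ A + 1 := by linarith
  set B := A + 1 with hBdef
  have e0 : 0 < e := by linarith
  have inv' : 1 / ℓ' ≤ e / ℓ := by
    rw [div_le_div_iff₀ hℓ' hℓ]; linarith
  -- sqrt bounds
  have hrp : ℓ ^ (-(3 / 2) : ℝ) = √(1 / ℓ) / ℓ := by
    rw [Real.rpow_neg hℓ.le, show (3 / 2 : ℝ) = 1 + 1 / 2 by norm_num, Real.rpow_add hℓ,
      Real.rpow_one, ← Real.sqrt_eq_rpow, Real.sqrt_div zero_le_one, Real.sqrt_one]
    field_simp
  set s := √(1 / ℓ) with hs
  have hs0 : 0 ≤ s := Real.sqrt_nonneg _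
  have a1 : Real.arsinh (B / ℓ) ≤ 4 * (B * s) := by
    refine (arsinh_le_sqrt (by positivity)).trans ?_
    have : √(B / ℓ) = √B * s := by rw [hs, ← Real.sqrt_mul (by positivity)]; congr 1; ring
    rw [this]
    have : √B ≤ B := by
      rw [Real.sqrt_le_left (by positivity)]; nlinarith
    gcongr
  have a2 : Real.arsinh (B / ℓ') ≤ 4 * (e * B * s) := by
    have m1 : B / ℓ' ≤ e * B / ℓ := by
      have : B / ℓ' = B * (1 / ℓ') := by ring
      rw [this]
      calc B * (1 / ℓ') ≤ B * (e / ℓ) := by gcongr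
        _ = e * B / ℓ := by ring
    refine (Real.arsinh_le_arsinh.mpr m1).trans ?_
    refine (arsinh_le_sqrt (by positivity)).trans ?_
    have : √(e * B / ℓ) = √(e * B) * s := by
      rw [hs, ← Real.sqrt_mul (by positivity)]; congr 1; ring
    rw [this]
    have : √(e * B) ≤ e * B := by
      rw [Real.sqrt_le_left (by positivity)]
      have : 1 ≤ e * B := one_le_mul_of_one_le_of_one_le he hB
      nlinarith
    gcongr
  have b1 : (c + ℓ') / ℓ' ≤ 16 * e ^ 2 * B * (s / ℓ) + 2 * e ^ 2 + 1 := by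
    have : (c + ℓ') / ℓ' = c * (1 / ℓ') + 1 := by field_simp
    rw [this]
    have k1 : c ≤ e * (4 * (4 * (B * s)) + 2 * ℓ) := hc.trans (by gcongr)
    have k2 : c * (1 / ℓ') ≤ (e * (4 * (4 * (B * s)) + 2 * ℓ)) * (e / ℓ) := by
      calc c * (1 / ℓ') ≤ (e * (4 * (4 * (B * s)) + 2 * ℓ)) * (1 / ℓ') := by gcongr
        _ ≤ _ := by gcongr
    have k3 : (e * (4 * (4 * (B * s)) + 2 * ℓ)) * (e / ℓ) = 16 * e ^ 2 * B * (s / ℓ) + 2 * e ^ 2 := by
      field_simp
      ring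
    linarith
  have b2 : (c' + ℓ') / ℓ' ≤ 16 * e ^ 2 * B * (s / ℓ) + 3 := by
    have : (c' + ℓ') / ℓ' = c' * (1 / ℓ') + 1 := by field_simp
    rw [this]
    have k1 : c' ≤ 4 * (4 * (e * B * s)) + 2 * ℓ' := hc'.trans (by gcongr)
    have k2 : c' * (1 / ℓ') ≤ (4 * (4 * (e * B * s))) * (e / ℓ) + 2 := by
      calc c' * (1 / ℓ') ≤ (4 * (4 * (e * B * s)) + 2 * ℓ') * (1 / ℓ') := by gcongr
        _ = (4 * (4 * (e * B * s))) * (1 / ℓ') + 2 := by field_simp
        _ ≤ _ := by gcongr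
    have k3 : (4 * (4 * (e * B * s))) * (e / ℓ) = 16 * e ^ 2 * B * (s / ℓ) := by ring
    linarith
  rw [hrp]
  have hsl : 0 ≤ s / ℓ := by positivity
  have e2 : 1 ≤ e ^ 2 := one_le_pow₀ he
  have e4 : e ^ 2 ≤ e ^ 4 := pow_le_pow_right₀ he (by norm_num)
  have g1 : e ^ 2 * B * (s / ℓ) ≤ e ^ 4 * B * (s / ℓ) := by gcongr
  have g2 : e ^ 2 ≤ e ^ 4 * B := by nlinarith
  have g3 : 1 ≤ e ^ 4 * B := by nlinarith
  have g4 : 0 ≤ e ^ 4 * B * (s / ℓ) := by positivity
  nlinarith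

theorem not_finsler (hΓ : IsSurfaceGroup Γ) (hS : ∃ g : Γ, IsSimpleClosed Γ g)
    (E : Type*) [NormedAddCommGroup E] [NormedSpace ℝ E] [TopologicalSpace (Teich Γ)]
    [ChartedSpace E (Teich Γ)] [IsManifold 𝓘(ℝ, E) 1 (Teich Γ)] : ¬ IsFinsler E (dL Γ) := by
  intro hF
  obtain ⟨γ, hγ⟩ := hS
  obtain ⟨A', hA'top, hA'⟩ := hΓ.finite_area
  obtain ⟨A, hA0, hA⟩ : ∃ A : ℝ, 0 ≤ A ∧ HasArea Γ (ENNReal.ofReal A) :=
    ⟨A'.toReal, ENNReal.toReal_nonneg, by rwa [ENNReal.ofReal_toReal hA'top]⟩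
  have hγ0 := hγ.pos
  -- short simple curves crossing γ
  have hex : ∀ Z : Teich Γ, ∃ β : Γ, IsSimpleClosed Γ β ∧ link (rep Z γ) (rep Z β) ∧
      len (rep Z β) ≤ 4 * Real.arsinh ((A + 1) / len (rep Z γ)) + 2 * len (rep Z γ) :=
    fun Z => exists_short_simple hΓ hγ hA0 hA (rep_marked Z)
  choose β hβ1 hβ2 hβ3 using hex
  have hnr : ∀ Z : Teich Γ, ∃ m, Nrm γ (rep Z) m := fun Z => exists_nrm (rep_marked Z) hγ0
  choose mm hmm using hnr
  obtain ⟨C₀, r, m, βs, hC₀, hr, hrγ, hrm, hrlen, hrtw⟩ := exists_twisted hΓ hγ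
  -- the base structure
  have hρ₀ := IsMarked.subtype hΓ
  obtain ⟨m₀, hm₀⟩ := exists_nrm hρ₀ hγ0
  set X : Teich Γ := cls Γ.subtype hρ₀ with hX
  set Y : ℕ → Teich Γ := fun n => cls (r n) (hr n) with hY
  set t : Γ → ℝ := fun b => tn γ Γ.subtype m₀ b with ht
  -- all crossing conditions in the base structure
  have hcross : ∀ Z, link (Γ.subtype γ) (Γ.subtype (β Z)) := fun Z =>
    (link_iff_of_marked (rep_marked Z) hρ₀ hγ0 (hβ1 Z).pos).mp (hβ2 Z)
  have hcross' : ∀ {ρ : Γ →* SL(2, ℝ)} (hρ : IsMarked Γ ρ) (Z), link (ρ γ) (ρ (β Z)) :=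
    fun hρ Z => (link_iff_of_marked hρ₀ hρ hγ0 (hβ1 Z).pos).mp (hcross Z)
  have hlenγX : lenAt Γ γ X = len (γ : SL(2, ℝ)) := rfl
  have hlenγY : ∀ n, lenAt Γ γ (Y n) = len (γ : SL(2, ℝ)) := fun n => by
    show len (r n γ) = _
    rw [hrγ n]
  set e := Real.exp 1 with he
  have he1 : 1 ≤ e := Real.one_le_exp zero_le_one
  set D := |t (β X) - t βs| with hD
  set Cy := (4 * Real.arsinh ((A + 1) / len (γ : SL(2, ℝ))) + 2 * len (γ : SL(2, ℝ)) +
    len (γ : SL(2, ℝ))) / len (γ : SL(2, ℝ)) with hCy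
  have hCy0 : 0 ≤ Cy := by
    rw [hCy]
    have : 0 ≤ Real.arsinh ((A + 1) / len (γ : SL(2, ℝ))) :=
      Real.arsinh_nonneg_iff.mpr (by positivity)
    positivity
  set C := 100 * e ^ 4 * (A + 1) + C₀ + D + Cy + 2 with hC
  have hC1 : 1 ≤ C := by
    have h1 : 0 ≤ 100 * e ^ 4 * (A + 1) := by positivity
    have h2 : 0 ≤ D := abs_nonneg _
    linarith
  refine chain_contradiction (dL Γ) X Y (lenAt Γ γ) C hC1 (fun Z Z' => |t (β Z) - t (β Z')|)
    ?_ ?_ ?_ ?_ ?_ ?_ ?_ ?_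
  · intro n N hN hd
    exact finsler_chain E hF X (Y n) hd N hN
  · intro n hn
    unfold dL
    refine iSup₂_le fun g hg => ENNReal.ofReal_le_ofReal ?_
    have hn' : (1 : ℝ) ≤ n := by exact_mod_cast hn
    have p0 : 0 < len (g : SL(2, ℝ)) := hg.pos
    have p1 : 0 < len (r n g) := (hr n).len_pos p0
    obtain ⟨l1, l2⟩ := hrlen n hn g
    have e1 : lenAt Γ g X = len (g : SL(2, ℝ)) := rfl
    have e2 : lenAt Γ g (Y n) = len (r n g) := rfl
    rw [e1, e2]
    apply Real.log_le_log (by positivity)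
    have hCC : C₀ * n ≤ C * n := by
      apply mul_le_mul_of_nonneg_right _ (by positivity)
      have h1 : 0 ≤ 100 * e ^ 4 * (A + 1) := by positivity
      have h2 : 0 ≤ D := abs_nonneg _
      linarith
    apply max_le
    · rw [div_le_iff₀ p0]; exact l1.trans (by gcongr)
    · rw [div_le_iff₀ p1]; exact l2.trans (by gcongr)
  · intro Z; exact lenAt_pos hγ0 Z
  · intro Z Z'; exact le_dL hγ Z Z'
  · intro n; rw [hlenγY, hlenγX]
  · intro Z₁ Z₂ Z₃; exact abs_sub_le _ _ _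
  · intro Z Z' hZ
    have c1 := tn_compare hρ₀ (rep_marked Z') hγ0 hm₀ (hmm Z') (hcross Z) (hcross Z')
    have b1 := abs_tn_le (rep_marked Z') hγ0 (hmm Z') (hcross' (rep_marked Z') Z)
    have b2 := abs_tn_le (rep_marked Z') hγ0 (hmm Z') (hβ2 Z')
    have l1 := lenAt_le_of_dL hγ hZ
    have l2 := lenAt_le_of_dL (hβ1 Z) hZ
    rw [lenAt_eq, lenAt_eq] at l1 l2
    have pZ : 0 < len (rep Z γ) := (rep_marked Z).len_pos hγ0
    have pZ' : 0 < len (rep Z' γ) := (rep_marked Z').len_pos hγ0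
    have hc : len (rep Z' (β Z)) ≤ e * (4 * Real.arsinh ((A + 1) / len (rep Z γ)) +
        2 * len (rep Z γ)) := l2.1.trans (by gcongr; exact hβ3 Z)
    have sb := step_bound hA0 he1 pZ pZ' l1.2 hc (hβ3 Z')
    have hfin : |t (β Z) - t (β Z')| ≤ (100 * e ^ 4 * (A + 1)) *
        (1 + len (rep Z γ) ^ (-(3 / 2) : ℝ)) := by
      refine le_trans c1 (le_trans ?_ sb)
      have := abs_sub (tn γ (rep Z') (mm Z') (β Z)) (tn γ (rep Z') (mm Z') (β Z'))
      linarith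
    rw [lenAt_eq]
    refine hfin.trans ?_
    apply mul_le_mul_of_nonneg_right _ (by positivity)
    have h2 : 0 ≤ D := abs_nonneg _
    linarith
  · intro n hn
    have h1 : 0 ≤ 100 * e ^ 4 * (A + 1) := by positivity
    have h2 : 0 ≤ D := abs_nonneg _
    by_cases hnC : C₀ ≤ n
    · obtain ⟨q1, q2⟩ := hrtw n hnC
      -- compare in the structure r n
      have c1 := tn_compare (hr n) hρ₀ hγ0 (hrm n) hm₀ q1 (hcross' (hr n) (Y n))
      have hlen : len (r n (β (Y n))) ≤ 4 * Real.arsinh ((A + 1) / len (γ : SL(2, ℝ))) +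
          2 * len (γ : SL(2, ℝ)) := by
        have e1 : len (r n (β (Y n))) = len (rep (Y n) (β (Y n))) := by
          rw [← lenAt_eq]; rfl
        have e2 : len (rep (Y n) γ) = len (γ : SL(2, ℝ)) := by
          rw [← lenAt_eq]; exact hlenγY n
        rw [e1]
        have := hβ3 (Y n)
        rwa [e2] at this
      have b1 := abs_tn_le (hr n) hγ0 (hrm n) (hcross' (hr n) (Y n))
      have b2 : |tn γ (r n) m (β (Y n))| ≤ Cy := by
        refine b1.trans ?_
        rw [hrγ n, hCy]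
        gcongr
      have t1 : |tn γ (r n) m βs - tn γ (r n) m (β (Y n))| ≥ n - C₀ - Cy := by
        have a1 := abs_le.mp q2
        have a2 := abs_le.mp b2
        have := le_abs_self (tn γ (r n) m βs - tn γ (r n) m (β (Y n)))
        linarith
      have t2 : |t βs - t (β (Y n))| ≥ n - C₀ - Cy - 2 := by
        have : |t βs - t (β (Y n))| =
          |tn γ Γ.subtype m₀ βs - tn γ Γ.subtype m₀ (β (Y n))| := rfl
        linarith
      have t3 := abs_sub_le (t βs) (t (β X)) (t (β (Y n)))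
      have t4 : |t βs - t (β X)| = D := by rw [hD, abs_sub_comm]
      show (n : ℝ) - C ≤ |t (β X) - t (β (Y n))|
      linarith
    · have : (n : ℝ) - C ≤ 0 := by
        push Not at hnC
        linarith
      exact this.trans (abs_nonneg _)

end final

end Pool.Agent.LengthSpec
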