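import Pool.Agent.LengthSpec.Len

open UpperHalfPlane MeasureTheory Set
open scoped MatrixGroups Manifold ENNReal Topology

namespace Pool.Agent.LengthSpec

/-- absolute values of the positive / negative fixed point of `β` (when the axis of `β` crosses the
imaginary axis) -/
noncomputable def vp (β : SL(2, ℝ)) : ℝ :=
  ((β 0 0 - β 1 1) / β 1 0 + √((β 0 0 - β 1 1) ^ 2 + 4 * (β 0 1 * β 1 0)) / |β 1 0|) / 2

noncomputable def up (β : SL(2, ℝ)) : ℝ :=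
  (-((β 0 0 - β 1 1) / β 1 0) + √((β 0 0 - β 1 1) ^ 2 + 4 * (β 0 1 * β 1 0)) / |β 1 0|) / 2

/-- twisting of (the axis of) `β` about the imaginary axis -/
noncomputable def tw (β : SL(2, ℝ)) : ℝ := Real.log (vp β) - Real.log (up β)


lemma bc_abs {β : SL(2, ℝ)} (hβ : 0 < β 0 1 * β 1 0) : β 1 0 ≠ 0 := by
  intro h; rw [h] at hβ; simp at hβ

lemma vu_pos {β : SL(2, ℝ)} (hβ : 0 < β 0 1 * β 1 0) : 0 < vp β ∧ 0 < up β := by
  have hc := bc_abs hβ
  have h1 : |(β 0 0 - β 1 1) / β 1 0| < √((β 0 0 - β 1 1) ^ 2 + 4 * (β 0 1 * β 1 0)) / |β 1 0| := by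
    rw [abs_div, div_lt_div_iff_of_pos_right (abs_pos.2 hc)]
    apply Real.lt_sqrt_of_sq_lt
    rw [sq_abs]
    linarith
  have h2 := abs_lt.1 h1
  constructor
  · unfold vp; linarith [h2.1]
  · unfold up; linarith [h2.2]

lemma vu_add (β : SL(2, ℝ)) : vp β + up β =
    √((β 0 0 - β 1 1) ^ 2 + 4 * (β 0 1 * β 1 0)) / |β 1 0| := by
  unfold vp up; ring

lemma vu_sub (β : SL(2, ℝ)) : vp β - up β = (β 0 0 - β 1 1) / β 1 0 := by
  unfold vp up; ring

lemma vu_add_sq {β : SL(2, ℝ)} (hβ : 0 < β 0 1 * β 1 0) :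
    (β 1 0) ^ 2 * (vp β + up β) ^ 2 = (β 0 0 - β 1 1) ^ 2 + 4 * (β 0 1 * β 1 0) := by
  have hc := bc_abs hβ
  rw [vu_add, div_pow, sq_abs, Real.sq_sqrt (by positivity)]
  field_simp

lemma sub_eq' {β : SL(2, ℝ)} (hβ : 0 < β 0 1 * β 1 0) : β 0 0 - β 1 1 = β 1 0 * (vp β - up β) := by
  have hc := bc_abs hβ
  rw [vu_sub]; field_simp

lemma b_eq {β : SL(2, ℝ)} (hβ : 0 < β 0 1 * β 1 0) : β 0 1 = β 1 0 * (vp β * up β) := by
  have hc := bc_abs hβ
  have h1 := vu_add_sq hβ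
  have h2 := sub_eq' hβ
  rw [h2] at h1
  apply mul_right_cancel₀ hc
  linear_combination -(1 / 4) * h1

lemma D_eq_tr (β : SL(2, ℝ)) : (β 0 0 - β 1 1) ^ 2 + 4 * (β 0 1 * β 1 0) = tr β ^ 2 - 4 := by
  have := det_eq β
  unfold tr
  linear_combination -4 * this

lemma link_iff_vu {β β' : SL(2, ℝ)} (hβ : 0 < β 0 1 * β 1 0) (hβ' : 0 < β' 0 1 * β' 1 0) :
    link β β' ↔ (vp β - vp β') * (up β - up β') < 0 := by
  have hc := bc_abs hβ
  have hc' := bc_abs hβ'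
  obtain ⟨v0, u0⟩ := vu_pos hβ
  obtain ⟨v0', u0'⟩ := vu_pos hβ'
  have hf := tr_comm_formula β β'
  have e1 : tr β ^ 2 - 4 = (β 1 0) ^ 2 * (vp β + up β) ^ 2 := by rw [vu_add_sq hβ, D_eq_tr]
  have e2 : tr β' ^ 2 - 4 = (β' 1 0) ^ 2 * (vp β' + up β') ^ 2 := by rw [vu_add_sq hβ', D_eq_tr]
  have e3 : 2 * tr (β * β') - tr β * tr β' = β 1 0 * β' 1 0 *
      ((vp β - up β) * (vp β' - up β') + 2 * (vp β * up β) + 2 * (vp β' * up β')) := by
    obtain ⟨m1, m2, m3, m4⟩ := mul_entries β β'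
    have s1 := sub_eq' hβ
    have s2 := sub_eq' hβ'
    have b1 := b_eq hβ
    have b2 := b_eq hβ'
    have : 2 * tr (β * β') - tr β * tr β' = (β 0 0 - β 1 1) * (β' 0 0 - β' 1 1) +
        2 * (β 0 1 * β' 1 0) + 2 * (β 1 0 * β' 0 1) := by
      simp only [tr, m1, m4]; ring
    rw [this, s1, s2, b1, b2]
    ring
  have key : 4 * tr (β * β' * β⁻¹ * β'⁻¹) = 8 - (β 1 0 * β' 1 0) ^ 2 *
      (2 * ((up β - up β') * (vp β' - vp β))) *
      (2 * (up β * up β' + vp β * vp β' + vp β * up β + vp β' * up β')) := by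
    rw [hf, e1, e2, e3]; ring
  have hpos : 0 < (β 1 0 * β' 1 0) ^ 2 *
      (2 * (2 * (up β * up β' + vp β * vp β' + vp β * up β + vp β' * up β'))) := by
    have : β 1 0 * β' 1 0 ≠ 0 := mul_ne_zero hc hc'
    positivity
  have key2 : 4 * tr (β * β' * β⁻¹ * β'⁻¹) = 8 + (β 1 0 * β' 1 0) ^ 2 *
      (2 * (2 * (up β * up β' + vp β * vp β' + vp β * up β + vp β' * up β'))) *
      ((vp β - vp β') * (up β - up β')) := by rw [key]; ring
  unfold link
  constructor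
  · intro h
    by_contra hcon
    push Not at hcon
    have := mul_nonneg hpos.le hcon
    linarith
  · intro h
    have := mul_neg_of_pos_of_neg hpos h
    linarith

lemma vp_conj (s : ℝ) (β : SL(2, ℝ)) : vp (dg s * β * (dg s)⁻¹) = Real.exp s * vp β := by
  obtain ⟨h1, h2, h3, h4⟩ := dg_conj_entries s β
  have e : Real.exp s * β 0 1 * (Real.exp (-s) * β 1 0) = β 0 1 * β 1 0 := by
    rw [Real.exp_neg]; field_simp
  unfold vp
  rw [h1, h2, h3, h4, e, abs_mul, abs_of_pos (Real.exp_pos _), Real.exp_neg]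
  field_simp

lemma up_conj (s : ℝ) (β : SL(2, ℝ)) : up (dg s * β * (dg s)⁻¹) = Real.exp s * up β := by
  obtain ⟨h1, h2, h3, h4⟩ := dg_conj_entries s β
  have e : Real.exp s * β 0 1 * (Real.exp (-s) * β 1 0) = β 0 1 * β 1 0 := by
    rw [Real.exp_neg]; field_simp
  unfold up
  rw [h1, h2, h3, h4, e, abs_mul, abs_of_pos (Real.exp_pos _), Real.exp_neg]
  field_simp

lemma int_count (x y : ℝ) (hxy : x ≤ y) (S : Set ℤ) (hS : ∀ k : ℤ, k ∈ S ↔ x < k ∧ (k : ℝ) < y) :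
    S.Finite ∧ |(S.ncard : ℝ) - (y - x)| ≤ 1 := by
  have e : S = (Finset.Ioo ⌊x⌋ ⌈y⌉ : Finset ℤ) := by
    ext k
    rw [hS, Finset.mem_coe, Finset.mem_Ioo, Int.floor_lt, Int.lt_ceil]
  rw [e]
  refine ⟨Finset.finite_toSet _, ?_⟩
  rw [Set.ncard_coe_finset, Int.card_Ioo]
  have h1 := Int.floor_le x
  have h2 := Int.lt_floor_add_one x
  have h3 := Int.le_ceil y
  have h4 := Int.ceil_lt_add_one y
  rcases le_or_gt 0 (⌈y⌉ - ⌊x⌋ - 1) with h | h
  · have : ((⌈y⌉ - ⌊x⌋ - 1).toNat : ℝ) = (⌈y⌉ : ℝ) - ⌊x⌋ - 1 := by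
      have h5 : (((⌈y⌉ - ⌊x⌋ - 1).toNat : ℤ) : ℝ) = ((⌈y⌉ - ⌊x⌋ - 1 : ℤ) : ℝ) := by
        rw [Int.toNat_of_nonneg h]
      push_cast at h5
      exact_mod_cast h5
    rw [this, abs_le]
    constructor <;> linarith
  · have h0 : (⌈y⌉ - ⌊x⌋ - 1).toNat = 0 := Int.toNat_of_nonpos h.le
    rw [h0]
    have h6 : (⌈y⌉ : ℝ) - ⌊x⌋ - 1 < 0 := by exact_mod_cast h
    rw [abs_le]
    push_cast
    constructor <;> linarith

theorem count_link (ℓ : ℝ) (hℓ : 0 < ℓ) (β β' : SL(2, ℝ)) (hβ : 0 < β 0 1 * β 1 0)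
    (hβ' : 0 < β' 0 1 * β' 1 0) (S : Set ℤ)
    (hS : ∀ k : ℤ, k ∈ S ↔ link (dg ℓ ^ k * β * (dg ℓ ^ k)⁻¹) β') :
    S.Finite ∧ |(S.ncard : ℝ) - |tw β' - tw β| / ℓ| ≤ 1 := by
  obtain ⟨v0, u0⟩ := vu_pos hβ
  obtain ⟨v0', u0'⟩ := vu_pos hβ'
  set p := Real.log (vp β') - Real.log (vp β) with hp
  set q := Real.log (up β') - Real.log (up β) with hq
  have htw : tw β' - tw β = p - q := by unfold tw; rw [hp, hq]; ring
  have hlog : ∀ (t x y : ℝ), 0 < x → 0 < y → (Real.exp t * x < y ↔ t < Real.log y - Real.log x) ∧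
      (y < Real.exp t * x ↔ Real.log y - Real.log x < t) := by
    intro t x y hx hy
    have e : Real.exp t * x = Real.exp (t + Real.log x) := by rw [Real.exp_add, Real.exp_log hx]
    constructor
    · rw [e, ← Real.lt_log_iff_exp_lt hy]; constructor <;> intro h <;> linarith
    · rw [e, ← Real.log_lt_iff_lt_exp hy]; constructor <;> intro h <;> linarith
  have hS' : ∀ k : ℤ, k ∈ S ↔ min p q / ℓ < k ∧ (k : ℝ) < max p q / ℓ := by
    intro k
    rw [hS, dg_zpow]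
    have hk : 0 < (dg (k * ℓ) * β * (dg (k * ℓ))⁻¹) 0 1 * (dg (k * ℓ) * β * (dg (k * ℓ))⁻¹) 1 0 := by
      obtain ⟨h1, h2, h3, h4⟩ := dg_conj_entries (k * ℓ) β
      rw [h2, h3]
      have e : Real.exp (k * ℓ) * β 0 1 * (Real.exp (-(k * ℓ)) * β 1 0) = β 0 1 * β 1 0 := by
        rw [Real.exp_neg]; field_simp
      rw [e]; exact hβ
    rw [link_iff_vu hk hβ', vp_conj, up_conj, mul_neg_iff, div_lt_iff₀ hℓ, lt_div_iff₀ hℓ,
      min_lt_iff, lt_max_iff, sub_pos, sub_neg, sub_neg, sub_pos]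
    rw [(hlog _ _ _ v0 v0').1, (hlog _ _ _ v0 v0').2, (hlog _ _ _ u0 u0').1, (hlog _ _ _ u0 u0').2,
      ← hp, ← hq]
    constructor
    · rintro (⟨h1, h2⟩ | ⟨h1, h2⟩)
      · exact ⟨Or.inl h1, Or.inr h2⟩
      · exact ⟨Or.inr h2, Or.inl h1⟩
    · rintro ⟨h1 | h1, h2 | h2⟩
      · exact absurd h1 (not_lt.2 h2.le)
      · exact Or.inl ⟨h1, h2⟩
      · exact Or.inr ⟨h2, h1⟩
      · exact absurd h1 (not_lt.2 h2.le)
  have hle : min p q / ℓ ≤ max p q / ℓ := by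
    apply div_le_div_of_nonneg_right min_le_max hℓ.le
  have := int_count _ _ hle S hS'
  refine ⟨this.1, ?_⟩
  have e : |p - q| = max p q - min p q := (max_sub_min_eq_abs' p q).symm
  rw [htw, e, sub_div]
  exact this.2

theorem tw_le (ℓ : ℝ) (hℓ : 0 < ℓ) (β : SL(2, ℝ)) (hβ : 0 < β 0 1 * β 1 0)
    (hc : tr (dg ℓ * β * (dg ℓ)⁻¹ * β⁻¹) ≤ -2) : |tw β| ≤ len β + ℓ := by
  obtain ⟨v0, u0⟩ := vu_pos hβ
  have hc0 := bc_abs hβ
  rw [tr_comm_dg] at hc
  have hD : tr β ^ 2 - 4 = (β 1 0) ^ 2 * (vp β + up β) ^ 2 := by rw [vu_add_sq hβ, D_eq_tr]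
  have hDpos : 0 < tr β ^ 2 - 4 := by rw [hD]; positivity
  have htr : 2 < |tr β| := by
    rw [← sq_lt_sq₀ (by norm_num) (abs_nonneg _), sq_abs]; linarith
  have hlen := two_cosh_len htr
  have hsinh : (2 * Real.sinh (ℓ / 2)) ^ 2 = 2 * (Real.cosh ℓ - 1) := by
    have h1 := Real.cosh_two_mul (ℓ / 2)
    have h2 := Real.cosh_sq (ℓ / 2)
    rw [mul_div_cancel₀ _ (two_ne_zero)] at h1
    rw [h1]
    linear_combination (-2) * h2
  rw [hsinh] at hc
  have hcosh : 2 * Real.cosh (tw β) + 2 = (vp β + up β) ^ 2 / (vp β * up β) := by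
    have e1 : Real.exp (tw β) = vp β / up β := by
      unfold tw; rw [Real.exp_sub, Real.exp_log v0, Real.exp_log u0]
    have e2 : Real.exp (-tw β) = up β / vp β := by
      rw [Real.exp_neg, e1, inv_div]
    rw [Real.cosh_eq, e1, e2]
    field_simp
    ring
  have hbc : β 0 1 * β 1 0 = (β 1 0) ^ 2 * (vp β * up β) := by
    have := b_eq hβ
    linear_combination (β 1 0) * this
  have hcosh2 : (2 * Real.cosh (tw β) + 2) * (β 0 1 * β 1 0) = tr β ^ 2 - 4 := by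
    rw [hcosh, hbc, hD]; field_simp
  have hl1 : 1 ≤ Real.cosh ℓ := Real.one_le_cosh ℓ
  have hl2 : 1 ≤ Real.cosh (len β) := Real.one_le_cosh _
  have hl3 : 1 < Real.cosh ℓ := Real.one_lt_cosh.2 hℓ.ne'
  have ht1 : 1 ≤ Real.cosh (tw β) := Real.one_le_cosh _
  have hb4 : 2 ≤ β 0 1 * β 1 0 * (Real.cosh ℓ - 1) := by linarith
  have hfin : Real.cosh (tw β) ≤ Real.cosh (len β) * Real.cosh ℓ := by
    have h1 : (2 * Real.cosh (tw β) + 2) * 2 ≤ (2 * Real.cosh (len β) - 2) * (Real.cosh ℓ - 1) := by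
      calc (2 * Real.cosh (tw β) + 2) * 2
          ≤ (2 * Real.cosh (tw β) + 2) * (β 0 1 * β 1 0 * (Real.cosh ℓ - 1)) :=
            mul_le_mul_of_nonneg_left hb4 (by linarith)
        _ = ((2 * Real.cosh (tw β) + 2) * (β 0 1 * β 1 0)) * (Real.cosh ℓ - 1) := by ring
        _ = (2 * Real.cosh (len β) - 2) * (Real.cosh ℓ - 1) := by rw [hcosh2, hlen]; ring
    nlinarith
  have hadd : Real.cosh (tw β) ≤ Real.cosh (len β + ℓ) := by
    rw [Real.cosh_add]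
    have h1 : 0 ≤ Real.sinh (len β) := Real.sinh_nonneg_iff.2 (len_nonneg β)
    have h2 : 0 ≤ Real.sinh ℓ := Real.sinh_nonneg_iff.2 hℓ.le
    have := mul_nonneg h1 h2
    linarith
  have := Real.cosh_le_cosh.1 hadd
  rwa [abs_of_nonneg (add_nonneg (len_nonneg β) hℓ.le)] at this

/-- growth of the twisting of `dg (n ℓ) p (dg (n ℓ))⁻¹ q` -/
theorem tw_growth (ℓ : ℝ) (hℓ : 0 < ℓ) (p q : SL(2, ℝ)) (hp : 0 < p 0 1 * p 1 1)
    (hq : 0 < q 1 0 * q 1 1) : ∃ C : ℝ, ∀ n : ℕ, C ≤ n →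
      0 < (dg (n * ℓ) * p * (dg (n * ℓ))⁻¹ * q) 0 1 * (dg (n * ℓ) * p * (dg (n * ℓ))⁻¹ * q) 1 0 ∧
      |tw (dg (n * ℓ) * p * (dg (n * ℓ))⁻¹ * q) - n * ℓ| ≤ C := by
  have hp1 : p 1 1 ≠ 0 := by rintro h; rw [h] at hp; simp at hp
  have hp0 : p 0 1 ≠ 0 := by rintro h; rw [h] at hp; simp at hp
  have hq1 : q 1 1 ≠ 0 := by rintro h; rw [h] at hq; simp at hq
  have hq0 : q 1 0 ≠ 0 := by rintro h; rw [h] at hq; simp at hq
  let A : ℝ → ℝ := fun ε => p 0 1 * q 1 0 + ε * (p 0 0 * q 0 0 - p 1 1 * q 1 1) -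
    ε ^ 2 * (p 1 0 * q 0 1)
  let B : ℝ → ℝ := fun ε => p 0 1 * q 1 1 + ε * (p 0 0 * q 0 1)
  let K : ℝ → ℝ := fun ε => p 1 1 * q 1 0 + ε * (p 1 0 * q 0 0)
  let V : ℝ → ℝ := fun ε => (A ε / K ε + √(A ε ^ 2 + 4 * ε * (B ε * K ε)) / |K ε|) / 2
  have hAc : Continuous A := by fun_prop
  have hBc : Continuous B := by fun_prop
  have hKc : Continuous K := by fun_prop
  have hK0 : K 0 ≠ 0 := by simp only [K, zero_mul, add_zero]; exact mul_ne_zero hp1 hq0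
  have hB0 : B 0 = p 0 1 * q 1 1 := by simp [B]
  have hV0 : V 0 = p 0 1 / p 1 1 := by
    have hpos : 0 < p 0 1 / p 1 1 := by
      rw [div_eq_mul_inv]
      have : p 0 1 * (p 1 1)⁻¹ = (p 0 1 * p 1 1) / (p 1 1) ^ 2 := by field_simp
      rw [this]; positivity
    have e1 : A 0 = p 0 1 * q 1 0 := by simp [A]
    have e2 : K 0 = p 1 1 * q 1 0 := by simp [K]
    simp only [V]
    rw [mul_zero, zero_mul, add_zero, Real.sqrt_sq_eq_abs, ← abs_div, e1, e2,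
      mul_div_mul_right _ _ hq0, abs_of_pos hpos]
    ring
  have hV0pos : 0 < V 0 := by
    rw [hV0, div_eq_mul_inv]
    have : p 0 1 * (p 1 1)⁻¹ = (p 0 1 * p 1 1) / (p 1 1) ^ 2 := by field_simp
    rw [this]; positivity
  have hVc : ContinuousAt V 0 := by
    apply ContinuousAt.div_const
    apply ContinuousAt.add
    · exact hAc.continuousAt.div hKc.continuousAt hK0
    · apply ContinuousAt.div
      · apply Continuous.continuousAt; fun_prop
      · exact hKc.continuousAt.abs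
      · exact abs_ne_zero.2 hK0
  have hBK0 : 0 < B 0 * K 0 := by
    have : B 0 * K 0 = (p 0 1 * p 1 1) * (q 1 0 * q 1 1) := by simp only [B, K]; ring
    rw [this]; positivity
  let F : ℝ → ℝ := fun ε => Real.log (V ε) - Real.log (B ε / (K ε * V ε))
  have hFc : ContinuousAt F 0 := by
    apply ContinuousAt.sub
    · exact hVc.log hV0pos.ne'
    · apply ContinuousAt.log
      · exact hBc.continuousAt.div (hKc.continuousAt.mul hVc) (mul_ne_zero hK0 hV0pos.ne')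
      · have : B 0 ≠ 0 := by rw [hB0]; exact mul_ne_zero hp0 hq1
        exact div_ne_zero this (mul_ne_zero hK0 hV0pos.ne')
  -- the sequence
  have hlim : Filter.Tendsto (fun n : ℕ => Real.exp (-(n * ℓ))) Filter.atTop (𝓝 0) := by
    apply Real.tendsto_exp_neg_atTop_nhds_zero.comp
    exact tendsto_natCast_atTop_atTop.atTop_mul_const hℓ
  have hev1 : ∀ᶠ n : ℕ in Filter.atTop, |F (Real.exp (-(n * ℓ))) - F 0| < 1 := by
    have := (hFc.tendsto.comp hlim)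
    have := Metric.tendsto_nhds.1 this 1 one_pos
    filter_upwards [this] with n hn
    rwa [Real.dist_eq] at hn
  have hev2 : ∀ᶠ n : ℕ in Filter.atTop, 0 < V (Real.exp (-(n * ℓ))) :=
    (hVc.tendsto.comp hlim).eventually_const_lt hV0pos
  have hev3 : ∀ᶠ n : ℕ in Filter.atTop, 0 < B (Real.exp (-(n * ℓ))) * K (Real.exp (-(n * ℓ))) := by
    have h1 : Filter.Tendsto (fun n : ℕ => B (Real.exp (-(n * ℓ))) * K (Real.exp (-(n * ℓ))))
        Filter.atTop (𝓝 (B 0 * K 0)) := ((hBc.mul hKc).tendsto 0).comp hlim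
    exact h1.eventually_const_lt hBK0
  obtain ⟨N, hN⟩ := Filter.eventually_atTop.1 (hev1.and (hev2.and hev3))
  refine ⟨max (N : ℝ) (|F 0| + 1), fun n hn => ?_⟩
  have hn1 : N ≤ n := by exact_mod_cast (le_max_left _ _).trans hn
  obtain ⟨h1, h2, h3⟩ := hN n hn1
  set ε := Real.exp (-(n * ℓ)) with hε
  have hε0 : 0 < ε := Real.exp_pos _
  have hE : Real.exp (n * ℓ) = ε⁻¹ := by rw [hε, Real.exp_neg, inv_inv]
  set g := dg (n * ℓ) * p * (dg (n * ℓ))⁻¹ * q with hg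
  obtain ⟨c1, c2, c3, c4⟩ := dg_conj_entries (n * ℓ) p
  obtain ⟨g1, g2, g3, g4⟩ := mul_entries (dg (n * ℓ) * p * (dg (n * ℓ))⁻¹) q
  rw [← hg, c1, c2] at g1 g2
  rw [← hg, c3, c4] at g3 g4
  rw [hE] at g1 g2
  rw [← hε] at g3 g4
  have eA : g 0 0 - g 1 1 = ε⁻¹ * A ε := by
    rw [g1, g4]; simp only [A]; field_simp; ring
  have eB : g 0 1 = ε⁻¹ * B ε := by
    rw [g2]; simp only [B]; field_simp; ring
  have eK : g 1 0 = K ε := by
    rw [g3]; simp only [K]; ring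
  have hpos : 0 < g 0 1 * g 1 0 := by
    rw [eB, eK, mul_assoc]; positivity
  refine ⟨hpos, ?_⟩
  have hKne : K ε ≠ 0 := by rintro h; rw [h] at h3; simp at h3
  have hBne : B ε ≠ 0 := by rintro h; rw [h] at h3; simp at h3
  have evp : vp g = ε⁻¹ * V ε := by
    unfold vp
    rw [eA, eB, eK]
    have : (ε⁻¹ * A ε) ^ 2 + 4 * (ε⁻¹ * B ε * K ε) = (ε⁻¹) ^ 2 * (A ε ^ 2 + 4 * ε * (B ε * K ε)) := by
      field_simp
    rw [this, Real.sqrt_mul (by positivity), Real.sqrt_sq (by positivity)]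
    simp only [V]
    ring
  have eup : up g = B ε / (K ε * V ε) := by
    have h := b_eq hpos
    rw [evp, eB, eK] at h
    field_simp at h ⊢
    linarith
  have etw : tw g - n * ℓ = F ε := by
    unfold tw
    rw [evp, eup, Real.log_mul (by positivity) h2.ne', Real.log_inv, hε, Real.log_exp]
    simp only [F]
    ring
  rw [etw]
  have h5 : |F ε| ≤ |F 0| + 1 := by
    have := abs_sub_abs_le_abs_sub (F ε) (F 0)
    linarith
  exact h5.trans (le_max_right _ _)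

end Pool.Agent.LengthSpec
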