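import Pool.Agent.LengthSpec.Linking
import Pool.Agent.LengthSpec.Twisting

open UpperHalfPlane MeasureTheory Set
open scoped MatrixGroups Manifold ENNReal Topology

namespace Pool.Agent.LengthSpec

lemma IsSurfaceGroup.df {Γ : Subgroup SL(2, ℝ)} (h : IsSurfaceGroup Γ) : DF Γ :=
  ⟨h.discrete, h.free⟩

/-- `m` normalises `ρ γ` to be `z ↦ exp (len (ρ γ)) z`. -/
def Nrm {Γ : Subgroup SL(2, ℝ)} (γ : Γ) (ρ : Γ →* SL(2, ℝ)) (m : SL(2, ℝ)) : Prop :=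
  m * ρ γ * m⁻¹ = dg (len (ρ γ)) ∨ m * ρ γ * m⁻¹ = - dg (len (ρ γ))

/-- twisting number of `β` about `γ` for the marked structure `ρ`, normalised by `m` -/
noncomputable def tn {Γ : Subgroup SL(2, ℝ)} (γ : Γ) (ρ : Γ →* SL(2, ℝ)) (m : SL(2, ℝ)) (β : Γ) :
    ℝ := tw (m * ρ β * m⁻¹) / len (ρ γ)



lemma IsMarked.subtype {Γ : Subgroup SL(2, ℝ)} (hΓ : IsSurfaceGroup Γ) :
    IsMarked Γ Γ.subtype := by
  have hr : Γ.subtype.range = Γ := Subgroup.range_subtype Γ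
  refine ⟨Subtype.val_injective, ?_, ?_, ⟨Homeomorph.refl _, fun g z => rfl⟩, fun g => Iff.rfl⟩
  · rw [hr]; exact hΓ
  · intro A hA
    rw [hr]; exact hA

lemma IsMarked.len_pos {Γ : Subgroup SL(2, ℝ)} {ρ : Γ →* SL(2, ℝ)} (hρ : IsMarked Γ ρ) {g : Γ}
    (hg : 0 < len (g : SL(2, ℝ))) : 0 < len (ρ g) := by
  refine lt_of_le_of_ne (len_nonneg _) ?_
  intro h
  exact hg.ne' ((hρ.type_preserving g).1 h.symm)

lemma exists_nrm {Γ : Subgroup SL(2, ℝ)} {ρ : Γ →* SL(2, ℝ)} (hρ : IsMarked Γ ρ) {γ : Γ}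
    (hγ : 0 < len (γ : SL(2, ℝ))) : ∃ m, Nrm γ ρ m :=
  exists_diag ((len_pos_iff _).1 (hρ.len_pos hγ))

lemma link_of_marked_aux {Γ : Subgroup SL(2, ℝ)} {ρ ρ' : Γ →* SL(2, ℝ)} (hρ : IsMarked Γ ρ)
    (hρ' : IsMarked Γ ρ') {g h : Γ} (hg : 0 < len (g : SL(2, ℝ))) (hh : 0 < len (h : SL(2, ℝ)))
    (hl : link (ρ g) (ρ h)) : link (ρ' g) (ρ' h) := by
  obtain ⟨F₁, hF₁⟩ := hρ.marking
  obtain ⟨F₂, hF₂⟩ := hρ'.marking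
  refine link_of_link ρ ρ' hρ.surface.df hρ'.surface.df hρ.injective hρ'.injective
    (F₁.symm.trans F₂) ?_ g h ((len_pos_iff _).1 (hρ.len_pos hg)) ((len_pos_iff _).1 (hρ'.len_pos hg))
    ((len_pos_iff _).1 (hρ.len_pos hh)) ((len_pos_iff _).1 (hρ'.len_pos hh)) hl
  intro g z
  obtain ⟨w, rfl⟩ := F₁.surjective z
  rw [← hF₁]
  simp [hF₂]

/-- crossing is independent of the marked structure -/
lemma link_iff_of_marked {Γ : Subgroup SL(2, ℝ)} {ρ ρ' : Γ →* SL(2, ℝ)} (hρ : IsMarked Γ ρ)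
    (hρ' : IsMarked Γ ρ') {g h : Γ} (hg : 0 < len (g : SL(2, ℝ))) (hh : 0 < len (h : SL(2, ℝ))) :
    link (ρ g) (ρ h) ↔ link (ρ' g) (ρ' h) :=
  ⟨link_of_marked_aux hρ hρ' hg hh, link_of_marked_aux hρ' hρ hg hh⟩

/-- for a curve `γ` with simple geodesic: in every marked structure the axis of `γ` is simple -/
lemma not_link_of_simple {Γ : Subgroup SL(2, ℝ)} (hΓ : IsSurfaceGroup Γ) {ρ : Γ →* SL(2, ℝ)}
    (hρ : IsMarked Γ ρ) {γ : Γ} (hγ : IsSimpleClosed Γ γ) (g : Γ) :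
    ¬ link (ρ γ) (ρ (g * γ * g⁻¹)) := by
  have hcoe : ((g * γ * g⁻¹ : Γ) : SL(2, ℝ)) = (g : SL(2, ℝ)) * γ * (g : SL(2, ℝ))⁻¹ := by simp
  have hpos : 0 < len ((g * γ * g⁻¹ : Γ) : SL(2, ℝ)) := by
    rw [hcoe, len_conj]; exact hγ.pos
  rw [link_iff_of_marked hρ (IsMarked.subtype hΓ) hγ.pos hpos]
  refine (DF.axes hΓ.df γ.2 (g * γ * g⁻¹ : Γ).2 ((len_pos_iff _).1 hγ.pos)
    ((len_pos_iff _).1 hpos)).1 ?_
  rw [hcoe, axis_conj]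
  exact hγ.simple g

lemma nrm_link_iff {Γ : Subgroup SL(2, ℝ)} {ρ : Γ →* SL(2, ℝ)} {γ : Γ} {m : SL(2, ℝ)}
    (hγ : 0 < len (ρ γ)) (hm : Nrm γ ρ m) (β : Γ) :
    link (ρ γ) (ρ β) ↔ 0 < (m * ρ β * m⁻¹) 0 1 * (m * ρ β * m⁻¹) 1 0 := by
  rw [← link_conj m]
  rcases hm with hm | hm
  · rw [hm, link_dg hγ.ne']
  · rw [hm, link_neg_left, link_dg hγ.ne']

lemma tr_comm_conj_aux (m g h : SL(2, ℝ)) : tr ((m * g * m⁻¹) * (m * h * m⁻¹) * (m * g * m⁻¹)⁻¹ *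
    (m * h * m⁻¹)⁻¹) = tr (g * h * g⁻¹ * h⁻¹) := by
  rw [← tr_conj m (g * h * g⁻¹ * h⁻¹)]
  congr 1
  group

lemma abs_tn_le {Γ : Subgroup SL(2, ℝ)} {ρ : Γ →* SL(2, ℝ)} (hρ : IsMarked Γ ρ) {γ : Γ}
    (hγ : 0 < len (γ : SL(2, ℝ))) {m : SL(2, ℝ)} (hm : Nrm γ ρ m) {β : Γ}
    (hl : link (ρ γ) (ρ β)) : |tn γ ρ m β| ≤ (len (ρ β) + len (ρ γ)) / len (ρ γ) := by
  have hℓ := hρ.len_pos hγ
  have h1 := hρ.surface.df.tr_comm_le ⟨γ, rfl⟩ ⟨β, rfl⟩ hl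
  have h2 : tr (dg (len (ρ γ)) * (m * ρ β * m⁻¹) * (dg (len (ρ γ)))⁻¹ * (m * ρ β * m⁻¹)⁻¹) ≤ -2 := by
    rw [← tr_comm_conj_aux m] at h1
    rcases hm with hm | hm
    · rwa [hm] at h1
    · rw [hm] at h1
      rw [show -dg (len (ρ γ)) * (m * ρ β * m⁻¹) * (-dg (len (ρ γ)))⁻¹ * (m * ρ β * m⁻¹)⁻¹
        = dg (len (ρ γ)) * (m * ρ β * m⁻¹) * (dg (len (ρ γ)))⁻¹ * (m * ρ β * m⁻¹)⁻¹ from by
          rw [inv_neg]; simp only [neg_mul, mul_neg, neg_neg]] at h1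
      exact h1
  have h3 := tw_le (len (ρ γ)) hℓ (m * ρ β * m⁻¹) ((nrm_link_iff hℓ hm β).1 hl) h2
  rw [len_conj] at h3
  rw [tn, abs_div, abs_of_pos hℓ]
  exact div_le_div_of_nonneg_right h3 hℓ.le

lemma len_pos_of_link_aux {Γ : Subgroup SL(2, ℝ)} {ρ : Γ →* SL(2, ℝ)} (hρ : IsMarked Γ ρ) {γ : Γ}
    (hγ : 0 < len (γ : SL(2, ℝ))) {m : SL(2, ℝ)} (hm : Nrm γ ρ m) {β : Γ}
    (hl : link (ρ γ) (ρ β)) : 0 < len (β : SL(2, ℝ)) := by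
  have h1 := (nrm_link_iff (hρ.len_pos hγ) hm β).1 hl
  have h2 : 2 < |tr (m * ρ β * m⁻¹)| := by
    set X := m * ρ β * m⁻¹ with hX
    have hdet := det_eq X
    rw [tr]
    by_contra hc
    push Not at hc
    have h3 : (X 0 0 + X 1 1) ^ 2 ≤ 2 ^ 2 := sq_le_sq' (abs_le.1 hc).1 (abs_le.1 hc).2
    nlinarith [sq_nonneg (X 0 0 - X 1 1)]
  have h3 : 0 < len (ρ β) := by
    rw [← len_conj m]; exact (len_pos_iff _).2 h2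
  refine lt_of_le_of_ne (len_nonneg _) ?_
  intro h
  exact h3.ne' ((hρ.type_preserving β).2 h.symm)

lemma neg_zpow_conj_aux (g X : SL(2, ℝ)) (k : ℤ) :
    (-g) ^ k * X * ((-g) ^ k)⁻¹ = g ^ k * X * (g ^ k)⁻¹ := by
  rcases Int.even_or_odd k with hk | hk
  · rw [hk.neg_zpow]
  · rw [hk.neg_zpow, inv_neg]; simp only [neg_mul, mul_neg, neg_neg]

lemma count_aux {Γ : Subgroup SL(2, ℝ)} {ρ : Γ →* SL(2, ℝ)} (hρ : IsMarked Γ ρ) {γ : Γ}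
    (hγ : 0 < len (γ : SL(2, ℝ))) {m : SL(2, ℝ)} (hm : Nrm γ ρ m) {β β' : Γ}
    (hl : link (ρ γ) (ρ β)) (hl' : link (ρ γ) (ρ β')) (S : Set ℤ)
    (hS : ∀ k : ℤ, k ∈ S ↔ link (ρ (γ ^ k * β * (γ ^ k)⁻¹)) (ρ β')) :
    abs ((S.ncard : ℝ) - |tn γ ρ m β - tn γ ρ m β'|) ≤ 1 := by
  have hℓ := hρ.len_pos hγ
  have h1 := (nrm_link_iff hℓ hm β).1 hl
  have h2 := (nrm_link_iff hℓ hm β').1 hl'
  have h3 := (count_link (len (ρ γ)) hℓ _ _ h1 h2 S (by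
    intro k
    rw [hS k, ← link_conj m]
    have h4 : m * ρ (γ ^ k * β * (γ ^ k)⁻¹) * m⁻¹ =
        (m * ρ γ * m⁻¹) ^ k * (m * ρ β * m⁻¹) * ((m * ρ γ * m⁻¹) ^ k)⁻¹ := by
      rw [conj_zpow]
      simp only [map_mul, map_inv, map_zpow]
      group
    have h5 : (m * ρ γ * m⁻¹) ^ k * (m * ρ β * m⁻¹) * ((m * ρ γ * m⁻¹) ^ k)⁻¹ =
        dg (len (ρ γ)) ^ k * (m * ρ β * m⁻¹) * (dg (len (ρ γ)) ^ k)⁻¹ := by
      rcases hm with hm | hm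
      · rw [hm]
      · rw [hm, neg_zpow_conj_aux]
    rw [h4, h5])).2
  have h6 : |tn γ ρ m β - tn γ ρ m β'| = |tw (m * ρ β' * m⁻¹) - tw (m * ρ β * m⁻¹)| / len (ρ γ) := by
    rw [tn, tn, ← sub_div, abs_div, abs_of_pos hℓ, abs_sub_comm]
  rw [h6]
  exact h3

lemma tn_compare {Γ : Subgroup SL(2, ℝ)} {ρ ρ' : Γ →* SL(2, ℝ)} (hρ : IsMarked Γ ρ)
    (hρ' : IsMarked Γ ρ') {γ : Γ} (hγ : 0 < len (γ : SL(2, ℝ))) {m m' : SL(2, ℝ)}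
    (hm : Nrm γ ρ m) (hm' : Nrm γ ρ' m') {β β' : Γ}
    (hl : link (ρ γ) (ρ β)) (hl' : link (ρ γ) (ρ β')) :
    |tn γ ρ m β - tn γ ρ m β'| ≤ |tn γ ρ' m' β - tn γ ρ' m' β'| + 2 := by
  have hb := len_pos_of_link_aux hρ hγ hm hl
  have hb' := len_pos_of_link_aux hρ hγ hm hl'
  have k1 := count_aux hρ hγ hm hl hl' {k : ℤ | link (ρ (γ ^ k * β * (γ ^ k)⁻¹)) (ρ β')}
    (fun k => Iff.rfl)
  have k2 := count_aux hρ' hγ hm' ((link_iff_of_marked hρ hρ' hγ hb).1 hl)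
    ((link_iff_of_marked hρ hρ' hγ hb').1 hl')
    {k : ℤ | link (ρ (γ ^ k * β * (γ ^ k)⁻¹)) (ρ β')} (fun k => by
      have hcoe : ((γ ^ k * β * (γ ^ k)⁻¹ : Γ) : SL(2, ℝ)) =
        ((γ ^ k : Γ) : SL(2, ℝ)) * β * ((γ ^ k : Γ) : SL(2, ℝ))⁻¹ := by simp
      have hpos : 0 < len ((γ ^ k * β * (γ ^ k)⁻¹ : Γ) : SL(2, ℝ)) := by
        rw [hcoe, len_conj]; exact hb
      exact link_iff_of_marked hρ hρ' hpos hb')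
  have h1 := abs_le.1 k1
  have h2 := abs_le.1 k2
  linarith [h1.1, h1.2, h2.1, h2.2]

end Pool.Agent.LengthSpec
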