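import Mathlib

open UpperHalfPlane MeasureTheory Set
open scoped MatrixGroups Manifold ENNReal Topology

namespace Pool.Agent.LengthSpec

/-- Tree lemma in terms of half-spaces (`st` = complement). If `b₁`, `b₂`, `b₁ b₂⁻¹` do not
translate any half-space, neither does `b₁ b₂`. -/
theorem tree_lemma {P G : Type*} [PartialOrder P] [Group G] [MulAction G P]
    (st : P → P) (st_st : ∀ H, st (st H) = H) (st_anti : ∀ H K, H ≤ K → st K ≤ st H)
    (smul_mono : ∀ (g : G) (H K : P), H ≤ K → g • H ≤ g • K)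
    (smul_st : ∀ (g : G) (H : P), g • st H = st (g • H))
    (nested : ∀ H K : P, H ≤ K ∨ K ≤ H ∨ H ≤ st K ∨ st H ≤ K)
    (fin : ∀ H K : P, {J | H ≤ J ∧ J ≤ K}.Finite)
    (noinv : ∀ (g : G) (H : P), g • H ≠ st H)
    (b₁ b₂ : G) (h₁ : ∀ H : P, ¬ b₁ • H < H) (h₂ : ∀ H : P, ¬ b₂ • H < H)
    (h₃ : ∀ H : P, ¬ (b₁ * b₂⁻¹) • H < H) : ∀ H : P, ¬ (b₁ * b₂) • H < H := by
  -- basic facts
  have smul_lt : ∀ (g : G) (H K : P), H < K → g • H < g • K := by
    intro g H K h
    refine lt_of_le_of_ne (smul_mono g H K h.le) ?_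
    intro he
    exact h.ne (MulAction.injective g he)
  have anti' : ∀ H K, H ≤ st K → K ≤ st H := by
    intro H K h
    have := st_anti _ _ h
    rwa [st_st] at this
  have anti'' : ∀ H K, st H ≤ K → st K ≤ H := by
    intro H K h
    have := st_anti _ _ h
    rwa [st_st] at this
  have tri : ∀ b : G, (∀ H : P, ¬ b • H < H) → ∀ K : P, b • K = K ∨ b • K ≤ st K ∨ st K ≤ b • K := by
    intro b hb K
    rcases nested (b • K) K with h | h | h | h
    · left
      by_contra hne
      exact hb K (lt_of_le_of_ne h hne)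
    · left
      by_contra hne
      have h1 : K < b • K := lt_of_le_of_ne h (Ne.symm hne)
      have h2 : b • st K < st K := by
        rw [smul_st]
        refine lt_of_le_of_ne (st_anti _ _ h) ?_
        intro he
        apply hne
        have := congrArg st he
        rwa [st_st, st_st] at this
      exact hb _ h2
    · right; left; exact h
    · right; right; exact anti'' _ _ h
  have cov_inv : ∀ (b : G) (K : P), st K ≤ b • K → st K ≤ b⁻¹ • K := by
    intro b K h
    have h1 := smul_mono b⁻¹ _ _ h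
    rw [inv_smul_smul, smul_st] at h1
    exact anti'' _ _ h1
  have dis_inv : ∀ (b : G) (K : P), b • K ≤ st K → b⁻¹ • K ≤ st K := by
    intro b K h
    have h1 := smul_mono b⁻¹ _ _ h
    rw [inv_smul_smul, smul_st] at h1
    exact anti' _ _ h1
  have final : ∀ Q : P, b₂⁻¹ • Q ≤ st Q → st Q ≤ b₁⁻¹ • Q → False := by
    intro Q hq1 hq2
    have h1 : b₁ • (b₂⁻¹ • Q) ≤ Q := by
      have := smul_mono b₁ _ _ (hq1.trans hq2)
      rwa [smul_inv_smul] at this
    have h2 : (b₁ * b₂⁻¹) • Q = Q := by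
      by_contra hne
      apply h₃ Q
      refine lt_of_le_of_ne ?_ hne
      rw [mul_smul]; exact h1
    have h3 : b₂⁻¹ • Q = b₁⁻¹ • Q := by
      rw [mul_smul] at h2
      rw [eq_inv_smul_iff]
      exact h2
    exact noinv b₂⁻¹ Q (le_antisymm hq1 (hq2.trans h3.ge))
  intro H hH
  set β : G := b₁ * b₂ with hβ
  set K : ℤ → P := fun m => β ^ m • H with hK
  have hKs : ∀ m, K (m + 1) = β • K m := by
    intro m
    show β ^ (m + 1) • H = β • (β ^ m • H)
    rw [← mul_smul, ← zpow_one_add, add_comm]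
  have hKlt : ∀ m, K (m + 1) < K m := by
    intro m
    have := smul_lt (β ^ m) _ _ hH
    rw [← mul_smul, ← zpow_add_one] at this
    exact this
  have hanti : StrictAnti K := by
    intro m n hmn
    obtain ⟨k, rfl⟩ : ∃ k : ℕ, n = m + 1 + k := ⟨(n - m - 1).toNat, by omega⟩
    clear hmn
    induction k with
    | zero => simpa using hKlt m
    | succ k ih =>
      refine lt_trans ?_ ih
      have := hKlt (m + 1 + k)
      have e : m + 1 + ((k + 1 : ℕ) : ℤ) = m + 1 + k + 1 := by push_cast; ring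
      rw [e]; exact this
  have hβlt : ∀ m, b₁ • (b₂ • K m) < K m := by
    intro m
    rw [← mul_smul, ← hβ, ← hKs]
    exact hKlt m
  have nf2 : ∀ m, b₂ • K m ≠ K m := by
    intro m he
    have := hβlt m
    rw [he] at this
    exact h₁ _ this
  have nf1 : ∀ m, b₁ • K m ≠ K m := by
    intro m he
    have h1 : b₁⁻¹ • K m = K m := by
      rw [inv_smul_eq_iff]; exact he.symm
    have h2 := smul_lt b₁⁻¹ _ _ (hβlt m)
    rw [inv_smul_smul, h1] at h2
    exact h₂ _ h2
  have cd : ∀ m, b₂ • K m ≤ st (K m) ∨ st (K m) ≤ b₂ • K m := by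
    intro m
    rcases tri b₂ h₂ (K m) with h | h
    · exact absurd h (nf2 m)
    · exact h
  -- some positive index is disjoint
  have hex1 : ∃ m, ¬ st (K m) ≤ b₂ • K m := by
    by_contra hcon
    push Not at hcon
    have hsub : (fun n : ℕ => st (K n)) '' Set.univ ⊆ {J | st (K 0) ≤ J ∧ J ≤ b₂ • K 0} := by
      rintro _ ⟨n, -, rfl⟩
      have h1 : K n ≤ K 0 := hanti.antitone (by omega)
      exact ⟨st_anti _ _ h1, (hcon n).trans (smul_mono _ _ _ h1)⟩
    have hinj : Function.Injective (fun n : ℕ => st (K n)) := by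
      intro a b hab
      have := congrArg st hab
      simp only [st_st] at this
      exact_mod_cast hanti.injective this
    exact (Set.infinite_univ.image hinj.injOn) ((fin _ _).subset hsub)
  have hex2 : ∃ m, st (K m) ≤ b₂ • K m := by
    by_contra hcon
    push Not at hcon
    have hd : ∀ m, b₂ • K m ≤ st (K m) := fun m => (cd m).resolve_right (hcon m)
    have hsub : (fun n : ℕ => st (K (-n))) '' Set.univ ⊆ {J | b₂ • K 0 ≤ J ∧ J ≤ st (K 0)} := by
      rintro _ ⟨n, -, rfl⟩
      have h1 : K 0 ≤ K (-n) := hanti.antitone (by omega)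
      exact ⟨(smul_mono _ _ _ h1).trans (hd _), st_anti _ _ h1⟩
    have hinj : Function.Injective (fun n : ℕ => st (K (-n))) := by
      intro a b hab
      have := congrArg st hab
      simp only [st_st] at this
      have h2 := hanti.injective this
      omega
    exact (Set.infinite_univ.image hinj.injOn) ((fin _ _).subset hsub)
  have hex : ∃ m, st (K m) ≤ b₂ • K m ∧ ¬ st (K (m + 1)) ≤ b₂ • K (m + 1) := by
    by_contra hcon
    push Not at hcon
    obtain ⟨m0, hm0⟩ := hex2
    obtain ⟨m1, hm1⟩ := hex1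
    have hup : ∀ k : ℕ, st (K (m0 + k)) ≤ b₂ • K (m0 + k) := by
      intro k
      induction k with
      | zero => simpa using hm0
      | succ k ih =>
        have := hcon _ ih
        have e : m0 + ((k + 1 : ℕ) : ℤ) = m0 + k + 1 := by push_cast; ring
        rw [e]; exact this
    apply hm1
    rcases le_total m0 m1 with h | h
    · obtain ⟨k, rfl⟩ : ∃ k : ℕ, m1 = m0 + k := ⟨(m1 - m0).toNat, by omega⟩
      exact hup k
    · have h1 : K m0 ≤ K m1 := hanti.antitone h
      exact (st_anti _ _ h1).trans (hm0.trans (smul_mono _ _ _ h1))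
  obtain ⟨m, hc, hnc⟩ := hex
  have hd : b₂ • K (m + 1) ≤ st (K (m + 1)) := (cd (m + 1)).resolve_right hnc
  have hJ : K (m + 1) = b₁ • (b₂ • K m) := by rw [hKs, hβ, mul_smul]
  have hJ2 : b₁⁻¹ • K (m + 1) = b₂ • K m := by rw [hJ, inv_smul_smul]
  rcases tri b₁ h₁ (K (m + 1)) with h | h | h
  · exact nf1 _ h
  · -- case (e)
    have e1 : b₁⁻¹ • K (m + 1) ≤ st (K (m + 1)) := dis_inv _ _ h
    rw [hJ2] at e1
    apply final (st (b₂ • K m))
    · rw [st_st, smul_st, inv_smul_smul]
      exact hc
    · apply cov_inv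
      rw [st_st, smul_st, ← hJ]
      exact e1
  · -- case (d)
    exact final _ (dis_inv _ _ hd) (cov_inv _ _ h)

end Pool.Agent.LengthSpec
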