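import Pool.Agent.LengthSpec.Fuchs2
import Pool.Agent.LengthSpec.Tree

open UpperHalfPlane MeasureTheory Set
open scoped MatrixGroups Manifold ENNReal Topology

namespace Pool.Agent.LengthSpec

/-! auxiliary -/

/-- sign form of the side function -/
noncomputable def Qf (g : SL(2, ℝ)) (z : ℍ) : ℝ :=
  (g 1 1 * z.re + -g 0 1) * (-g 1 0 * z.re + g 0 0) + g 1 1 * -g 1 0 * z.im ^ 2

/-- the element representing the half-plane `g • {σ re > 0}` -/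
noncomputable def hp (ℓ : ℝ) (g : SL(2, ℝ)) (σ : ℝ) : SL(2, ℝ) := g * dg (-(σ * ℓ)) * g⁻¹

lemma side_hp' {ℓ : ℝ} (g : SL(2, ℝ)) (σ : ℝ) (z : ℍ) :
    side (hp ℓ g σ) z = side (dg (-(σ * ℓ))) (g⁻¹ • z) := by
  rw [side_smul, inv_inv]; rfl

lemma side_hp {ℓ : ℝ} (hℓ : 0 < ℓ) (g : SL(2, ℝ)) {σ : ℝ} (hσ : σ = 1 ∨ σ = -1) (z : ℍ) :
    ∃ C : ℝ, 0 < C ∧ side (hp ℓ g σ) z = σ * Qf g z * C := by
  obtain ⟨h2, h3⟩ := smul_re_im g⁻¹ z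
  obtain ⟨i1, i2, i3, i4⟩ := inv_entries g
  have hd := den_pos g⁻¹ z
  have him := (g⁻¹ • z).im_pos
  set den := ((g⁻¹ 1 0 * z.re + g⁻¹ 1 1) ^ 2 + (g⁻¹ 1 0 * z.im) ^ 2) with hden
  refine ⟨2 * Real.sinh (ℓ / 2) / (den * (g⁻¹ • z).im), ?_, ?_⟩
  · have : 0 < Real.sinh (ℓ / 2) := Real.sinh_pos_iff.2 (by linarith)
    positivity
  · have h4 : (g⁻¹ • z).re = Qf g z / den := by
      rw [h2]
      congr 1
      rw [i1, i2, i3, i4]; rfl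
    have hs : Real.sinh (-(σ * ℓ) / 2) = - (σ * Real.sinh (ℓ / 2)) := by
      rcases hσ with rfl | rfl
      · rw [show -(1 * ℓ) / 2 = -(ℓ / 2) by ring, Real.sinh_neg]; ring
      · rw [show -(-1 * ℓ) / 2 = ℓ / 2 by ring]; ring
    rw [side_hp', side_dg, hs, h4]
    field_simp

/-- the order on half-planes -/
def sle (u v : SL(2, ℝ)) : Prop :=
  (∀ z, 0 < side u z → 0 < side v z) ∧ (∀ z, side v z < 0 → side u z < 0)

lemma sle_hp {ℓ : ℝ} (hℓ : 0 < ℓ) {g g' : SL(2, ℝ)} {σ σ' : ℝ} (hσ : σ = 1 ∨ σ = -1)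
    (hσ' : σ' = 1 ∨ σ' = -1) (h1 : ∀ z, 0 < σ * Qf g z → 0 < σ' * Qf g' z)
    (h2 : ∀ z, σ' * Qf g' z < 0 → σ * Qf g z < 0) : sle (hp ℓ g σ) (hp ℓ g' σ') := by
  constructor
  · intro z hz
    obtain ⟨C, hC, e⟩ := side_hp hℓ g hσ z
    obtain ⟨C', hC', e'⟩ := side_hp hℓ g' hσ' z
    rw [e] at hz
    rw [e']
    exact mul_pos (h1 z ((mul_pos_iff_of_pos_right hC).1 hz)) hC'
  · intro z hz
    obtain ⟨C, hC, e⟩ := side_hp hℓ g hσ z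
    obtain ⟨C', hC', e'⟩ := side_hp hℓ g' hσ' z
    rw [e'] at hz
    rw [e]
    have : σ' * Qf g' z < 0 := by
      by_contra hcon
      push Not at hcon
      have := mul_nonneg hcon hC'.le
      linarith
    exact mul_neg_of_neg_of_pos (h2 z this) hC

lemma hp_inv (ℓ : ℝ) (g : SL(2, ℝ)) (σ : ℝ) : (hp ℓ g σ)⁻¹ = hp ℓ g (-σ) := by
  unfold hp
  rw [mul_inv_rev, mul_inv_rev, inv_inv, dg_inv, ← mul_assoc]
  congr 3
  ring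

lemma hp_conj (ℓ : ℝ) (h g : SL(2, ℝ)) (σ : ℝ) : h * hp ℓ g σ * h⁻¹ = hp ℓ (h * g) σ := by
  unfold hp
  rw [mul_inv_rev]
  simp only [mul_assoc]

lemma sle_conj {u v : SL(2, ℝ)} (h : SL(2, ℝ)) (huv : sle u v) :
    sle (h * u * h⁻¹) (h * v * h⁻¹) := by
  have e : ∀ (w : SL(2, ℝ)) (z : ℍ), side (h * w * h⁻¹) z = side w (h⁻¹ • z) := by
    intro w z
    rw [side_smul, inv_inv]
  constructor
  · intro z hz
    rw [e] at hz ⊢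
    exact huv.1 _ hz
  · intro z hz
    rw [e] at hz ⊢
    exact huv.2 _ hz

lemma sle_inv {u v : SL(2, ℝ)} (huv : sle u v) : sle v⁻¹ u⁻¹ := by
  constructor
  · intro z hz
    rw [side_inv] at hz ⊢
    have := huv.2 z (by linarith)
    linarith
  · intro z hz
    rw [side_inv] at hz ⊢
    have := huv.1 z (by linarith)
    linarith

lemma Qf_one (z : ℍ) : Qf 1 z = z.re := by
  obtain ⟨h1, h2, h3, h4⟩ := one_entries
  unfold Qf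
  rw [h1, h2, h3, h4]; ring

lemma Qf_eq (g : SL(2, ℝ)) (z : ℍ) : Qf g z = -(g 1 0 * g 1 1) * (z.re ^ 2 + z.im ^ 2) +
    (1 + 2 * (g 0 1 * g 1 0)) * z.re - g 0 0 * g 0 1 := by
  have hdet := det_eq g
  unfold Qf
  linear_combination z.re * hdet

/-- the data of a non diagonal element -/
lemma nondiag {g : SL(2, ℝ)} (h : 0 < g 0 1 * g 1 0 ∨ g 0 1 * g 1 0 < -1) :
    ∃ s τ : ℝ, (s = 1 ∨ s = -1) ∧ (τ = 1 ∨ τ = -1) ∧ (τ = 1 ↔ 0 < g 0 1 * g 1 0) ∧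
      (∀ z, 0 < s * Qf g z → 0 < s * τ * z.re) ∧ (∀ z, s * τ * z.re < 0 → s * Qf g z < 0) ∧
      (∀ z, z.re = 0 → s * Qf g z < 0) := by
  have hdet := det_eq g
  have hAC : 0 < (g 0 0 * g 0 1) * (g 1 0 * g 1 1) := by
    have e : (g 0 0 * g 0 1) * (g 1 0 * g 1 1) = (1 + g 0 1 * g 1 0) * (g 0 1 * g 1 0) := by
      linear_combination (g 0 1 * g 1 0) * hdet
    rw [e]
    rcases h with h | h
    · exact mul_pos (by linarith) h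
    · exact mul_pos_of_neg_of_neg (by linarith) (by linarith)
  -- sign of C
  obtain ⟨s, hs, hsC, hsA⟩ : ∃ s : ℝ, (s = 1 ∨ s = -1) ∧ 0 < s * (g 1 0 * g 1 1) ∧
      0 < s * (g 0 0 * g 0 1) := by
    rcases lt_trichotomy (g 1 0 * g 1 1) 0 with hC | hC | hC
    · refine ⟨-1, Or.inr rfl, by linarith, ?_⟩
      have : g 0 0 * g 0 1 < 0 := by
        by_contra hcon
        push Not at hcon
        have := mul_nonpos_of_nonneg_of_nonpos hcon hC.le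
        linarith
      linarith
    · rw [hC, mul_zero] at hAC
      exact absurd hAC (lt_irrefl _)
    · refine ⟨1, Or.inl rfl, by linarith, ?_⟩
      have : 0 < g 0 0 * g 0 1 := (pos_iff_pos_of_mul_pos hAC).2 hC
      linarith
  obtain ⟨τ, hτ, hτ1, hτt⟩ : ∃ τ : ℝ, (τ = 1 ∨ τ = -1) ∧ (τ = 1 ↔ 0 < g 0 1 * g 1 0) ∧
      0 < τ * (1 + 2 * (g 0 1 * g 1 0)) := by
    rcases h with h | h
    · exact ⟨1, Or.inl rfl, ⟨fun _ => h, fun _ => rfl⟩, by linarith⟩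
    · refine ⟨-1, Or.inr rfl, ⟨fun h' => ?_, fun h' => ?_⟩, by linarith⟩
      · norm_num at h'
      · linarith
  have hττ : τ * τ = 1 := by rcases hτ with rfl | rfl <;> norm_num
  -- s * Q = - N + s t x
  have hQ : ∀ z : ℍ, s * Qf g z + (s * (g 1 0 * g 1 1) * (z.re ^ 2 + z.im ^ 2) +
      s * (g 0 0 * g 0 1)) = (s * τ * z.re) * (τ * (1 + 2 * (g 0 1 * g 1 0))) := by
    intro z
    rw [Qf_eq]
    have : (s * τ * z.re) * (τ * (1 + 2 * (g 0 1 * g 1 0))) =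
      (τ * τ) * (s * z.re * (1 + 2 * (g 0 1 * g 1 0))) := by ring
    rw [this, hττ]
    ring
  have hN : ∀ z : ℍ, 0 < s * (g 1 0 * g 1 1) * (z.re ^ 2 + z.im ^ 2) + s * (g 0 0 * g 0 1) := by
    intro z
    have := z.im_pos
    positivity
  refine ⟨s, τ, hs, hτ, hτ1, ?_, ?_, ?_⟩
  · intro z hz
    have h1 := hQ z
    have h2 := hN z
    have h3 : 0 < (s * τ * z.re) * (τ * (1 + 2 * (g 0 1 * g 1 0))) := by linarith
    exact (mul_pos_iff_of_pos_right hτt).1 h3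
  · intro z hz
    have h1 := hQ z
    have h2 := hN z
    have h3 : (s * τ * z.re) * (τ * (1 + 2 * (g 0 1 * g 1 0))) < 0 :=
      mul_neg_of_neg_of_pos hz hτt
    linarith
  · intro z hz
    have h1 := hQ z
    have h2 := hN z
    rw [hz, mul_zero, zero_mul] at h1
    rw [hz] at h2
    linarith

lemma neg_iff_mul {a C : ℝ} (hC : 0 < C) : a * C < 0 ↔ a < 0 := by
  constructor
  · intro h
    by_contra hcon
    push Not at hcon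
    have := mul_nonneg hcon hC.le
    linarith
  · intro h
    exact mul_neg_of_neg_of_pos h hC

lemma pm_cases {s σ : ℝ} (hs : s = 1 ∨ s = -1) (hσ : σ = 1 ∨ σ = -1) : σ = s ∨ σ = -s := by
  rcases hs with rfl | rfl <;> rcases hσ with rfl | rfl <;> norm_num

lemma pm_mul {s σ : ℝ} (hs : s = 1 ∨ s = -1) (hσ : σ = 1 ∨ σ = -1) :
    s * σ = 1 ∨ s * σ = -1 := by
  rcases hs with rfl | rfl <;> rcases hσ with rfl | rfl <;> norm_num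

lemma pm_neg {s : ℝ} (hs : s = 1 ∨ s = -1) : -s = 1 ∨ -s = -1 := by
  rcases hs with rfl | rfl <;> norm_num

lemma Qf_diag {g : SL(2, ℝ)} (h1 : g 0 1 = 0) (h2 : g 1 0 = 0) (z : ℍ) : Qf g z = z.re := by
  rw [Qf_eq, h1, h2]; ring

lemma nested1 {ℓ : ℝ} (hℓ : 0 < ℓ) {g : SL(2, ℝ)}
    (htri : (g 0 1 = 0 ∧ g 1 0 = 0) ∨ 0 < g 0 1 * g 1 0 ∨ g 0 1 * g 1 0 < -1)
    {σ σ' : ℝ} (hσ : σ = 1 ∨ σ = -1) (hσ' : σ' = 1 ∨ σ' = -1) :
    sle (hp ℓ g σ) (hp ℓ 1 σ') ∨ sle (hp ℓ 1 σ') (hp ℓ g σ) ∨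
    sle (hp ℓ g σ) (hp ℓ 1 (-σ')) ∨ sle (hp ℓ g (-σ)) (hp ℓ 1 σ') := by
  rcases htri with ⟨h1, h2⟩ | h
  · rcases pm_cases hσ' hσ with rfl | h
    · left
      apply sle_hp hℓ hσ hσ'
      · intro z hz; rwa [Qf_diag h1 h2, ← Qf_one] at hz
      · intro z hz; rwa [Qf_diag h1 h2, ← Qf_one]
    · right; right; left
      rw [← h]
      apply sle_hp hℓ hσ hσ
      · intro z hz; rwa [Qf_diag h1 h2, ← Qf_one] at hz
      · intro z hz; rwa [Qf_diag h1 h2, ← Qf_one]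
  · obtain ⟨s, τ, hs, hτ, -, F1, F2, -⟩ := nondiag h
    have hsτ := pm_mul hs hτ
    have F1' : ∀ z : ℍ, 0 < s * Qf g z → 0 < s * τ * Qf 1 z := by
      intro z hz; rw [Qf_one]; exact F1 z hz
    have F2' : ∀ z : ℍ, s * τ * Qf 1 z < 0 → s * Qf g z < 0 := by
      intro z hz; rw [Qf_one] at hz; exact F2 z hz
    rcases pm_cases hs hσ with rfl | rfl
    · rcases pm_cases hsτ hσ' with rfl | rfl
      · left
        exact sle_hp hℓ hσ hσ' F1' F2'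
      · right; right; left
        rw [neg_neg]
        exact sle_hp hℓ hσ hsτ F1' F2'
    · rcases pm_cases hsτ hσ' with rfl | rfl
      · right; right; right
        rw [neg_neg]
        exact sle_hp hℓ hs hσ' F1' F2'
      · right; left
        apply sle_hp hℓ hσ' hσ
        · intro z hz
          have := F2' z (by linarith)
          linarith
        · intro z hz
          have := F1' z (by linarith)
          linarith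

/-- the set of half-planes -/
def HP (Δ : Subgroup SL(2, ℝ)) (ℓ : ℝ) : Type :=
  {u : SL(2, ℝ) // ∃ g ∈ Δ, ∃ σ : ℝ, (σ = 1 ∨ σ = -1) ∧ u = hp ℓ g σ}

lemma sle_antisymm1 {ℓ : ℝ} (hℓ : 0 < ℓ) {g : SL(2, ℝ)}
    (htri : (g 0 1 = 0 ∧ g 1 0 = 0) ∨ 0 < g 0 1 * g 1 0 ∨ g 0 1 * g 1 0 < -1)
    {σ σ' : ℝ} (hσ : σ = 1 ∨ σ = -1) (hσ' : σ' = 1 ∨ σ' = -1)
    (h1 : sle (hp ℓ g σ) (hp ℓ 1 σ')) (h2 : sle (hp ℓ 1 σ') (hp ℓ g σ)) :
    hp ℓ g σ = hp ℓ 1 σ' := by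
  -- signs agree
  have hpos : ∀ z, 0 < σ * Qf g z ↔ 0 < σ' * z.re := by
    intro z
    obtain ⟨C, hC, e⟩ := side_hp hℓ g hσ z
    obtain ⟨C', hC', e'⟩ := side_hp hℓ 1 hσ' z
    rw [Qf_one] at e'
    have a1 := h1.1 z
    have a2 := h2.1 z
    rw [e, e', mul_pos_iff_of_pos_right hC, mul_pos_iff_of_pos_right hC'] at a1 a2
    exact ⟨a1, a2⟩
  rcases htri with ⟨g1, g2⟩ | h
  · have hσσ : σ = σ' := by
      rcases pm_cases hσ' hσ with h | h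
      · exact h
      · exfalso
        have hp1 := hpos (⟨⟨σ', 1⟩, one_pos⟩ : ℍ)
        rw [Qf_diag g1 g2] at hp1
        have hre : (⟨⟨σ', 1⟩, one_pos⟩ : ℍ).re = σ' := rfl
        rw [hre, h] at hp1
        have hsq : σ' * σ' = 1 := by rcases hσ' with rfl | rfl <;> norm_num
        have := hp1.2 (by rw [hsq]; norm_num)
        linarith
    subst hσσ
    unfold hp
    have hcomm : g * dg (-(σ * ℓ)) = dg (-(σ * ℓ)) * g := by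
      obtain ⟨d1, d2, d3, d4⟩ := dg_entries (-(σ * ℓ))
      obtain ⟨m1, m2, m3, m4⟩ := mul_entries g (dg (-(σ * ℓ)))
      obtain ⟨n1, n2, n3, n4⟩ := mul_entries (dg (-(σ * ℓ))) g
      apply ext4
      · rw [m1, n1, d2, d3]; ring
      · rw [m2, n2, d2, g1]; ring
      · rw [m3, n3, d3, g2]; ring
      · rw [m4, n4, d2, d3]; ring
    rw [hcomm, mul_inv_cancel_right]
    simp
  · exfalso
    obtain ⟨s, τ, hs, hτ, -, F1, F2, F3⟩ := nondiag h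
    -- at I both zero: but s Q < 0
    have hneg : ∀ z, σ * Qf g z < 0 ↔ σ' * z.re < 0 := by
      intro z
      obtain ⟨C, hC, e⟩ := side_hp hℓ g hσ z
      obtain ⟨C', hC', e'⟩ := side_hp hℓ 1 hσ' z
      rw [Qf_one] at e'
      have a1 := h1.2 z
      have a2 := h2.2 z
      rw [e, e', neg_iff_mul hC, neg_iff_mul hC'] at a1 a2
      exact ⟨a2, a1⟩
    have hre : (UpperHalfPlane.I : ℍ).re = 0 := UpperHalfPlane.I_re
    have h3 := F3 UpperHalfPlane.I hre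
    have h4 := hpos UpperHalfPlane.I
    have h5 := hneg UpperHalfPlane.I
    rw [hre, mul_zero] at h4 h5
    rcases pm_cases hs hσ with rfl | rfl
    · exact absurd (h5.1 h3) (lt_irrefl _)
    · exact absurd (h4.1 (by linarith)) (lt_irrefl _)

/-- the partial order on half-planes -/
@[reducible] def HP.po {Δ : Subgroup SL(2, ℝ)} {ℓ : ℝ} (hℓ : 0 < ℓ)
    (htri : ∀ g ∈ Δ, (g 0 1 = 0 ∧ g 1 0 = 0) ∨ 0 < g 0 1 * g 1 0 ∨ g 0 1 * g 1 0 < -1) :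
    PartialOrder (HP Δ ℓ) where
  le u v := sle u.1 v.1
  le_refl u := ⟨fun _ h => h, fun _ h => h⟩
  le_trans u v w h1 h2 := ⟨fun z h => h2.1 z (h1.1 z h), fun z h => h1.2 z (h2.2 z h)⟩
  le_antisymm := by
    rintro ⟨u, g, hg, σ, hσ, rfl⟩ ⟨v, g', hg', σ', hσ', rfl⟩ h1 h2
    apply Subtype.ext
    show hp ℓ g σ = hp ℓ g' σ'
    have k1 := sle_conj g'⁻¹ h1
    have k2 := sle_conj g'⁻¹ h2
    simp only [hp_conj, inv_mul_cancel] at k1 k2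
    have := sle_antisymm1 hℓ (htri _ (mul_mem (inv_mem hg') hg)) hσ hσ' k1 k2
    have e := congrArg (fun x => g' * x * g'⁻¹) this
    simp only [hp_conj, mul_one, mul_inv_cancel_left] at e
    exact e

/-- the action on half-planes -/
@[reducible] def HP.act (Δ : Subgroup SL(2, ℝ)) (ℓ : ℝ) : MulAction Δ (HP Δ ℓ) where
  smul h u := ⟨h.1 * u.1 * h.1⁻¹, by
    obtain ⟨g, hg, σ, hσ, e⟩ := u.2
    exact ⟨h.1 * g, mul_mem h.2 hg, σ, hσ, by rw [e, hp_conj]⟩⟩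
  one_smul u := by
    apply Subtype.ext
    show (1 : SL(2, ℝ)) * u.1 * (1 : SL(2, ℝ))⁻¹ = u.1
    simp
  mul_smul h k u := by
    apply Subtype.ext
    show (h.1 * k.1) * u.1 * (h.1 * k.1)⁻¹ = h.1 * (k.1 * u.1 * k.1⁻¹) * h.1⁻¹
    group

/-- complement -/
noncomputable def HP.st {Δ : Subgroup SL(2, ℝ)} {ℓ : ℝ} (u : HP Δ ℓ) : HP Δ ℓ :=
  ⟨u.1⁻¹, by
    obtain ⟨g, hg, σ, hσ, e⟩ := u.2
    exact ⟨g, hg, -σ, pm_neg hσ, by rw [e, hp_inv]⟩⟩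

lemma gam {Δ : Subgroup SL(2, ℝ)} {ℓ : ℝ} (hdg : dg ℓ ∈ Δ ∨ - dg ℓ ∈ Δ) (n : ℤ) :
    ∃ k ∈ Δ, k = dg (n * ℓ) ∨ k = - dg (n * ℓ) := by
  rcases hdg with h | h
  · exact ⟨dg ℓ ^ n, zpow_mem h n, Or.inl (dg_zpow ℓ n)⟩
  · refine ⟨(- dg ℓ) ^ n, zpow_mem h n, ?_⟩
    rcases Int.even_or_odd n with hn | hn
    · left; rw [hn.neg_zpow, dg_zpow]
    · right; rw [hn.neg_zpow, dg_zpow]

lemma fin_interval {Δ : Subgroup SL(2, ℝ)} (hΔ : DF Δ) {ℓ : ℝ} (hℓ : 0 < ℓ)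
    (hdg : dg ℓ ∈ Δ ∨ - dg ℓ ∈ Δ) {g₁ g₂ : SL(2, ℝ)} {σ₁ σ₂ : ℝ}
    (hσ₁ : σ₁ = 1 ∨ σ₁ = -1) (hσ₂ : σ₂ = 1 ∨ σ₂ = -1) :
    {u : SL(2, ℝ) | (∃ g ∈ Δ, ∃ σ : ℝ, (σ = 1 ∨ σ = -1) ∧ u = hp ℓ g σ) ∧
      sle (hp ℓ g₁ σ₁) u ∧ sle u (hp ℓ g₂ σ₂)}.Finite := by
  have hsinh : 0 < Real.sinh (ℓ / 2) := Real.sinh_pos_iff.2 (by linarith)
  have hsg : ∀ (g : SL(2, ℝ)) (σ : ℝ), (σ = 1 ∨ σ = -1) → ∀ w : ℍ,
      side (hp ℓ g σ) (g • w) = σ * (2 * Real.sinh (ℓ / 2)) * (w.re / w.im) := by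
    intro g σ hσ w
    have e : side (hp ℓ g σ) (g • w) = side (dg (-(σ * ℓ))) w := side_conj g _ w
    rw [e, side_dg]
    have hs : Real.sinh (-(σ * ℓ) / 2) = - (σ * Real.sinh (ℓ / 2)) := by
      rcases hσ with rfl | rfl
      · rw [show -(1 * ℓ) / 2 = -(ℓ / 2) by ring, Real.sinh_neg]; ring
      · rw [show -(-1 * ℓ) / 2 = ℓ / 2 by ring]; ring
    rw [hs]; ring
  -- p and q
  have hp0 : ∃ p, 0 < side (hp ℓ g₁ σ₁) p := by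
    refine ⟨g₁ • (⟨⟨σ₁, 1⟩, one_pos⟩ : ℍ), ?_⟩
    rw [hsg g₁ σ₁ hσ₁]
    have hre : (⟨⟨σ₁, 1⟩, one_pos⟩ : ℍ).re = σ₁ := rfl
    have him : (⟨⟨σ₁, 1⟩, one_pos⟩ : ℍ).im = 1 := rfl
    have hsq : σ₁ * σ₁ = 1 := by rcases hσ₁ with rfl | rfl <;> norm_num
    rw [hre, him, div_one]
    have : σ₁ * (2 * Real.sinh (ℓ / 2)) * σ₁ = 2 * Real.sinh (ℓ / 2) := by
      linear_combination (2 * Real.sinh (ℓ / 2)) * hsq
    rw [this]; positivity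
  have hq0 : ∃ q, side (hp ℓ g₂ σ₂) q < 0 := by
    refine ⟨g₂ • (⟨⟨-σ₂, 1⟩, one_pos⟩ : ℍ), ?_⟩
    rw [hsg g₂ σ₂ hσ₂]
    have hre : (⟨⟨-σ₂, 1⟩, one_pos⟩ : ℍ).re = -σ₂ := rfl
    have him : (⟨⟨-σ₂, 1⟩, one_pos⟩ : ℍ).im = 1 := rfl
    have hsq : σ₂ * σ₂ = 1 := by rcases hσ₂ with rfl | rfl <;> norm_num
    rw [hre, him, div_one]
    have : σ₂ * (2 * Real.sinh (ℓ / 2)) * -σ₂ = -(2 * Real.sinh (ℓ / 2)) := by
      linear_combination -(2 * Real.sinh (ℓ / 2)) * hsq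
    rw [this]
    linarith
  obtain ⟨p, hp1⟩ := hp0
  obtain ⟨q, hq1⟩ := hq0
  set γ := (PathConnectedSpace.joined p q).somePath with hγ
  have hScomp : IsCompact (Set.range γ) := isCompact_range γ.continuous
  have hSconn : IsPreconnected (Set.range γ) := isPreconnected_range γ.continuous
  have hpS : p ∈ Set.range γ := ⟨0, γ.source⟩
  have hqS : q ∈ Set.range γ := ⟨1, γ.target⟩
  set K' : Set ℍ := Set.range γ ∪ Metric.closedBall UpperHalfPlane.I ℓ with hK'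
  have hK'c : IsCompact K' := hScomp.union (isCompact_closedBall _ _)
  have hfin := hΔ.finite' K' hK'c
  refine ((hfin.image (fun f => f⁻¹ * dg (-(1 * ℓ)) * f)).union
    (hfin.image (fun f => f⁻¹ * dg (-(-1 * ℓ)) * f))).subset ?_
  rintro u ⟨⟨g, hg, σ, hσ, rfl⟩, hu1, hu2⟩
  have h1 := hu1.1 p hp1
  have h2 := hu2.2 q hq1
  obtain ⟨z, hzS, hz0⟩ : ∃ z ∈ Set.range γ, side (hp ℓ g σ) z = 0 := by
    have := hSconn.intermediate_value hqS hpS (continuous_side (hp ℓ g σ)).continuousOn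
    obtain ⟨z, hz, hz0⟩ := this ⟨h2.le, h1.le⟩
    exact ⟨z, hz, hz0⟩
  set w := g⁻¹ • z with hw
  have hgw : z = g • w := by rw [hw, smul_inv_smul]
  have hwre : w.re = 0 := by
    rw [hgw, hsg g σ hσ w] at hz0
    have hσ0 : σ ≠ 0 := by rcases hσ with rfl | rfl <;> norm_num
    have h3 : w.re / w.im = 0 := by
      rcases mul_eq_zero.1 hz0 with h | h
      · rcases mul_eq_zero.1 h with h | h
        · exact absurd h hσ0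
        · linarith
      · exact h
    rcases div_eq_zero_iff.1 h3 with h | h
    · exact h
    · exact absurd h w.im_pos.ne'
  -- normalise
  obtain ⟨k, hk, hkd⟩ := gam hdg ⌊Real.log w.im / ℓ⌋
  set n := ⌊Real.log w.im / ℓ⌋ with hn
  have hn1 : (n : ℝ) * ℓ ≤ Real.log w.im := by
    have := Int.floor_le (Real.log w.im / ℓ)
    rwa [le_div_iff₀ hℓ] at this
  have hn2 : Real.log w.im < ((n : ℝ) + 1) * ℓ := by
    have := Int.lt_floor_add_one (Real.log w.im / ℓ)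
    rwa [div_lt_iff₀ hℓ] at this
  have hkinv : ∀ v : ℍ, k⁻¹ • v = dg (-(n * ℓ)) • v := by
    intro v
    rcases hkd with h | h
    · rw [h, dg_inv]
    · rw [h]
      have : (- dg (n * ℓ))⁻¹ = - dg (-(n * ℓ)) := by
        rw [inv_neg, dg_inv]
      rw [this, neg_smul']
  have hkcomm : k * dg (-(σ * ℓ)) * k⁻¹ = dg (-(σ * ℓ)) := by
    have hc : dg (n * ℓ) * dg (-(σ * ℓ)) = dg (-(σ * ℓ)) * dg (n * ℓ) := by
      rw [← dg_add, ← dg_add, add_comm]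
    rcases hkd with h | h
    · rw [h, hc, mul_inv_cancel_right]
    · rw [h, neg_mul, hc, ← mul_neg, mul_inv_cancel_right]
  have hmem : (g * k)⁻¹ ∈ {g : SL(2, ℝ) | g ∈ Δ ∧ ∃ z ∈ K', g • z ∈ K'} := by
    refine ⟨inv_mem (mul_mem hg hk), z, Or.inl hzS, Or.inr ?_⟩
    rw [mul_inv_rev, mul_smul, ← hw, hkinv, Metric.mem_closedBall]
    obtain ⟨r1, r2⟩ := dg_re_im (-(n * ℓ)) w
    have hre : (dg (-(n * ℓ)) • w).re = (UpperHalfPlane.I : ℍ).re := by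
      rw [r1, hwre, mul_zero, UpperHalfPlane.I_re]
    rw [UpperHalfPlane.dist_of_re_eq hre, r2, UpperHalfPlane.I_im, Real.log_one,
      Real.log_mul (Real.exp_ne_zero _) w.im_pos.ne', Real.log_exp, Real.dist_eq, sub_zero, abs_le]
    constructor <;> linarith
  have hu : hp ℓ g σ = ((g * k)⁻¹)⁻¹ * dg (-(σ * ℓ)) * (g * k)⁻¹ := by
    rw [inv_inv, mul_inv_rev]
    have : g * k * dg (-(σ * ℓ)) * (k⁻¹ * g⁻¹) = g * (k * dg (-(σ * ℓ)) * k⁻¹) * g⁻¹ := by group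
    rw [this, hkcomm]; rfl
  rcases hσ with rfl | rfl
  · left
    exact ⟨(g * k)⁻¹, hmem, hu.symm⟩
  · right
    exact ⟨(g * k)⁻¹, hmem, hu.symm⟩

lemma noinv_aux {ℓ : ℝ} (hℓ : 0 < ℓ) {k : SL(2, ℝ)}
    (htri : (k 0 1 = 0 ∧ k 1 0 = 0) ∨ 0 < k 0 1 * k 1 0 ∨ k 0 1 * k 1 0 < -1)
    {σ : ℝ} (hσ : σ = 1 ∨ σ = -1) (h : hp ℓ k σ = hp ℓ 1 (-σ)) : False := by
  have h1 : k * dg (-(σ * ℓ)) = dg (-(-σ * ℓ)) * k := by
    have h2 : k * dg (-(σ * ℓ)) * k⁻¹ = dg (-(-σ * ℓ)) := by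
      have : hp ℓ 1 (-σ) = dg (-(-σ * ℓ)) := by unfold hp; simp
      rw [← this, ← h]; rfl
    rw [← h2]; group
  obtain ⟨d1, d2, d3, d4⟩ := dg_entries (-(σ * ℓ))
  obtain ⟨c1, c2, c3, c4⟩ := dg_entries (-(-σ * ℓ))
  obtain ⟨m1, m2, m3, m4⟩ := mul_entries k (dg (-(σ * ℓ)))
  obtain ⟨n1, n2, n3, n4⟩ := mul_entries (dg (-(-σ * ℓ))) k
  have e1 : k 0 0 * Real.exp (-(σ * ℓ) / 2) = Real.exp (-(-σ * ℓ) / 2) * k 0 0 := by
    have : (k * dg (-(σ * ℓ))) 0 0 = (dg (-(-σ * ℓ)) * k) 0 0 := by rw [h1]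
    rw [m1, n1, d1, d3, c1, c2] at this
    linarith
  have e2 : k 1 1 * Real.exp (-(-(σ * ℓ) / 2)) = Real.exp (-(-(-σ * ℓ) / 2)) * k 1 1 := by
    have : (k * dg (-(σ * ℓ))) 1 1 = (dg (-(-σ * ℓ)) * k) 1 1 := by rw [h1]
    rw [m4, n4, d2, d4, c3, c4] at this
    linarith
  have hne : -(σ * ℓ) / 2 ≠ -(-σ * ℓ) / 2 := by
    rcases hσ with rfl | rfl
    · intro h; linarith
    · intro h; linarith
  have hexp : Real.exp (-(σ * ℓ) / 2) ≠ Real.exp (-(-σ * ℓ) / 2) :=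
    fun h => hne (Real.exp_injective h)
  have hexp' : Real.exp (-(-(σ * ℓ) / 2)) ≠ Real.exp (-(-(-σ * ℓ) / 2)) :=
    fun h => hne (neg_injective (Real.exp_injective h))
  have k00 : k 0 0 = 0 := by
    have : k 0 0 * (Real.exp (-(σ * ℓ) / 2) - Real.exp (-(-σ * ℓ) / 2)) = 0 := by linarith
    rcases mul_eq_zero.1 this with h | h
    · exact h
    · exact absurd (sub_eq_zero.1 h) hexp
  have k11 : k 1 1 = 0 := by
    have : k 1 1 * (Real.exp (-(-(σ * ℓ) / 2)) - Real.exp (-(-(-σ * ℓ) / 2))) = 0 := by linarith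
    rcases mul_eq_zero.1 this with h | h
    · exact h
    · exact absurd (sub_eq_zero.1 h) hexp'
  have hdet := det_eq k
  rw [k00, k11] at hdet
  rcases htri with ⟨a1, a2⟩ | h' | h'
  · rw [a1, a2] at hdet; norm_num at hdet
  · linarith
  · linarith

lemma dirB_aux {Δ : Subgroup SL(2, ℝ)} {ℓ : ℝ} (hℓ : 0 < ℓ)
    (htri : ∀ g ∈ Δ, (g 0 1 = 0 ∧ g 1 0 = 0) ∨ 0 < g 0 1 * g 1 0 ∨ g 0 1 * g 1 0 < -1)
    {b k : SL(2, ℝ)} (hb : b ∈ Δ) (hk : k ∈ Δ) {σ : ℝ} (hσ : σ = 1 ∨ σ = -1)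
    (hH : sle (b * hp ℓ k σ * b⁻¹) (hp ℓ k σ)) (hne : b * hp ℓ k σ * b⁻¹ ≠ hp ℓ k σ) :
    ∃ k ∈ Δ, 0 < (k * b * k⁻¹) 0 1 * (k * b * k⁻¹) 1 0 := by
  set x := k⁻¹ * b * k with hx
  have hxΔ : x ∈ Δ := mul_mem (mul_mem (inv_mem hk) hb) hk
  have hle : sle (hp ℓ x σ) (hp ℓ 1 σ) := by
    have h2 := sle_conj k⁻¹ hH
    simp only [hp_conj, inv_mul_cancel, ← mul_assoc] at h2
    exact h2
  refine ⟨k⁻¹, inv_mem hk, ?_⟩
  rw [inv_inv, ← hx]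
  rcases htri x hxΔ with ⟨h1, h2⟩ | h | h
  · exfalso
    apply hne
    have h3 : sle (hp ℓ 1 σ) (hp ℓ x σ) := by
      apply sle_hp hℓ hσ hσ
      · intro z hz; rwa [Qf_diag h1 h2, ← Qf_one]
      · intro z hz; rwa [Qf_diag h1 h2, ← Qf_one] at hz
    have h4 := sle_antisymm1 hℓ (htri x hxΔ) hσ hσ hle h3
    have h5 := congrArg (fun y => k * y * k⁻¹) h4
    simp only [hp_conj, mul_one] at h5
    rw [hp_conj, ← h5, hx]
    congr 1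
    group
  · exact h
  · exfalso
    obtain ⟨s, τ, hs, hτ, hτ1, F1, F2, F3⟩ := nondiag (Or.inr h)
    have hτ' : τ = -1 := by
      rcases hτ with h' | h'
      · have := hτ1.1 h'
        linarith
      · exact h'
    subst hτ'
    have hpos : ∀ z, 0 < σ * Qf x z → 0 < σ * z.re := by
      intro z hz
      obtain ⟨C, hC, e⟩ := side_hp hℓ x hσ z
      obtain ⟨C', hC', e'⟩ := side_hp hℓ 1 hσ z
      rw [Qf_one] at e'
      have a1 := hle.1 z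
      rw [e, e', mul_pos_iff_of_pos_right hC, mul_pos_iff_of_pos_right hC'] at a1
      exact a1 hz
    have hneg : ∀ z, σ * z.re < 0 → σ * Qf x z < 0 := by
      intro z hz
      obtain ⟨C, hC, e⟩ := side_hp hℓ x hσ z
      obtain ⟨C', hC', e'⟩ := side_hp hℓ 1 hσ z
      rw [Qf_one] at e'
      have a1 := hle.2 z
      rw [e, e', neg_iff_mul hC, neg_iff_mul hC'] at a1
      exact a1 hz
    rcases pm_cases hs hσ with rfl | rfl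
    · -- {σ Q > 0} is nonempty
      have h6 : side (hp ℓ x σ) (x • (⟨⟨σ, 1⟩, one_pos⟩ : ℍ)) = side (dg (-(σ * ℓ))) ⟨⟨σ, 1⟩, one_pos⟩ :=
        side_conj x _ _
      obtain ⟨C, hC, e⟩ := side_hp hℓ x hσ (x • (⟨⟨σ, 1⟩, one_pos⟩ : ℍ))
      obtain ⟨C', hC', e'⟩ := side_hp hℓ 1 hσ (⟨⟨σ, 1⟩, one_pos⟩ : ℍ)
      have h7 : hp ℓ 1 σ = dg (-(σ * ℓ)) := by unfold hp; simp
      rw [h7, Qf_one] at e'
      have hre : (⟨⟨σ, 1⟩, one_pos⟩ : ℍ).re = σ := rfl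
      have hsq : σ * σ = 1 := by rcases hσ with rfl | rfl <;> norm_num
      rw [hre, hsq, one_mul] at e'
      rw [h6, e'] at e
      have h8 : 0 < σ * Qf x (x • (⟨⟨σ, 1⟩, one_pos⟩ : ℍ)) := by
        rw [← mul_pos_iff_of_pos_right hC, ← e]; exact hC'
      have h9 := hpos _ h8
      have h10 := F1 _ h8
      linarith
    · -- {s x > 0} is nonempty
      have h9 := hneg (⟨⟨s, 1⟩, one_pos⟩ : ℍ)
      have h10 := F2 (⟨⟨s, 1⟩, one_pos⟩ : ℍ)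
      have hre : (⟨⟨s, 1⟩, one_pos⟩ : ℍ).re = s := rfl
      have hsq : s * s = 1 := by rcases hs with rfl | rfl <;> norm_num
      rw [hre] at h9 h10
      have h11 := h9 (by rw [neg_mul, hsq]; norm_num)
      have h12 := h10 (by rw [mul_neg_one, neg_mul, hsq]; norm_num)
      linarith

lemma dirA_aux {ℓ : ℝ} (hℓ : 0 < ℓ) {b k : SL(2, ℝ)}
    (hpos : 0 < (k * b * k⁻¹) 0 1 * (k * b * k⁻¹) 1 0) :
    ∃ s : ℝ, (s = 1 ∨ s = -1) ∧ sle (b * hp ℓ k⁻¹ s * b⁻¹) (hp ℓ k⁻¹ s) ∧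
      b * hp ℓ k⁻¹ s * b⁻¹ ≠ hp ℓ k⁻¹ s := by
  obtain ⟨x, hx⟩ : ∃ x, x = k * b * k⁻¹ := ⟨_, rfl⟩
  rw [← hx] at hpos
  obtain ⟨s, τ, hs, hτ, hτ1, F1, F2, F3⟩ := nondiag (Or.inl hpos)
  have hτ' : τ = 1 := hτ1.2 hpos
  subst hτ'
  have hle : sle (hp ℓ x s) (hp ℓ 1 s) := by
    apply sle_hp hℓ hs hs
    · intro z hz
      have := F1 z hz
      rwa [mul_one, ← Qf_one] at this
    · intro z hz
      rw [Qf_one] at hz
      exact F2 z (by rwa [mul_one])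
  have hne : hp ℓ x s ≠ hp ℓ 1 s := by
    intro heq
    obtain ⟨C, hC, e⟩ := side_hp hℓ x hs UpperHalfPlane.I
    obtain ⟨C', hC', e'⟩ := side_hp hℓ 1 hs UpperHalfPlane.I
    rw [Qf_one, UpperHalfPlane.I_re, mul_zero, zero_mul] at e'
    rw [heq, e'] at e
    have h3 := F3 UpperHalfPlane.I UpperHalfPlane.I_re
    have := mul_neg_of_neg_of_pos h3 hC
    linarith
  have hb : k⁻¹ * x = b * k⁻¹ := by rw [hx]; group
  refine ⟨s, hs, ?_, ?_⟩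
  · have := sle_conj k⁻¹ hle
    rw [hp_conj, hp_conj, mul_one] at this
    rw [hp_conj, ← hb]
    exact this
  · intro h1
    apply hne
    rw [hp_conj] at h1
    have h2 := congrArg (fun y => k * y * k⁻¹) h1
    simp only [hp_conj, mul_inv_cancel] at h2
    rw [← h2, hx]
    congr 1
    group

lemma nested2 {ℓ : ℝ} (hℓ : 0 < ℓ) {g g' : SL(2, ℝ)}
    (htri : ((g'⁻¹ * g) 0 1 = 0 ∧ (g'⁻¹ * g) 1 0 = 0) ∨ 0 < (g'⁻¹ * g) 0 1 * (g'⁻¹ * g) 1 0 ∨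
      (g'⁻¹ * g) 0 1 * (g'⁻¹ * g) 1 0 < -1)
    {σ σ' : ℝ} (hσ : σ = 1 ∨ σ = -1) (hσ' : σ' = 1 ∨ σ' = -1) :
    sle (hp ℓ g σ) (hp ℓ g' σ') ∨ sle (hp ℓ g' σ') (hp ℓ g σ) ∨
    sle (hp ℓ g σ) (hp ℓ g' σ')⁻¹ ∨ sle (hp ℓ g σ)⁻¹ (hp ℓ g' σ') := by
  have hn := nested1 hℓ htri hσ hσ'
  have e1 : g' * hp ℓ (g'⁻¹ * g) σ * g'⁻¹ = hp ℓ g σ := by
    rw [hp_conj, mul_inv_cancel_left]
  have e2 : g' * hp ℓ 1 σ' * g'⁻¹ = hp ℓ g' σ' := by rw [hp_conj, mul_one]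
  rcases hn with h | h | h | h
  · left
    have := sle_conj g' h
    rw [e1, e2] at this
    exact this
  · right; left
    have := sle_conj g' h
    rw [e1, e2] at this
    exact this
  · right; right; left
    have := sle_conj g' h
    rw [← hp_inv, e1] at this
    have e3 : g' * (hp ℓ 1 σ')⁻¹ * g'⁻¹ = (hp ℓ g' σ')⁻¹ := by
      rw [← e2]; group
    rw [e3] at this
    exact this
  · right; right; right
    have := sle_conj g' h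
    rw [← hp_inv, e2] at this
    have e3 : g' * (hp ℓ (g'⁻¹ * g) σ)⁻¹ * g'⁻¹ = (hp ℓ g σ)⁻¹ := by
      rw [← e1]; group
    rw [e3] at this
    exact this

lemma noinv2 {Δ : Subgroup SL(2, ℝ)} {ℓ : ℝ} (hℓ : 0 < ℓ)
    (htri : ∀ g ∈ Δ, (g 0 1 = 0 ∧ g 1 0 = 0) ∨ 0 < g 0 1 * g 1 0 ∨ g 0 1 * g 1 0 < -1)
    {h g : SL(2, ℝ)} (hh : h ∈ Δ) (hg : g ∈ Δ) {σ : ℝ} (hσ : σ = 1 ∨ σ = -1) :
    h * hp ℓ g σ * h⁻¹ ≠ (hp ℓ g σ)⁻¹ := by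
  intro h1
  rw [hp_inv, hp_conj] at h1
  have h2 := congrArg (fun y => g⁻¹ * y * g⁻¹⁻¹) h1
  simp only [hp_conj, inv_mul_cancel] at h2
  exact noinv_aux hℓ (htri _ (mul_mem (inv_mem hg) (mul_mem hh hg))) hσ h2

lemma HP_key {Δ : Subgroup SL(2, ℝ)} (hΔ : DF Δ) {ℓ : ℝ} (hℓ : 0 < ℓ)
    (hdg : dg ℓ ∈ Δ ∨ - dg ℓ ∈ Δ)
    (htri : ∀ g ∈ Δ, (g 0 1 = 0 ∧ g 1 0 = 0) ∨ 0 < g 0 1 * g 1 0 ∨ g 0 1 * g 1 0 < -1)
    (b₁ b₂ : Δ)
    (h₁ : ∀ H : HP Δ ℓ, sle (b₁.1 * H.1 * b₁.1⁻¹) H.1 → b₁.1 * H.1 * b₁.1⁻¹ = H.1)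
    (h₂ : ∀ H : HP Δ ℓ, sle (b₂.1 * H.1 * b₂.1⁻¹) H.1 → b₂.1 * H.1 * b₂.1⁻¹ = H.1)
    (h₃ : ∀ H : HP Δ ℓ, sle ((b₁ * b₂⁻¹).1 * H.1 * (b₁ * b₂⁻¹).1⁻¹) H.1 →
      (b₁ * b₂⁻¹).1 * H.1 * (b₁ * b₂⁻¹).1⁻¹ = H.1) :
    ∀ H : HP Δ ℓ, sle ((b₁ * b₂).1 * H.1 * (b₁ * b₂).1⁻¹) H.1 →
      (b₁ * b₂).1 * H.1 * (b₁ * b₂).1⁻¹ = H.1 := by
  let _ := HP.po (Δ := Δ) hℓ htri
  let _ := HP.act Δ ℓ
  have tr : ∀ (b : Δ) (H : HP Δ ℓ), (¬ b • H < H) ↔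
      (sle (b.1 * H.1 * b.1⁻¹) H.1 → b.1 * H.1 * b.1⁻¹ = H.1) := by
    intro b H
    have e : (b • H).1 = b.1 * H.1 * b.1⁻¹ := rfl
    constructor
    · intro h1 h2
      by_contra hne
      apply h1
      refine lt_of_le_of_ne h2 ?_
      intro h3
      exact hne (congrArg Subtype.val h3)
    · intro h1 h2
      exact h2.ne (Subtype.ext (h1 h2.le))
  have key := tree_lemma (P := HP Δ ℓ) (G := Δ) HP.st
    (fun H => Subtype.ext (inv_inv _))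
    (fun H K h => sle_inv h)
    (fun g H K h => sle_conj g.1 h)
    (fun g H => Subtype.ext (by
      show g.1 * H.1⁻¹ * g.1⁻¹ = (g.1 * H.1 * g.1⁻¹)⁻¹
      group))
    (by
      rintro ⟨_, g, hg, σ, hσ, rfl⟩ ⟨_, g', hg', σ', hσ', rfl⟩
      exact nested2 hℓ (htri _ (mul_mem (inv_mem hg') hg)) hσ hσ')
    (by
      rintro ⟨_, g, hg, σ, hσ, rfl⟩ ⟨_, g', hg', σ', hσ', rfl⟩
      have hf := fin_interval hΔ hℓ hdg (g₁ := g) (g₂ := g') hσ hσ'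
      refine Set.Finite.subset (hf.preimage (f := Subtype.val) Subtype.val_injective.injOn) ?_
      rintro J ⟨hJ1, hJ2⟩
      exact ⟨J.2, hJ1, hJ2⟩)
    (by
      rintro h ⟨_, g, hg, σ, hσ, rfl⟩ heq
      exact noinv2 hℓ htri h.2 hg hσ (congrArg Subtype.val heq))
    b₁ b₂
    (fun H => (tr b₁ H).2 (h₁ H))
    (fun H => (tr b₂ H).2 (h₂ H))
    (fun H => (tr (b₁ * b₂⁻¹) H).2 (h₃ H))
  exact fun H => (tr (b₁ * b₂) H).1 (key H)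



/-- If the product of two elements crosses a translate of the imaginary axis, then one of `b₁`, `b₂`,
`b₁ b₂⁻¹` does. -/
theorem crossing_of_mul (Δ : Subgroup SL(2, ℝ)) (hΔ : DF Δ) (ℓ : ℝ) (hℓ : 0 < ℓ)
    (hdg : dg ℓ ∈ Δ ∨ - dg ℓ ∈ Δ)
    (htri : ∀ g ∈ Δ, (g 0 1 = 0 ∧ g 1 0 = 0) ∨ 0 < g 0 1 * g 1 0 ∨ g 0 1 * g 1 0 < -1)
    (b₁ b₂ : SL(2, ℝ)) (hb₁ : b₁ ∈ Δ) (hb₂ : b₂ ∈ Δ)
    (hc : ∃ k ∈ Δ, 0 < (k * (b₁ * b₂) * k⁻¹) 0 1 * (k * (b₁ * b₂) * k⁻¹) 1 0) :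
    (∃ k ∈ Δ, 0 < (k * b₁ * k⁻¹) 0 1 * (k * b₁ * k⁻¹) 1 0) ∨
    (∃ k ∈ Δ, 0 < (k * b₂ * k⁻¹) 0 1 * (k * b₂ * k⁻¹) 1 0) ∨
    (∃ k ∈ Δ, 0 < (k * (b₁ * b₂⁻¹) * k⁻¹) 0 1 * (k * (b₁ * b₂⁻¹) * k⁻¹) 1 0) := by
  by_contra hcon
  push Not at hcon
  obtain ⟨c1, c2, c3⟩ := hcon
  have hB : ∀ b ∈ Δ, (∀ k ∈ Δ, (k * b * k⁻¹) 0 1 * (k * b * k⁻¹) 1 0 ≤ 0) →
      ∀ H : HP Δ ℓ, sle (b * H.1 * b⁻¹) H.1 → b * H.1 * b⁻¹ = H.1 := by
    rintro b hb hc ⟨_, k, hk, σ, hσ, rfl⟩ hle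
    by_contra hne
    obtain ⟨k', hk', hpos⟩ := dirB_aux hℓ htri hb hk hσ hle hne
    exact absurd hpos (not_lt.2 (hc k' hk'))
  have key := HP_key hΔ hℓ hdg htri ⟨b₁, hb₁⟩ ⟨b₂, hb₂⟩ (hB b₁ hb₁ c1) (hB b₂ hb₂ c2)
    (hB (b₁ * b₂⁻¹) (mul_mem hb₁ (inv_mem hb₂)) c3)
  obtain ⟨k, hk, hpos⟩ := hc
  obtain ⟨s, hs, hle, hne⟩ := dirA_aux hℓ hpos
  exact hne (key ⟨hp ℓ k⁻¹ s, k⁻¹, inv_mem hk, s, hs, rfl⟩ hle)

end Pool.Agent.LengthSpec
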