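import Pool.Agent.LengthSpec.Break
import Pool.Agent.LengthSpec.Walls

open UpperHalfPlane MeasureTheory Set
open scoped MatrixGroups Manifold ENNReal Topology

namespace Pool.Agent.LengthSpec

lemma hyp_of_cross {x : SL(2, ℝ)} (hx : 0 < x 0 1 * x 1 0) : 2 < |tr x| := by
  have hd := det_eq x
  have h1 : (2 : ℝ) ^ 2 < tr x ^ 2 := by
    rw [tr]
    nlinarith [sq_nonneg (x 0 0 - x 1 1)]
  have := (sq_lt_sq).mp h1
  simpa using this

lemma dist_I_le {y t : ℝ} (ht : 0 ≤ t) (h1 : 1 ≤ y) (h2 : y ≤ Real.exp t) (z : ℍ)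
    (hre : z.re = 0) (him : z.im = y) : dist UpperHalfPlane.I z ≤ t := by
  have hy : 0 < y := by linarith
  have h := cosh_dist_eq UpperHalfPlane.I z
  rw [hre, him] at h
  have hI1 : (UpperHalfPlane.I).re = 0 := UpperHalfPlane.I_re
  have hI2 : (UpperHalfPlane.I).im = 1 := UpperHalfPlane.I_im
  rw [hI1, hI2] at h
  have h3 : Real.cosh (dist UpperHalfPlane.I z) ≤ Real.cosh t := by
    have h4 : 2 * Real.cosh (dist UpperHalfPlane.I z) = y + y⁻¹ := by
      rw [h]; field_simp; ring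
    have h5 : 2 * Real.cosh (Real.log y) = y + y⁻¹ := by
      rw [Real.cosh_log hy]; ring
    have h6 : Real.cosh (Real.log y) ≤ Real.cosh t := by
      rw [Real.cosh_le_cosh, abs_of_nonneg (Real.log_nonneg h1), abs_of_nonneg ht]
      rw [← Real.log_exp t]
      exact Real.log_le_log hy h2
    linarith
  rw [Real.cosh_le_cosh, abs_of_nonneg dist_nonneg, abs_of_nonneg ht] at h3
  exact h3

lemma smul_dist (g : SL(2, ℝ)) (z w : ℍ) : dist (g • z) (g • w) = dist z w := by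
  exact dist_smul g z w

lemma dg_conj' {ℓ : ℝ} {γ : SL(2, ℝ)} (hγ : γ = dg ℓ ∨ γ = - dg ℓ) (k : ℤ) (x : SL(2, ℝ)) :
    γ ^ k * x * (γ ^ k)⁻¹ = dg (k * ℓ) * x * (dg (k * ℓ))⁻¹ := by
  rcases hγ with h | h
  · rw [h, dg_zpow]
  · have h1 : (-1 : SL(2, ℝ)) ^ k = 1 ∨ (-1 : SL(2, ℝ)) ^ k = -1 := by
      have h2 : (-1 : SL(2, ℝ)) * (-1) = 1 := by simp
      rcases Int.even_or_odd' k with ⟨n, hn | hn⟩
      · left
        rw [hn, zpow_mul]
        simp [zpow_two]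
      · right
        rw [hn, zpow_add, zpow_mul]
        simp [zpow_two]
    have h3 : γ = (-1) * dg ℓ := by rw [h]; simp
    have h4 : γ ^ k = (-1) ^ k * dg ℓ ^ k := by
      rw [h3, Commute.mul_zpow]
      exact (Commute.one_left _).neg_left
    rw [h4, dg_zpow]
    rcases h1 with h1 | h1 <;> rw [h1] <;> simp

lemma exists_conj_bdd {Δ : Subgroup SL(2, ℝ)} {ℓ : ℝ} (hℓ : 0 < ℓ)
    (hdg : dg ℓ ∈ Δ ∨ - dg ℓ ∈ Δ) {x : SL(2, ℝ)} (hx : x ∈ Δ) (hc : 0 < x 0 1 * x 1 0) :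
    ∃ x' ∈ Δ, 0 < x' 0 1 * x' 1 0 ∧ tr x' = tr x ∧
      dist UpperHalfPlane.I (x' • UpperHalfPlane.I) ≤ 2 * ℓ + len x := by
  obtain ⟨γ, hγΔ, hγ⟩ : ∃ γ ∈ Δ, γ = dg ℓ ∨ γ = - dg ℓ := by
    rcases hdg with h | h
    · exact ⟨_, h, Or.inl rfl⟩
    · exact ⟨_, h, Or.inr rfl⟩
  have h10 : x 1 0 ≠ 0 := by rintro h; rw [h] at hc; simp at hc
  have h01 : x 0 1 ≠ 0 := by rintro h; rw [h] at hc; simp at hc
  have hq : 0 < x 0 1 / x 1 0 := by
    have : x 0 1 / x 1 0 = (x 0 1 * x 1 0) / (x 1 0) ^ 2 := by field_simp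
    rw [this]; positivity
  set y := Real.sqrt (x 0 1 / x 1 0) with hy
  have hypos : 0 < y := Real.sqrt_pos.mpr hq
  -- choose k
  set k : ℤ := -⌊Real.log y / ℓ⌋ with hk
  have hk1 : 0 ≤ (k : ℝ) * ℓ + Real.log y := by
    have := Int.floor_le (Real.log y / ℓ)
    rw [le_div_iff₀ hℓ] at this
    rw [hk]; push_cast; linarith
  have hk2 : (k : ℝ) * ℓ + Real.log y ≤ ℓ := by
    have := (Int.lt_floor_add_one (Real.log y / ℓ)).le
    rw [div_le_iff₀ hℓ] at this
    rw [hk]; push_cast; linarith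
  set y' := Real.exp ((k : ℝ) * ℓ) * y with hy'
  have hy'2 : y' = Real.exp ((k : ℝ) * ℓ + Real.log y) := by
    rw [Real.exp_add, Real.exp_log hypos]
  have hy'pos : 0 < y' := by rw [hy'2]; exact Real.exp_pos _
  set x' := γ ^ k * x * (γ ^ k)⁻¹ with hx'
  have hx'Δ : x' ∈ Δ := Δ.mul_mem (Δ.mul_mem (Δ.zpow_mem hγΔ k) hx) (Δ.inv_mem (Δ.zpow_mem hγΔ k))
  have hx'2 : x' = dg (k * ℓ) * x * (dg (k * ℓ))⁻¹ := dg_conj' hγ k x
  obtain ⟨e1, e2, e3, e4⟩ := dg_conj_entries (k * ℓ) x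
  rw [← hx'2] at e1 e2 e3 e4
  have hee : Real.exp ((k : ℝ) * ℓ) * Real.exp (-((k : ℝ) * ℓ)) = 1 := by
    rw [← Real.exp_add]; simp
  have hprod : x' 0 1 * x' 1 0 = x 0 1 * x 1 0 := by
    rw [e2, e3]; linear_combination x 0 1 * x 1 0 * hee
  have htr : tr x' = tr x := tr_conj _ _
  refine ⟨x', hx'Δ, by rw [hprod]; exact hc, htr, ?_⟩
  let z : ℍ := ⟨⟨0, y'⟩, hy'pos⟩
  have hzre : z.re = 0 := rfl
  have hzim : z.im = y' := rfl
  have hside : side x' z = 0 := by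
    rw [side, hzre, hzim]
    have hys : y ^ 2 = x 0 1 / x 1 0 := Real.sq_sqrt hq.le
    have h2 : x' 1 0 * (0 ^ 2 + y' ^ 2) + (x' 1 1 - x' 0 0) * 0 - x' 0 1 = 0 := by
      rw [e2, e3, hy', mul_pow, hys]
      have : x 1 0 * (x 0 1 / x 1 0) = x 0 1 := by field_simp
      linear_combination (Real.exp ((k : ℝ) * ℓ) * (x 1 0 * (x 0 1 / x 1 0))) * hee +
        Real.exp ((k : ℝ) * ℓ) * this
    rw [h2]; simp
  have hhyp : 2 < |tr x'| := by rw [htr]; exact hyp_of_cross hc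
  have hdisp : dist z (x' • z) = len x := by
    have h1 := cosh_disp x' z
    have h2 := two_cosh_len (hyp_of_cross hc)
    rw [hside, htr] at h1
    apply le_antisymm
    · have h3 : Real.cosh (dist z (x' • z)) ≤ Real.cosh (len x) := by linarith
      rw [Real.cosh_le_cosh, abs_of_nonneg dist_nonneg, abs_of_nonneg (len_nonneg x)] at h3
      exact h3
    · have h3 : Real.cosh (len x) ≤ Real.cosh (dist z (x' • z)) := by linarith
      rw [Real.cosh_le_cosh, abs_of_nonneg dist_nonneg, abs_of_nonneg (len_nonneg x)] at h3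
      exact h3
  have hIz : dist UpperHalfPlane.I z ≤ ℓ := by
    apply dist_I_le hℓ.le (y := y') _ _ z hzre hzim
    · rw [hy'2]; exact Real.one_le_exp hk1
    · rw [hy'2]; exact Real.exp_le_exp.mpr hk2
  calc dist UpperHalfPlane.I (x' • UpperHalfPlane.I)
      ≤ dist UpperHalfPlane.I z + dist z (x' • z) + dist (x' • z) (x' • UpperHalfPlane.I) :=
        dist_triangle4 _ _ _ _
    _ = dist UpperHalfPlane.I z + len x + dist UpperHalfPlane.I z := by
        rw [smul_dist, hdisp, dist_comm z]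
    _ ≤ 2 * ℓ + len x := by linarith

/-- A shortest element whose axis crosses the imaginary axis is a simple primitive curve. -/
theorem min_crossing (Δ : Subgroup SL(2, ℝ)) (hΔ : DF Δ) (ℓ : ℝ) (hℓ : 0 < ℓ)
    (hdg : dg ℓ ∈ Δ ∨ - dg ℓ ∈ Δ)
    (htri : ∀ g ∈ Δ, (g 0 1 = 0 ∧ g 1 0 = 0) ∨ 0 < g 0 1 * g 1 0 ∨ g 0 1 * g 1 0 < -1)
    (h : SL(2, ℝ)) (hh : h ∈ Δ) (hc : 0 < h 0 1 * h 1 0) :
    ∃ β ∈ Δ, 0 < β 0 1 * β 1 0 ∧ len β ≤ len h ∧ (∀ k ∈ Δ, ¬ link β (k * β * k⁻¹)) ∧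
      ∀ k ∈ Δ, ∀ m : ℤ, k ^ m = β → m = 1 ∨ m = -1 := by
  have hlen_le : ∀ a b : SL(2, ℝ), 2 < |tr a| → 2 < |tr b| → |tr a| ≤ |tr b| → len a ≤ len b := by
    intro a b ha hb hab
    rw [← two_cosh_half_len ha, ← two_cosh_half_len hb] at hab
    have h1 : Real.cosh (len a / 2) ≤ Real.cosh (len b / 2) := by linarith
    rw [Real.cosh_le_cosh, abs_of_nonneg (by have := len_nonneg a; linarith),
      abs_of_nonneg (by have := len_nonneg b; linarith)] at h1
    linarith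
  have hfin : {g : SL(2, ℝ) | (g ∈ Δ ∧ dist UpperHalfPlane.I (g • UpperHalfPlane.I) ≤
      2 * ℓ + len h) ∧ 0 < g 0 1 * g 1 0}.Finite :=
    (hΔ.finite UpperHalfPlane.I (2 * ℓ + len h)).subset fun g hg => hg.1
  obtain ⟨h', hh'Δ, hh'c, hh't, hh'd⟩ := exists_conj_bdd hℓ hdg hh hc
  obtain ⟨β, hβ, hβmin⟩ := Set.exists_min_image _ (fun g => |tr g|) hfin ⟨h', ⟨hh'Δ, hh'd⟩, hh'c⟩
  obtain ⟨⟨hβΔ, -⟩, hβc⟩ := hβ
  have hβhyp := hyp_of_cross hβc
  have hβh : |tr β| ≤ |tr h| := by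
    rw [← hh't]; exact hβmin h' ⟨⟨hh'Δ, hh'd⟩, hh'c⟩
  have hmin : ∀ x ∈ Δ, 0 < x 0 1 * x 1 0 → |tr β| ≤ |tr x| := by
    intro x hx hxc
    by_contra hlt
    push Not at hlt
    obtain ⟨x', hx'Δ, hx'c, hx't, hx'd⟩ := exists_conj_bdd hℓ hdg hx hxc
    have h1 : len x ≤ len h := hlen_le x h (hyp_of_cross hxc) (hyp_of_cross hc) (hlt.le.trans hβh)
    have h2 := hβmin x' ⟨⟨hx'Δ, hx'd.trans (by linarith)⟩, hx'c⟩
    simp only [hx't] at h2
    linarith
  have hmin' : ∀ x ∈ Δ, (∃ k ∈ Δ, 0 < (k * x * k⁻¹) 0 1 * (k * x * k⁻¹) 1 0) →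
      |tr β| ≤ |tr x| := by
    rintro x hx ⟨k, hk, hkc⟩
    have := hmin _ (Δ.mul_mem (Δ.mul_mem hk hx) (Δ.inv_mem hk)) hkc
    rwa [tr_conj] at this
  refine ⟨β, hβΔ, hβc, hlen_le β h hβhyp (hyp_of_cross hc) hβh, ?_, ?_⟩
  · intro k hk hl
    obtain ⟨b₁, hb₁, b₂, hb₂, hprod, ht₁, ht₂, ht₃⟩ := break_at_crossing Δ hΔ β hβΔ hβhyp k hk hl
    rcases crossing_of_mul Δ hΔ ℓ hℓ hdg htri b₁ b₂ hb₁ hb₂
      ⟨1, Δ.one_mem, by rw [hprod]; simpa using hβc⟩ with hA | hA | hA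
    · exact absurd (hmin' b₁ hb₁ hA) (not_le.mpr ht₁)
    · exact absurd (hmin' b₂ hb₂ hA) (not_le.mpr ht₂)
    · exact absurd (hmin' _ (Δ.mul_mem hb₁ (Δ.inv_mem hb₂)) hA) (not_le.mpr ht₃)
  · intro k hk m hm
    have hcomm : k * β = β * k := by
      rw [← hm]; exact ((Commute.refl k).zpow_right m).eq
    obtain ⟨p1, p2, p3, p4⟩ := mul_entries k β
    obtain ⟨q1, q2, q3, q4⟩ := mul_entries β k
    rw [hcomm] at p1 p2 p3 p4
    have r1 : k 0 1 * β 1 0 = β 0 1 * k 1 0 := by linarith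
    have r2 : k 0 0 * β 0 1 + k 0 1 * β 1 1 = β 0 0 * k 0 1 + β 0 1 * k 1 1 := by linarith
    have hβ01 : β 0 1 ≠ 0 := by rintro h0; rw [h0] at hβc; simp at hβc
    have hβ10 : β 1 0 ≠ 0 := by rintro h0; rw [h0] at hβc; simp at hβc
    have hkc : 0 < k 0 1 * k 1 0 := by
      rcases htri k hk with h1 | h1 | h1
      · exfalso
        obtain ⟨h1, h2⟩ := h1
        rw [h1] at r2
        have h3 : k 0 0 = k 1 1 := by
          have : β 0 1 * (k 0 0 - k 1 1) = 0 := by linarith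
          rcases mul_eq_zero.mp this with h | h
          · exact absurd h hβ01
          · linarith
        have hd := det_eq k
        rw [h1, h2, ← h3] at hd
        have h4 : k 0 0 = 1 ∨ k 0 0 = -1 := by
          have : (k 0 0 - 1) * (k 0 0 + 1) = 0 := by linarith
          rcases mul_eq_zero.mp this with h | h
          · left; linarith
          · right; linarith
        obtain ⟨o1, o2, o3, o4⟩ := one_entries
        rcases h4 with h4 | h4
        · have : k = 1 := ext4 (by rw [h4, o1]) (by rw [h1, o2]) (by rw [h2, o3]) (by rw [← h3, h4, o4])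
          rw [this, one_zpow] at hm
          rw [← hm, o2] at hβ01
          exact hβ01 rfl
        · have : k = -1 := ext4 (by rw [h4, neg_entries, o1]) (by rw [h1, neg_entries, o2, neg_zero])
            (by rw [h2, neg_entries, o3, neg_zero]) (by rw [← h3, h4, neg_entries, o4])
          rw [this] at hk
          exact hΔ.neg_one_notMem hk
      · exact h1
      · exfalso
        have h2 : (k 0 1 * k 1 0) * (β 0 1 * β 1 0) = (k 0 1 * β 1 0) ^ 2 := by
          linear_combination (-(k 0 1 * β 1 0)) * r1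
        nlinarith [sq_nonneg (k 0 1 * β 1 0)]
    have hkhyp := hyp_of_cross hkc
    have hle := hmin k hk hkc
    set s := len k with hs
    have hspos : 0 < s := (len_pos_iff k).mpr hkhyp
    obtain ⟨n, hn⟩ := exists_diag hkhyp
    have htrβ : |tr β| = 2 * Real.cosh (m * s / 2) := by
      have h1 : (n * k * n⁻¹) ^ m = n * β * n⁻¹ := by rw [← hm, conj_zpow]
      have h2 : tr ((n * k * n⁻¹) ^ m) = tr β := by rw [h1, tr_conj]
      rw [← h2]
      have h3 : (-1 : SL(2, ℝ)) ^ m = 1 ∨ (-1 : SL(2, ℝ)) ^ m = -1 := by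
        rcases Int.even_or_odd' m with ⟨n, hn | hn⟩
        · left
          rw [hn, zpow_mul]
          simp [zpow_two]
        · right
          rw [hn, zpow_add, zpow_mul]
          simp [zpow_two]
      have h5 : |2 * Real.cosh (m * s / 2)| = 2 * Real.cosh (m * s / 2) :=
        abs_of_pos (by have := Real.cosh_pos (m * s / 2); linarith)
      rcases hn with hn | hn
      · rw [hn, dg_zpow, tr_dg, h5]
      · have h4 : (- dg s) ^ m = (-1) ^ m * dg s ^ m := by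
          rw [← Commute.mul_zpow, neg_one_mul]
          exact (Commute.one_left _).neg_left
        rw [hn, h4, dg_zpow]
        rcases h3 with h3 | h3
        · rw [h3, one_mul, tr_dg, h5]
        · rw [h3, neg_one_mul, tr_neg, tr_dg, abs_neg, h5]
    rw [htrβ, ← two_cosh_half_len hkhyp, ← hs] at hle
    have hle2 : Real.cosh (m * s / 2) ≤ Real.cosh (s / 2) := by linarith
    rw [Real.cosh_le_cosh, abs_of_pos (by linarith : 0 < s / 2), abs_div, abs_mul,
      abs_of_pos hspos] at hle2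
    have hle3 : |(m : ℝ)| ≤ 1 := by
      have : |(m : ℝ)| * s ≤ 1 * s := by
        have h2 : |(2 : ℝ)| = 2 := by norm_num
        rw [h2] at hle2; linarith
      exact le_of_mul_le_mul_right this hspos
    have hle4 : |m| ≤ 1 := by exact_mod_cast hle3
    have hm0 : m ≠ 0 := by
      rintro rfl
      rw [zpow_zero] at hm
      rw [← hm] at hβ01
      exact hβ01 one_entries.2.1
    rw [abs_le] at hle4
    omega

end Pool.Agent.LengthSpec
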