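import Pool.Agent.LengthSpec.Marked
import Pool.Agent.LengthSpec.Sides
import Pool.Agent.LengthSpec.Short
import Pool.Agent.LengthSpec.Mn

open UpperHalfPlane MeasureTheory Set
open scoped MatrixGroups Manifold ENNReal Topology

namespace Pool.Agent.LengthSpec

private theorem ess_mp (m : SL(2, ℝ)) : MeasurePreserving (fun z : ℍ => m • z) volume volume := by
  have := measurePreserving_smul ((Matrix.SpecialLinearGroup.toGL.comp
    (Matrix.SpecialLinearGroup.map (algebraMap ℝ ℝ))) m : GL (Fin 2) ℝ) (volume : Measure ℍ)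
  exact this

/-- prove this one too -/
lemma HasArea.conj {Δ : Subgroup SL(2, ℝ)} {A : ℝ≥0∞} (h : HasArea Δ A) (m : SL(2, ℝ)) :
    HasArea (Δ.map (MulAut.conj m).toMonoidHom) A := by
  obtain ⟨D, hD, hA⟩ := h
  have hinj : Function.Injective (MulAut.conj m).toMonoidHom := (MulAut.conj m).injective
  have hf : Measure.QuasiMeasurePreserving ((MulAction.toPerm m : Equiv.Perm ℍ).symm) volume volume :=
    (ess_mp m⁻¹).quasiMeasurePreserving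
  refine ⟨(MulAction.toPerm m : Equiv.Perm ℍ) '' D, ?_, ?_⟩
  · refine hD.image_of_equiv (MulAction.toPerm m : Equiv.Perm ℍ) hf
      (Δ.equivMapOfInjective _ hinj).symm.toEquiv ?_
    intro g z
    obtain ⟨a, ha⟩ : ∃ a : Δ, (Δ.equivMapOfInjective _ hinj) a = g :=
      (Δ.equivMapOfInjective _ hinj).surjective g
    have h1 : (Δ.equivMapOfInjective _ hinj).symm.toEquiv g = a := by
      rw [← ha]
      exact (Δ.equivMapOfInjective _ hinj).symm_apply_apply a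
    have h2 : (g : SL(2, ℝ)) = m * a * m⁻¹ := by
      rw [← ha]
      rfl
    show m • ((((Δ.equivMapOfInjective _ hinj).symm.toEquiv g : Δ) : SL(2, ℝ)) • z) =
      (g : SL(2, ℝ)) • (m • z)
    rw [h1, h2, smul_smul, smul_smul]
    congr 1
    group
  · rw [Equiv.image_eq_preimage_symm]
    have := (ess_mp m⁻¹).measure_preimage hD.nullMeasurableSet
    rw [← hA, ← this]
    rfl

/-- In every marked structure of area `A` there is a short simple closed curve crossing `γ`. -/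
theorem exists_short_simple {Γ : Subgroup SL(2, ℝ)} (hΓ : IsSurfaceGroup Γ) {γ : Γ}
    (hγ : IsSimpleClosed Γ γ) {A : ℝ} (hA0 : 0 ≤ A) (hA : HasArea Γ (ENNReal.ofReal A))
    {ρ : Γ →* SL(2, ℝ)} (hρ : IsMarked Γ ρ) : ∃ β : Γ, IsSimpleClosed Γ β ∧
      link (ρ γ) (ρ β) ∧
      len (ρ β) ≤ 4 * Real.arsinh ((A + 1) / len (ρ γ)) + 2 * len (ρ γ) := by
  have hℓ : 0 < len (ρ γ) := hρ.len_pos hγ.pos
  obtain ⟨m, hm⟩ := exists_nrm hρ hγ.pos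
  obtain ⟨ℓ, hℓd⟩ : ∃ ℓ, ℓ = len (ρ γ) := ⟨_, rfl⟩
  obtain ⟨Δ, hΔd⟩ : ∃ Δ : Subgroup SL(2, ℝ), Δ = ρ.range.map (MulAut.conj m).toMonoidHom := ⟨_, rfl⟩
  have hΔ : DF Δ := by rw [hΔd]; exact hρ.surface.df.conj m
  have hmem : ∀ x, x ∈ Δ ↔ ∃ a : Γ, m * ρ a * m⁻¹ = x := by
    intro x
    rw [hΔd, Subgroup.mem_map]
    constructor
    · rintro ⟨y, ⟨a, rfl⟩, hy⟩
      exact ⟨a, hy⟩
    · rintro ⟨a, ha⟩
      exact ⟨ρ a, ⟨a, rfl⟩, ha⟩
  obtain ⟨γ', hγ'⟩ : ∃ g, g = m * ρ γ * m⁻¹ := ⟨_, rfl⟩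
  have hγ'm : γ' ∈ Δ := (hmem _).2 ⟨γ, hγ'.symm⟩
  have hγ'd : γ' = dg ℓ ∨ γ' = - dg ℓ := by rw [hγ', hℓd]; exact hm
  have hℓ' : 0 < ℓ := by rw [hℓd]; exact hℓ
  have hdg : dg ℓ ∈ Δ ∨ - dg ℓ ∈ Δ := by
    rcases hγ'd with h | h
    · left; rw [← h]; exact hγ'm
    · right; rw [← h]; exact hγ'm
  have hs : ∀ g ∈ Δ, ¬ link (dg ℓ) (g * dg ℓ * g⁻¹) := by
    intro g hg
    obtain ⟨a, rfl⟩ := (hmem g).1 hg
    have h1 := not_link_of_simple hΓ hρ hγ a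
    rw [← link_conj m] at h1
    have h2 : m * ρ (a * γ * a⁻¹) * m⁻¹ = (m * ρ a * m⁻¹) * γ' * (m * ρ a * m⁻¹)⁻¹ := by
      rw [hγ', map_mul, map_mul, map_inv]
      group
    rw [h2, ← hγ'] at h1
    rcases hγ'd with h | h
    · rw [h] at h1
      exact h1
    · rw [h, link_neg_left] at h1
      have h3 : (m * ρ a * m⁻¹) * (- dg ℓ) * (m * ρ a * m⁻¹)⁻¹ =
          -((m * ρ a * m⁻¹) * dg ℓ * (m * ρ a * m⁻¹)⁻¹) := by
        rw [mul_neg, neg_mul]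
      rw [h3, link_neg_right] at h1
      exact h1
  have htri : ∀ g ∈ Δ, (g 0 1 = 0 ∧ g 1 0 = 0) ∨ 0 < g 0 1 * g 1 0 ∨ g 0 1 * g 1 0 < -1 :=
    fun g hg => hΔ.trichotomy hℓ' hdg hs hg
  have hpow : ∀ (a : Γ) (k : ℤ), (m * ρ a * m⁻¹) ^ k = m * ρ (a ^ k) * m⁻¹ := by
    intro a k
    rw [conj_zpow, map_zpow]
  have hprim : ∀ h ∈ Δ, ∀ k : ℤ, h ^ k = γ' → k = 1 ∨ k = -1 := by
    intro h hh k hk
    obtain ⟨a, rfl⟩ := (hmem h).1 hh
    rw [hpow, hγ'] at hk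
    have h1 : ρ (a ^ k) = ρ γ := by
      have := mul_right_cancel hk
      exact mul_left_cancel this
    exact hγ.primitive a k (hρ.injective h1)
  have hgen : ∀ g ∈ Δ, g 0 1 = 0 → g 1 0 = 0 → ∃ k : ℤ, g = γ' ^ k :=
    fun g hg h01 h10 => hΔ.diag_eq_zpow hℓ' hγ'm hγ'd hprim hg h01 h10
  have hAΔ : HasArea Δ (ENNReal.ofReal A) := by rw [hΔd]; exact (hρ.area _ hA).conj m
  obtain ⟨κ, hκd⟩ : ∃ κ, κ = (A + 1) / ℓ := ⟨_, rfl⟩
  have hκ : 0 < κ := by rw [hκd]; positivity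
  have hAκ : A < κ * ℓ := by
    rw [hκd, div_mul_cancel₀ _ hℓ'.ne']
    linarith
  have hr := right_pair Δ hΔ ℓ hℓ' γ' hγ'm hγ'd hgen A hAΔ κ hκ hAκ
  have hl := left_pair Δ hΔ ℓ hℓ' γ' hγ'm hγ'd hgen A hAΔ κ hκ hAκ
  obtain ⟨h, hh, hc, hlen⟩ := short_crossing Δ ℓ hℓ' γ' hγ'm hγ'd htri κ hκ hr hl
  obtain ⟨β', hβ', hβc, hβlen, hβs, hβp⟩ := min_crossing Δ hΔ ℓ hℓ' hdg htri h hh hc
  obtain ⟨β, hβ⟩ := (hmem β').1 hβ'
  have hlenβ : len (ρ β) = len β' := by rw [← hβ, len_conj]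
  have htrβ : 2 < |tr β'| := by
    have hdet := det_eq β'
    have h1 : 4 < tr β' ^ 2 := by
      unfold tr
      nlinarith [sq_nonneg (β' 0 0 - β' 1 1)]
    by_contra hcon
    push Not at hcon
    have h2 := abs_nonneg (tr β')
    have h3 := sq_abs (tr β')
    nlinarith
  have hlenβ' : 0 < len (ρ β) := by rw [hlenβ]; exact (len_pos_iff _).2 htrβ
  have hpos : 0 < len (β : SL(2, ℝ)) := by
    refine lt_of_le_of_ne (len_nonneg _) ?_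
    intro hcon
    have := (hρ.type_preserving β).2 hcon.symm
    rw [this] at hlenβ'
    exact lt_irrefl _ hlenβ'
  refine ⟨β, ⟨hpos, ?_, ?_⟩, ?_, ?_⟩
  · intro x k hk
    apply hβp (m * ρ x * m⁻¹) ((hmem _).2 ⟨x, rfl⟩) k
    rw [hpow, hk, hβ]
  · intro x
    have hcoe : ((x * β * x⁻¹ : Γ) : SL(2, ℝ)) = (x : SL(2, ℝ)) * β * (x : SL(2, ℝ))⁻¹ := by
      simp
    have h2 : 2 < |tr (β : SL(2, ℝ))| := (len_pos_iff _).1 hpos
    have h3 : 2 < |tr ((x : SL(2, ℝ)) * β * (x : SL(2, ℝ))⁻¹)| := by rw [tr_conj]; exact h2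
    have h4 := hΓ.df.axes (g := (β : SL(2, ℝ))) (h := (x : SL(2, ℝ)) * β * (x : SL(2, ℝ))⁻¹) β.2
      (by rw [← hcoe]; exact (x * β * x⁻¹).2) h2 h3
    rw [axis_conj] at h4
    apply h4.2
    have h5 : ¬ link (ρ β) (ρ (x * β * x⁻¹)) := by
      rw [← link_conj m]
      have h6 : m * ρ (x * β * x⁻¹) * m⁻¹ = (m * ρ x * m⁻¹) * β' * (m * ρ x * m⁻¹)⁻¹ := by
        rw [← hβ, map_mul, map_mul, map_inv]
        group
      rw [h6, hβ]
      exact hβs _ ((hmem _).2 ⟨x, rfl⟩)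
    have h7 : 0 < len ((x * β * x⁻¹ : Γ) : SL(2, ℝ)) := by rw [hcoe, len_conj]; exact hpos
    rw [link_iff_of_marked hρ (IsMarked.subtype hΓ) hpos h7] at h5
    have h8 : Γ.subtype (x * β * x⁻¹) = (x : SL(2, ℝ)) * β * (x : SL(2, ℝ))⁻¹ := hcoe
    rw [h8] at h5
    exact h5
  · rw [nrm_link_iff hℓ hm β, hβ]
    exact hβc
  · rw [hlenβ, ← hℓd, ← hκd]
    exact hβlen.trans hlen

end Pool.Agent.LengthSpec
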