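import Pool.Agent.LengthSpec.Len

open UpperHalfPlane MeasureTheory Set
open scoped MatrixGroups Manifold ENNReal Topology

namespace Pool.Agent.LengthSpec

/-- position across the collar of width `κ`, clamped to `[0,1]` -/
noncomputable def ph (κ : ℝ) (z : ℍ) : ℝ := max 0 (min 1 ((z.re / (κ * z.im) + 1) / 2))

/-- the twist by `a` in the collar `|re| ≤ κ im` of the imaginary axis -/
noncomputable def tmap (κ a : ℝ) (z : ℍ) : ℍ := dg (a * ph κ z) • z

section tmap_aux

lemma tm_ph_dg (κ s : ℝ) (z : ℍ) : ph κ (dg s • z) = ph κ z := by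
  unfold ph
  obtain ⟨h1, h2⟩ := dg_re_im s z
  have he := Real.exp_pos s
  have hz := z.im_pos
  have e : (dg s • z).re / (κ * (dg s • z).im) = z.re / (κ * z.im) := by
    rw [h1, h2, show κ * (Real.exp s * z.im) = Real.exp s * (κ * z.im) by ring,
      mul_div_mul_left _ _ he.ne']
  rw [e]

lemma tm_dg_dg (s t : ℝ) (z : ℍ) : dg s • (dg t • z) = dg (s + t) • z := by
  rw [dg_add, mul_smul]

lemma tm_sinh_mul {l t : ℝ} (hl : 1 ≤ l) (ht : 0 ≤ t) :
    l * Real.sinh t ≤ Real.sinh (l * t) := by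
  have hmono : MonotoneOn (fun t => Real.sinh (l * t) - l * Real.sinh t) (Ici 0) := by
    refine monotoneOn_of_deriv_nonneg (convex_Ici 0) (by fun_prop) (by fun_prop) ?_
    intro t ht
    rw [interior_Ici] at ht
    have hd : HasDerivAt (fun t => Real.sinh (l * t) - l * Real.sinh t)
        (Real.cosh (l * t) * (l * 1) - l * Real.cosh t) t := by
      refine HasDerivAt.sub ?_ ((Real.hasDerivAt_sinh t).const_mul l)
      exact ((hasDerivAt_id t).const_mul l).sinh
    rw [hd.deriv]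
    have ht0 : 0 < t := ht
    have h1 : Real.cosh t ≤ Real.cosh (l * t) := by
      rw [Real.cosh_le_cosh, abs_of_pos ht0, abs_of_nonneg (by positivity)]
      nlinarith
    nlinarith
  have := hmono (mem_Ici.2 le_rfl) (mem_Ici.2 ht) ht
  simp at this
  linarith

lemma tm_sinh_lip {R u v : ℝ} (hu : |u| ≤ R) (hv : |v| ≤ R) :
    |Real.sinh v - Real.sinh u| ≤ Real.cosh R * |v - u| := by
  have hR : 0 ≤ R := (abs_nonneg _).trans hu
  have := (convex_Icc (-R) R).norm_image_sub_le_of_norm_deriv_le (f := Real.sinh) (𝕜 := ℝ)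
    (C := Real.cosh R) (fun x _ => Real.differentiable_sinh x) (fun x hx => ?_)
    (abs_le.1 hu) (abs_le.1 hv)
  · simpa [Real.norm_eq_abs] using this
  · rw [Real.deriv_sinh, Real.norm_eq_abs, abs_of_pos (Real.cosh_pos x), Real.cosh_le_cosh,
      abs_of_nonneg hR]
    exact abs_le.2 hx

/-- displacement of a diagonal matrix -/
lemma tm_disp (s : ℝ) (z : ℍ) :
    dist z (dg s • z) ≤ |s| * √(1 + (z.re / z.im) ^ 2) := by
  set x := z.re / z.im with hx
  set d := dist z (dg s • z) with hd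
  have hd0 : 0 ≤ d := dist_nonneg
  have h := cosh_disp (dg s) z
  rw [tr_dg, side_dg, ← hd, ← hx] at h
  have hc1 : Real.cosh d = 2 * Real.sinh (d / 2) ^ 2 + 1 := by
    have h1 := Real.cosh_two_mul (d / 2)
    rw [show 2 * (d / 2) = d by ring, Real.cosh_sq] at h1
    linarith
  have hc2 := Real.cosh_sq (s / 2)
  have hx1 : 0 ≤ 1 + x ^ 2 := by positivity
  have hsq : Real.sinh (d / 2) ^ 2 = (√(1 + x ^ 2) * Real.sinh (|s| / 2)) ^ 2 := by
    rw [mul_pow, Real.sq_sqrt hx1]
    have e : Real.sinh (|s| / 2) ^ 2 = Real.sinh (s / 2) ^ 2 := by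
      rcases abs_choice s with h0 | h0
      · rw [h0]
      · rw [h0, neg_div, Real.sinh_neg, neg_sq]
    rw [e]
    nlinarith
  have h1 : 0 ≤ Real.sinh (d / 2) := Real.sinh_nonneg_iff.2 (by positivity)
  have h2 : 0 ≤ Real.sinh (|s| / 2) := Real.sinh_nonneg_iff.2 (by positivity)
  have hl : 1 ≤ √(1 + x ^ 2) := Real.one_le_sqrt.2 (by nlinarith [sq_nonneg x])
  have h3 : Real.sinh (d / 2) = √(1 + x ^ 2) * Real.sinh (|s| / 2) :=
    (pow_left_inj₀ h1 (by positivity) two_ne_zero).1 hsq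
  have h4 := tm_sinh_mul hl (show 0 ≤ |s| / 2 by positivity)
  rw [← h3, Real.sinh_le_sinh] at h4
  linarith

lemma tm_arsinh_lip (z w : ℍ) :
    |Real.arsinh (z.re / z.im) - Real.arsinh (w.re / w.im)| ≤ dist z w := by
  have hz := z.im_pos
  have hw := w.im_pos
  have h := cosh_dist_eq z w
  set x := z.re / z.im with hx
  set y := w.re / w.im with hy
  set r := Real.arsinh x with hr
  set t := Real.arsinh y with ht
  have hxs : Real.sinh r = x := Real.sinh_arsinh x
  have hys : Real.sinh t = y := Real.sinh_arsinh y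
  have hxc := Real.cosh_sq r
  have hyc := Real.cosh_sq t
  rw [hxs] at hxc
  rw [hys] at hyc
  have key : Real.cosh (r - t) ≤ Real.cosh (dist z w) := by
    rw [Real.cosh_sub, hxs, hys]
    have e1 : ((z.re - w.re) ^ 2 + z.im ^ 2 + w.im ^ 2) / (z.im * w.im) =
        (z.im / w.im) * (x ^ 2 + 1) + (w.im / z.im) * (y ^ 2 + 1) - 2 * x * y := by
      rw [hx, hy]; field_simp; ring
    rw [e1, ← hxc, ← hyc] at h
    set p := z.im / w.im with hp
    have hp0 : 0 < p := by positivity
    have hpi : w.im / z.im = 1 / p := by rw [hp]; field_simp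
    rw [hpi] at h
    have h2 : 0 ≤ (p * Real.cosh r - Real.cosh t) ^ 2 / p := by positivity
    have h3 : (p * Real.cosh r - Real.cosh t) ^ 2 / p =
        p * Real.cosh r ^ 2 + 1 / p * Real.cosh t ^ 2 - 2 * (Real.cosh r * Real.cosh t) := by
      field_simp; ring
    rw [h3] at h2
    linarith
  rw [Real.cosh_le_cosh, abs_of_nonneg (dist_nonneg (x := z) (y := w))] at key
  exact key

lemma tm_ph_eq (κ : ℝ) (hκ : 0 < κ) (z : ℍ) :
    ph κ z = max 0 (min 1 ((z.re / z.im / κ + 1) / 2)) := by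
  unfold ph
  have hz := z.im_pos
  congr 3
  field_simp

lemma tm_ph_lip (κ : ℝ) (hκ : 0 < κ) (z w : ℍ) (h : |z.re / z.im| ≤ κ) :
    |ph κ w - ph κ z| ≤ √(1 + κ ^ 2) * dist z w / (2 * κ) := by
  set x := z.re / z.im with hx
  set y := w.re / w.im with hy
  have hd := tm_arsinh_lip z w
  rw [← hx, ← hy] at hd
  have hD : 0 ≤ dist z w := dist_nonneg
  set D := dist z w with hDdef
  set r := Real.arsinh x with hr
  set t := Real.arsinh y with ht
  set R := Real.arsinh κ with hR
  have hxs : Real.sinh r = x := Real.sinh_arsinh x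
  have hys : Real.sinh t = y := Real.sinh_arsinh y
  have hRs : Real.sinh R = κ := Real.sinh_arsinh κ
  have hRc : Real.cosh R = √(1 + κ ^ 2) := Real.cosh_arsinh κ
  have hR0 : 0 ≤ R := by rw [← Real.sinh_nonneg_iff, hRs]; exact hκ.le
  rw [abs_le] at h
  have hrR : |r| ≤ R := by
    rw [abs_le]
    exact ⟨Real.sinh_le_sinh.1 (by rw [Real.sinh_neg, hRs, hxs]; exact h.1),
      Real.sinh_le_sinh.1 (by rw [hRs, hxs]; exact h.2)⟩
  have hphz : ph κ z = (x / κ + 1) / 2 := by
    rw [tm_ph_eq κ hκ, ← hx]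
    have h1 : -1 ≤ x / κ := by rw [le_div_iff₀ hκ]; linarith [h.1]
    have h2 : x / κ ≤ 1 := by rw [div_le_iff₀ hκ]; linarith [h.2]
    rw [min_eq_right (by linarith), max_eq_right (by linarith)]
  rw [← hRc, le_div_iff₀ (by positivity)]
  rcases lt_or_ge y (-κ) with hy1 | hy1
  · -- left
    have hphw : ph κ w = 0 := by
      rw [tm_ph_eq κ hκ, ← hy]
      have h1 : y / κ ≤ -1 := by rw [div_le_iff₀ hκ]; linarith
      rw [min_eq_right (by linarith), max_eq_left (by linarith)]
    have ht : t ≤ -R := by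
      rw [← Real.sinh_le_sinh, Real.sinh_neg, hRs, hys]; exact hy1.le
    have h1 := tm_sinh_lip (R := R) (u := -R) (v := r) (by rw [abs_neg, abs_of_nonneg hR0]) hrR
    rw [Real.sinh_neg, hRs, hxs] at h1
    have h2 : |r - -R| ≤ D := by
      rw [abs_of_nonneg (by linarith [(abs_le.1 hrR).1])]
      have := (le_abs_self _).trans hd
      linarith
    rw [hphw, hphz]
    have h3 : |0 - (x / κ + 1) / 2| * (2 * κ) = |x - -κ| := by
      rw [show (0 : ℝ) - (x / κ + 1) / 2 = -((x - -κ) / (2 * κ)) by field_simp; ring, abs_neg, abs_div,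
        abs_of_pos (show (0 : ℝ) < 2 * κ by positivity)]
      field_simp
    rw [h3]
    exact h1.trans (mul_le_mul_of_nonneg_left h2 (Real.cosh_pos R).le)
  rcases lt_or_ge κ y with hy2 | hy2
  · have hphw : ph κ w = 1 := by
      rw [tm_ph_eq κ hκ, ← hy]
      have h1 : 1 ≤ y / κ := by rw [le_div_iff₀ hκ]; linarith
      rw [min_eq_left (by linarith), max_eq_right (by linarith)]
    have ht : R ≤ t := by
      rw [← Real.sinh_le_sinh, hRs, hys]; exact hy2.le
    have h1 := tm_sinh_lip (R := R) (u := r) (v := R) hrR (by rw [abs_of_nonneg hR0])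
    rw [hRs, hxs] at h1
    have h2 : |R - r| ≤ D := by
      rw [abs_of_nonneg (by linarith [(abs_le.1 hrR).2])]
      have := (neg_le_abs _).trans hd
      linarith
    rw [hphw, hphz]
    have h3 : |1 - (x / κ + 1) / 2| * (2 * κ) = |κ - x| := by
      rw [show (1 : ℝ) - (x / κ + 1) / 2 = (κ - x) / (2 * κ) by field_simp; ring, abs_div,
        abs_of_pos (show (0 : ℝ) < 2 * κ by positivity)]
      field_simp
    rw [h3]
    exact h1.trans (mul_le_mul_of_nonneg_left h2 (Real.cosh_pos R).le)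
  · have hphw : ph κ w = (y / κ + 1) / 2 := by
      rw [tm_ph_eq κ hκ, ← hy]
      have h1 : -1 ≤ y / κ := by rw [le_div_iff₀ hκ]; linarith
      have h2 : y / κ ≤ 1 := by rw [div_le_iff₀ hκ]; linarith
      rw [min_eq_right (by linarith), max_eq_right (by linarith)]
    have htR : |t| ≤ R := by
      rw [abs_le]
      exact ⟨Real.sinh_le_sinh.1 (by rw [Real.sinh_neg, hRs, hys]; exact hy1),
        Real.sinh_le_sinh.1 (by rw [hRs, hys]; exact hy2)⟩
    have h1 := tm_sinh_lip (R := R) (u := r) (v := t) hrR htR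
    rw [hys, hxs] at h1
    have h2 : |t - r| ≤ D := by rw [abs_sub_comm]; exact hd
    rw [hphw, hphz]
    have h3 : |(y / κ + 1) / 2 - (x / κ + 1) / 2| * (2 * κ) = |y - x| := by
      rw [show (y / κ + 1) / 2 - (x / κ + 1) / 2 = (y - x) / (2 * κ) by field_simp; ring, abs_div,
        abs_of_pos (show (0 : ℝ) < 2 * κ by positivity)]
      field_simp
    rw [h3]
    exact h1.trans (mul_le_mul_of_nonneg_left h2 (Real.cosh_pos R).le)

end tmap_aux

lemma continuous_tmap (κ a : ℝ) (hκ : 0 < κ) : Continuous (tmap κ a) := by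
  rw [UpperHalfPlane.isEmbedding_coe.continuous_iff]
  have e : (UpperHalfPlane.coe ∘ tmap κ a) = fun z : ℍ =>
      ((Real.exp (a * ph κ z) * z.re : ℝ) : ℂ) + ((Real.exp (a * ph κ z) * z.im : ℝ) : ℂ) * Complex.I := by
    funext z
    obtain ⟨h1, h2⟩ := dg_re_im (a * ph κ z) z
    simp only [Function.comp, tmap]
    generalize dg (a * ph κ z) • z = y at h1 h2 ⊢
    generalize Real.exp (a * ph κ z) = E at h1 h2 ⊢
    apply Complex.ext
    · rw [← UpperHalfPlane.coe_re] at h1
      rw [h1]; simp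
    · rw [← UpperHalfPlane.coe_im] at h2
      rw [h2]; simp
  rw [e]
  have h1 := UpperHalfPlane.continuous_re
  have h2 := UpperHalfPlane.continuous_im
  have h3 : Continuous (ph κ) := by
    unfold ph
    have : Continuous (fun z : ℍ => z.re / (κ * z.im)) :=
      h1.div (continuous_const.mul h2) (fun z => mul_ne_zero hκ.ne' z.im_ne_zero)
    fun_prop
  fun_prop

lemma tmap_ratio (κ a : ℝ) (z : ℍ) : (tmap κ a z).re / (tmap κ a z).im = z.re / z.im := by
  unfold tmap
  obtain ⟨h1, h2⟩ := dg_re_im (a * ph κ z) z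
  rw [h1, h2, mul_div_mul_left _ _ (Real.exp_pos _).ne']

lemma tmap_tmap (κ a b : ℝ) (z : ℍ) : tmap κ a (tmap κ b z) = tmap κ (a + b) z := by
  unfold tmap
  rw [tm_ph_dg, tm_dg_dg, ← add_mul]

lemma tmap_zero (κ : ℝ) (z : ℍ) : tmap κ 0 z = z := by
  unfold tmap
  rw [zero_mul, dg_zero, one_smul]

lemma tmap_dg (κ a s : ℝ) (z : ℍ) : tmap κ a (dg s • z) = dg s • tmap κ a z := by
  unfold tmap
  rw [tm_ph_dg, tm_dg_dg, tm_dg_dg, add_comm]

lemma tmap_left (κ a : ℝ) (hκ : 0 < κ) (z : ℍ) (h : z.re ≤ -(κ * z.im)) : tmap κ a z = z := by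
  have hz := z.im_pos
  have hp : 0 < κ * z.im := by positivity
  have h0 : ph κ z = 0 := by
    unfold ph
    have h1 : z.re / (κ * z.im) ≤ -1 := by rw [div_le_iff₀ hp]; linarith
    rw [min_eq_right (by linarith), max_eq_left (by linarith)]
  unfold tmap
  rw [h0, mul_zero, dg_zero, one_smul]

lemma tmap_right (κ a : ℝ) (hκ : 0 < κ) (z : ℍ) (h : κ * z.im ≤ z.re) :
    tmap κ a z = dg a • z := by
  have hz := z.im_pos
  have hp : 0 < κ * z.im := by positivity
  have h0 : ph κ z = 1 := by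
    unfold ph
    have h1 : 1 ≤ z.re / (κ * z.im) := by rw [le_div_iff₀ hp]; linarith
    rw [min_eq_left (by linarith), max_eq_right (by linarith)]
  unfold tmap
  rw [h0, mul_one]

lemma tmap_lip (κ a : ℝ) (hκ : 0 < κ) (z w : ℍ) (h : |z.re| ≤ κ * z.im) :
    dist (tmap κ a z) (tmap κ a w) ≤ (1 + |a| * (1 + κ ^ 2) / κ) * dist z w := by
  have hz := z.im_pos
  have hx : |z.re / z.im| ≤ κ := by
    rw [abs_div, abs_of_pos hz, div_le_iff₀ hz]; exact h
  have h1 := tm_ph_lip κ hκ z w hx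
  have hD : 0 ≤ dist z w := dist_nonneg
  -- triangle inequality
  have t1 : dist (tmap κ a z) (tmap κ a w) ≤
      dist (dg (a * ph κ z) • z) (dg (a * ph κ w) • z) + dist z w := by
    unfold tmap
    refine (dist_triangle _ (dg (a * ph κ w) • z) _).trans ?_
    rw [dist_smul (dg (a * ph κ w)) z w]
  have t2 : dist (dg (a * ph κ z) • z) (dg (a * ph κ w) • z) =
      dist z (dg (a * (ph κ w - ph κ z)) • z) := by
    have e : dg (a * ph κ w) • z = dg (a * ph κ z) • (dg (a * (ph κ w - ph κ z)) • z) := by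
      rw [tm_dg_dg]; congr 2; ring
    rw [e, dist_smul]
  have t3 := tm_disp (a * (ph κ w - ph κ z)) z
  have hs1 : √(1 + (z.re / z.im) ^ 2) ≤ √(1 + κ ^ 2) := by
    apply Real.sqrt_le_sqrt
    have := sq_le_sq' (by linarith [(abs_le.1 hx).1]) (abs_le.1 hx).2
    linarith
  have hs0 : 0 ≤ √(1 + κ ^ 2) := Real.sqrt_nonneg _
  have hs2 : √(1 + κ ^ 2) * √(1 + κ ^ 2) = 1 + κ ^ 2 := Real.mul_self_sqrt (by positivity)
  rw [t2] at t1
  have t4 : |a * (ph κ w - ph κ z)| * √(1 + (z.re / z.im) ^ 2) ≤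
      |a| * (1 + κ ^ 2) / κ * dist z w := by
    rw [abs_mul]
    calc |a| * |ph κ w - ph κ z| * √(1 + (z.re / z.im) ^ 2)
        ≤ |a| * (√(1 + κ ^ 2) * dist z w / (2 * κ)) * √(1 + κ ^ 2) := by
          apply mul_le_mul _ hs1 (Real.sqrt_nonneg _) (by positivity)
          exact mul_le_mul_of_nonneg_left h1 (abs_nonneg _)
      _ = |a| * (√(1 + κ ^ 2) * √(1 + κ ^ 2)) / (2 * κ) * dist z w := by ring
      _ = |a| * (1 + κ ^ 2) / κ * dist z w * (1 / 2) := by rw [hs2]; field_simp
      _ ≤ |a| * (1 + κ ^ 2) / κ * dist z w := by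
          have : 0 ≤ |a| * (1 + κ ^ 2) / κ * dist z w := by positivity
          linarith
  have : (1 + |a| * (1 + κ ^ 2) / κ) * dist z w = dist z w + |a| * (1 + κ ^ 2) / κ * dist z w := by
    ring
  rw [this]
  linarith

end Pool.Agent.LengthSpec
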